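import Mathlib

/-!
Ergodic finitely supported measures on the circle, invariant under `x ↦ 2 x` and `x ↦ 3 x`: all the
atoms have the same mass.
-/

set_option autoImplicit false

open MeasureTheory Set

namespace Run7.h88

/-- `μ` is a probability measure, invariant and jointly ergodic under `x ↦ 2 x` and `x ↦ 3 x`, and
finitely supported. -/
structure EF (μ : Measure UnitAddCircle) : Prop where
  prob : IsProbabilityMeasure μ
  two : Measure.map (fun x : UnitAddCircle => (2 : ℕ) • x) μ = μ
  three : Measure.map (fun x : UnitAddCircle => (3 : ℕ) • x) μ = μ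
  erg : ∀ s : Set UnitAddCircle, MeasurableSet s →
    (fun x : UnitAddCircle => (2 : ℕ) • x) ⁻¹' s = s →
    (fun x : UnitAddCircle => (3 : ℕ) • x) ⁻¹' s = s → μ s = 0 ∨ μ sᶜ = 0
  fin : ∃ t : Finset UnitAddCircle, μ ((t : Set UnitAddCircle)ᶜ) = 0

/-- the atoms -/
def atoms (μ : Measure UnitAddCircle) : Set UnitAddCircle := {x | μ {x} ≠ 0}

lemma atoms_sub {μ : Measure UnitAddCircle} {t : Finset UnitAddCircle}
    (ht : μ ((t : Set UnitAddCircle)ᶜ) = 0) : atoms μ ⊆ t := by
  intro x hx
  by_contra h
  exact hx (measure_mono_null (Set.singleton_subset_iff.2 h) ht)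

lemma atoms_finite {μ : Measure UnitAddCircle} (h : EF μ) : (atoms μ).Finite := by
  obtain ⟨t, ht⟩ := h.fin
  exact t.finite_toSet.subset (atoms_sub ht)

/-- the measure is carried by its atoms -/
lemma atoms_compl {μ : Measure UnitAddCircle} (h : EF μ) : μ (atoms μ)ᶜ = 0 := by
  obtain ⟨t, ht⟩ := h.fin
  have h1 : (atoms μ)ᶜ ⊆ (t : Set UnitAddCircle)ᶜ ∪ ⋃ x ∈ (t : Set UnitAddCircle) \ atoms μ, {x} := by
    intro x hx
    by_cases hxt : x ∈ (t : Set UnitAddCircle)
    · right
      simp only [mem_iUnion, mem_singleton_iff, exists_prop]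
      exact ⟨x, ⟨hxt, hx⟩, rfl⟩
    · left
      exact hxt
  refine measure_mono_null h1 (measure_union_null ht ?_)
  rw [measure_biUnion_null_iff ((t.finite_toSet.subset sdiff_subset).countable)]
  intro x hx
  by_contra hne
  exact hx.2 hne

/-- the measure of a finite set is the sum of the masses -/
lemma real_eq_sum (μ : Measure UnitAddCircle) [IsFiniteMeasure μ] (s : Finset UnitAddCircle) :
    μ.real (s : Set UnitAddCircle) = ∑ x ∈ s, μ.real {x} := by
  rw [← sum_measureReal_singleton]

lemma smul_meas (n : ℕ) : Measurable fun x : UnitAddCircle => n • x := by fun_prop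

lemma zsmul_meas (n : ℤ) : Measurable fun x : UnitAddCircle => n • x := by fun_prop

/-- all the atoms have the same mass -/
theorem atoms_mass {μ : Measure UnitAddCircle} (h : EF μ) {y : UnitAddCircle} (hy : y ∈ atoms μ) :
    μ.real {y} = 1 / (atoms μ).ncard := by
  classical
  have := h.prob
  have hfin := atoms_finite h
  set A : Finset UnitAddCircle := hfin.toFinset with hA
  have hAc : μ (A : Set UnitAddCircle)ᶜ = 0 := by
    rw [hA, Finite.coe_toFinset]
    exact atoms_compl h
  have hmemA : ∀ x, x ∈ A ↔ μ {x} ≠ 0 := by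
    intro x
    rw [hA, Finite.mem_toFinset]
    rfl
  have hAne : A.Nonempty := ⟨y, (hmemA y).2 hy⟩
  obtain ⟨m, hmA, hmax⟩ := A.exists_max_image (fun x => μ.real {x}) hAne
  set M := μ.real {m} with hM
  have hpos : ∀ x, x ∈ A ↔ 0 < μ.real {x} := by
    intro x
    rw [hmemA]
    constructor
    · intro h0
      exact ENNReal.toReal_pos h0 (measure_ne_top _ _)
    · intro h0 h1
      rw [measureReal_def, h1] at h0
      simp at h0
  have hMpos : 0 < M := (hpos m).1 hmA
  -- the maps
  have hmap : ∀ r : ℕ, r = 2 ∨ r = 3 → Measure.map (fun x : UnitAddCircle => r • x) μ = μ := by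
    rintro r (rfl | rfl)
    · exact h.two
    · exact h.three
  -- mass of the preimage
  have hpre : ∀ r : ℕ, r = 2 ∨ r = 3 → ∀ z, μ.real {z} = ∑ w ∈ A.filter (fun w => r • w = z), μ.real {w} := by
    intro r hr z
    have h1 : μ.real {z} = μ.real ((fun x : UnitAddCircle => r • x) ⁻¹' {z}) := by
      conv_lhs => rw [← hmap r hr]
      rw [map_measureReal_apply (smul_meas r) (measurableSet_singleton z)]
    rw [h1, ← real_eq_sum]
    apply measureReal_congr
    have h2 : ((A.filter (fun w => r • w = z) : Finset UnitAddCircle) : Set UnitAddCircle) =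
        (fun x : UnitAddCircle => r • x) ⁻¹' {z} ∩ (A : Set UnitAddCircle) := by
      ext w
      simp [and_comm]
    rw [h2]
    have h3 : (A : Set UnitAddCircle) =ᵐ[μ] univ := by
      rw [Filter.eventuallyEq_univ, mem_ae_iff]
      exact hAc
    have h4 := (Filter.EventuallyEq.refl (ae μ) ((fun x : UnitAddCircle => r • x) ⁻¹' {z})).inter h3
    rw [inter_univ] at h4
    exact h4.symm
  set B : Finset UnitAddCircle := A.filter (fun x => μ.real {x} = M) with hB
  have hmemB : ∀ x, x ∈ B ↔ x ∈ A ∧ μ.real {x} = M := fun x => by rw [hB, Finset.mem_filter]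
  have hle : ∀ x, μ.real {x} ≤ M := by
    intro x
    by_cases hx : x ∈ A
    · exact hmax x hx
    · rw [hpos, not_lt] at hx
      exact hx.trans hMpos.le
  -- forward invariance
  have hfw : ∀ r : ℕ, r = 2 ∨ r = 3 → ∀ x ∈ B, r • x ∈ B := by
    intro r hr x hx
    rw [hmemB] at hx
    have h1 : M ≤ μ.real {r • x} := by
      rw [hpre r hr (r • x), ← hx.2]
      refine Finset.single_le_sum (f := fun w => μ.real {w}) (fun _ _ => measureReal_nonneg) ?_
      rw [Finset.mem_filter]
      exact ⟨hx.1, rfl⟩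
    have h2 : μ.real {r • x} = M := le_antisymm (hle _) h1
    rw [hmemB, hpos, h2]
    exact ⟨hMpos, rfl⟩
  -- uniqueness of the preimage
  have huniq : ∀ r : ℕ, r = 2 ∨ r = 3 → ∀ x ∈ B, ∀ w ∈ A, r • w = r • x → w = x := by
    intro r hr x hx w hw hwx
    by_contra hne
    have hx' := (hmemB x).1 hx
    have h2 := (hmemB _).1 (hfw r hr x hx)
    have h1 : μ.real {x} + μ.real {w} ≤ μ.real {r • x} := by
      rw [hpre r hr (r • x)]
      rw [← Finset.sum_pair (f := fun w => μ.real {w}) (Ne.symm hne)]
      refine Finset.sum_le_sum_of_subset_of_nonneg ?_ (fun _ _ _ => measureReal_nonneg)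
      intro v hv
      rw [Finset.mem_insert, Finset.mem_singleton] at hv
      rw [Finset.mem_filter]
      rcases hv with rfl | rfl
      · exact ⟨hx'.1, rfl⟩
      · exact ⟨hw, hwx⟩
    have h3 := (hpos w).1 hw
    rw [h2.2, hx'.2] at h1
    linarith
  -- surjectivity on `B`
  have hsurj : ∀ r : ℕ, r = 2 ∨ r = 3 → ∀ y ∈ B, ∃ x ∈ B, r • x = y := by
    intro r hr
    have hinj : InjOn (fun x : UnitAddCircle => r • x) (B : Set UnitAddCircle) := by
      intro x hx w hw hxw
      exact huniq r hr w hw x ((hmemB x).1 hx).1 hxw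
    have := Finset.surj_on_of_inj_on_of_card_le (s := B) (t := B) (fun x _ => r • x)
      (fun x hx => hfw r hr x hx) (fun x w hx hw hxw => hinj hx hw hxw) le_rfl
    intro y hy
    obtain ⟨x, hx, hxy⟩ := this y hy
    exact ⟨x, hx, hxy.symm⟩
  -- backward invariance inside `A`
  have hbw : ∀ r : ℕ, r = 2 ∨ r = 3 → ∀ w ∈ A, r • w ∈ B → w ∈ B := by
    intro r hr w hw hwB
    obtain ⟨x, hx, hxy⟩ := hsurj r hr _ hwB
    rw [huniq r hr x hx w hw hxy.symm]
    exact hx
  -- the invariant set
  set s : Set UnitAddCircle := {x | ∃ i j : ℕ, (2 ^ i * 3 ^ j) • x ∈ B} with hs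
  have hfwn : ∀ r : ℕ, r = 2 ∨ r = 3 → ∀ i : ℕ, ∀ x ∈ B, r ^ i • x ∈ B := by
    intro r hr i
    induction i with
    | zero => intro x hx; simpa using hx
    | succ i ih =>
      intro x hx
      rw [pow_succ, mul_smul]
      exact ih _ (hfw r hr x hx)
  have hAfw : ∀ r : ℕ, r = 2 ∨ r = 3 → ∀ x ∈ A, r • x ∈ A := by
    intro r hr x hx
    rw [hpos] at hx ⊢
    refine hx.trans_le ?_
    rw [hpre r hr (r • x)]
    refine Finset.single_le_sum (f := fun w => μ.real {w}) (fun _ _ => measureReal_nonneg) ?_
    rw [Finset.mem_filter]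
    exact ⟨(hpos x).2 hx, rfl⟩
  have hAfwn : ∀ r : ℕ, r = 2 ∨ r = 3 → ∀ i : ℕ, ∀ x ∈ A, r ^ i • x ∈ A := by
    intro r hr i
    induction i with
    | zero => intro x hx; simpa using hx
    | succ i ih =>
      intro x hx
      rw [pow_succ, mul_smul]
      exact ih _ (hAfw r hr x hx)
  have hbwn : ∀ r : ℕ, r = 2 ∨ r = 3 → ∀ i : ℕ, ∀ w ∈ A, r ^ i • w ∈ B → w ∈ B := by
    intro r hr i
    induction i with
    | zero => intro w _ hwB; simpa using hwB
    | succ i ih =>
      intro w hw hwB
      rw [pow_succ, mul_smul] at hwB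
      exact hbw r hr w hw (ih _ (hAfw r hr w hw) hwB)
  have hsm : MeasurableSet s := by
    have : s = ⋃ i : ℕ, ⋃ j : ℕ, (fun x : UnitAddCircle => (2 ^ i * 3 ^ j) • x) ⁻¹' (B : Set _) := by
      ext x
      simp [hs]
    rw [this]
    exact MeasurableSet.iUnion fun i => MeasurableSet.iUnion fun j =>
      smul_meas _ (Finset.measurableSet B)
  have hs2 : (fun x : UnitAddCircle => (2 : ℕ) • x) ⁻¹' s = s := by
    ext x
    simp only [mem_preimage, hs, mem_ofPred_eq]
    constructor
    · rintro ⟨i, j, hij⟩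
      refine ⟨i + 1, j, ?_⟩
      rw [smul_smul] at hij
      convert hij using 2
      ring
    · rintro ⟨i, j, hij⟩
      refine ⟨i, j, ?_⟩
      have := hfw 2 (Or.inl rfl) _ hij
      rw [smul_smul] at this ⊢
      convert this using 2
      ring
  have hs3 : (fun x : UnitAddCircle => (3 : ℕ) • x) ⁻¹' s = s := by
    ext x
    simp only [mem_preimage, hs, mem_ofPred_eq]
    constructor
    · rintro ⟨i, j, hij⟩
      refine ⟨i, j + 1, ?_⟩
      rw [smul_smul] at hij
      convert hij using 2
      ring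
    · rintro ⟨i, j, hij⟩
      refine ⟨i, j, ?_⟩
      have := hfw 3 (Or.inr rfl) _ hij
      rw [smul_smul] at this ⊢
      convert this using 2
      ring
  have hmB : m ∈ B := (hmemB m).2 ⟨hmA, rfl⟩
  have hsc : μ sᶜ = 0 := by
    rcases h.erg s hsm hs2 hs3 with h0 | h0
    · exfalso
      have hms : m ∈ s := ⟨0, 0, by simpa using hmB⟩
      exact (hmemA m).1 hmA (measure_mono_null (singleton_subset_iff.2 hms) h0)
    · exact h0
  have hAB : ∀ x ∈ A, x ∈ B := by
    intro x hx
    have hxs : x ∈ s := by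
      by_contra hxs
      exact (hmemA x).1 hx (measure_mono_null (singleton_subset_iff.2 hxs) hsc)
    obtain ⟨i, j, hij⟩ := hxs
    rw [mul_smul] at hij
    exact hbwn 3 (Or.inr rfl) j x hx (hbwn 2 (Or.inl rfl) i _ (hAfwn 3 (Or.inr rfl) j x hx) hij)
  have htot : (1 : ℝ) = A.card * M := by
    have h1 : μ.real (A : Set UnitAddCircle) = 1 := by
      have h2 : μ.real (A : Set UnitAddCircle) = μ.real univ := by
        apply measureReal_congr
        rw [Filter.eventuallyEq_univ, mem_ae_iff]
        exact hAc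
      rw [h2, probReal_univ]
    rw [← h1, real_eq_sum, Finset.sum_congr rfl fun x hx => ((hmemB x).1 (hAB x hx)).2,
      Finset.sum_const, nsmul_eq_mul]
  have hcard : (atoms μ).ncard = A.card := by
    rw [hA, Set.ncard_eq_toFinset_card _ hfin]
  rw [hcard, ((hmemB y).1 (hAB y ((hmemA y).2 hy))).2]
  have : (A.card : ℝ) ≠ 0 := by
    intro h0
    rw [h0] at htot
    simp at htot
  rw [eq_div_iff this, mul_comm]
  exact htot.symm

lemma atoms_pos {μ : Measure UnitAddCircle} (h : EF μ) : 0 < (atoms μ).ncard := by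
  have := h.prob
  rw [Set.ncard_pos (atoms_finite h)]
  by_contra hne
  rw [not_nonempty_iff_eq_empty] at hne
  have h1 := atoms_compl h
  rw [hne, compl_empty, measure_univ] at h1
  exact one_ne_zero h1

theorem atom_le {μ : Measure UnitAddCircle} (h : EF μ) (y : UnitAddCircle) :
    μ.real {y} ≤ 1 / (atoms μ).ncard := by
  by_cases hy : y ∈ atoms μ
  · exact (atoms_mass h hy).le
  · have : μ {y} = 0 := by
      by_contra hne
      exact hy hne
    rw [measureReal_def, this]
    simp

/-- images are again ergodic and finitely supported -/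
theorem EF.map {μ : Measure UnitAddCircle} (h : EF μ) (b : ℤ) :
    EF (Measure.map (fun x : UnitAddCircle => b • x) μ) := by
  classical
  have := h.prob
  have hb := zsmul_meas b
  refine ⟨Measure.isProbabilityMeasure_map hb.aemeasurable, ?_, ?_, ?_, ?_⟩
  · rw [Measure.map_map (smul_meas 2) hb]
    conv_rhs => rw [← h.two, Measure.map_map hb (smul_meas 2)]
    congr 1
    funext x
    simp only [Function.comp]
    rw [smul_comm]
  · rw [Measure.map_map (smul_meas 3) hb]
    conv_rhs => rw [← h.three, Measure.map_map hb (smul_meas 3)]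
    congr 1
    funext x
    simp only [Function.comp]
    rw [smul_comm]
  · intro s hs h2 h3
    rw [Measure.map_apply hb hs, Measure.map_apply hb hs.compl]
    refine h.erg _ (hb hs) ?_ ?_
    · conv_rhs => rw [← h2]
      ext x
      simp only [mem_preimage]
      rw [smul_comm]
    · conv_rhs => rw [← h3]
      ext x
      simp only [mem_preimage]
      rw [smul_comm]
  · obtain ⟨t, ht⟩ := h.fin
    refine ⟨t.image (fun x => b • x), ?_⟩
    rw [Measure.map_apply hb (Finset.measurableSet _).compl]
    refine measure_mono_null ?_ ht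
    intro x hx hxt
    apply hx
    rw [Finset.mem_coe, Finset.mem_image]
    exact ⟨x, hxt, rfl⟩

end Run7.h88
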