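import Mathlib
import Pool.Agent.TH461.SST.Main
import Pool.Agent.R203.SC.Tors
import Pool.Agent.Run7.h88.Erg

/-!
The law of the difference of two independent points, and the mass of the points some small multiple
of which is close to zero, for measures on the circle invariant under `x ↦ 2 x` and `x ↦ 3 x`.
-/

set_option autoImplicit false

open MeasureTheory Set

namespace Run7.h88

/-- invariance under `x ↦ 2 x` and `x ↦ 3 x` -/
def Inv (μ : Measure UnitAddCircle) : Prop :=
  MeasurePreserving (fun x : UnitAddCircle => 2 • x) μ μ ∧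
    MeasurePreserving (fun x : UnitAddCircle => 3 • x) μ μ

lemma EF.inv {μ : Measure UnitAddCircle} (h : EF μ) : Inv μ :=
  ⟨⟨smul_meas 2, h.two⟩, ⟨smul_meas 3, h.three⟩⟩

theorem noMass {A ε : ℝ} (hA : 1 ≤ A) (hε : 0 < ε) : ∃ T₀ : ℝ, ∀ T : ℝ, T₀ ≤ T →
    ∀ μ : Measure UnitAddCircle, IsProbabilityMeasure μ → Inv μ → ∀ d : ℤ,
      μ.real {x | Real.exp (-(A * T)) ≤ ‖d • x‖ ∧ ‖d • x‖ ≤ Real.exp (-T)} ≤ ε := by
  have hP := Pool.Agent.R203.SC.point (p := 2) (q := 3) le_rfl (by norm_num) (by norm_num)
    (Pool.Agent.TH461.SST.Main.cluster le_rfl (by norm_num) (by norm_num))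
  obtain ⟨T₀, h⟩ := Pool.Agent.R203.SC.meas (p := 2) (q := 3) le_rfl (by norm_num) hP hA hε
  exact ⟨T₀, fun T hT μ hμ hi d => h T hT μ hμ hi.1 hi.2 d⟩

/-- the law of the difference -/
noncomputable def dif (μ : Measure UnitAddCircle) : Measure UnitAddCircle :=
  (μ.prod μ).map fun z => z.1 - z.2

lemma dif_meas : Measurable fun z : UnitAddCircle × UnitAddCircle => z.1 - z.2 := by fun_prop

lemma dif_prob {μ : Measure UnitAddCircle} [IsProbabilityMeasure μ] :
    IsProbabilityMeasure (dif μ) :=
  Measure.isProbabilityMeasure_map dif_meas.aemeasurable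

lemma dif_inv {μ : Measure UnitAddCircle} [IsProbabilityMeasure μ] (h : Inv μ) : Inv (dif μ) := by
  have key : ∀ r : ℕ, MeasurePreserving (fun x : UnitAddCircle => r • x) μ μ →
      MeasurePreserving (fun x : UnitAddCircle => r • x) (dif μ) (dif μ) := by
    intro r hr
    refine ⟨smul_meas r, ?_⟩
    have h1 := (hr.prod hr).map_eq
    unfold dif
    rw [Measure.map_map (smul_meas r) dif_meas]
    conv_rhs => rw [← h1, Measure.map_map dif_meas (hr.prod hr).measurable]
    congr 1
    funext z
    simp [Prod.map, smul_sub]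
  exact ⟨key 2 h.1, key 3 h.2⟩

lemma fourier_int {μ : Measure UnitAddCircle} [IsFiniteMeasure μ] (n : ℤ) :
    Integrable (fun x : UnitAddCircle => (fourier n x : ℂ)) μ :=
  (by fun_prop : Continuous (fun x : UnitAddCircle => (fourier n x : ℂ))).integrable_of_hasCompactSupport
    (HasCompactSupport.of_compactSpace _)

/-- the coefficients of the law of the difference -/
lemma dif_coeff {μ : Measure UnitAddCircle} [IsProbabilityMeasure μ] (n : ℤ) :
    (∫ z, (fourier n z : ℂ) ∂(dif μ)) = ((‖∫ x, (fourier n x : ℂ) ∂μ‖ ^ 2 : ℝ) : ℂ) := by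
  unfold dif
  rw [integral_map dif_meas.aemeasurable
    (by fun_prop : Continuous (fun x : UnitAddCircle => (fourier n x : ℂ))).aestronglyMeasurable]
  have h1 : ∀ z : UnitAddCircle × UnitAddCircle, (fourier n (z.1 - z.2) : ℂ) =
      (fourier n z.1 : ℂ) * (starRingEnd ℂ) (fourier n z.2) := by
    intro z
    rw [fourier_apply, fourier_apply, fourier_apply, smul_sub, sub_eq_add_neg,
      AddCircle.toCircle_add, Circle.coe_mul, AddCircle.toCircle_neg, Circle.coe_inv_eq_conj]
  simp_rw [h1]
  rw [integral_prod_mul (fun x : UnitAddCircle => (fourier n x : ℂ))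
    (fun x : UnitAddCircle => (starRingEnd ℂ) (fourier n x))]
  rw [integral_conj, Complex.mul_conj']
  push_cast
  rfl

/-- the mass of a coset of the `D`-torsion -/
lemma coset_mass {μ : Measure UnitAddCircle} [IsProbabilityMeasure μ] {η : ℝ}
    (h : ∀ y, μ.real {y} ≤ η) {D : ℤ} (hD : D ≠ 0) (y : UnitAddCircle) :
    μ.real {x | D • x = y} ≤ |(D : ℝ)| * η := by
  classical
  have hη : 0 ≤ η := le_trans measureReal_nonneg (h 0)
  rcases Set.eq_empty_or_nonempty {x : UnitAddCircle | D • x = y} with he | ⟨x₀, hx₀⟩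
  · rw [he, measureReal_empty]
    positivity
  · set n := D.natAbs with hn
    have hnpos : 0 < n := Int.natAbs_pos.2 hD
    have hfin := AddCircle.finite_torsion (p := (1 : ℝ)) hnpos
    have hsub : {x : UnitAddCircle | D • x = y} ⊆
        ((hfin.toFinset.image fun x => x + x₀ : Finset UnitAddCircle) : Set UnitAddCircle) := by
      intro x hx
      rw [Finset.coe_image, Finite.coe_toFinset]
      refine ⟨x - x₀, ?_, by simp⟩
      have h1 : D • (x - x₀) = 0 := by
        rw [smul_sub, hx, hx₀, sub_self]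
      show n • (x - x₀) = 0
      rcases Int.natAbs_eq D with h2 | h2
      · rw [h2, natCast_zsmul] at h1
        exact h1
      · rw [h2, neg_smul, natCast_zsmul, neg_eq_zero] at h1
        exact h1
    refine (measureReal_mono hsub (measure_ne_top _ _)).trans ?_
    rw [real_eq_sum]
    refine (Finset.sum_le_card_nsmul _ _ η fun x _ => h x).trans ?_
    rw [nsmul_eq_mul]
    refine mul_le_mul_of_nonneg_right ?_ hη
    have hcard : (hfin.toFinset.image fun x => x + x₀).card ≤ n := by
      refine Finset.card_image_le.trans ?_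
      rw [← Set.ncard_eq_toFinset_card _ hfin]
      have h3 := AddCircle.card_torsion_le_of_isSMulRegular (𝕜 := ℝ) (p := (1 : ℝ)) n hnpos.ne'
        (.of_right_eq_zero_of_smul fun _ => by simp [hnpos.ne'])
      rw [← hfin.cast_ncard_eq] at h3
      exact_mod_cast h3
    calc (((hfin.toFinset.image fun x => x + x₀).card : ℕ) : ℝ) ≤ n := by exact_mod_cast hcard
      _ = |(D : ℝ)| := by rw [hn, Nat.cast_natAbs, Int.cast_abs]

end Run7.h88
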