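import Mathlib
import Pool.Agent.H469R2.NK.Vdc
import Pool.Agent.TH654.FC.Growth

/-!
A deterministic form of Weyl's inequality: if the multiples `D (b z)`, `0 < |D| ≤ D₀`, of a point `z`
of the circle are at distance at least `κ` from zero, then the exponential sums of length
`K ≥ C / κ` of the polynomials with leading coefficient `b` are small at `z`.
-/

set_option autoImplicit false

open Finset Polynomial

namespace Run7.h88

lemma fourier_sub' (a b : ℤ) (z : UnitAddCircle) :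
    (fourier (a - b) z : ℂ) = fourier a z * (starRingEnd ℂ) (fourier b z) := by
  rw [sub_eq_add_neg, fourier_add, fourier_neg]

lemma fourier_mul_nat (b : ℤ) (m : ℕ) (z : UnitAddCircle) :
    (fourier (b * m) z : ℂ) = (fourier b z : ℂ) ^ m := by
  induction m with
  | zero => simp
  | succ m ih =>
    rw [pow_succ, ← ih, ← fourier_add]
    push_cast
    ring_nf

/-- the geometric sum -/
lemma geo (b c : ℤ) (z : UnitAddCircle) (hz : b • z ≠ 0) (K : ℕ) :
    ‖∑ m ∈ range K, (fourier (b * (m : ℤ) + c) z : ℂ)‖ ≤ 1 / (2 * ‖b • z‖) := by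
  have hn : 0 < ‖b • z‖ := norm_pos_iff.2 hz
  have h4 := Pool.Agent.H261R2.FU.four_norm_le b z
  have hw : 0 < ‖(fourier b z : ℂ) - 1‖ := by linarith
  have hw1 : (fourier b z : ℂ) ≠ 1 := by
    intro h
    rw [h, sub_self, norm_zero] at hw
    exact lt_irrefl _ hw
  have h1 : ∑ m ∈ range K, (fourier (b * (m : ℤ) + c) z : ℂ) =
      (((fourier b z : ℂ) ^ K - 1) / ((fourier b z : ℂ) - 1)) * fourier c z := by
    rw [← geom_sum_eq hw1, Finset.sum_mul]
    refine Finset.sum_congr rfl fun m _ => ?_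
    rw [fourier_add, fourier_mul_nat]
  rw [h1, norm_mul, norm_div, Pool.Agent.TH654.FC.norm_fourier_eq, mul_one]
  have h2 : ‖(fourier b z : ℂ) ^ K - 1‖ ≤ 2 := by
    refine (norm_sub_le _ _).trans ?_
    rw [norm_pow, Pool.Agent.TH654.FC.norm_fourier_eq, one_pow, norm_one]
    norm_num
  rw [div_le_div_iff₀ hw (by positivity), one_mul]
  calc ‖(fourier b z : ℂ) ^ K - 1‖ * (2 * ‖b • z‖) ≤ 2 * (2 * ‖b • z‖) := by gcongr
    _ = 4 * ‖b • z‖ := by ring
    _ ≤ _ := h4

/-- the difference polynomial -/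
lemma diff_poly {k : ℕ} (Q : ℤ[X]) (hdeg : Q.natDegree = k + 2) {h : ℕ} (hh : 1 ≤ h) :
    (taylor (h : ℤ) Q - Q).natDegree = k + 1 ∧
      (taylor (h : ℤ) Q - Q).leadingCoeff = (k + 2 : ℤ) * h * Q.leadingCoeff := by
  set γ : ℤ[X] := taylor (h : ℤ) Q - Q with hγ
  have hcoef : γ.coeff (k + 1) = (k + 2 : ℤ) * h * Q.leadingCoeff := by
    rw [hγ, coeff_sub, taylor_coeff]
    have hd : (hasseDeriv (k + 1) Q).natDegree < 2 := by
      have := natDegree_hasseDeriv_le Q (k + 1)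
      omega
    rw [eval_eq_sum_range' hd, Finset.sum_range_succ, Finset.sum_range_one]
    rw [hasseDeriv_coeff, hasseDeriv_coeff, leadingCoeff, hdeg]
    rw [zero_add, Nat.choose_self, show 1 + (k + 1) = k + 1 + 1 by ring, Nat.choose_succ_self_right]
    rw [show k + 1 + 1 = k + 2 by ring]
    push_cast
    ring
  have hhi : ∀ j, k + 1 < j → γ.coeff j = 0 := by
    intro j hj
    rw [hγ, coeff_sub, taylor_coeff]
    rcases eq_or_lt_of_le (Nat.succ_le_of_lt hj) with h1 | h1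
    · have hd : (hasseDeriv j Q).natDegree < 1 := by
        have := natDegree_hasseDeriv_le Q j
        omega
      rw [eval_eq_sum_range' hd, Finset.sum_range_one, hasseDeriv_coeff]
      simp
    · rw [hasseDeriv_eq_zero_of_lt_natDegree Q j (by omega), eval_zero,
        coeff_eq_zero_of_natDegree_lt (by omega), sub_zero]
  have hlc : Q.leadingCoeff ≠ 0 := by
    intro h0
    rw [leadingCoeff_eq_zero] at h0
    rw [h0, natDegree_zero] at hdeg
    omega
  have hne : γ.coeff (k + 1) ≠ 0 := by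
    rw [hcoef]
    refine mul_ne_zero (mul_ne_zero ?_ ?_) hlc
    · exact_mod_cast (by omega : (k + 2 : ℕ) ≠ 0)
    · exact_mod_cast (by omega : h ≠ 0)
  have hdeg2 : γ.natDegree = k + 1 :=
    le_antisymm (natDegree_le_iff_coeff_eq_zero.2 fun j hj => hhi j hj)
      (le_natDegree_of_ne_zero hne)
  exact ⟨hdeg2, by rw [leadingCoeff, hdeg2, hcoef]⟩

/-- **Weyl's inequality, deterministic form.** -/
theorem weyl (r : ℕ) : ∀ ε : ℝ, 0 < ε → ∃ (D₀ : ℕ) (C : ℝ), 1 ≤ D₀ ∧ 0 < C ∧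
    ∀ κ : ℝ, 0 < κ → ∀ K : ℕ, C / κ ≤ K → ∀ z : UnitAddCircle, ∀ Q : ℤ[X], Q.natDegree = r + 1 →
      (∀ D : ℤ, D ≠ 0 → |D| ≤ D₀ → κ ≤ ‖D • (Q.leadingCoeff • z)‖) →
      ‖∑ m ∈ range K, (fourier (Q.eval (m : ℤ)) z : ℂ)‖ ≤ ε * K := by
  induction r with
  | zero =>
    intro ε hε
    refine ⟨1, 1 / (2 * ε), le_rfl, by positivity, fun κ hκ K hK z Q hdeg hD => ?_⟩
    have h1 : Q = C (Q.coeff 1) * X + C (Q.coeff 0) :=
      eq_X_add_C_of_natDegree_le_one (by omega)
    have h2 : Q.leadingCoeff = Q.coeff 1 := by rw [leadingCoeff, hdeg]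
    have h3 := hD 1 one_ne_zero (by simp)
    rw [one_smul, h2] at h3
    have hz : Q.coeff 1 • z ≠ 0 := norm_pos_iff.1 (hκ.trans_le h3)
    have h4 := geo (Q.coeff 1) (Q.coeff 0) z hz K
    have h5 : ∀ m : ℕ, Q.eval (m : ℤ) = Q.coeff 1 * (m : ℤ) + Q.coeff 0 := by
      intro m
      conv_lhs => rw [h1]
      simp
    simp_rw [h5]
    refine h4.trans ?_
    have h6 : 1 / (2 * ‖Q.coeff 1 • z‖) ≤ 1 / (2 * κ) := by gcongr
    refine h6.trans ?_
    rw [div_le_iff₀ (by positivity)]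
    rw [div_le_iff₀ hκ, div_le_iff₀ (by positivity)] at hK
    linarith
  | succ r ih =>
    intro ε hε
    obtain ⟨H, hH⟩ := exists_nat_ge (4 / ε ^ 2)
    obtain ⟨D₁, C₁, hD₁, hC₁, h1⟩ := ih (ε ^ 2 / 8) (by positivity)
    have hHpos : (0 : ℝ) < H := lt_of_lt_of_le (by positivity) hH
    have hH1 : 1 ≤ H := by exact_mod_cast hHpos
    refine ⟨D₁ * ((r + 2) * H), 2 * C₁ + 2 * H, ?_, by positivity, fun κ hκ K hK z Q hdeg hD => ?_⟩
    · exact Nat.one_le_iff_ne_zero.2 (by positivity)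
    have hκ2 : κ ≤ 1 / 2 := by
      refine (hD 1 one_ne_zero ?_).trans (Pool.Agent.TH654.FC.norm_le_half _)
      rw [abs_one]
      exact_mod_cast Nat.one_le_iff_ne_zero.2 (by positivity)
    have hK1 : 2 * C₁ / κ ≤ K := by
      refine le_trans ?_ hK
      gcongr
      linarith
    have hK2 : (2 * H : ℝ) ≤ K := by
      refine le_trans ?_ hK
      rw [le_div_iff₀ hκ]
      nlinarith
    have hKpos : (0 : ℝ) < K := lt_of_lt_of_le (by positivity) hK2
    have hv := Pool.Agent.H469R2.NK.vdcH (fun n : ℕ => (fourier (Q.eval (n : ℤ)) z : ℂ))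
      (fun n => (Pool.Agent.TH654.FC.norm_fourier_eq _ _).le) K H
    have hc : ∀ l ∈ Ico 1 H, ‖∑ n ∈ range (K - l), (fourier (Q.eval ((n + l : ℕ) : ℤ)) z : ℂ) *
        (starRingEnd ℂ) (fourier (Q.eval (n : ℤ)) z)‖ ≤ ε ^ 2 / 8 * K := by
      intro l hl
      rw [mem_Ico] at hl
      obtain ⟨hd1, hd2⟩ := diff_poly Q hdeg hl.1
      have hlK : ((K - l : ℕ) : ℝ) = K - l := by
        rw [Nat.cast_sub]
        have : (l : ℝ) ≤ K := by
          have : (l : ℝ) ≤ H := by exact_mod_cast hl.2.le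
          linarith
        exact_mod_cast this
      have hlH : (l : ℝ) ≤ H := by exact_mod_cast hl.2.le
      have h2 := h1 κ hκ (K - l) (by
        rw [hlK]
        have : C₁ / κ ≤ K / 2 := by
          rw [le_div_iff₀ (by norm_num)]
          calc C₁ / κ * 2 = 2 * C₁ / κ := by ring
            _ ≤ K := hK1
        linarith) z _ hd1 (by
        intro D hD0 hDle
        rw [hd2]
        have h3 := hD (D * ((r + 2 : ℤ) * l)) (by
          refine mul_ne_zero hD0 (mul_ne_zero ?_ ?_)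
          · exact_mod_cast (by omega : (r + 2 : ℕ) ≠ 0)
          · exact_mod_cast (by omega : l ≠ 0)) (by
          rw [abs_mul]
          have h4 : |((r + 2 : ℤ) * l)| ≤ (((r + 2) * H : ℕ) : ℤ) := by
            rw [abs_of_nonneg (by positivity)]
            push_cast
            have : (l : ℤ) ≤ H := by exact_mod_cast hl.2.le
            gcongr
          calc |D| * |((r + 2 : ℤ) * l)| ≤ (D₁ : ℤ) * (((r + 2) * H : ℕ) : ℤ) := by gcongr
            _ = _ := by push_cast; ring)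
        refine h3.trans (le_of_eq ?_)
        congr 1
        rw [smul_smul, smul_smul]
        congr 1
        ring)
      have h5 : ∀ n : ℕ, (fourier (Q.eval ((n + l : ℕ) : ℤ)) z : ℂ) *
          (starRingEnd ℂ) (fourier (Q.eval (n : ℤ)) z) =
          fourier ((taylor (l : ℤ) Q - Q).eval (n : ℤ)) z := by
        intro n
        rw [← fourier_sub', eval_sub, taylor_eval]
        push_cast
        rfl
      simp_rw [h5]
      refine h2.trans ?_
      rw [hlK]
      have : 0 ≤ ε ^ 2 / 8 := by positivity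
      have hl0 : (0 : ℝ) ≤ l := Nat.cast_nonneg _
      nlinarith
    have hsum : ∑ l ∈ Ico 1 H, ‖∑ n ∈ range (K - l), (fourier (Q.eval ((n + l : ℕ) : ℤ)) z : ℂ) *
        (starRingEnd ℂ) (fourier (Q.eval (n : ℤ)) z)‖ ≤ H * (ε ^ 2 / 8 * K) := by
      refine (Finset.sum_le_sum hc).trans ?_
      rw [Finset.sum_const, nsmul_eq_mul, Nat.card_Ico]
      have : ((H - 1 : ℕ) : ℝ) ≤ H := by exact_mod_cast Nat.sub_le _ _
      gcongr
    set S : ℝ := ‖∑ m ∈ range K, (fourier (Q.eval (m : ℤ)) z : ℂ)‖ with hS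
    have h6 : (H : ℝ) * S ^ 2 ≤ (K + H) * (K + 2 * (H * (ε ^ 2 / 8 * K))) := by
      refine hv.trans ?_
      gcongr
    have h7 : (H : ℝ) * S ^ 2 ≤ H * (ε * K) ^ 2 := by
      have h8 : (K + H : ℝ) ≤ 3 / 2 * K := by linarith
      have h9 : (4 : ℝ) ≤ H * ε ^ 2 := by
        rw [div_le_iff₀ (by positivity)] at hH
        exact hH
      calc (H : ℝ) * S ^ 2 ≤ (K + H) * (K + 2 * (H * (ε ^ 2 / 8 * K))) := h6
        _ ≤ (3 / 2 * K) * (K + 2 * (H * (ε ^ 2 / 8 * K))) := by gcongr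
        _ = K ^ 2 * (3 / 2 * (1 + H * ε ^ 2 / 4)) := by ring
        _ ≤ K ^ 2 * (H * ε ^ 2) := by
            apply mul_le_mul_of_nonneg_left _ (by positivity)
            linarith
        _ = H * (ε * K) ^ 2 := by ring
    have h10 : S ^ 2 ≤ (ε * K) ^ 2 := le_of_mul_le_mul_left h7 hHpos
    exact le_of_sq_le_sq h10 (by positivity)

end Run7.h88
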