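import Mathlib
import Pool.Agent.Run7.h88.Base
import Pool.Agent.Run7.h88.Weyl

/-!
The mean square of the Fourier coefficients of an invariant measure carried by points of order
dividing `N` along the values of a polynomial, over intervals of length `N ^ δ`.
-/

set_option autoImplicit false

open MeasureTheory Set Polynomial

namespace Run7.h88

/-- the points some small multiple of which is close to zero -/
def nearSet (D₀ : ℕ) (b : ℤ) (κ : ℝ) : Set UnitAddCircle :=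
  {z | ∃ D : ℤ, D ≠ 0 ∧ |D| ≤ D₀ ∧ ‖D • (b • z)‖ < κ}

lemma nearSet_eq (D₀ : ℕ) (b : ℤ) (κ : ℝ) : nearSet D₀ b κ =
    ⋃ D ∈ ((Finset.Icc (-(D₀ : ℤ)) D₀).filter (· ≠ 0) : Set ℤ), {z | ‖D • (b • z)‖ < κ} := by
  ext z
  simp only [nearSet, mem_ofPred_eq, mem_iUnion, Finset.coe_filter, Finset.mem_Icc, abs_le,
    exists_prop]
  constructor
  · rintro ⟨D, h0, h1, h2⟩
    exact ⟨D, ⟨h1, h0⟩, h2⟩
  · rintro ⟨D, ⟨h1, h0⟩, h2⟩
    exact ⟨D, h0, h1, h2⟩

lemma meas_lt (D b : ℤ) (κ : ℝ) : MeasurableSet {z : UnitAddCircle | ‖D • (b • z)‖ < κ} :=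
  (isOpen_lt (by fun_prop) continuous_const).measurableSet

lemma nearSet_meas (D₀ : ℕ) (b : ℤ) (κ : ℝ) : MeasurableSet (nearSet D₀ b κ) := by
  rw [nearSet_eq]
  exact MeasurableSet.biUnion (Finset.countable_toSet _) fun D _ => meas_lt D b κ

/-- few points have a small multiple close to zero -/
theorem far {δ ε : ℝ} (hδ : 0 < δ) (hε : 0 < ε) (D₀ : ℕ) : ∃ N₀ : ℕ, ∀ N : ℕ, N₀ ≤ N →
    ∀ ν : Measure UnitAddCircle, IsProbabilityMeasure ν → Inv ν → (∀ᵐ z ∂ν, N • z = 0) → ∀ b : ℤ,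
    ∀ θ : ℝ, 0 ≤ θ → (∀ D : ℤ, D ≠ 0 → |D| ≤ D₀ → ν.real {z | D • (b • z) = 0} ≤ θ) →
      ν.real (nearSet D₀ b ((N : ℝ) ^ (-δ))) ≤ ε + (2 * D₀ + 1) * θ := by
  classical
  set F : Finset ℤ := (Finset.Icc (-(D₀ : ℤ)) D₀).filter (· ≠ 0) with hF
  have hFc : (F.card : ℝ) ≤ 2 * D₀ + 1 := by
    have h1 : F.card ≤ (Finset.Icc (-(D₀ : ℤ)) D₀).card := Finset.card_filter_le _ _
    rw [Int.card_Icc] at h1
    have h2 : ((D₀ : ℤ) + 1 - -(D₀ : ℤ)).toNat = 2 * D₀ + 1 := by omega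
    rw [h2] at h1
    exact_mod_cast h1
  obtain ⟨T₀, hT⟩ := noMass (A := max 1 (1 / δ)) (ε := ε / (2 * D₀ + 1)) (le_max_left _ _)
    (by positivity)
  obtain ⟨N₀, hN₀⟩ := exists_nat_ge (Real.exp (T₀ / δ))
  refine ⟨N₀ + 1, fun N hN ν hν hi htor b θ hθ0 hθ => ?_⟩
  have hN1 : 1 ≤ N := by omega
  have hNR : (1 : ℝ) ≤ N := by exact_mod_cast hN1
  have hNpos : (0 : ℝ) < N := by linarith
  have hlog : 0 ≤ Real.log N := Real.log_nonneg hNR
  set T := δ * Real.log N with hTdef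
  have hTT : T₀ ≤ T := by
    have h1 : Real.exp (T₀ / δ) ≤ N := hN₀.trans (by exact_mod_cast (by omega : N₀ ≤ N))
    have h2 : T₀ / δ ≤ Real.log N := by
      rw [Real.le_log_iff_exp_le hNpos]
      exact h1
    rw [div_le_iff₀ hδ] at h2
    rw [hTdef]
    linarith
  have hexp : (N : ℝ) ^ (-δ) = Real.exp (-T) := by
    rw [Real.rpow_def_of_pos hNpos, hTdef]
    congr 1
    ring
  have hexp2 : Real.exp (-(max 1 (1 / δ) * T)) ≤ 1 / N := by
    have h1 : Real.log N ≤ max 1 (1 / δ) * T := by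
      calc Real.log N = 1 / δ * T := by rw [hTdef]; field_simp
        _ ≤ max 1 (1 / δ) * T := by
          refine mul_le_mul_of_nonneg_right (le_max_right _ _) ?_
          rw [hTdef]
          positivity
    calc Real.exp (-(max 1 (1 / δ) * T)) ≤ Real.exp (-Real.log N) := by
          apply Real.exp_le_exp.2
          linarith
      _ = 1 / N := by rw [Real.exp_neg, Real.exp_log hNpos, one_div]
  have hD : ∀ D ∈ F, ν.real {z | ‖D • (b • z)‖ < (N : ℝ) ^ (-δ)} ≤ ε / (2 * D₀ + 1) + θ := by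
    intro D hD
    rw [hF, Finset.mem_filter, Finset.mem_Icc, ← abs_le] at hD
    have h1 := hT T hTT ν hν hi (D * b)
    have h2 := hθ D hD.2 hD.1
    have h3 : ν.real {z | ‖D • (b • z)‖ < (N : ℝ) ^ (-δ)} ≤
        ν.real ({z | Real.exp (-(max 1 (1 / δ) * T)) ≤ ‖(D * b) • z‖ ∧
          ‖(D * b) • z‖ ≤ Real.exp (-T)} ∪ {z | D • (b • z) = 0}) := by
      rw [measureReal_def, measureReal_def]
      refine ENNReal.toReal_mono (measure_ne_top _ _) ?_
      refine measure_mono_ae ?_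
      filter_upwards [htor] with z hz hzmem
      change ‖D • (b • z)‖ < (N : ℝ) ^ (-δ) at hzmem
      by_cases h0 : D • (b • z) = 0
      · exact Or.inr h0
      · left
        rw [hexp] at hzmem
        show Real.exp (-(max 1 (1 / δ) * T)) ≤ ‖(D * b) • z‖ ∧ ‖(D * b) • z‖ ≤ Real.exp (-T)
        rw [mul_smul]
        refine ⟨?_, hzmem.le⟩
        refine hexp2.trans ?_
        refine Pool.Agent.R203.SC.tors_norm (by omega) ?_ h0
        rw [smul_comm, smul_comm N b z, hz, smul_zero, smul_zero]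
    refine h3.trans ((measureReal_union_le _ _).trans ?_)
    linarith
  rw [nearSet_eq]
  have h4 : ν.real (⋃ D ∈ F, {z | ‖D • (b • z)‖ < (N : ℝ) ^ (-δ)}) ≤
      ∑ D ∈ F, ν.real {z | ‖D • (b • z)‖ < (N : ℝ) ^ (-δ)} := measureReal_biUnion_finset_le _ _
  refine h4.trans ((Finset.sum_le_card_nsmul _ _ _ hD).trans ?_)
  rw [nsmul_eq_mul]
  have h5 : 0 ≤ ε / (2 * D₀ + 1) + θ := by positivity
  calc (F.card : ℝ) * (ε / (2 * D₀ + 1) + θ) ≤ (2 * D₀ + 1) * (ε / (2 * D₀ + 1) + θ) := by gcongr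
    _ = ε + (2 * D₀ + 1) * θ := by field_simp

/-- the mass of the points killed by `D b` under the law of the difference -/
lemma dif_ker {μ : Measure UnitAddCircle} [IsProbabilityMeasure μ] {b : ℤ} {η : ℝ}
    (h : ∀ y, μ.real {x | b • x = y} ≤ η) {D : ℤ} (hD : D ≠ 0) :
    (dif μ).real {z | D • (b • z) = 0} ≤ |(D : ℝ)| * η := by
  have hη : 0 ≤ η := le_trans measureReal_nonneg (h 0)
  have hb := zsmul_meas b
  have hpb : IsProbabilityMeasure (Measure.map (fun x : UnitAddCircle => b • x) μ) :=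
    Measure.isProbabilityMeasure_map hb.aemeasurable
  have hat : ∀ y, (Measure.map (fun x : UnitAddCircle => b • x) μ).real {y} ≤ η := by
    intro y
    rw [map_measureReal_apply hb (measurableSet_singleton y)]
    exact h y
  have hS : MeasurableSet {z : UnitAddCircle | D • (b • z) = 0} :=
    ((zsmul_meas D).comp hb) (measurableSet_singleton 0)
  have hc : ∀ y : UnitAddCircle, μ {x | D • (b • (x - y)) = 0} ≤ ENNReal.ofReal (|(D : ℝ)| * η) := by
    intro y
    have h1 := coset_mass hat hD (D • (b • y))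
    have hm : MeasurableSet {x : UnitAddCircle | D • x = D • (b • y)} :=
      (zsmul_meas D) (measurableSet_singleton _)
    rw [map_measureReal_apply hb hm] at h1
    have h2 : {x : UnitAddCircle | D • (b • (x - y)) = 0} =
        (fun x : UnitAddCircle => b • x) ⁻¹' {x | D • x = D • (b • y)} := by
      ext x
      simp only [mem_ofPred_eq, mem_preimage]
      rw [smul_sub, smul_sub, sub_eq_zero]
    rw [h2, ← ENNReal.ofReal_toReal (measure_ne_top μ _)]
    exact ENNReal.ofReal_le_ofReal h1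
  unfold dif
  rw [map_measureReal_apply dif_meas hS, measureReal_def]
  refine ENNReal.toReal_le_of_le_ofReal (by positivity) ?_
  rw [Measure.prod_apply_symm (dif_meas hS)]
  calc ∫⁻ y, μ ((fun x => (x, y)) ⁻¹' ((fun z : UnitAddCircle × UnitAddCircle => z.1 - z.2) ⁻¹'
        {z | D • (b • z) = 0})) ∂μ ≤ ∫⁻ _, ENNReal.ofReal (|(D : ℝ)| * η) ∂μ := by
        refine lintegral_mono fun y => ?_
        exact hc y
    _ = ENNReal.ofReal (|(D : ℝ)| * η) := by simp

/-- a measure on the points of order dividing `N` has an atom of mass at least `1 / N` -/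
lemma one_le_of_atoms {μ : Measure UnitAddCircle} [IsProbabilityMeasure μ] {N : ℕ} (hN : 1 ≤ N)
    (htor : ∀ᵐ x ∂μ, N • x = 0) {b : ℤ} {η : ℝ} (h : ∀ y, μ.real {x | b • x = y} ≤ η) :
    1 ≤ N * η := by
  classical
  have hη : 0 ≤ η := le_trans measureReal_nonneg (h 0)
  have hb := zsmul_meas b
  have hpb : IsProbabilityMeasure (Measure.map (fun x : UnitAddCircle => b • x) μ) :=
    Measure.isProbabilityMeasure_map hb.aemeasurable
  have hat : ∀ y, (Measure.map (fun x : UnitAddCircle => b • x) μ).real {y} ≤ η := by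
    intro y
    rw [map_measureReal_apply hb (measurableSet_singleton y)]
    exact h y
  have h1 := coset_mass hat (D := (N : ℤ)) (by exact_mod_cast (by omega : N ≠ 0)) 0
  have hm : MeasurableSet {x : UnitAddCircle | (N : ℤ) • x = 0} :=
    (zsmul_meas (N : ℤ)) (measurableSet_singleton _)
  rw [map_measureReal_apply hb hm] at h1
  have h2 : μ.real ((fun x : UnitAddCircle => b • x) ⁻¹' {x | (N : ℤ) • x = 0}) = 1 := by
    have h3 : μ.real ((fun x : UnitAddCircle => b • x) ⁻¹' {x | (N : ℤ) • x = 0}) = μ.real univ := by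
      apply measureReal_congr
      rw [Filter.eventuallyEq_univ]
      filter_upwards [htor] with x hx
      show (N : ℤ) • (b • x) = 0
      rw [natCast_zsmul, smul_comm, hx, smul_zero]
    rw [h3, probReal_univ]
  rw [h2] at h1
  simpa using h1

lemma cont_fourier (n : ℤ) : Continuous (fun x : UnitAddCircle => (fourier n x : ℂ)) := by
  fun_prop

lemma norm_coeff_le {μ : Measure UnitAddCircle} [IsProbabilityMeasure μ] (n : ℤ) :
    ‖∫ x, (fourier n x : ℂ) ∂μ‖ ≤ 1 := by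
  refine (norm_integral_le_integral_norm _).trans ?_
  simp_rw [Pool.Agent.TH654.FC.norm_fourier_eq]
  simp

/-- **The mean square of the coefficients along a polynomial.** -/
theorem core (r : ℕ) {δ ε : ℝ} (hδ : 0 < δ) (hε : 0 < ε) : ∃ η : ℝ, 0 < η ∧
    ∀ μ : Measure UnitAddCircle, IsProbabilityMeasure μ → Inv μ → ∀ N : ℕ, 1 ≤ N →
    (∀ᵐ x ∂μ, N • x = 0) → ∀ Q : ℤ[X], Q.natDegree = r + 1 →
    (∀ y, μ.real {x | Q.leadingCoeff • x = y} ≤ η) → ∀ K : ℕ, (N : ℝ) ^ δ ≤ K →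
      ∑ m ∈ Finset.range K, ‖∫ x, (fourier (Q.eval (m : ℤ)) x : ℂ) ∂μ‖ ^ 2 ≤ ε * K := by
  classical
  obtain ⟨D₀, C, hD₀, hC, hW⟩ := weyl r (ε / 2) (by positivity)
  obtain ⟨N₁, hfar⟩ := far (δ := δ / 2) (ε := ε / 4) (by positivity) (by positivity) D₀
  obtain ⟨N₂, hN₂⟩ := exists_nat_ge (C ^ (2 / δ))
  set θ : ℝ := ε / (4 * (2 * D₀ + 1)) with hθ
  have hθ0 : 0 < θ := by positivity
  refine ⟨min (θ / D₀) (1 / (N₁ + N₂ + 1)), by positivity,
    fun μ hμ hi N hN1 htor Q hdeg hat K hK => ?_⟩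
  have hηpos : 0 < min (θ / D₀) (1 / ((N₁ : ℝ) + N₂ + 1)) := by positivity
  have hNη := one_le_of_atoms hN1 htor hat
  have hNR : (1 : ℝ) ≤ N := by exact_mod_cast hN1
  have hNpos : (0 : ℝ) < N := by linarith
  have hNbig : (N₁ : ℝ) + N₂ + 1 ≤ N := by
    have h1 : (1 : ℝ) ≤ N * (1 / ((N₁ : ℝ) + N₂ + 1)) :=
      hNη.trans (mul_le_mul_of_nonneg_left (min_le_right _ _) hNpos.le)
    rw [mul_one_div, le_div_iff₀ (by positivity)] at h1
    linarith
  have hN1' : N₁ ≤ N := by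
    have : (N₁ : ℝ) ≤ N := by
      have : (0 : ℝ) ≤ N₂ := Nat.cast_nonneg _
      linarith
    exact_mod_cast this
  have hνp : IsProbabilityMeasure (dif μ) := dif_prob
  have hνi : Inv (dif μ) := dif_inv hi
  have hνt : ∀ᵐ z ∂(dif μ), N • z = 0 := by
    unfold dif
    have hm : MeasurableSet {x : UnitAddCircle | N • x = 0} :=
      (smul_meas N) (measurableSet_singleton _)
    rw [ae_map_iff dif_meas.aemeasurable hm]
    have h1 : ∀ᵐ z ∂(μ.prod μ), N • z.1 = 0 := by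
      have := (Measure.quasiMeasurePreserving_fst (μ := μ) (ν := μ)).ae htor
      exact this
    have h2 : ∀ᵐ z ∂(μ.prod μ), N • z.2 = 0 := by
      have := (Measure.quasiMeasurePreserving_snd (μ := μ) (ν := μ)).ae htor
      exact this
    filter_upwards [h1, h2] with z h3 h4
    rw [smul_sub, h3, h4, sub_zero]
  have hbad := hfar N hN1' (dif μ) hνp hνi hνt Q.leadingCoeff θ hθ0.le (by
    intro D hD hDle
    refine (dif_ker hat hD).trans ?_
    have h1 : |(D : ℝ)| ≤ D₀ := by exact_mod_cast hDle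
    have hD₀R : (1 : ℝ) ≤ D₀ := by exact_mod_cast hD₀
    calc |(D : ℝ)| * min (θ / D₀) (1 / ((N₁ : ℝ) + N₂ + 1)) ≤ D₀ * (θ / D₀) := by
          gcongr
          exact min_le_left _ _
      _ = θ := by field_simp)
  have hbad' : (dif μ).real (nearSet D₀ Q.leadingCoeff ((N : ℝ) ^ (-(δ / 2)))) ≤ ε / 2 := by
    refine hbad.trans (le_of_eq ?_)
    rw [hθ]
    field_simp
    ring
  -- the length
  have hKC : C / (N : ℝ) ^ (-(δ / 2)) ≤ K := by
    have h1 : C ≤ (N : ℝ) ^ (δ / 2) := by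
      have h2 : C ^ (2 / δ) ≤ N := by
        have : (0 : ℝ) ≤ N₁ := Nat.cast_nonneg _
        linarith
      calc C = (C ^ (2 / δ)) ^ (δ / 2) := by
            rw [← Real.rpow_mul hC.le]
            have : 2 / δ * (δ / 2) = 1 := by field_simp
            rw [this, Real.rpow_one]
        _ ≤ (N : ℝ) ^ (δ / 2) := Real.rpow_le_rpow (by positivity) h2 (by positivity)
    rw [Real.rpow_neg hNpos.le, div_inv_eq_mul]
    calc C * (N : ℝ) ^ (δ / 2) ≤ (N : ℝ) ^ (δ / 2) * (N : ℝ) ^ (δ / 2) := by gcongr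
      _ = (N : ℝ) ^ δ := by
          rw [← Real.rpow_add hNpos]
          congr 1
          ring
      _ ≤ K := hK
  -- the sum as an integral
  have h1 : ((∑ m ∈ Finset.range K, ‖∫ x, (fourier (Q.eval (m : ℤ)) x : ℂ) ∂μ‖ ^ 2 : ℝ) : ℂ) =
      ∫ z, ∑ m ∈ Finset.range K, (fourier (Q.eval (m : ℤ)) z : ℂ) ∂(dif μ) := by
    rw [integral_finsetSum _ (fun m _ => fourier_int _)]
    rw [Complex.ofReal_sum]
    refine Finset.sum_congr rfl fun m _ => ?_
    rw [dif_coeff]
  have h2 : ∑ m ∈ Finset.range K, ‖∫ x, (fourier (Q.eval (m : ℤ)) x : ℂ) ∂μ‖ ^ 2 ≤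
      ∫ z, ‖∑ m ∈ Finset.range K, (fourier (Q.eval (m : ℤ)) z : ℂ)‖ ∂(dif μ) := by
    have h3 : ∑ m ∈ Finset.range K, ‖∫ x, (fourier (Q.eval (m : ℤ)) x : ℂ) ∂μ‖ ^ 2 =
        ‖((∑ m ∈ Finset.range K, ‖∫ x, (fourier (Q.eval (m : ℤ)) x : ℂ) ∂μ‖ ^ 2 : ℝ) : ℂ)‖ := by
      rw [Complex.norm_real, Real.norm_of_nonneg]
      positivity
    rw [h3, h1]
    exact norm_integral_le_integral_norm _
  refine h2.trans ?_
  set E := nearSet D₀ Q.leadingCoeff ((N : ℝ) ^ (-(δ / 2))) with hE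
  have hEm : MeasurableSet E := nearSet_meas _ _ _
  have hpt : ∀ z, ‖∑ m ∈ Finset.range K, (fourier (Q.eval (m : ℤ)) z : ℂ)‖ ≤
      E.indicator (fun _ => (K : ℝ)) z + ε / 2 * K := by
    intro z
    by_cases hz : z ∈ E
    · rw [Set.indicator_of_mem hz]
      have h4 : ‖∑ m ∈ Finset.range K, (fourier (Q.eval (m : ℤ)) z : ℂ)‖ ≤ K := by
        refine (norm_sum_le _ _).trans ?_
        simp_rw [Pool.Agent.TH654.FC.norm_fourier_eq]
        simp
      have : 0 ≤ ε / 2 * K := by positivity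
      linarith
    · rw [Set.indicator_of_notMem hz, zero_add]
      refine hW _ (by positivity) K hKC z Q hdeg ?_
      intro D hD hDle
      by_contra hlt
      exact hz ⟨D, hD, hDle, not_le.1 hlt⟩
  have hint : Integrable (fun z : UnitAddCircle =>
      ‖∑ m ∈ Finset.range K, (fourier (Q.eval (m : ℤ)) z : ℂ)‖) (dif μ) :=
    (integrable_finsetSum _ (fun m _ => fourier_int _)).norm
  have hint2 : Integrable (fun z => E.indicator (fun _ => (K : ℝ)) z + ε / 2 * K) (dif μ) :=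
    ((integrable_const _).indicator hEm).add (integrable_const _)
  refine (integral_mono hint hint2 hpt).trans ?_
  rw [integral_add ((integrable_const _).indicator hEm) (integrable_const _),
    integral_indicator hEm]
  simp only [integral_const, smul_eq_mul, measureReal_restrict_apply_univ, probReal_univ, one_mul]
  have hK0 : (0 : ℝ) ≤ K := Nat.cast_nonneg _
  nlinarith [mul_le_mul_of_nonneg_right hbad' hK0]

/-- uniform version for ergodic finitely supported measures -/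
theorem core_erg (R : ℕ) {δ ε : ℝ} (hδ : 0 < δ) (hε : 0 < ε) : ∃ M : ℕ,
    ∀ μ : Measure UnitAddCircle, EF μ → ∀ N : ℕ, 1 ≤ N → (∀ x, μ {x} ≠ 0 → N • x = 0) →
    ∀ Q : ℤ[X], 1 ≤ Q.natDegree → Q.natDegree ≤ R →
    M ≤ (Set.ncard {y : UnitAddCircle | μ {x | Q.leadingCoeff • x = y} ≠ 0}) →
    ∀ K : ℕ, (N : ℝ) ^ δ ≤ K →
      ∑ m ∈ Finset.range K, ‖∫ x, (fourier (Q.eval (m : ℤ)) x : ℂ) ∂μ‖ ^ 2 ≤ ε * K := by
  classical
  choose η hη hcore using fun r : ℕ => core r hδ hε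
  obtain ⟨M, hM⟩ : ∃ M : ℕ, ∀ r ∈ Finset.range R, 1 / η r ≤ M := by
    obtain ⟨M, hM⟩ := exists_nat_ge (∑ r ∈ Finset.range R, 1 / η r)
    refine ⟨M, fun r hr => le_trans ?_ hM⟩
    exact Finset.single_le_sum (f := fun r => 1 / η r) (fun r _ => (one_div_pos.2 (hη r)).le) hr
  refine ⟨M, fun μ hμ N hN htor Q h1 h2 hcard K hK => ?_⟩
  have := hμ.prob
  obtain ⟨r, hr⟩ : ∃ r, Q.natDegree = r + 1 := ⟨Q.natDegree - 1, by omega⟩
  have hae : ∀ᵐ x ∂μ, N • x = 0 := by
    filter_upwards [mem_ae_iff.2 (atoms_compl hμ)] with x hx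
    exact htor x hx
  refine hcore r μ hμ.prob hμ.inv N hN hae Q hr ?_ K hK
  intro y
  set b := Q.leadingCoeff with hb
  have hEb := hμ.map b
  have hbm := zsmul_meas b
  have h3 := atom_le hEb y
  rw [map_measureReal_apply hbm (measurableSet_singleton y)] at h3
  have h4 : atoms (Measure.map (fun x : UnitAddCircle => b • x) μ) =
      {y : UnitAddCircle | μ {x | b • x = y} ≠ 0} := by
    ext z
    simp only [atoms, mem_ofPred_eq]
    rw [Measure.map_apply hbm (measurableSet_singleton z)]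
    rfl
  rw [h4] at h3
  refine h3.trans ?_
  have h5 : 1 / η r ≤ ((Set.ncard {y : UnitAddCircle | μ {x | b • x = y} ≠ 0} : ℕ) : ℝ) :=
    (hM r (Finset.mem_range.2 (by omega))).trans (by exact_mod_cast hcard)
  have h6 : 0 < 1 / η r := one_div_pos.2 (hη r)
  rw [div_le_iff₀ (h6.trans_le h5)]
  rw [div_le_iff₀ (hη r)] at h5
  linarith

end Run7.h88
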