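import Mathlib
import Pool.Agent.Run7.h88.Core

/-!
Joint equidistribution of the dilates `P₁(m) x, …, P_d(m) x` for almost all `m` in intervals of
length `N ^ δ`.
-/

set_option autoImplicit false

open MeasureTheory Set Polynomial Filter Topology

namespace Run7.h88

/-- averages of bounded functionals -/
lemma avg_dense {V : Type*} [NormedAddCommGroup V] [NormedSpace ℂ V] (K : ℕ → ℕ)
    (L : ℕ → ℕ → V →ₗ[ℂ] ℂ) {C : ℝ} (hC : 0 ≤ C) (hL : ∀ n m v, ‖L n m v‖ ≤ C * ‖v‖) (S : Set V)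
    (hS : (Submodule.span ℂ S).topologicalClosure = ⊤)
    (h : ∀ v ∈ S, Tendsto (fun n => (K n : ℝ)⁻¹ * ∑ m ∈ Finset.range (K n), ‖L n m v‖) atTop (𝓝 0))
    (v : V) :
    Tendsto (fun n => (K n : ℝ)⁻¹ * ∑ m ∈ Finset.range (K n), ‖L n m v‖) atTop (𝓝 0) := by
  have hnn : ∀ (n : ℕ) (w : V), 0 ≤ (K n : ℝ)⁻¹ * ∑ m ∈ Finset.range (K n), ‖L n m w‖ := by
    intro n w
    positivity
  have hspan : ∀ w ∈ Submodule.span ℂ S,
      Tendsto (fun n => (K n : ℝ)⁻¹ * ∑ m ∈ Finset.range (K n), ‖L n m w‖) atTop (𝓝 0) := by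
    intro w hw
    induction hw using Submodule.span_induction with
    | mem x hx => exact h x hx
    | zero => simp
    | add x y _ _ hx hy =>
      refine squeeze_zero (fun n => hnn n _) (fun n => ?_) (by simpa using hx.add hy)
      rw [← mul_add, ← Finset.sum_add_distrib]
      refine mul_le_mul_of_nonneg_left (Finset.sum_le_sum fun m _ => ?_) (by positivity)
      rw [map_add]
      exact norm_add_le _ _
    | smul c x _ hx =>
      have := hx.const_mul ‖c‖
      rw [mul_zero] at this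
      refine this.congr fun n => ?_
      rw [Finset.mul_sum, Finset.mul_sum, Finset.mul_sum]
      refine Finset.sum_congr rfl fun m _ => ?_
      rw [map_smul, norm_smul]
      ring
  rw [Metric.tendsto_atTop]
  intro ε hε
  have hv : v ∈ (Submodule.span ℂ S).topologicalClosure := by rw [hS]; trivial
  have hv' : v ∈ closure ((Submodule.span ℂ S : Submodule ℂ V) : Set V) := hv
  obtain ⟨w, hw, hvw⟩ := Metric.mem_closure_iff.1 hv' (ε / (2 * (C + 1))) (by positivity)
  obtain ⟨n₀, hn₀⟩ := Metric.tendsto_atTop.1 (hspan w hw) (ε / 2) (by positivity)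
  refine ⟨n₀, fun n hn => ?_⟩
  have h1 := hn₀ n hn
  rw [Real.dist_eq, sub_zero, abs_of_nonneg (hnn n _)] at h1 ⊢
  have h2 : (K n : ℝ)⁻¹ * ∑ m ∈ Finset.range (K n), ‖L n m v‖ ≤
      (K n : ℝ)⁻¹ * ∑ m ∈ Finset.range (K n), ‖L n m w‖ + C * ‖v - w‖ := by
    have h3 : ∀ m ∈ Finset.range (K n), ‖L n m v‖ ≤ ‖L n m w‖ + C * ‖v - w‖ := by
      intro m _
      have h4 : L n m v = L n m w + L n m (v - w) := by rw [← map_add]; congr 1; abel
      rw [h4]
      exact (norm_add_le _ _).trans (by linarith [hL n m (v - w)])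
    have h5 := Finset.sum_le_sum h3
    rw [Finset.sum_add_distrib, Finset.sum_const, Finset.card_range, nsmul_eq_mul] at h5
    rcases Nat.eq_zero_or_pos (K n) with h0 | h0
    · rw [h0]
      simp
      positivity
    · have hK : (0 : ℝ) < K n := by exact_mod_cast h0
      calc (K n : ℝ)⁻¹ * ∑ m ∈ Finset.range (K n), ‖L n m v‖ ≤
            (K n : ℝ)⁻¹ * (∑ m ∈ Finset.range (K n), ‖L n m w‖ + K n * (C * ‖v - w‖)) := by
              gcongr
        _ = _ := by field_simp
  have h6 : C * ‖v - w‖ ≤ ε / 2 := by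
    rw [dist_eq_norm] at hvw
    calc C * ‖v - w‖ ≤ (C + 1) * (ε / (2 * (C + 1))) := by
          gcongr
          linarith
      _ = ε / 2 := by field_simp
  linarith

/-- Cauchy–Schwarz for averages -/
lemma avg_le_sqrt (K : ℕ) (a : ℕ → ℝ) {ε : ℝ} (hε : 0 ≤ ε)
    (h : ∑ m ∈ Finset.range K, a m ^ 2 ≤ ε ^ 2 * K) : ∑ m ∈ Finset.range K, a m ≤ ε * K := by
  have h1 := sq_sum_le_card_mul_sum_sq (s := Finset.range K) (f := a)
  rw [Finset.card_range] at h1
  have h2 : (∑ m ∈ Finset.range K, a m) ^ 2 ≤ (ε * K) ^ 2 := by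
    calc (∑ m ∈ Finset.range K, a m) ^ 2 ≤ K * ∑ m ∈ Finset.range K, a m ^ 2 := h1
      _ ≤ K * (ε ^ 2 * K) := by gcongr
      _ = _ := by ring
  exact le_of_sq_le_sq h2 (by positivity)

lemma volume_eq_haar : (volume : Measure UnitAddCircle) = AddCircle.haarAddCircle := by
  rw [AddCircle.volume_eq_smul_haarAddCircle]
  simp

lemma int_fourier_volume (n : ℤ) : (∫ x : UnitAddCircle, (fourier n x : ℂ)) = if n = 0 then 1 else 0 := by
  split_ifs with h
  · subst h
    rw [volume_eq_haar]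
    simp
  · rw [volume_eq_haar]
    exact integral_eq_zero_of_add_right_eq_neg (fourier_add_half_inv_index h one_pos)

variable {d : ℕ}

instance vol_prob : IsProbabilityMeasure (volume : Measure UnitAddCircle) := by
  rw [volume_eq_haar]
  infer_instance

instance pi_prob : IsProbabilityMeasure (volume : Measure (Fin d → UnitAddCircle)) := by
  rw [volume_pi]
  infer_instance

lemma fourier_sum {ι : Type*} (s : Finset ι) (n : ι → ℤ) (x : UnitAddCircle) :
    (fourier (∑ i ∈ s, n i) x : ℂ) = ∏ i ∈ s, (fourier (n i) x : ℂ) := by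
  classical
  induction s using Finset.induction_on with
  | empty => simp
  | insert a s ha ih => rw [Finset.sum_insert ha, Finset.prod_insert ha, fourier_add, ih]

lemma fourier_smul (n k : ℤ) (x : UnitAddCircle) : (fourier n (k • x) : ℂ) = fourier (n * k) x := by
  rw [fourier_apply, fourier_apply, smul_smul]

/-- the point `(x, P₁(k) x, …, P_d(k) x)` -/
noncomputable def pt (P : Fin d → ℤ[X]) (k : ℤ) (x : UnitAddCircle) : Fin (d + 1) → UnitAddCircle :=
  Fin.cons x fun i => (P i).eval k • x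

lemma pt_cont (P : Fin d → ℤ[X]) (k : ℤ) : Continuous (pt P k) := by
  unfold pt
  refine continuous_pi fun i => ?_
  refine Fin.cases ?_ (fun i => ?_) i
  · simp only [Fin.cons_zero]
    exact continuous_id
  · simp only [Fin.cons_succ]
    exact continuous_zsmul _

lemma cons_cont : Continuous fun p : UnitAddCircle × (Fin d → UnitAddCircle) =>
    (Fin.cons p.1 p.2 : Fin (d + 1) → UnitAddCircle) := by
  refine continuous_pi fun i => ?_
  refine Fin.cases ?_ (fun i => ?_) i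
  · simp only [Fin.cons_zero]
    exact continuous_fst
  · simp only [Fin.cons_succ]
    fun_prop

lemma int_of_cont {X : Type*} [TopologicalSpace X] [CompactSpace X] [MeasurableSpace X]
    [OpensMeasurableSpace X] [T2Space X] {μ : Measure X} [IsFiniteMeasure μ] {f : X → ℂ}
    (hf : Continuous f) : Integrable f μ :=
  hf.integrable_of_hasCompactSupport (HasCompactSupport.of_compactSpace _)

/-- the error functional -/
noncomputable def errL (μ : Measure UnitAddCircle) [IsProbabilityMeasure μ] (P : Fin d → ℤ[X])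
    (k : ℤ) : C((Fin (d + 1) → UnitAddCircle), ℂ) →ₗ[ℂ] ℂ where
  toFun g := (∫ x, g (pt P k x) ∂μ) - ∫ p : UnitAddCircle × (Fin d → UnitAddCircle),
    g (Fin.cons p.1 p.2) ∂(μ.prod volume)
  map_add' g h := by
    simp only [ContinuousMap.add_apply]
    rw [integral_add (f := fun x => g (pt P k x)) (g := fun x => h (pt P k x))
      (int_of_cont (g.continuous.comp (pt_cont P k)))
      (int_of_cont (h.continuous.comp (pt_cont P k))),
      integral_add
      (f := fun p : UnitAddCircle × (Fin d → UnitAddCircle) => g (Fin.cons p.1 p.2))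
      (g := fun p : UnitAddCircle × (Fin d → UnitAddCircle) => h (Fin.cons p.1 p.2))
      (int_of_cont (g.continuous.comp cons_cont))
      (int_of_cont (h.continuous.comp cons_cont))]
    ring
  map_smul' c g := by
    simp only [ContinuousMap.smul_apply, smul_eq_mul, RingHom.id_apply]
    rw [integral_const_mul, integral_const_mul]
    ring

lemma errL_norm (μ : Measure UnitAddCircle) [IsProbabilityMeasure μ] (P : Fin d → ℤ[X])
    (k : ℤ) (g : C((Fin (d + 1) → UnitAddCircle), ℂ)) : ‖errL μ P k g‖ ≤ 2 * ‖g‖ := by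
  have h1 : ‖∫ x, g (pt P k x) ∂μ‖ ≤ ‖g‖ := by
    have := norm_integral_le_of_norm_le_const (μ := μ) (f := fun x => g (pt P k x)) (C := ‖g‖)
      (Eventually.of_forall fun x => g.norm_coe_le_norm _)
    simpa using this
  have h2 : ‖∫ p : UnitAddCircle × (Fin d → UnitAddCircle),
      g (Fin.cons p.1 p.2) ∂(μ.prod volume)‖ ≤ ‖g‖ := by
    have := norm_integral_le_of_norm_le_const (μ := μ.prod volume)
      (f := fun p : UnitAddCircle × (Fin d → UnitAddCircle) => g (Fin.cons p.1 p.2)) (C := ‖g‖)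
      (Eventually.of_forall fun x => g.norm_coe_le_norm _)
    simpa using this
  calc ‖errL μ P k g‖ ≤ ‖∫ x, g (pt P k x) ∂μ‖ + ‖∫ p : UnitAddCircle × (Fin d → UnitAddCircle),
      g (Fin.cons p.1 p.2) ∂(μ.prod volume)‖ := norm_sub_le _ _
    _ ≤ 2 * ‖g‖ := by linarith

/-- the polynomial of a character -/
noncomputable def chPoly (P : Fin d → ℤ[X]) (c : Fin (d + 1) → ℤ) : ℤ[X] :=
  C (c 0) + ∑ i, C (c i.succ) * P i

lemma errL_char (μ : Measure UnitAddCircle) [IsProbabilityMeasure μ] (P : Fin d → ℤ[X])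
    (k : ℤ) (c : Fin (d + 1) → ℤ) : errL μ P k (UnitAddTorus.mFourier c) =
      (∫ x, (fourier ((chPoly P c).eval k) x : ℂ) ∂μ) -
        if (∀ i : Fin d, c i.succ = 0) then ∫ x, (fourier (c 0) x : ℂ) ∂μ else 0 := by
  show (∫ x, UnitAddTorus.mFourier c (pt P k x) ∂μ) -
    ∫ p : UnitAddCircle × (Fin d → UnitAddCircle),
      UnitAddTorus.mFourier c (Fin.cons p.1 p.2) ∂(μ.prod volume) = _
  congr 1
  · refine integral_congr_ae (Eventually.of_forall fun x => ?_)
    show ∏ i, (fourier (c i) (pt P k x i) : ℂ) = (fourier ((chPoly P c).eval k) x : ℂ)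
    have h1 : (chPoly P c).eval k = c 0 + ∑ i, c i.succ * (P i).eval k := by
      unfold chPoly
      rw [eval_add, eval_C, eval_finsetSum]
      simp
    rw [h1, fourier_add, fourier_sum, Fin.prod_univ_succ]
    simp only [pt, Fin.cons_zero, Fin.cons_succ, fourier_smul]
  · have h1 : ∀ p : UnitAddCircle × (Fin d → UnitAddCircle),
        (UnitAddTorus.mFourier c (Fin.cons p.1 p.2) : ℂ) =
          (fourier (c 0) p.1 : ℂ) * ∏ i, (fourier (c i.succ) (p.2 i) : ℂ) := by
      intro p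
      show ∏ i, (fourier (c i) ((Fin.cons p.1 p.2 : Fin (d + 1) → UnitAddCircle) i) : ℂ) = _
      rw [Fin.prod_univ_succ]
      simp
    simp_rw [h1]
    rw [integral_prod_mul (fun x : UnitAddCircle => (fourier (c 0) x : ℂ))
      (fun y : Fin d → UnitAddCircle => ∏ i, (fourier (c i.succ) (y i) : ℂ))]
    rw [integral_fintype_prod_volume_eq_prod]
    simp_rw [int_fourier_volume]
    split_ifs with h
    · simp [h]
    · push Not at h
      obtain ⟨i, hi⟩ := h
      rw [Finset.prod_eq_zero (Finset.mem_univ i) (by simp [hi]), mul_zero]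

lemma chPoly_eq (P : Fin d → ℤ[X]) (c : Fin (d + 1) → ℤ) :
    chPoly P c = C (c 0) + ∑ i : Fin d, (c i.succ) • P i := by
  unfold chPoly
  congr 1
  refine Finset.sum_congr rfl fun i _ => ?_
  rw [smul_eq_C_mul]

lemma chPoly_lead (P : Fin d → ℤ[X]) (c : Fin (d + 1) → ℤ)
    (h : 1 ≤ (∑ i : Fin d, (c i.succ) • P i).natDegree) :
    (chPoly P c).natDegree = (∑ i : Fin d, (c i.succ) • P i).natDegree ∧
      (chPoly P c).leadingCoeff = (∑ i : Fin d, (c i.succ) • P i).leadingCoeff := by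
  rw [chPoly_eq]
  have h1 : (C (c 0) + ∑ i : Fin d, (c i.succ) • P i).natDegree =
      (∑ i : Fin d, (c i.succ) • P i).natDegree := natDegree_C_add
  refine ⟨h1, ?_⟩
  rw [leadingCoeff, leadingCoeff, h1, coeff_add, coeff_C_of_ne_zero (by omega), zero_add]

lemma fiber_le {μ : Measure UnitAddCircle} (h : EF μ) {b : ℤ} (hb : b ≠ 0) (y : UnitAddCircle) :
    μ.real {x | b • x = y} ≤ |(b : ℝ)| / (atoms μ).ncard := by
  have := h.prob
  have h1 := coset_mass (fun y => atom_le h y) hb y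
  rwa [mul_one_div] at h1

lemma EF.ae_tor {μ : Measure UnitAddCircle} (h : EF μ) {N : ℕ}
    (htor : ∀ x, μ {x} ≠ 0 → N • x = 0) : ∀ᵐ x ∂μ, N • x = 0 := by
  have h1 := atoms_compl h
  filter_upwards [mem_ae_iff.2 h1] with x hx
  exact htor x hx

/-- **Joint equidistribution of almost all dilates.** -/
theorem joint {μ : ℕ → Measure UnitAddCircle} [∀ n, IsProbabilityMeasure (μ n)]
    (hμ : ∀ n, EF (μ n)) {N : ℕ → ℕ}
    (hN : ∀ n, 1 ≤ N n) (htor : ∀ n x, μ n {x} ≠ 0 → N n • x = 0) {δ : ℝ} (hδ : 0 < δ) {K : ℕ → ℕ}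
    (hK : ∀ n, (N n : ℝ) ^ δ ≤ K n) (R : ℕ) (P : ℕ → Fin d → ℤ[X])
    (hP : ∀ c : Fin d → ℤ, c ≠ 0 → ∀ n, 1 ≤ (∑ i, c i • P n i).natDegree ∧
      (∑ i, c i • P n i).natDegree ≤ R)
    (hlead : ∀ c : Fin d → ℤ, c ≠ 0 → Tendsto (fun n => Set.ncard
      {y : UnitAddCircle | μ n {x | (∑ i, c i • P n i).leadingCoeff • x = y} ≠ 0}) atTop atTop)
    (g : C((Fin (d + 1) → UnitAddCircle), ℂ)) :
    Tendsto (fun n => (K n : ℝ)⁻¹ * ∑ m ∈ Finset.range (K n), ‖errL (μ n) (P n) (m : ℤ) g‖)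
      atTop (𝓝 0) := by
  refine avg_dense K (fun n m => errL (μ n) (P n) (m : ℤ)) (C := 2) (by norm_num)
    (fun n m v => errL_norm _ _ _ _) (Set.range UnitAddTorus.mFourier)
    UnitAddTorus.span_mFourier_closure_eq_top ?_ g
  rintro _ ⟨c, rfl⟩
  by_cases hc : ∀ i : Fin d, c i.succ = 0
  · have h1 : ∀ n m : ℕ, errL (μ n) (P n) (m : ℤ) (UnitAddTorus.mFourier c) = 0 := by
      intro n m
      rw [errL_char, if_pos hc]
      have : chPoly (P n) c = C (c 0) := by
        rw [chPoly_eq]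
        simp [hc]
      rw [this, eval_C, sub_self]
    simp only [h1]
    simp
  · have hc' : (fun i : Fin d => c i.succ) ≠ 0 := by
      intro h0
      exact hc fun i => congrFun h0 i
    rw [Metric.tendsto_atTop]
    intro ε hε
    obtain ⟨M, hM⟩ := core_erg R (δ := δ) (ε := (ε / 2) ^ 2) hδ (by positivity)
    obtain ⟨n₀, hn₀⟩ := eventually_atTop.1 ((hlead _ hc').eventually_ge_atTop M)
    refine ⟨n₀, fun n hn => ?_⟩
    have hdeg := hP _ hc' n
    obtain ⟨h1, h2⟩ := chPoly_lead (P n) c hdeg.1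
    have h4 := hM (μ n) (hμ n) (N n) (hN n) (htor n) (chPoly (P n) c) (by rw [h1]; exact hdeg.1)
      (by rw [h1]; exact hdeg.2) (by rw [h2]; exact hn₀ n hn) (K n) (hK n)
    have h5 := avg_le_sqrt (K n) _ (by positivity : (0 : ℝ) ≤ ε / 2) h4
    have h6 : ∀ m : ℕ, ‖errL (μ n) (P n) (m : ℤ) (UnitAddTorus.mFourier c)‖ =
        ‖∫ x, (fourier ((chPoly (P n) c).eval (m : ℤ)) x : ℂ) ∂(μ n)‖ := by
      intro m
      rw [errL_char, if_neg hc, sub_zero]
    simp_rw [h6]
    rw [Real.dist_eq, sub_zero, abs_of_nonneg (by positivity)]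
    have hKpos : (0 : ℝ) < K n := by
      refine lt_of_lt_of_le ?_ (hK n)
      have : (0 : ℝ) < N n := by exact_mod_cast hN n
      positivity
    calc (K n : ℝ)⁻¹ * ∑ m ∈ Finset.range (K n),
          ‖∫ x, (fourier ((chPoly (P n) c).eval (m : ℤ)) x : ℂ) ∂(μ n)‖ ≤
          (K n : ℝ)⁻¹ * (ε / 2 * K n) := by gcongr
      _ = ε / 2 := by field_simp
      _ < ε := by linarith

/-- real functions on the product -/
theorem joint_real {μ : ℕ → Measure UnitAddCircle} [∀ n, IsProbabilityMeasure (μ n)]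
    (hμ : ∀ n, EF (μ n)) {N : ℕ → ℕ}
    (hN : ∀ n, 1 ≤ N n) (htor : ∀ n x, μ n {x} ≠ 0 → N n • x = 0) {δ : ℝ} (hδ : 0 < δ) {K : ℕ → ℕ}
    (hK : ∀ n, (N n : ℝ) ^ δ ≤ K n) (R : ℕ) (P : ℕ → Fin d → ℤ[X])
    (hP : ∀ c : Fin d → ℤ, c ≠ 0 → ∀ n, 1 ≤ (∑ i, c i • P n i).natDegree ∧
      (∑ i, c i • P n i).natDegree ≤ R)
    (hlead : ∀ c : Fin d → ℤ, c ≠ 0 → Tendsto (fun n => Set.ncard
      {y : UnitAddCircle | μ n {x | (∑ i, c i • P n i).leadingCoeff • x = y} ≠ 0}) atTop atTop)
    (f : C(UnitAddCircle × (Fin d → UnitAddCircle), ℝ)) :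
    Tendsto (fun n => (K n : ℝ)⁻¹ * ∑ m ∈ Finset.range (K n),
      |(∫ x, f (x, fun i => (P n i).eval (m : ℤ) • x) ∂(μ n)) - ∫ p, f p ∂((μ n).prod volume)|)
      atTop (𝓝 0) := by
  have hsplit : Continuous fun v : Fin (d + 1) → UnitAddCircle => (v 0, fun i : Fin d => v i.succ) := by
    fun_prop
  set g : C((Fin (d + 1) → UnitAddCircle), ℂ) :=
    ⟨fun v => ((f (v 0, fun i : Fin d => v i.succ) : ℝ) : ℂ),
      Complex.continuous_ofReal.comp (f.continuous.comp hsplit)⟩ with hg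
  refine (joint hμ hN htor hδ hK R P hP hlead g).congr fun n => ?_
  congr 1
  refine Finset.sum_congr rfl fun m _ => ?_
  have h1 : errL (μ n) (P n) (m : ℤ) g =
      (((∫ x, f (x, fun i => (P n i).eval (m : ℤ) • x) ∂(μ n)) -
        ∫ p, f p ∂((μ n).prod volume) : ℝ) : ℂ) := by
    show (∫ x, g (pt (P n) (m : ℤ) x) ∂(μ n)) - ∫ p : UnitAddCircle × (Fin d → UnitAddCircle),
      g (Fin.cons p.1 p.2) ∂((μ n).prod volume) = _
    rw [Complex.ofReal_sub, ← integral_complex_ofReal, ← integral_complex_ofReal]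
    congr 1
  rw [h1, Complex.norm_real, Real.norm_eq_abs]

end Run7.h88
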