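import Mathlib
import Pool.Agent.Run7.h88.Core

/-!
Arcs which carry a fixed proportion of an invariant measure are close to points of bounded order.
-/

set_option autoImplicit false

open MeasureTheory Set

namespace Run7.h88

/-- the product of the numbers `2 ^ j - 1`, `1 ≤ j ≤ m` -/
def LL (m : ℕ) : ℕ := ∏ j ∈ Finset.Icc 1 m, (2 ^ j - 1)

lemma LL_pos (m : ℕ) : 0 < LL m := by
  unfold LL
  refine Finset.prod_pos fun j hj => ?_
  have h1 : 1 ≤ j := (Finset.mem_Icc.1 hj).1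
  have h2 : 2 ^ 1 ≤ 2 ^ j := Nat.pow_le_pow_right (by norm_num) h1
  omega

lemma dvd_LL {m j : ℕ} (h1 : 1 ≤ j) (h2 : j ≤ m) : (2 ^ j - 1) ∣ LL m :=
  Finset.dvd_prod_of_mem _ (Finset.mem_Icc.2 ⟨h1, h2⟩)

lemma norm_nsmul_le' (n : ℕ) (x : UnitAddCircle) : ‖n • x‖ ≤ n * ‖x‖ := norm_nsmul_le

lemma pow_inv {μ : Measure UnitAddCircle}
    (h : MeasurePreserving (fun x : UnitAddCircle => 2 • x) μ μ) (i : ℕ) :
    MeasurePreserving (fun x : UnitAddCircle => 2 ^ i • x) μ μ := by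
  induction i with
  | zero =>
    have e : (fun x : UnitAddCircle => 2 ^ 0 • x) = id := by
      funext x
      simp
    rw [e]
    exact MeasurePreserving.id μ
  | succ i ih =>
    have h1 := h.comp ih
    have e : (fun x : UnitAddCircle => 2 ^ (i + 1) • x) =
        (fun x : UnitAddCircle => 2 • x) ∘ fun x : UnitAddCircle => 2 ^ i • x := by
      funext x
      simp only [Function.comp]
      rw [smul_smul, pow_succ, mul_comm]
    rw [e]
    exact h1

/-- **Heavy arcs** -/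
theorem heavy {μ : Measure UnitAddCircle} [IsProbabilityMeasure μ]
    (h : MeasurePreserving (fun x : UnitAddCircle => 2 • x) μ μ) {m : ℕ} {η : ℝ}
    (hη : 1 < (m + 1) * η) (y : UnitAddCircle) {ρ : ℝ} (hρ : η ≤ μ.real {x | ‖x - y‖ ≤ ρ})
    {x : UnitAddCircle} (hx : ‖x - y‖ ≤ ρ) : ‖LL m • x‖ ≤ LL m * (2 ^ (m + 1) * ρ) := by
  classical
  set B : Set UnitAddCircle := {x | ‖x - y‖ ≤ ρ} with hB
  have hBm : MeasurableSet B := by
    refine (isClosed_le ?_ continuous_const).measurableSet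
    fun_prop
  have hρ0 : 0 ≤ ρ := (norm_nonneg _).trans hx
  have hpre : ∀ i, μ.real ((fun x : UnitAddCircle => 2 ^ i • x) ⁻¹' B) = μ.real B := by
    intro i
    exact (pow_inv h i).measureReal_preimage hBm.nullMeasurableSet
  -- two preimages meet
  obtain ⟨i, hi, j, hj, hij, w, hw1, hw2⟩ : ∃ i ∈ Finset.range (m + 1), ∃ j ∈ Finset.range (m + 1),
      i ≠ j ∧ ((fun x : UnitAddCircle => 2 ^ i • x) ⁻¹' B ∩
        (fun x : UnitAddCircle => 2 ^ j • x) ⁻¹' B).Nonempty := by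
    by_contra hcon
    push Not at hcon
    have hd : (Finset.range (m + 1) : Set ℕ).PairwiseDisjoint
        fun i => (fun x : UnitAddCircle => 2 ^ i • x) ⁻¹' B := by
      intro i hi j hj hij
      rw [Function.onFun, Set.disjoint_iff_inter_eq_empty]
      exact hcon i (by simpa using hi) j (by simpa using hj) hij
    have h1 : μ.real (⋃ i ∈ Finset.range (m + 1), (fun x : UnitAddCircle => 2 ^ i • x) ⁻¹' B) =
        ∑ i ∈ Finset.range (m + 1), μ.real ((fun x : UnitAddCircle => 2 ^ i • x) ⁻¹' B) :=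
      measureReal_biUnion_finset hd fun i _ => (smul_meas _) hBm
    have h2 : μ.real (⋃ i ∈ Finset.range (m + 1), (fun x : UnitAddCircle => 2 ^ i • x) ⁻¹' B) ≤ 1 :=
      measureReal_le_one
    rw [h1, Finset.sum_congr rfl fun i _ => hpre i, Finset.sum_const, Finset.card_range,
      nsmul_eq_mul] at h2
    have h3 : ((m : ℝ) + 1) * η ≤ ((m + 1 : ℕ) : ℝ) * μ.real B := by
      push_cast
      gcongr
    linarith
  wlog hlt : i < j generalizing i j
  · exact this j hj i hi hij.symm hw2 hw1 (by omega)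
  rw [Finset.mem_range] at hi hj
  set k := j - i with hk
  have hk1 : 1 ≤ k := by omega
  have hkm : k ≤ m := by omega
  set u : UnitAddCircle := 2 ^ i • w with hu
  have hu1 : ‖u - y‖ ≤ ρ := hw1
  have hu2 : ‖2 ^ k • u - y‖ ≤ ρ := by
    have e : 2 ^ k • u = 2 ^ j • w := by
      rw [hu, smul_smul, ← pow_add]
      congr 2
      omega
    rw [e]
    exact hw2
  have hpow : 1 ≤ 2 ^ k := Nat.one_le_two_pow
  have h3 : ‖(2 ^ k - 1) • u‖ ≤ 2 * ρ := by
    have e : (2 ^ k - 1) • u = (2 ^ k • u - y) - (u - y) := by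
      have : (2 ^ k) • u = (2 ^ k - 1) • u + u := by
        conv_lhs => rw [show 2 ^ k = (2 ^ k - 1) + 1 by omega, add_smul, one_smul]
      rw [this]
      abel
    rw [e]
    exact (norm_sub_le _ _).trans (by linarith)
  have h4 : ‖x - u‖ ≤ 2 * ρ := by
    have e : x - u = (x - y) - (u - y) := by abel
    rw [e]
    exact (norm_sub_le _ _).trans (by linarith)
  have h5 : ‖(2 ^ k - 1) • x‖ ≤ 2 ^ (m + 1) * ρ := by
    have e : (2 ^ k - 1) • x = (2 ^ k - 1) • u + (2 ^ k - 1) • (x - u) := by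
      rw [smul_sub]
      abel
    rw [e]
    have h6 : ‖(2 ^ k - 1) • (x - u)‖ ≤ ((2 ^ k - 1 : ℕ) : ℝ) * (2 * ρ) :=
      (norm_nsmul_le' _ _).trans (by gcongr)
    have h7 : ((2 ^ k - 1 : ℕ) : ℝ) = 2 ^ k - 1 := by
      rw [Nat.cast_sub hpow]
      push_cast
      ring
    have h8 : (2 : ℝ) ^ k ≤ 2 ^ m := pow_le_pow_right₀ (by norm_num) hkm
    calc ‖(2 ^ k - 1) • u + (2 ^ k - 1) • (x - u)‖ ≤ 2 * ρ + ((2 ^ k - 1 : ℕ) : ℝ) * (2 * ρ) :=
          (norm_add_le _ _).trans (add_le_add h3 h6)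
      _ = 2 ^ k * (2 * ρ) := by rw [h7]; ring
      _ ≤ 2 ^ m * (2 * ρ) := by gcongr
      _ = 2 ^ (m + 1) * ρ := by ring
  obtain ⟨q, hq⟩ := dvd_LL hk1 hkm
  have hqpos : 0 < 2 ^ k - 1 := by
    have : 2 ^ 1 ≤ 2 ^ k := Nat.pow_le_pow_right (by norm_num) hk1
    omega
  have hqle : q ≤ LL m := by
    rw [hq]
    exact Nat.le_mul_of_pos_left _ hqpos
  have e : LL m • x = q • ((2 ^ k - 1) • x) := by
    rw [smul_smul, hq, mul_comm]
  rw [e]
  calc ‖q • ((2 ^ k - 1) • x)‖ ≤ q * ‖(2 ^ k - 1) • x‖ := norm_nsmul_le' _ _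
    _ ≤ LL m * (2 ^ (m + 1) * ρ) := by gcongr

/-- the points close to a nonzero point of order dividing `L` -/
def offSet (L : ℕ) (κ : ℝ) : Set UnitAddCircle := {x | ‖L • x‖ ≤ κ ∧ κ / L < ‖x‖}

lemma offSet_meas (L : ℕ) (κ : ℝ) : MeasurableSet (offSet L κ) := by
  have h1 : MeasurableSet {x : UnitAddCircle | ‖L • x‖ ≤ κ} :=
    (isClosed_le (by fun_prop) continuous_const).measurableSet
  have h2 : MeasurableSet {x : UnitAddCircle | κ / L < ‖x‖} :=
    (isOpen_lt continuous_const (by fun_prop)).measurableSet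
  exact h1.inter h2

lemma offSet_mono {L : ℕ} (hL : 0 < L) {κ κ₀ : ℝ} (h : κ ≤ κ₀) (h0 : κ₀ ≤ 1 / 2) :
    offSet L κ ⊆ offSet L κ₀ := by
  rintro x ⟨h1, h2⟩
  have hLR : (0 : ℝ) < L := by exact_mod_cast hL
  refine ⟨h1.trans h, ?_⟩
  by_contra hcon
  rw [not_lt, le_div_iff₀ hLR] at hcon
  have h3 := Pool.Agent.TH654.FC.nsmul_norm_eq (x := x) L (by linarith)
  rw [h3] at h1
  rw [div_lt_iff₀ hLR] at h2
  linarith

/-- **The choice of the modulus.** -/
theorem choice (L : ℕ) (hL : 0 < L) {η : ℝ} (hη : 0 < η) : ∃ (I : ℕ) (κ₀ : ℝ), 0 < κ₀ ∧ κ₀ ≤ 1 / 2 ∧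
    ∀ μ : Measure UnitAddCircle, IsProbabilityMeasure μ → ∃ i : ℕ, i ≤ I ∧
      μ.real {x | L ^ i • x ∈ offSet L κ₀} ≤ η := by
  classical
  obtain ⟨I, hI⟩ := exists_nat_ge (1 / η)
  have hLR : (1 : ℝ) ≤ L := by exact_mod_cast hL
  have hLp : (0 : ℝ) < (L : ℝ) ^ (I + 1) := by positivity
  refine ⟨I, 1 / (2 * (L : ℝ) ^ (I + 1)), by positivity, ?_, fun μ hμ => ?_⟩
  · rw [div_le_div_iff₀ (by positivity) (by norm_num)]
    have : (1 : ℝ) ≤ (L : ℝ) ^ (I + 1) := one_le_pow₀ hLR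
    linarith
  set κ₀ : ℝ := 1 / (2 * (L : ℝ) ^ (I + 1)) with hκ
  have hκ0 : 0 < κ₀ := by positivity
  have hκL : (L : ℝ) ^ (I + 1) * κ₀ = 1 / 2 := by
    rw [hκ]
    field_simp
  by_contra hcon
  push Not at hcon
  have hd : ((Finset.range (I + 1) : Finset ℕ) : Set ℕ).PairwiseDisjoint
      fun i => {x : UnitAddCircle | L ^ i • x ∈ offSet L κ₀} := by
    have key : ∀ i j : ℕ, j ≤ I → i < j → ∀ x : UnitAddCircle, L ^ i • x ∈ offSet L κ₀ →
        L ^ j • x ∉ offSet L κ₀ := by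
      intro i j hj hij x hx hx'
      obtain ⟨h1, -⟩ := hx
      obtain ⟨h2, h3⟩ := hx'
      have e : L ^ j • x = L ^ (j - i - 1) • (L • (L ^ i • x)) := by
        rw [smul_smul, smul_smul]
        congr 1
        rw [← pow_succ, ← pow_add]
        congr 1
        omega
      have h4 : ‖L ^ j • x‖ ≤ (L : ℝ) ^ I * κ₀ := by
        rw [e]
        refine (norm_nsmul_le' _ _).trans ?_
        push_cast
        have : (L : ℝ) ^ (j - i - 1) ≤ (L : ℝ) ^ I := pow_le_pow_right₀ hLR (by omega)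
        gcongr
      have h5 : (L : ℝ) * ‖L ^ j • x‖ ≤ 1 / 2 := by
        calc (L : ℝ) * ‖L ^ j • x‖ ≤ L * ((L : ℝ) ^ I * κ₀) := by gcongr
          _ = (L : ℝ) ^ (I + 1) * κ₀ := by ring
          _ = 1 / 2 := hκL
      have h6 := Pool.Agent.TH654.FC.nsmul_norm_eq (x := L ^ j • x) L h5
      rw [h6] at h2
      rw [div_lt_iff₀ (by linarith)] at h3
      linarith
    intro i hi j hj hij
    rw [Finset.coe_range, mem_Iio] at hi hj
    rw [Function.onFun, Set.disjoint_left]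
    intro x hx hx'
    rcases lt_or_gt_of_ne hij with h | h
    · exact key i j (by omega) h x hx hx'
    · exact key j i (by omega) h x hx' hx
  have hm : ∀ i ∈ Finset.range (I + 1), MeasurableSet {x : UnitAddCircle | L ^ i • x ∈ offSet L κ₀} :=
    fun i _ => (smul_meas _) (offSet_meas L κ₀)
  have h1 := measureReal_biUnion_finset (μ := μ) hd hm
  have h2 : μ.real (⋃ i ∈ Finset.range (I + 1), {x : UnitAddCircle | L ^ i • x ∈ offSet L κ₀}) ≤ 1 :=
    measureReal_le_one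
  rw [h1] at h2
  have h3 : ∑ _i ∈ Finset.range (I + 1), η ≤
      ∑ i ∈ Finset.range (I + 1), μ.real {x : UnitAddCircle | L ^ i • x ∈ offSet L κ₀} :=
    Finset.sum_le_sum fun i hi => (hcon i (by
      have := Finset.mem_range.1 hi
      omega)).le
  rw [Finset.sum_const, Finset.card_range, nsmul_eq_mul] at h3
  have h4 : 1 ≤ I * η := by
    rw [div_le_iff₀ hη] at hI
    exact hI
  push_cast at h3
  nlinarith

end Run7.h88
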