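import Mathlib
import Pool.Agent.Run7.h88.Heavy

/-!
The mean square of the weighted Fourier coefficients of an invariant measure along the multiples of
an integer, at all scales.
-/

set_option autoImplicit false

open MeasureTheory Set

namespace Run7.h88

lemma sub_fourier (n : ℤ) (x y : UnitAddCircle) :
    (fourier n (x - y) : ℂ) = (fourier n x : ℂ) * (starRingEnd ℂ) (fourier n y) := by
  rw [fourier_apply, fourier_apply, fourier_apply, smul_sub, sub_eq_add_neg,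
    AddCircle.toCircle_add, Circle.coe_mul, AddCircle.toCircle_neg, Circle.coe_inv_eq_conj]

lemma int_of_bdd {X : Type*} [MeasurableSpace X] {μ : Measure X} [IsFiniteMeasure μ] {f : X → ℂ}
    (hf : Measurable f) {C : ℝ} (h : ∀ x, ‖f x‖ ≤ C) : Integrable f μ :=
  Integrable.of_bound hf.aestronglyMeasurable C (Filter.Eventually.of_forall h)

lemma int_of_bdd' {X : Type*} [MeasurableSpace X] {μ : Measure X} [IsFiniteMeasure μ] {f : X → ℝ}
    (hf : Measurable f) {C : ℝ} (h : ∀ x, ‖f x‖ ≤ C) : Integrable f μ :=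
  Integrable.of_bound hf.aestronglyMeasurable C (Filter.Eventually.of_forall h)

lemma sum_fourier_le (D : ℤ) (K : ℕ) (z : UnitAddCircle) :
    ‖∑ k ∈ Finset.range K, (fourier (D * k) z : ℂ)‖ ≤ K := by
  refine (norm_sum_le _ _).trans ?_
  simp_rw [Pool.Agent.TH654.FC.norm_fourier_eq]
  simp

/-- the mean square as a double integral -/
lemma ms {μ : Measure UnitAddCircle} [IsProbabilityMeasure μ] {ψ : UnitAddCircle → ℂ}
    (hψ : Measurable ψ) (h1 : ∀ x, ‖ψ x‖ ≤ 1) (D : ℤ) (K : ℕ) :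
    ∑ k ∈ Finset.range K, ‖∫ x, ψ x * (fourier (D * k) x : ℂ) ∂μ‖ ^ 2 ≤
      ∫ p, ‖ψ p.1‖ * ‖ψ p.2‖ * ‖∑ k ∈ Finset.range K, (fourier (D * k) (p.1 - p.2) : ℂ)‖
        ∂(μ.prod μ) := by
  have hm : ∀ n : ℤ, Measurable fun x : UnitAddCircle => (fourier n x : ℂ) :=
    fun n => (cont_fourier n).measurable
  have hi : ∀ n : ℤ, Integrable (fun p : UnitAddCircle × UnitAddCircle =>
      ψ p.1 * (starRingEnd ℂ) (ψ p.2) * (fourier n (p.1 - p.2) : ℂ)) (μ.prod μ) := by
    intro n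
    refine int_of_bdd (C := 1) ?_ ?_
    · refine Measurable.mul (Measurable.mul (hψ.comp measurable_fst) ?_)
        ((hm n).comp (measurable_fst.sub measurable_snd))
      exact (Complex.continuous_conj.measurable).comp (hψ.comp measurable_snd)
    · intro p
      rw [norm_mul, norm_mul, Pool.Agent.TH654.FC.norm_fourier_eq, mul_one, RCLike.norm_conj]
      calc ‖ψ p.1‖ * ‖ψ p.2‖ ≤ 1 * 1 := by
            gcongr
            · exact h1 _
            · exact h1 _
        _ = 1 := one_mul 1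
  have hsq : ∀ n : ℤ, ((‖∫ x, ψ x * (fourier n x : ℂ) ∂μ‖ ^ 2 : ℝ) : ℂ) =
      ∫ p, ψ p.1 * (starRingEnd ℂ) (ψ p.2) * (fourier n (p.1 - p.2) : ℂ) ∂(μ.prod μ) := by
    intro n
    have h2 : ∀ p : UnitAddCircle × UnitAddCircle,
        ψ p.1 * (starRingEnd ℂ) (ψ p.2) * (fourier n (p.1 - p.2) : ℂ) =
        (ψ p.1 * (fourier n p.1 : ℂ)) * (starRingEnd ℂ) (ψ p.2 * (fourier n p.2 : ℂ)) := by
      intro p
      rw [sub_fourier, map_mul]
      ring
    simp_rw [h2]
    rw [integral_prod_mul (fun x : UnitAddCircle => ψ x * (fourier n x : ℂ))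
      (fun x : UnitAddCircle => (starRingEnd ℂ) (ψ x * (fourier n x : ℂ))), integral_conj,
      Complex.mul_conj']
    push_cast
    rfl
  have h3 : ((∑ k ∈ Finset.range K, ‖∫ x, ψ x * (fourier (D * k) x : ℂ) ∂μ‖ ^ 2 : ℝ) : ℂ) =
      ∫ p, ψ p.1 * (starRingEnd ℂ) (ψ p.2) *
        ∑ k ∈ Finset.range K, (fourier (D * k) (p.1 - p.2) : ℂ) ∂(μ.prod μ) := by
    simp_rw [Finset.mul_sum]
    rw [integral_finsetSum _ (fun k _ => hi _), Complex.ofReal_sum]
    exact Finset.sum_congr rfl fun k _ => hsq _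
  have h4 : ∑ k ∈ Finset.range K, ‖∫ x, ψ x * (fourier (D * k) x : ℂ) ∂μ‖ ^ 2 =
      ‖((∑ k ∈ Finset.range K, ‖∫ x, ψ x * (fourier (D * k) x : ℂ) ∂μ‖ ^ 2 : ℝ) : ℂ)‖ := by
    rw [Complex.norm_real, Real.norm_of_nonneg]
    positivity
  rw [h4, h3]
  refine (norm_integral_le_integral_norm _).trans (le_of_eq ?_)
  refine integral_congr_ae (Filter.Eventually.of_forall fun p => ?_)
  show ‖_‖ = _
  rw [norm_mul, norm_mul, RCLike.norm_conj]

lemma map_inv {μ : Measure UnitAddCircle} [IsProbabilityMeasure μ] (h : Inv μ) (D : ℕ) :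
    Inv (Measure.map (fun x : UnitAddCircle => D • x) μ) := by
  have key : ∀ r : ℕ, MeasurePreserving (fun x : UnitAddCircle => r • x) μ μ →
      MeasurePreserving (fun x : UnitAddCircle => r • x)
        (Measure.map (fun x : UnitAddCircle => D • x) μ)
        (Measure.map (fun x : UnitAddCircle => D • x) μ) := by
    intro r hr
    refine ⟨smul_meas r, ?_⟩
    rw [Measure.map_map (smul_meas r) (smul_meas D)]
    conv_rhs => rw [← hr.map_eq, Measure.map_map (smul_meas D) (smul_meas r)]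
    congr 1
    funext x
    simp only [Function.comp]
    rw [smul_comm]
  exact ⟨key 2 h.1, key 3 h.2⟩

/-- the points whose multiple by `D` is close to zero, at scale `1 / K` -/
def near (D K : ℕ) : Set UnitAddCircle := {x | ‖D • x‖ ≤ 1 / K}

lemma near_meas (D K : ℕ) : MeasurableSet (near D K) := by
  have : MeasurableSet {x : UnitAddCircle | ‖D • x‖ ≤ 1 / (K : ℝ)} :=
    (isClosed_le (by fun_prop) continuous_const).measurableSet
  exact this

/-- no mass between the scales `1 / K ^ 2` and `1 / K` -/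
lemma shell {η : ℝ} (hη : 0 < η) : ∃ K₀ : ℕ, 1 ≤ K₀ ∧ ∀ K : ℕ, K₀ ≤ K → ∀ μ : Measure UnitAddCircle,
    IsProbabilityMeasure μ → Inv μ → ∀ D : ℕ,
      μ.real {x | 1 / (K : ℝ) ^ 2 ≤ ‖D • x‖ ∧ ‖D • x‖ ≤ 1 / K} ≤ η := by
  obtain ⟨T₀, hT⟩ := noMass (A := 2) (by norm_num) hη
  obtain ⟨K₀, hK₀⟩ := exists_nat_ge (Real.exp T₀)
  refine ⟨K₀ + 1, by omega, fun K hK μ hμ hi D => ?_⟩
  have hKpos : (0 : ℝ) < K := by exact_mod_cast (by omega : 0 < K)
  have h1 : T₀ ≤ Real.log K := by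
    rw [Real.le_log_iff_exp_le hKpos]
    exact hK₀.trans (by exact_mod_cast (by omega : K₀ ≤ K))
  have h2 := hT (Real.log K) h1 μ hμ hi D
  have e1 : Real.exp (-Real.log K) = 1 / K := by rw [Real.exp_neg, Real.exp_log hKpos, one_div]
  have e2 : Real.exp (-(2 * Real.log K)) = 1 / (K : ℝ) ^ 2 := by
    rw [show -(2 * Real.log (K : ℝ)) = -Real.log K + -Real.log K by ring, Real.exp_add, e1]
    field_simp
  rw [e1, e2] at h2
  simpa only [natCast_zsmul] using h2

/-- no mass between the scales `1 / K` and `C / K` -/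
lemma shell' {η C : ℝ} (hη : 0 < η) (hC : 1 ≤ C) : ∃ K₀ : ℕ, 1 ≤ K₀ ∧ ∀ K : ℕ, K₀ ≤ K →
    ∀ μ : Measure UnitAddCircle, IsProbabilityMeasure μ → Inv μ → ∀ D : ℕ,
      μ.real {x | 1 / (K : ℝ) ≤ ‖D • x‖ ∧ ‖D • x‖ ≤ C / K} ≤ η := by
  obtain ⟨T₀, hT⟩ := noMass (A := 2) (by norm_num) hη
  obtain ⟨K₀, hK₀⟩ := exists_nat_ge (C * Real.exp T₀ + C ^ 2)
  refine ⟨K₀ + 1, by omega, fun K hK μ hμ hi D => ?_⟩
  have hKpos : (0 : ℝ) < K := by exact_mod_cast (by omega : 0 < K)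
  have hC0 : 0 < C := by linarith
  have hKK : C * Real.exp T₀ + C ^ 2 ≤ K := hK₀.trans (by exact_mod_cast (by omega : K₀ ≤ K))
  have hexp := Real.exp_pos T₀
  have hKC : 0 < (K : ℝ) / C := by positivity
  have h1 : T₀ ≤ Real.log (K / C) := by
    rw [Real.le_log_iff_exp_le hKC, le_div_iff₀ hC0]
    nlinarith
  have h2 := hT (Real.log (K / C)) h1 μ hμ hi D
  have e1 : Real.exp (-Real.log (K / C)) = C / K := by
    rw [Real.exp_neg, Real.exp_log hKC, inv_div]
  have e2 : Real.exp (-(2 * Real.log (K / C))) = (C / K) ^ 2 := by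
    rw [show -(2 * Real.log ((K : ℝ) / C)) = -Real.log (K / C) + -Real.log (K / C) by ring,
      Real.exp_add, e1]
    ring
  rw [e1, e2] at h2
  refine le_trans ?_ h2
  refine measureReal_mono ?_ (measure_ne_top _ _)
  rintro x ⟨h3, h4⟩
  show (C / K) ^ 2 ≤ ‖(D : ℤ) • x‖ ∧ ‖(D : ℤ) • x‖ ≤ C / K
  rw [natCast_zsmul]
  refine ⟨le_trans ?_ h3, h4⟩
  rw [div_pow, div_le_div_iff₀ (by positivity) hKpos]
  have : C ^ 2 ≤ K := by
    have : 0 < C * Real.exp T₀ := by positivity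
    linarith
  nlinarith

end Run7.h88
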