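import Mathlib
import Pool.Agent.Run7.h88.MeanSq

/-!
The main estimate: for an invariant measure `μ` and a suitable integer `D`, most of the weighted
coefficients `∫ φ(x) e(D k x) dμ(x)`, `k < K`, are close to `∫_{‖D x‖ ≤ 1 / K} φ dμ`, at every scale
`K`.
-/

set_option autoImplicit false

open MeasureTheory Set

namespace Run7.h88

/-- the mass of a small arc outside the neighbourhood of the points of order dividing `D` -/
lemma arc_far {μ : Measure UnitAddCircle} [IsProbabilityMeasure μ] (hi : Inv μ) {m : ℕ} {η : ℝ}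
    (hm : 1 < (m + 1) * (2 * η)) {κ₀ : ℝ} (hκ₀ : κ₀ ≤ 1 / 2) {D K : ℕ}
    (hoff : μ.real {x | D • x ∈ offSet (LL m) κ₀} ≤ η) {ρ : ℝ}
    (hρ : LL m * (2 ^ (m + 1) * ρ) ≤ κ₀)
    (hsh : μ.real {x | 1 / (K : ℝ) ≤ ‖D • x‖ ∧ ‖D • x‖ ≤ 2 ^ (m + 1) * ρ} ≤ η) (y : UnitAddCircle) :
    μ.real {x | x ∉ near D K ∧ ‖D • (x - y)‖ ≤ ρ} ≤ 2 * η := by
  have hDm := smul_meas D
  have hνp : IsProbabilityMeasure (Measure.map (fun x : UnitAddCircle => D • x) μ) :=
    Measure.isProbabilityMeasure_map hDm.aemeasurable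
  have hνi := map_inv hi D
  have hBm : MeasurableSet {z : UnitAddCircle | ‖z - D • y‖ ≤ ρ} :=
    (isClosed_le (by fun_prop) continuous_const).measurableSet
  have hL : (0 : ℝ) < LL m := by exact_mod_cast LL_pos m
  by_cases hcase : 2 * η ≤ (Measure.map (fun x : UnitAddCircle => D • x) μ).real
      {z | ‖z - D • y‖ ≤ ρ}
  · have hsub : {x | x ∉ near D K ∧ ‖D • (x - y)‖ ≤ ρ} ⊆
        {x | D • x ∈ offSet (LL m) κ₀} ∪
          {x | 1 / (K : ℝ) ≤ ‖D • x‖ ∧ ‖D • x‖ ≤ 2 ^ (m + 1) * ρ} := by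
      rintro x ⟨h1, h2⟩
      rw [smul_sub] at h2
      have h3 := heavy hνi.1 hm (D • y) hcase h2
      by_cases h4 : (LL m * (2 ^ (m + 1) * ρ)) / LL m < ‖D • x‖
      · left
        exact offSet_mono (LL_pos m) hρ hκ₀ ⟨h3, h4⟩
      · right
        rw [not_lt, mul_div_assoc, mul_comm, div_mul_cancel₀ _ hL.ne'] at h4
        refine ⟨?_, h4⟩
        by_contra hcon
        exact h1 (not_le.1 hcon).le
    refine (measureReal_mono hsub (measure_ne_top _ _)).trans ((measureReal_union_le _ _).trans ?_)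
    linarith
  · rw [not_le, map_measureReal_apply hDm hBm] at hcase
    refine le_trans (measureReal_mono ?_ (measure_ne_top _ _)) hcase.le
    rintro x ⟨-, h2⟩
    rw [smul_sub] at h2
    exact h2

/-- **The main estimate.** -/
theorem profile {ε : ℝ} (hε : 0 < ε) : ∃ (L : ℕ) (η : ℝ), 0 < L ∧ 0 < η ∧ ∀ κ₀ : ℝ, 0 < κ₀ →
    κ₀ ≤ 1 / 2 → ∃ K₀ : ℕ, 1 ≤ K₀ ∧ ∀ μ : Measure UnitAddCircle, IsProbabilityMeasure μ → Inv μ →
      ∀ D : ℕ, μ.real {x | D • x ∈ offSet L κ₀} ≤ η → ∀ K : ℕ, K₀ ≤ K →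
        ∀ φ : UnitAddCircle → ℂ, Measurable φ → (∀ x, ‖φ x‖ ≤ 1) →
          ∑ k ∈ Finset.range K, ‖(∫ x, φ x * (fourier ((D : ℤ) * k) x : ℂ) ∂μ) -
            ∫ x in near D K, φ x ∂μ‖ ^ 2 ≤ ε * K := by
  classical
  set η : ℝ := min 1 (ε / 24) with hηdef
  have hη : 0 < η := by positivity
  have hη1 : η ≤ 1 := min_le_left _ _
  have hηε : 24 * η ≤ ε := by
    have := min_le_right 1 (ε / 24)
    linarith
  obtain ⟨m, hm⟩ := exists_nat_ge (1 / (2 * η))
  have hm' : 1 < (m + 1) * (2 * η) := by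
    rw [div_le_iff₀ (by positivity)] at hm
    linarith
  refine ⟨LL m, η, LL_pos m, hη, fun κ₀ hκ0 hκ₀ => ?_⟩
  have hL : (0 : ℝ) < LL m := by exact_mod_cast LL_pos m
  obtain ⟨K₁, hK₁, hs1⟩ := shell hη
  obtain ⟨K₂, hK₂, hs2⟩ := shell' (C := 2 ^ (m + 1) / (2 * η) + 1) hη (by
    have : 0 < (2 : ℝ) ^ (m + 1) / (2 * η) := by positivity
    linarith)
  obtain ⟨K₃, hK₃⟩ := exists_nat_ge (LL m * 2 ^ (m + 1) / (2 * η * κ₀) + 2 * Real.pi / η)
  refine ⟨K₁ + K₂ + K₃, by omega, fun μ hμ hi D hoff K hK φ hφ hφ1 => ?_⟩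
  have hKpos : (0 : ℝ) < K := by exact_mod_cast (by omega : 0 < K)
  have hK3 : LL m * 2 ^ (m + 1) / (2 * η * κ₀) + 2 * Real.pi / η ≤ K :=
    hK₃.trans (by exact_mod_cast (by omega : K₃ ≤ K))
  have hpi := Real.pi_pos
  set ρ : ℝ := 1 / (2 * η * K) with hρ
  have hρ0 : 0 < ρ := by positivity
  -- the two parts
  set ψ : UnitAddCircle → ℂ := (near D K)ᶜ.indicator φ with hψ
  have hnm := near_meas D K
  have hψm : Measurable ψ := hφ.indicator hnm.compl
  have hψ1 : ∀ x, ‖ψ x‖ ≤ 1 := by
    intro x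
    rw [hψ]
    refine (norm_indicator_le_norm_self _ _).trans (hφ1 x)
  have hF : ∀ n : ℤ, Measurable fun x : UnitAddCircle => (fourier n x : ℂ) :=
    fun n => (cont_fourier n).measurable
  have hint : ∀ n : ℤ, Integrable (fun x => φ x * (fourier n x : ℂ)) μ := fun n =>
    int_of_bdd (hφ.mul (hF n)) (C := 1) fun x => by
      rw [norm_mul, Pool.Agent.TH654.FC.norm_fourier_eq, mul_one]
      exact hφ1 x
  have hφi : Integrable φ μ := int_of_bdd hφ hφ1
  have hsplit : ∀ k : ℕ, (∫ x, φ x * (fourier ((D : ℤ) * k) x : ℂ) ∂μ) -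
      ∫ x in near D K, φ x ∂μ = (∫ x, ψ x * (fourier ((D : ℤ) * k) x : ℂ) ∂μ) +
        ∫ x in near D K, φ x * ((fourier ((D : ℤ) * k) x : ℂ) - 1) ∂μ := by
    intro k
    rw [← integral_add_compl hnm (hint _)]
    have h1 : ∫ x in (near D K)ᶜ, φ x * (fourier ((D : ℤ) * k) x : ℂ) ∂μ =
        ∫ x, ψ x * (fourier ((D : ℤ) * k) x : ℂ) ∂μ := by
      rw [← integral_indicator hnm.compl]
      refine integral_congr_ae (Filter.Eventually.of_forall fun x => ?_)
      show (near D K)ᶜ.indicator (fun x => φ x * (fourier ((D : ℤ) * k) x : ℂ)) x =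
        (near D K)ᶜ.indicator φ x * (fourier ((D : ℤ) * k) x : ℂ)
      by_cases hx : x ∈ (near D K)ᶜ
      · rw [Set.indicator_of_mem hx, Set.indicator_of_mem hx]
      · rw [Set.indicator_of_notMem hx, Set.indicator_of_notMem hx, zero_mul]
    have h2 : ∫ x in near D K, φ x * ((fourier ((D : ℤ) * k) x : ℂ) - 1) ∂μ =
        (∫ x in near D K, φ x * (fourier ((D : ℤ) * k) x : ℂ) ∂μ) - ∫ x in near D K, φ x ∂μ := by
      rw [← integral_sub (hint _).integrableOn hφi.integrableOn]
      refine integral_congr_ae (Filter.Eventually.of_forall fun x => ?_)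
      show _ = _ - _
      ring
    rw [h1, h2]
    ring
  -- the part far from the torsion
  have hA : ∑ k ∈ Finset.range K, ‖∫ x, ψ x * (fourier ((D : ℤ) * k) x : ℂ) ∂μ‖ ^ 2 ≤
      3 * η * K := by
    refine (ms hψm hψ1 D K).trans ?_
    have hSm : Measurable fun p : UnitAddCircle × UnitAddCircle =>
        ‖∑ k ∈ Finset.range K, (fourier ((D : ℤ) * k) (p.1 - p.2) : ℂ)‖ := by
      have : Continuous fun p : UnitAddCircle × UnitAddCircle =>
          ‖∑ k ∈ Finset.range K, (fourier ((D : ℤ) * k) (p.1 - p.2) : ℂ)‖ := by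
        refine (continuous_finsetSum _ fun k _ => ?_).norm
        exact (cont_fourier _).comp (continuous_fst.sub continuous_snd)
      exact this.measurable
    set E : Set (UnitAddCircle × UnitAddCircle) :=
      {p | p.1 ∉ near D K ∧ ‖D • (p.1 - p.2)‖ ≤ ρ} with hE
    have hEm : MeasurableSet E := by
      have h1 : MeasurableSet {p : UnitAddCircle × UnitAddCircle | p.1 ∈ (near D K)ᶜ} :=
        measurable_fst hnm.compl
      have h2 : MeasurableSet {p : UnitAddCircle × UnitAddCircle | ‖D • (p.1 - p.2)‖ ≤ ρ} :=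
        (isClosed_le (by fun_prop) continuous_const).measurableSet
      exact h1.inter h2
    have hEle : (μ.prod μ).real E ≤ 2 * η := by
      rw [measureReal_def]
      refine ENNReal.toReal_le_of_le_ofReal (by positivity) ?_
      rw [Measure.prod_apply_symm hEm]
      calc ∫⁻ y, μ ((fun x => (x, y)) ⁻¹' E) ∂μ ≤ ∫⁻ _, ENNReal.ofReal (2 * η) ∂μ := by
            refine lintegral_mono fun y => ?_
            have h1 := arc_far hi hm' hκ₀ (D := D) (K := K) hoff (ρ := ρ) (by
              rw [hρ]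
              have h2 : LL m * 2 ^ (m + 1) / (2 * η * κ₀) ≤ K := by
                have : 0 < 2 * Real.pi / η := by positivity
                linarith
              rw [div_le_iff₀ (by positivity)] at h2
              rw [← mul_assoc, mul_one_div, div_le_iff₀ (by positivity)]
              linarith) (by
              have h2 := hs2 K (by omega) μ hμ hi D
              refine le_trans (measureReal_mono ?_ (measure_ne_top _ _)) h2
              rintro x ⟨h3, h4⟩
              refine ⟨h3, h4.trans ?_⟩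
              rw [hρ, mul_one_div, div_le_div_iff₀ (by positivity) hKpos]
              have : 2 ^ (m + 1) * (K : ℝ) = 2 ^ (m + 1) / (2 * η) * (2 * η * K) := by
                field_simp
              rw [this]
              have : 0 < 2 * η * (K : ℝ) := by positivity
              nlinarith) y
            have h3 : (fun x => (x, y)) ⁻¹' E = {x | x ∉ near D K ∧ ‖D • (x - y)‖ ≤ ρ} := rfl
            rw [h3, ← ENNReal.ofReal_toReal (measure_ne_top μ _)]
            exact ENNReal.ofReal_le_ofReal h1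
        _ = ENNReal.ofReal (2 * η) := by simp
    have hpt : ∀ p : UnitAddCircle × UnitAddCircle, ‖ψ p.1‖ * ‖ψ p.2‖ *
        ‖∑ k ∈ Finset.range K, (fourier ((D : ℤ) * k) (p.1 - p.2) : ℂ)‖ ≤
        E.indicator (fun _ => (K : ℝ)) p + η * K := by
      intro p
      by_cases hp1 : p.1 ∈ near D K
      · have : ψ p.1 = 0 := by
          rw [hψ]
          exact Set.indicator_of_notMem (show p.1 ∉ (near D K)ᶜ from fun h => h hp1) _
        rw [this, norm_zero, zero_mul, zero_mul]
        have h0 : 0 ≤ E.indicator (fun _ => (K : ℝ)) p :=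
          Set.indicator_nonneg (fun _ _ => hKpos.le) _
        positivity
      · have h1 : ‖ψ p.1‖ * ‖ψ p.2‖ *
            ‖∑ k ∈ Finset.range K, (fourier ((D : ℤ) * k) (p.1 - p.2) : ℂ)‖ ≤
            ‖∑ k ∈ Finset.range K, (fourier ((D : ℤ) * k) (p.1 - p.2) : ℂ)‖ := by
          have h2 : ‖ψ p.1‖ * ‖ψ p.2‖ ≤ 1 * 1 := by
            gcongr
            · exact hψ1 _
            · exact hψ1 _
          rw [one_mul] at h2
          exact mul_le_of_le_one_left (norm_nonneg _) h2
        refine h1.trans ?_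
        by_cases hp2 : ‖D • (p.1 - p.2)‖ ≤ ρ
        · rw [Set.indicator_of_mem (show p ∈ E from ⟨hp1, hp2⟩)]
          have := sum_fourier_le (D : ℤ) K (p.1 - p.2)
          have h3 : 0 ≤ η * K := by positivity
          linarith
        · rw [Set.indicator_of_notMem (fun h => hp2 h.2), zero_add]
          rw [not_le] at hp2
          have hz : (D : ℤ) • (p.1 - p.2) ≠ 0 := by
            rw [natCast_zsmul]
            exact norm_pos_iff.1 (hρ0.trans hp2)
          have h3 := geo (D : ℤ) 0 (p.1 - p.2) hz K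
          simp only [add_zero] at h3
          refine h3.trans ?_
          rw [natCast_zsmul]
          calc 1 / (2 * ‖D • (p.1 - p.2)‖) ≤ 1 / (2 * ρ) := by gcongr
            _ = η * K := by rw [hρ]; field_simp
    have hI1 : Integrable (fun p : UnitAddCircle × UnitAddCircle => ‖ψ p.1‖ * ‖ψ p.2‖ *
        ‖∑ k ∈ Finset.range K, (fourier ((D : ℤ) * k) (p.1 - p.2) : ℂ)‖) (μ.prod μ) := by
      refine int_of_bdd' (C := (K : ℝ)) (((hψm.comp measurable_fst).norm.mul
        (hψm.comp measurable_snd).norm).mul hSm) fun p => ?_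
      rw [Real.norm_of_nonneg (by positivity)]
      have h2 : ‖ψ p.1‖ * ‖ψ p.2‖ ≤ 1 * 1 := by
        gcongr
        · exact hψ1 _
        · exact hψ1 _
      rw [one_mul] at h2
      exact (mul_le_of_le_one_left (norm_nonneg _) h2).trans (sum_fourier_le _ _ _)
    have hI2 : Integrable (fun p => E.indicator (fun _ => (K : ℝ)) p + η * K) (μ.prod μ) :=
      ((integrable_const _).indicator hEm).add (integrable_const _)
    refine (integral_mono hI1 hI2 hpt).trans ?_
    rw [integral_add ((integrable_const _).indicator hEm) (integrable_const _),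
      integral_indicator hEm]
    simp only [integral_const, smul_eq_mul, measureReal_restrict_apply_univ, probReal_univ, one_mul]
    nlinarith [mul_le_mul_of_nonneg_right hEle hKpos.le]
  -- the part close to the torsion
  have hB : ∀ k ∈ Finset.range K,
      ‖∫ x in near D K, φ x * ((fourier ((D : ℤ) * k) x : ℂ) - 1) ∂μ‖ ≤ 3 * η := by
    intro k hk
    rw [Finset.mem_range] at hk
    set S : Set UnitAddCircle := {x | 1 / (K : ℝ) ^ 2 ≤ ‖D • x‖ ∧ ‖D • x‖ ≤ 1 / K} with hS
    have hSm : MeasurableSet S := by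
      have h1 : MeasurableSet {x : UnitAddCircle | 1 / (K : ℝ) ^ 2 ≤ ‖D • x‖} :=
        (isClosed_le continuous_const (by fun_prop)).measurableSet
      exact h1.inter hnm
    have hSle : μ.real S ≤ η := hs1 K (by omega) μ hμ hi D
    have hpt : ∀ x ∈ near D K, ‖φ x * ((fourier ((D : ℤ) * k) x : ℂ) - 1)‖ ≤
        S.indicator (fun _ => (2 : ℝ)) x + η := by
      intro x hx
      rw [norm_mul]
      have h1 : ‖φ x‖ * ‖(fourier ((D : ℤ) * k) x : ℂ) - 1‖ ≤ ‖(fourier ((D : ℤ) * k) x : ℂ) - 1‖ :=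
        mul_le_of_le_one_left (norm_nonneg _) (hφ1 x)
      refine h1.trans ?_
      by_cases hxS : x ∈ S
      · rw [Set.indicator_of_mem hxS]
        have h2 : ‖(fourier ((D : ℤ) * k) x : ℂ) - 1‖ ≤ 2 := by
          refine (norm_sub_le _ _).trans ?_
          rw [Pool.Agent.TH654.FC.norm_fourier_eq, norm_one]
          norm_num
        linarith
      · rw [Set.indicator_of_notMem hxS, zero_add]
        have h2 : ‖D • x‖ ≤ 1 / (K : ℝ) ^ 2 := by
          by_contra hcon
          exact hxS ⟨(not_le.1 hcon).le, hx⟩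
        have h3 : ‖((D : ℤ) * k) • x‖ ≤ k * (1 / (K : ℝ) ^ 2) := by
          rw [mul_comm, mul_smul, natCast_zsmul, natCast_zsmul]
          exact (norm_nsmul_le' k _).trans (by gcongr)
        rw [Pool.Agent.TH654.FC.fourier_eq_one]
        refine (Pool.Agent.TH654.FC.fourier_sub_one_le _).trans ?_
        have h4 : (k : ℝ) ≤ K := by exact_mod_cast hk.le
        have h5 : (k : ℝ) * (1 / (K : ℝ) ^ 2) ≤ 1 / (K : ℝ) := by
          calc (k : ℝ) * (1 / (K : ℝ) ^ 2) ≤ (K : ℝ) * (1 / (K : ℝ) ^ 2) := by gcongr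
            _ = 1 / (K : ℝ) := by field_simp
        have h6 : 2 * Real.pi / η ≤ K := by
          have : 0 < (LL m : ℝ) * 2 ^ (m + 1) / (2 * η * κ₀) := by positivity
          linarith
        rw [div_le_iff₀ hη] at h6
        calc 2 * Real.pi * ‖((D : ℤ) * k) • x‖ ≤ 2 * Real.pi * (1 / (K : ℝ)) := by
              gcongr
              exact h3.trans h5
          _ = 2 * Real.pi / K := by ring
          _ ≤ η := by
              rw [div_le_iff₀ hKpos]
              linarith
    have hI : Integrable (fun x => S.indicator (fun _ => (2 : ℝ)) x + η) μ :=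
      ((integrable_const _).indicator hSm).add (integrable_const _)
    calc ‖∫ x in near D K, φ x * ((fourier ((D : ℤ) * k) x : ℂ) - 1) ∂μ‖ ≤
          ∫ x in near D K, ‖φ x * ((fourier ((D : ℤ) * k) x : ℂ) - 1)‖ ∂μ :=
          norm_integral_le_integral_norm _
      _ ≤ ∫ x in near D K, (S.indicator (fun _ => (2 : ℝ)) x + η) ∂μ := by
          refine setIntegral_mono_on ?_ hI.integrableOn hnm hpt
          refine Integrable.integrableOn ?_
          refine (int_of_bdd (f := fun x => φ x * ((fourier ((D : ℤ) * k) x : ℂ) - 1)) (C := 2)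
            (hφ.mul ((hF _).sub measurable_const)) fun x => ?_).norm
          rw [norm_mul]
          have h2 : ‖(fourier ((D : ℤ) * k) x : ℂ) - 1‖ ≤ 2 := by
            refine (norm_sub_le _ _).trans ?_
            rw [Pool.Agent.TH654.FC.norm_fourier_eq, norm_one]
            norm_num
          exact (mul_le_of_le_one_left (norm_nonneg _) (hφ1 x)).trans h2
      _ ≤ ∫ x, (S.indicator (fun _ => (2 : ℝ)) x + η) ∂μ := by
          refine setIntegral_le_integral hI (Filter.Eventually.of_forall fun x => ?_)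
          have : 0 ≤ S.indicator (fun _ => (2 : ℝ)) x :=
            Set.indicator_nonneg (fun _ _ => by norm_num) _
          show 0 ≤ S.indicator (fun _ => (2 : ℝ)) x + η
          linarith
      _ ≤ 3 * η := by
          rw [integral_add ((integrable_const _).indicator hSm) (integrable_const _),
            integral_indicator hSm]
          simp only [integral_const, smul_eq_mul, measureReal_restrict_apply_univ, probReal_univ,
            one_mul]
          linarith
  calc ∑ k ∈ Finset.range K, ‖(∫ x, φ x * (fourier ((D : ℤ) * k) x : ℂ) ∂μ) -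
        ∫ x in near D K, φ x ∂μ‖ ^ 2 ≤ ∑ k ∈ Finset.range K,
        (2 * ‖∫ x, ψ x * (fourier ((D : ℤ) * k) x : ℂ) ∂μ‖ ^ 2 + 2 * (3 * η) ^ 2) := by
        refine Finset.sum_le_sum fun k hk => ?_
        rw [hsplit k]
        have h1 := norm_add_le (∫ x, ψ x * (fourier ((D : ℤ) * k) x : ℂ) ∂μ)
          (∫ x in near D K, φ x * ((fourier ((D : ℤ) * k) x : ℂ) - 1) ∂μ)
        have h2 := hB k hk
        have h3 := norm_nonneg ((∫ x, ψ x * (fourier ((D : ℤ) * k) x : ℂ) ∂μ) +
          ∫ x in near D K, φ x * ((fourier ((D : ℤ) * k) x : ℂ) - 1) ∂μ)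
        have h4 := norm_nonneg (∫ x, ψ x * (fourier ((D : ℤ) * k) x : ℂ) ∂μ)
        have h5 := norm_nonneg (∫ x in near D K, φ x * ((fourier ((D : ℤ) * k) x : ℂ) - 1) ∂μ)
        have h6 : ‖(∫ x, ψ x * (fourier ((D : ℤ) * k) x : ℂ) ∂μ) +
            ∫ x in near D K, φ x * ((fourier ((D : ℤ) * k) x : ℂ) - 1) ∂μ‖ ≤
            ‖∫ x, ψ x * (fourier ((D : ℤ) * k) x : ℂ) ∂μ‖ + 3 * η := by linarith
        have h7 := pow_le_pow_left₀ h3 h6 2
        nlinarith [sq_nonneg (‖∫ x, ψ x * (fourier ((D : ℤ) * k) x : ℂ) ∂μ‖ - 3 * η)]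
    _ = 2 * (∑ k ∈ Finset.range K, ‖∫ x, ψ x * (fourier ((D : ℤ) * k) x : ℂ) ∂μ‖ ^ 2) +
        K * (2 * (3 * η) ^ 2) := by
        rw [Finset.sum_add_distrib, Finset.mul_sum, Finset.sum_const, Finset.card_range,
          nsmul_eq_mul]
    _ ≤ 2 * (3 * η * K) + K * (2 * (3 * η) ^ 2) := by gcongr
    _ ≤ ε * K := by
        have h1 : 6 * η + 18 * η ^ 2 ≤ ε := by nlinarith
        nlinarith [mul_le_mul_of_nonneg_right h1 hKpos.le]

end Run7.h88
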