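import Mathlib
import Pool.Agent.Run7.h88.Profile
import Pool.Agent.TH654.FC.Atoms

/-!
Weak limits: the masses of open and closed sets, and the torsion part of the limit.
-/

set_option autoImplicit false

open MeasureTheory Set Filter Topology

namespace Run7.h88

open Pool.Agent.TH654.FC (Tors)

section port

variable {X : Type*} [MeasurableSpace X] [TopologicalSpace X] [OpensMeasurableSpace X]
  [HasOuterApproxClosed X] {ι : Type*} {L : Filter ι} {μ : ι → ProbabilityMeasure X}
  {ν : ProbabilityMeasure X}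

lemma ev_closed (h : Tendsto μ L (𝓝 ν)) {F : Set X} (hF : IsClosed F) {r : ℝ}
    (hr : (ν : Measure X).real F < r) : ∀ᶠ i in L, (μ i : Measure X).real F < r := by
  have h1 := ProbabilityMeasure.limsup_measure_closed_le_of_tendsto h hF
  have hr0 : 0 < r := lt_of_le_of_lt measureReal_nonneg hr
  have h2 : (ν : Measure X) F < ENNReal.ofReal r := by
    rw [← ENNReal.ofReal_toReal (measure_ne_top (ν : Measure X) F)]
    exact (ENNReal.ofReal_lt_ofReal_iff hr0).2 hr
  filter_upwards [eventually_lt_of_limsup_lt (h1.trans_lt h2)] with i hi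
  rw [measureReal_def]
  exact ENNReal.toReal_lt_of_lt_ofReal hi

lemma ev_open (h : Tendsto μ L (𝓝 ν)) {G : Set X} (hG : IsOpen G) {r : ℝ}
    (hr : r < (ν : Measure X).real G) : ∀ᶠ i in L, r < (μ i : Measure X).real G := by
  have h1 := ev_closed h hG.isClosed_compl (r := 1 - r) (by
    rw [probReal_compl_eq_one_sub hG.measurableSet]
    linarith)
  filter_upwards [h1] with i hi
  rw [probReal_compl_eq_one_sub hG.measurableSet] at hi
  linarith

end port

/-- the torsion is exhausted by the points of order dividing `n!` -/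
lemma tors_level (ν : Measure UnitAddCircle) [IsProbabilityMeasure ν] {η : ℝ} (hη : 0 < η) :
    ∃ D : ℕ, 1 ≤ D ∧ ν.real (Tors \ {x | D • x = 0}) < η := by
  set T : ℕ → Set UnitAddCircle := fun n => {x | n.factorial • x = 0} with hT
  have hmono : Monotone T := by
    intro a b hab x hx
    obtain ⟨q, hq⟩ := Nat.factorial_dvd_factorial hab
    show b.factorial • x = 0
    rw [hq, mul_comm, mul_smul]
    have : a.factorial • x = 0 := hx
    rw [this, smul_zero]
  have hU : (⋃ n, T n) = Tors := by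
    ext x
    rw [mem_iUnion]
    constructor
    · rintro ⟨n, hn⟩
      exact ⟨n.factorial, Nat.factorial_pos n, hn⟩
    · rintro ⟨n, hn1, hn⟩
      refine ⟨n, ?_⟩
      obtain ⟨q, hq⟩ := Nat.dvd_factorial hn1 le_rfl
      show n.factorial • x = 0
      rw [hq, mul_comm, mul_smul, hn, smul_zero]
  have h1 := tendsto_measure_iUnion_atTop (μ := ν) hmono
  rw [hU] at h1
  have h2 : Tendsto (fun n => ν.real (T n)) atTop (𝓝 (ν.real Tors)) :=
    (ENNReal.tendsto_toReal (measure_ne_top _ _)).comp h1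
  obtain ⟨n, hn⟩ := (h2.eventually (lt_mem_nhds (show ν.real Tors - η < ν.real Tors by linarith))).exists
  refine ⟨n.factorial, Nat.factorial_pos n, ?_⟩
  have hTm : MeasurableSet (T n) := (smul_meas _) (measurableSet_singleton 0)
  have hsub : T n ⊆ Tors := by
    rw [← hU]
    exact subset_iUnion _ n
  show ν.real (Tors \ T n) < η
  rw [measureReal_sdiff hsub hTm]
  linarith

/-- the neighbourhoods of the torsion points outside the kernel of `D` -/
def offC (L D : ℕ) (κ : ℝ) : Set UnitAddCircle :=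
  {x | ‖L • (D • x)‖ ≤ κ ∧ 1 / (2 * (L : ℝ)) ≤ ‖D • x‖}

lemma offC_closed (L D : ℕ) (κ : ℝ) : IsClosed (offC L D κ) := by
  have h1 : IsClosed {x : UnitAddCircle | ‖L • (D • x)‖ ≤ κ} :=
    isClosed_le (by fun_prop) continuous_const
  have h2 : IsClosed {x : UnitAddCircle | 1 / (2 * (L : ℝ)) ≤ ‖D • x‖} :=
    isClosed_le continuous_const (by fun_prop)
  exact h1.inter h2

lemma off_sub {L D : ℕ} (hL : 0 < L) {κ : ℝ} :
    {x : UnitAddCircle | D • x ∈ offSet L κ} ⊆ offC L D κ := by
  rintro x ⟨h1, h2⟩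
  refine ⟨h1, ?_⟩
  have hLR : (0 : ℝ) < L := by exact_mod_cast hL
  by_contra hcon
  rw [not_le, lt_div_iff₀ (by positivity)] at hcon
  have h3 := Pool.Agent.TH654.FC.nsmul_norm_eq (x := D • x) L (by linarith)
  rw [h3] at h1
  rw [div_lt_iff₀ hLR] at h2
  linarith

lemma exists_kappa (ν : Measure UnitAddCircle) [IsProbabilityMeasure ν] {L D : ℕ} (hL : 0 < L)
    (hD : 1 ≤ D) {η : ℝ} (h : ν.real (Tors \ {x | D • x = 0}) < η) :
    ∃ κ : ℝ, 0 < κ ∧ κ ≤ 1 / 2 ∧ ν.real (offC L D κ) < η := by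
  have hLR : (0 : ℝ) < L := by exact_mod_cast hL
  have hanti : Antitone fun n : ℕ => offC L D (1 / ((n : ℝ) + 2)) := by
    rintro a b hab x ⟨h1, h2⟩
    refine ⟨h1.trans ?_, h2⟩
    have : (a : ℝ) ≤ b := by exact_mod_cast hab
    gcongr
  have h1 := tendsto_measure_iInter_atTop (μ := ν)
    (fun n : ℕ => (offC_closed L D (1 / ((n : ℝ) + 2))).measurableSet.nullMeasurableSet) hanti
    ⟨0, measure_ne_top _ _⟩
  have hsub : (⋂ n : ℕ, offC L D (1 / ((n : ℝ) + 2))) ⊆ Tors \ {x | D • x = 0} := by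
    intro x hx
    rw [mem_iInter] at hx
    have h2 : ‖L • (D • x)‖ ≤ 0 := by
      refine ge_of_tendsto' (f := fun n : ℕ => 1 / ((n : ℝ) + 2)) (x := atTop) ?_
        (fun n => (hx n).1)
      have h3 : Tendsto (fun n : ℕ => (n : ℝ) + 2) atTop atTop :=
        tendsto_atTop_add_const_right _ _ tendsto_natCast_atTop_atTop
      have h4 := h3.inv_tendsto_atTop
      refine h4.congr fun n => ?_
      rw [Pi.inv_apply, one_div]
    have h3 : L • (D • x) = 0 := norm_le_zero_iff.1 h2
    refine ⟨⟨L * D, Nat.mul_pos hL hD, by rw [mul_smul]; exact h3⟩, ?_⟩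
    intro h4
    have h5 := (hx 0).2
    rw [show D • x = 0 from h4, norm_zero] at h5
    have : 0 < 1 / (2 * (L : ℝ)) := by positivity
    linarith
  have h2 : ν.real (⋂ n : ℕ, offC L D (1 / ((n : ℝ) + 2))) < η :=
    (measureReal_mono hsub (measure_ne_top _ _)).trans_lt h
  have h3 : Tendsto (fun n : ℕ => ν.real (offC L D (1 / ((n : ℝ) + 2)))) atTop
      (𝓝 (ν.real (⋂ n : ℕ, offC L D (1 / ((n : ℝ) + 2))))) :=
    (ENNReal.tendsto_toReal (measure_ne_top _ _)).comp h1
  obtain ⟨n, hn⟩ := (h3.eventually (gt_mem_nhds h2)).exists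
  refine ⟨1 / ((n : ℝ) + 2), by positivity, ?_, hn⟩
  rw [div_le_div_iff₀ (by positivity) (by norm_num)]
  have : (0 : ℝ) ≤ n := Nat.cast_nonneg _
  linarith

end Run7.h88
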