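import Mathlib
import Pool.Agent.Run7.h88.Port
import Pool.Agent.Run7.h88.Joint

/-!
If the weak limit of ergodic finitely supported measures has an atomic part of mass at least `c`,
then small dilates of the measures are close to `c δ₀ + (1 - c) λ`.
-/

set_option autoImplicit false

open MeasureTheory Set Filter Topology

namespace Run7.h88

open Pool.Agent.TH654.FC (Tors)

lemma atoms_le_N {μ : Measure UnitAddCircle} (h : EF μ) {N : ℕ} (hN : 1 ≤ N)
    (htor : ∀ᵐ x ∂μ, N • x = 0) : (atoms μ).ncard ≤ N := by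
  have := h.prob
  have h1 := one_le_of_atoms (b := 1) hN htor (η := 1 / (atoms μ).ncard) (by
    intro y
    simpa using atom_le h y)
  have h2 : (0 : ℝ) < (atoms μ).ncard := by exact_mod_cast atoms_pos h
  rw [mul_one_div, le_div_iff₀ h2, one_mul] at h1
  exact_mod_cast h1

/-- the mass near the kernel of `D` at the scale `N ^ (-δ)` -/
lemma near_small {δ η : ℝ} (hδ : 0 < δ) (hη : 0 < η) (D : ℕ) (hD : 1 ≤ D) : ∃ M : ℕ,
    ∀ μ : Measure UnitAddCircle, EF μ → ∀ N : ℕ, 1 ≤ N → (∀ᵐ x ∂μ, N • x = 0) →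
    M ≤ (atoms μ).ncard → ∀ K : ℕ, (N : ℝ) ^ δ < K → μ.real (near D K) ≤ η := by
  obtain ⟨N₀, hfar⟩ := far (δ := δ) (ε := η / 2) hδ (by positivity) 1
  obtain ⟨M, hM⟩ := exists_nat_ge (6 * D / η)
  refine ⟨N₀ + M + 1, fun μ hμ N hN htor hcard K hK => ?_⟩
  have := hμ.prob
  have hle := atoms_le_N hμ hN htor
  have hDR : (0 : ℝ) < D := by exact_mod_cast hD
  have hpos : (0 : ℝ) < (atoms μ).ncard := by exact_mod_cast atoms_pos hμ
  have hNpos : (0 : ℝ) < N := by exact_mod_cast hN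
  have h1 := hfar N (by omega) μ hμ.prob hμ.inv htor (D : ℤ) (D / (atoms μ).ncard) (by positivity)
    (by
      intro D' hD' hD'1
      have h2 := fiber_le hμ (b := (D : ℤ)) (by exact_mod_cast (by omega : D ≠ 0)) 0
      refine le_trans (measureReal_mono ?_ (measure_ne_top _ _)) (h2.trans (by simp))
      intro x hx
      have hx' : D' • ((D : ℤ) • x) = 0 := hx
      have : D' = 1 ∨ D' = -1 := by
        rw [Nat.cast_one, abs_le] at hD'1
        omega
      show (D : ℤ) • x = 0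
      rcases this with h | h
      · rw [h, one_smul] at hx'
        exact hx'
      · rw [h, neg_smul, one_smul, neg_eq_zero] at hx'
        exact hx')
  have h3 : near D K ⊆ nearSet 1 (D : ℤ) ((N : ℝ) ^ (-δ)) := by
    intro x hx
    refine ⟨1, one_ne_zero, by simp, ?_⟩
    rw [one_smul, natCast_zsmul]
    have hx' : ‖D • x‖ ≤ 1 / K := hx
    refine lt_of_le_of_lt hx' ?_
    rw [Real.rpow_neg hNpos.le, ← one_div]
    have : 0 < (N : ℝ) ^ δ := by positivity
    gcongr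
  refine (measureReal_mono h3 (measure_ne_top _ _)).trans (h1.trans ?_)
  have h4 : (6 : ℝ) * D / η ≤ (atoms μ).ncard := hM.trans (by exact_mod_cast (by omega))
  rw [div_le_iff₀ hη] at h4
  have h5 : (D : ℝ) / (atoms μ).ncard ≤ η / 6 := by
    rw [div_le_iff₀ hpos]
    linarith
  push_cast
  linarith

/-- a pigeonhole argument for multiples -/
lemma pick {f : ℕ → ℝ} (hf : ∀ k, 0 ≤ f k) {K J : ℕ} (hJ : 1 ≤ J) (hK : 2 * J ≤ K) {ε : ℝ}
    (h : ∑ k ∈ Finset.range K, f k ≤ ε ^ 2 / (4 * (J : ℝ) ^ 2) * K) :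
    ∃ m : ℕ, 1 ≤ m ∧ m ≤ K ∧ ∀ j : ℕ, 1 ≤ j → j ≤ J → f (j * m) ≤ ε ^ 2 := by
  classical
  have hJR : (0 : ℝ) < J := by exact_mod_cast hJ
  have hKR : (0 : ℝ) < K := by exact_mod_cast (by omega : 0 < K)
  set M := (K - 1) / J with hM
  have hM1 : 1 ≤ M := by
    rw [hM, Nat.one_le_div_iff (by omega)]
    omega
  have hJM : J * M ≤ K - 1 := Nat.mul_div_le _ _
  have hM2 : K ≤ 2 * J * M := by
    have h1 := Nat.lt_div_mul_add (a := K - 1) (b := J) (by omega)
    rw [← hM] at h1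
    have : M * J + J ≤ 2 * J * M := by nlinarith
    omega
  by_contra hcon
  push Not at hcon
  have h1 : ∀ m ∈ Finset.Icc 1 M, ε ^ 2 < ∑ j ∈ Finset.Icc 1 J, f (j * m) := by
    intro m hm
    rw [Finset.mem_Icc] at hm
    have hmK : m ≤ K := by nlinarith [Nat.sub_le K 1]
    obtain ⟨j, hj1, hj2, hj3⟩ := hcon m hm.1 hmK
    exact lt_of_lt_of_le hj3 (Finset.single_le_sum (f := fun j => f (j * m)) (fun _ _ => hf _)
      (Finset.mem_Icc.2 ⟨hj1, hj2⟩))
  have h2 : ∑ m ∈ Finset.Icc 1 M, ε ^ 2 < ∑ m ∈ Finset.Icc 1 M, ∑ j ∈ Finset.Icc 1 J, f (j * m) :=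
    Finset.sum_lt_sum_of_nonempty (Finset.nonempty_Icc.2 hM1) h1
  rw [Finset.sum_const, Nat.card_Icc, nsmul_eq_mul, Finset.sum_comm] at h2
  have h3 : ∀ j ∈ Finset.Icc 1 J, ∑ m ∈ Finset.Icc 1 M, f (j * m) ≤ ∑ k ∈ Finset.range K, f k := by
    intro j hj
    rw [Finset.mem_Icc] at hj
    have hinj : Set.InjOn (fun m : ℕ => j * m) (Finset.Icc 1 M : Finset ℕ) := by
      intro a _ b _ hab
      exact Nat.eq_of_mul_eq_mul_left (by omega) hab
    rw [← Finset.sum_image (f := f) (g := fun m : ℕ => j * m) hinj]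
    refine Finset.sum_le_sum_of_subset_of_nonneg ?_ fun _ _ _ => hf _
    intro k hk
    rw [Finset.mem_image] at hk
    obtain ⟨m, hm, rfl⟩ := hk
    rw [Finset.mem_Icc] at hm
    rw [Finset.mem_range]
    have : j * m ≤ J * M := Nat.mul_le_mul hj.2 hm.2
    omega
  have h4 := Finset.sum_le_sum h3
  rw [Finset.sum_const, Nat.card_Icc, nsmul_eq_mul] at h4
  have h5 : ((M + 1 - 1 : ℕ) : ℝ) * ε ^ 2 < J * (ε ^ 2 / (4 * (J : ℝ) ^ 2) * K) := by
    have e : ((J + 1 - 1 : ℕ) : ℝ) = J := by simp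
    rw [e] at h4
    calc ((M + 1 - 1 : ℕ) : ℝ) * ε ^ 2 < _ := h2
      _ ≤ _ := h4
      _ ≤ _ := by gcongr
  have h6 : (K : ℝ) ≤ 2 * J * M := by exact_mod_cast hM2
  have h7 : (J : ℝ) * (ε ^ 2 / (4 * (J : ℝ) ^ 2) * K) = ε ^ 2 * K / (4 * J) := by
    field_simp
  have h8 : ((M + 1 - 1 : ℕ) : ℝ) = M := by simp
  rw [h7, h8, lt_div_iff₀ (by positivity)] at h5
  have hM0 : (0 : ℝ) ≤ M := Nat.cast_nonneg _
  nlinarith [mul_le_mul_of_nonneg_left h6 (sq_nonneg ε), mul_nonneg (mul_nonneg hJR.le hM0) (sq_nonneg ε)]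

theorem clemma {ι : Type*} {L : Filter ι} {μ : ι → ProbabilityMeasure UnitAddCircle}
    {ν : ProbabilityMeasure UnitAddCircle} (hlim : Tendsto μ L (𝓝 ν))
    (hEF : ∀ i, EF (μ i : Measure UnitAddCircle))
    (hcard : Tendsto (fun i => (atoms (μ i : Measure UnitAddCircle)).ncard) L atTop) {N : ι → ℕ}
    (hN : ∀ i, 1 ≤ N i) (htor : ∀ i x, (μ i : Measure UnitAddCircle) {x} ≠ 0 → N i • x = 0)
    {δ : ℝ} (hδ : 0 < δ) {c : ℝ} (hc0 : 0 ≤ c) (hc : c ≤ (ν : Measure UnitAddCircle).real Tors)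
    (J : ℕ) {ε : ℝ} (hε : 0 < ε) :
    ∀ᶠ i in L, ∃ k : ℕ, 1 ≤ k ∧ (k : ℝ) ≤ (N i : ℝ) ^ δ ∧ ∀ j : ℕ, 1 ≤ j → j ≤ J →
      ‖(∫ x, (fourier ((j * k : ℕ) : ℤ) x : ℂ) ∂(μ i : Measure UnitAddCircle)) - c‖ ≤ ε := by
  classical
  wlog hJ : 1 ≤ J generalizing J
  · have h1 := this 1 le_rfl
    filter_upwards [h1] with i hi
    obtain ⟨k, h2, h3, -⟩ := hi
    exact ⟨k, h2, h3, fun j hj1 hj2 => by omega⟩
  obtain ⟨L₀, η₀, hL₀, hη₀, hprof⟩ := profile (ε := (ε / 2) ^ 2 / (4 * (J : ℝ) ^ 2)) (by positivity)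
  set η : ℝ := min η₀ (ε / 2) with hη
  have hη0 : 0 < η := by positivity
  have hηε : η ≤ ε / 2 := min_le_right _ _
  obtain ⟨D, hD1, hD⟩ := tors_level (ν : Measure UnitAddCircle) hη0
  obtain ⟨κ, hκ0, hκ1, hκ⟩ := exists_kappa (ν : Measure UnitAddCircle) hL₀ hD1 hD
  obtain ⟨K₀, hK₀, hprof2⟩ := hprof κ hκ0 hκ1
  obtain ⟨K₁, hK₁, hshell⟩ := shell (η := η) hη0
  set K₂ : ℕ := K₀ + K₁ + 2 * J + 2 with hK₂
  obtain ⟨M, hM⟩ := near_small (δ := δ / 8) (η := η) (by positivity) hη0 D hD1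
  obtain ⟨N₁, hN₁⟩ := exists_nat_ge (((K₂ : ℝ) + D + 2) ^ (8 / δ))
  have hDR : (0 : ℝ) < D := by exact_mod_cast hD1
  -- the eventual properties
  have hA1 := ev_closed hlim (offC_closed L₀ D κ) hκ
  have hA2 : ∀ᶠ i in L, c - η < (μ i : Measure UnitAddCircle).real
      {x : UnitAddCircle | ‖D • x‖ < 1 / (K₂ : ℝ)} := by
    refine ev_open hlim (isOpen_lt (by fun_prop) continuous_const) ?_
    have h1 : Tors ⊆ {x : UnitAddCircle | ‖D • x‖ < 1 / (K₂ : ℝ)} ∪ (Tors \ {x | D • x = 0}) := by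
      intro x hx
      by_cases h0 : D • x = 0
      · left
        show ‖D • x‖ < 1 / (K₂ : ℝ)
        rw [h0, norm_zero]
        have : (0 : ℝ) < K₂ := by exact_mod_cast (by omega : 0 < K₂)
        positivity
      · exact Or.inr ⟨hx, h0⟩
    have h2 := (measureReal_mono h1 (measure_ne_top (ν : Measure UnitAddCircle) _)).trans
      (measureReal_union_le _ _)
    linarith
  have hA3 := hcard.eventually_ge_atTop (M + N₁ + 1)
  filter_upwards [hA1, hA2, hA3] with i hi1 hi2 hi3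
  have hpr := (hEF i).prob
  have htor' := (hEF i).ae_tor (htor i)
  have hNle := atoms_le_N (hEF i) (hN i) htor'
  have hNpos : (0 : ℝ) < N i := by exact_mod_cast hN i
  set t : ℝ := (N i : ℝ) ^ (δ / 8) with ht
  have ht1 : (K₂ : ℝ) + D + 2 ≤ t := by
    have h1 : ((K₂ : ℝ) + D + 2) ^ (8 / δ) ≤ N i := hN₁.trans (by exact_mod_cast (by omega))
    calc (K₂ : ℝ) + D + 2 = (((K₂ : ℝ) + D + 2) ^ (8 / δ)) ^ (δ / 8) := by
          rw [← Real.rpow_mul (by positivity)]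
          have : 8 / δ * (δ / 8) = 1 := by field_simp
          rw [this, Real.rpow_one]
      _ ≤ t := Real.rpow_le_rpow (by positivity) h1 (by positivity)
  have hK2R : (2 : ℝ) ≤ K₂ := by exact_mod_cast (by omega : 2 ≤ K₂)
  have ht2 : (2 : ℝ) ≤ t := by linarith
  have ht4 : (N i : ℝ) ^ (δ / 2) = t ^ 4 := by
    rw [ht, ← Real.rpow_natCast, ← Real.rpow_mul hNpos.le]
    congr 1
    push_cast
    ring
  have ht8 : (N i : ℝ) ^ δ = t ^ 8 := by
    rw [ht, ← Real.rpow_natCast, ← Real.rpow_mul hNpos.le]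
    congr 1
    push_cast
    ring
  set g : ℕ → ℝ := fun K => (μ i : Measure UnitAddCircle).real (near D K) with hg
  have hganti : ∀ K : ℕ, 1 ≤ K → g (K + 1) ≤ g K := by
    intro K hK
    refine measureReal_mono ?_ (measure_ne_top _ _)
    intro x hx
    have hx' : ‖D • x‖ ≤ 1 / ((K + 1 : ℕ) : ℝ) := hx
    show ‖D • x‖ ≤ 1 / (K : ℝ)
    refine hx'.trans ?_
    have : (0 : ℝ) < K := by exact_mod_cast hK
    push_cast
    gcongr
    linarith
  have hgslow : ∀ K : ℕ, K₂ ≤ K → g K ≤ g (K + 1) + η := by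
    intro K hK
    have h1 := hshell K (by omega) (μ i : Measure UnitAddCircle) hpr (hEF i).inv D
    have h2 : near D K ⊆ near D (K + 1) ∪ {x | 1 / (K : ℝ) ^ 2 ≤ ‖D • x‖ ∧ ‖D • x‖ ≤ 1 / K} := by
      intro x hx
      by_cases h3 : x ∈ near D (K + 1)
      · exact Or.inl h3
      · right
        refine ⟨?_, hx⟩
        have h4 : 1 / ((K + 1 : ℕ) : ℝ) < ‖D • x‖ := not_le.1 h3
        refine le_trans ?_ h4.le
        have h5 : (2 : ℝ) ≤ K := hK2R.trans (by exact_mod_cast hK)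
        push_cast
        gcongr
        nlinarith
    have h3 := (measureReal_mono h2 (measure_ne_top (μ i : Measure UnitAddCircle) _)).trans
      (measureReal_union_le _ _)
    show (μ i : Measure UnitAddCircle).real (near D K) ≤
      (μ i : Measure UnitAddCircle).real (near D (K + 1)) + η
    linarith
  set Kh : ℕ := ⌊(N i : ℝ) ^ (δ / 2)⌋₊ with hKh
  have hKh1 : (Kh : ℝ) ≤ t ^ 4 := by
    rw [← ht4]
    exact Nat.floor_le (by positivity)
  have hKh2 : t ^ 4 < Kh + 1 := by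
    rw [← ht4]
    exact Nat.lt_floor_add_one _
  have ht41 : t + 1 ≤ t ^ 4 := by
    have h1 : (2 : ℝ) ^ 3 ≤ t ^ 3 := pow_le_pow_left₀ (by norm_num) ht2 3
    calc t + 1 ≤ t * 8 := by linarith
      _ ≤ t * t ^ 3 := by
          apply mul_le_mul_of_nonneg_left _ (by linarith)
          linarith
      _ = t ^ 4 := by ring
  have hK2h : K₂ ≤ Kh := by
    rw [hKh]
    refine Nat.le_floor ?_
    rw [ht4]
    linarith
  have hgh : g Kh ≤ η := by
    refine hM (μ i : Measure UnitAddCircle) (hEF i) (N i) (hN i) htor' (by omega) Kh ?_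
    rw [← ht]
    linarith
  have hg2 : c - η ≤ g K₂ := by
    refine hi2.le.trans (measureReal_mono ?_ (measure_ne_top _ _))
    intro x hx
    exact (show ‖D • x‖ < 1 / (K₂ : ℝ) from hx).le
  -- the last good scale
  obtain ⟨K, hKlo, hKhi, hgc⟩ : ∃ K : ℕ, K₂ ≤ K ∧ K ≤ Kh ∧ |g K - c| ≤ η := by
    set P : ℕ → Prop := fun K => K₂ ≤ K ∧ c - η ≤ g K with hP
    have hP2 : P K₂ := ⟨le_rfl, hg2⟩
    have h1 : P (Nat.findGreatest P Kh) := Nat.findGreatest_spec hK2h hP2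
    have h2 : Nat.findGreatest P Kh ≤ Kh := Nat.findGreatest_le Kh
    refine ⟨Nat.findGreatest P Kh, h1.1, h2, ?_⟩
    rw [abs_le]
    refine ⟨by linarith [h1.2], ?_⟩
    rcases eq_or_lt_of_le h2 with h3 | h3
    · rw [h3]
      linarith
    · have h4 : ¬ P (Nat.findGreatest P Kh + 1) :=
        Nat.findGreatest_is_greatest (Nat.lt_succ_self _) h3
      have h5 : g (Nat.findGreatest P Kh + 1) < c - η := by
        by_contra hcon
        exact h4 ⟨by linarith [h1.1], not_lt.1 hcon⟩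
      have h6 := hgslow _ h1.1
      linarith
  -- apply the main estimate
  have hoff : (μ i : Measure UnitAddCircle).real {x | D • x ∈ offSet L₀ κ} ≤ η₀ :=
    (measureReal_mono (off_sub hL₀) (measure_ne_top _ _)).trans (hi1.le.trans (min_le_left _ _))
  have hmain := hprof2 (μ i : Measure UnitAddCircle) hpr (hEF i).inv D hoff K (by omega)
    (fun _ => 1) measurable_const (fun _ => by simp)
  simp only [one_mul, integral_const, measureReal_restrict_apply_univ] at hmain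
  obtain ⟨m, hm1, hm2, hm3⟩ := pick (f := fun k => ‖(∫ x, (fourier ((D : ℤ) * k) x : ℂ)
    ∂(μ i : Measure UnitAddCircle)) - (μ i : Measure UnitAddCircle).real (near D K) • (1 : ℂ)‖ ^ 2)
    (fun _ => by positivity) hJ (by omega) (ε := ε / 2) hmain
  refine ⟨D * m, Nat.one_le_iff_ne_zero.2 (Nat.mul_ne_zero (by omega) (by omega)), ?_, ?_⟩
  · rw [ht8]
    have h1 : (m : ℝ) ≤ t ^ 4 := le_trans (by exact_mod_cast hm2.trans hKhi) hKh1
    have h2 : (D : ℝ) ≤ t ^ 4 := by linarith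
    push_cast
    calc (D : ℝ) * m ≤ t ^ 4 * t ^ 4 := by gcongr
      _ = t ^ 8 := by ring
  · intro j hj1 hj2
    have h1 := hm3 j hj1 hj2
    have h2 := le_of_sq_le_sq h1 (by positivity : (0 : ℝ) ≤ ε / 2)
    have e : ((D : ℤ) * ((j * m : ℕ) : ℤ)) = ((j * (D * m) : ℕ) : ℤ) := by
      push_cast
      ring
    rw [e] at h2
    have h3 : (μ i : Measure UnitAddCircle).real (near D K) • (1 : ℂ) = ((g K : ℝ) : ℂ) := by
      rw [Complex.real_smul, mul_one]
    rw [h3] at h2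
    have h4 : ‖((g K : ℝ) : ℂ) - c‖ ≤ ε / 2 := by
      rw [← Complex.ofReal_sub, Complex.norm_real, Real.norm_eq_abs]
      linarith
    calc ‖(∫ x, (fourier ((j * (D * m) : ℕ) : ℤ) x : ℂ) ∂(μ i : Measure UnitAddCircle)) - c‖ =
          ‖((∫ x, (fourier ((j * (D * m) : ℕ) : ℤ) x : ℂ) ∂(μ i : Measure UnitAddCircle)) -
            ((g K : ℝ) : ℂ)) + (((g K : ℝ) : ℂ) - c)‖ := by
            congr 1
            ring
      _ ≤ ε / 2 + ε / 2 := (norm_add_le _ _).trans (add_le_add h2 h4)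
      _ = ε := by ring

end Run7.h88
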