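import Mathlib
import Pool.Agent.Run7.h88.Clemma
import Pool.Agent.Y139.GR.Inv

/-!
A vector-valued gap theorem and its consequence for large ergodic finitely supported measures.
-/

set_option autoImplicit false

open MeasureTheory Set Filter Topology

namespace Run7.h88

open Pool.Agent.TH654.FC (Tors)
open Pool.Agent.Y139.GR (fc)

lemma dif_atomless {μ : Measure UnitAddCircle} [IsProbabilityMeasure μ] (h : ∀ x, μ {x} = 0)
    (z : UnitAddCircle) : dif μ {z} = 0 := by
  unfold dif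
  rw [Measure.map_apply dif_meas (measurableSet_singleton z),
    Measure.prod_apply_symm (dif_meas (measurableSet_singleton z))]
  rw [lintegral_eq_zero_iff' (by
    exact (measurable_measure_prodMk_right (dif_meas (measurableSet_singleton z))).aemeasurable)]
  refine Eventually.of_forall fun y => ?_
  show μ ((fun x => (x, y)) ⁻¹' ((fun p : UnitAddCircle × UnitAddCircle => p.1 - p.2) ⁻¹' {z})) = 0
  have : (fun x => (x, y)) ⁻¹' ((fun p : UnitAddCircle × UnitAddCircle => p.1 - p.2) ⁻¹' {z}) =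
      {z + y} := by
    ext x
    simp only [mem_preimage, mem_singleton_iff]
    constructor
    · intro h1
      rw [← h1]
      abel
    · intro h1
      rw [h1]
      abel
  rw [this]
  exact h _

/-- the average of the images of the law of the difference -/
noncomputable def theta (ν : Measure UnitAddCircle) (J : ℕ) : Measure UnitAddCircle :=
  ((J : ENNReal))⁻¹ • ∑ j ∈ Finset.Icc 1 J, (dif ν).map fun x => j • x

lemma theta_prob {ν : Measure UnitAddCircle} [IsProbabilityMeasure ν] {J : ℕ} (hJ : 1 ≤ J) :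
    IsProbabilityMeasure (theta ν J) := by
  have h1 : IsProbabilityMeasure (dif ν) := dif_prob
  refine ⟨?_⟩
  unfold theta
  rw [Measure.smul_apply, Measure.finsetSum_apply]
  have h2 : ∀ j ∈ Finset.Icc 1 J, (dif ν).map (fun x => j • x) univ = 1 := by
    intro j _
    have : IsProbabilityMeasure ((dif ν).map fun x => j • x) :=
      Measure.isProbabilityMeasure_map (smul_meas j).aemeasurable
    exact measure_univ
  rw [Finset.sum_congr rfl h2, Finset.sum_const, Nat.card_Icc, nsmul_eq_mul, mul_one,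
    Nat.add_sub_cancel, smul_eq_mul]
  exact ENNReal.inv_mul_cancel (by exact_mod_cast (by omega : J ≠ 0)) (ENNReal.natCast_ne_top J)

lemma theta_atomless {ν : Measure UnitAddCircle} [IsProbabilityMeasure ν] (h : ∀ x, ν {x} = 0)
    (J : ℕ) (z : UnitAddCircle) : theta ν J {z} = 0 := by
  unfold theta
  rw [Measure.smul_apply, Measure.finsetSum_apply, Finset.sum_eq_zero, smul_zero]
  intro j hj
  exact Pool.Agent.Y139.GR.atomless_map (dif_atomless h) (Finset.mem_Icc.1 hj).1 z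

lemma theta_inv {ν : Measure UnitAddCircle} [IsProbabilityMeasure ν]
    (h : MeasurePreserving (fun x : UnitAddCircle => 2 • x) ν ν) (J : ℕ) :
    MeasurePreserving (fun x : UnitAddCircle => 2 • x) (theta ν J) (theta ν J) := by
  refine ⟨smul_meas 2, ?_⟩
  have h0 : (dif ν).map (fun x : UnitAddCircle => 2 • x) = dif ν := by
    have h1 := (h.prod h).map_eq
    unfold dif
    rw [Measure.map_map (smul_meas 2) dif_meas]
    conv_rhs => rw [← h1, Measure.map_map dif_meas (h.prod h).measurable]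
    congr 1
    funext z
    simp [Prod.map, smul_sub]
  unfold theta
  rw [Measure.map_smul, ← Measure.mapₗ_apply_of_measurable (smul_meas 2), map_sum]
  congr 1
  refine Finset.sum_congr rfl fun j _ => ?_
  rw [Measure.mapₗ_apply_of_measurable (smul_meas 2), Measure.map_map (smul_meas 2) (smul_meas j)]
  conv_rhs => rw [← h0, Measure.map_map (smul_meas j) (smul_meas 2)]
  congr 1
  funext x
  simp only [Function.comp]
  rw [smul_comm]

lemma theta_fc {ν : Measure UnitAddCircle} [IsProbabilityMeasure ν] (J : ℕ) (k : ℤ) :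
    fc (theta ν J) k = (((J : ℝ)⁻¹ * ∑ j ∈ Finset.Icc 1 J,
      ‖∫ x, (fourier (j * k) x : ℂ) ∂ν‖ ^ 2 : ℝ) : ℂ) := by
  have h1 : IsProbabilityMeasure (dif ν) := dif_prob
  have h2 : ∀ j ∈ Finset.Icc 1 J, Integrable (fun x : UnitAddCircle => (fourier k x : ℂ))
      ((dif ν).map fun x => j • x) := by
    intro j _
    have : IsProbabilityMeasure ((dif ν).map fun x => j • x) :=
      Measure.isProbabilityMeasure_map (smul_meas j).aemeasurable
    exact fourier_int k
  unfold fc theta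
  rw [integral_smul_measure, integral_finsetSum_measure h2]
  have h3 : ∀ j ∈ Finset.Icc 1 J, (∫ x, (fourier k x : ℂ) ∂((dif ν).map fun x => j • x)) =
      ((‖∫ x, (fourier (j * k) x : ℂ) ∂ν‖ ^ 2 : ℝ) : ℂ) := by
    intro j _
    have := Pool.Agent.Y139.GR.fc_map (dif ν) j k
    unfold fc at this
    rw [this, dif_coeff]
  rw [Finset.sum_congr rfl h3]
  push_cast
  rw [Complex.real_smul]
  push_cast
  simp

/-- **The vector-valued gap theorem.** -/
theorem vgap {ν : Measure UnitAddCircle} [IsProbabilityMeasure ν] (hat : ∀ x, ν {x} = 0)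
    (hinv : MeasurePreserving (fun x : UnitAddCircle => 2 • x) ν ν) {J : ℕ} (hJ : 1 ≤ J) {ε : ℝ}
    (hε : 0 < ε) (h : ∀ k : ℕ, 1 ≤ k →
      (∀ j : ℕ, 1 ≤ j → j ≤ J → (∫ x, (fourier ((j * k : ℕ) : ℤ) x : ℂ) ∂ν) = 0) ∨
      ∃ j : ℕ, 1 ≤ j ∧ j ≤ J ∧ ε ≤ ‖∫ x, (fourier ((j * k : ℕ) : ℤ) x : ℂ) ∂ν‖) :
    ∀ j : ℕ, 1 ≤ j → j ≤ J → (∫ x, (fourier (j : ℤ) x : ℂ) ∂ν) = 0 := by
  have hp := theta_prob (ν := ν) hJ
  have hJR : (0 : ℝ) < J := by exact_mod_cast hJ
  have hneg : ∀ n : ℤ, (∫ x, (fourier (-n) x : ℂ) ∂ν) = (starRingEnd ℂ) (∫ x, (fourier n x : ℂ) ∂ν) := by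
    intro n
    rw [← integral_conj]
    refine integral_congr_ae (Eventually.of_forall fun x => ?_)
    exact fourier_neg
  have key : ∀ k : ℕ, 1 ≤ k → fc (theta ν J) k = 0 ∨ ε ^ 2 / J ≤ ‖fc (theta ν J) k‖ := by
    intro k hk
    rw [theta_fc, Complex.norm_real, Real.norm_of_nonneg (by positivity)]
    rcases h k hk with h1 | ⟨j, hj1, hj2, hj3⟩
    · left
      rw [Finset.sum_eq_zero, mul_zero, Complex.ofReal_zero]
      intro j hj
      rw [Finset.mem_Icc] at hj
      have := h1 j hj.1 hj.2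
      push_cast at this
      rw [this, norm_zero]
      norm_num
    · right
      rw [div_eq_inv_mul]
      refine mul_le_mul_of_nonneg_left ?_ (by positivity)
      have h2 : ε ^ 2 ≤ ‖∫ x, (fourier ((j : ℤ) * k) x : ℂ) ∂ν‖ ^ 2 := by
        push_cast at hj3
        exact pow_le_pow_left₀ hε.le hj3 2
      exact h2.trans (Finset.single_le_sum
        (f := fun j : ℕ => ‖∫ x, (fourier ((j : ℤ) * k) x : ℂ) ∂ν‖ ^ 2)
        (fun _ _ => by positivity) (Finset.mem_Icc.2 ⟨hj1, hj2⟩))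
  have hrig := Pool.Agent.Y139.GR.rigid (μ := theta ν J) (theta_atomless hat J) le_rfl
    (theta_inv hinv J) (d := 1) le_rfl (δ := min 1 (ε ^ 2 / J)) (by positivity) (by
      intro n
      rw [Nat.cast_one, one_mul]
      rcases Int.lt_trichotomy n 0 with hn | hn | hn
      · obtain ⟨k, hk⟩ : ∃ k : ℕ, n = -(k : ℤ) := ⟨n.natAbs, by omega⟩
        have hk1 : 1 ≤ k := by omega
        have e : ‖fc (theta ν J) n‖ = ‖fc (theta ν J) k‖ := by
          rw [hk, Pool.Agent.Y139.GR.fc_neg, RCLike.norm_conj]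
        rcases key k hk1 with h1 | h1
        · left
          rw [← norm_eq_zero, e, h1, norm_zero]
        · right
          rw [e]
          exact (min_le_right _ _).trans h1
      · right
        subst hn
        rw [Pool.Agent.Y139.GR.fc_zero, probReal_univ]
        simp
      · obtain ⟨k, hk⟩ : ∃ k : ℕ, n = (k : ℤ) := ⟨n.natAbs, by omega⟩
        rcases key k (by omega) with h1 | h1
        · left
          rw [hk, h1]
        · right
          rw [hk]
          exact (min_le_right _ _).trans h1)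
  intro j hj1 hj2
  have h1 := theta_fc (ν := ν) J 1
  rw [hrig, Pool.Agent.Y139.GR.fc_volume, if_neg one_ne_zero] at h1
  have h2 : (J : ℝ)⁻¹ * ∑ j ∈ Finset.Icc 1 J, ‖∫ x, (fourier ((j : ℤ) * 1) x : ℂ) ∂ν‖ ^ 2 = 0 := by
    exact_mod_cast h1.symm
  have h3 : ∑ j ∈ Finset.Icc 1 J, ‖∫ x, (fourier ((j : ℤ) * 1) x : ℂ) ∂ν‖ ^ 2 = 0 := by
    rcases mul_eq_zero.1 h2 with h4 | h4
    · exact absurd h4 (by positivity)
    · exact h4
  rw [Finset.sum_eq_zero_iff_of_nonneg (fun _ _ => by positivity)] at h3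
  have h4 := h3 j (Finset.mem_Icc.2 ⟨hj1, hj2⟩)
  rw [mul_one] at h4
  exact norm_eq_zero.1 (pow_eq_zero_iff (two_ne_zero)|>.1 h4)

section limits

variable {ι : Type*} {L : Filter ι} {μ : ι → ProbabilityMeasure UnitAddCircle}
  {ν : ProbabilityMeasure UnitAddCircle}

/-- the Fourier coefficients converge -/
lemma lim_fourier (h : Tendsto μ L (𝓝 ν)) (n : ℤ) :
    Tendsto (fun i => ∫ x, (fourier n x : ℂ) ∂(μ i : Measure UnitAddCircle)) L
      (𝓝 (∫ x, (fourier n x : ℂ) ∂(ν : Measure UnitAddCircle))) :=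
  (ProbabilityMeasure.tendsto_iff_forall_integral_rclike_tendsto ℂ).1 h
    (BoundedContinuousFunction.mkOfCompact (fourier n))

/-- weak limits of invariant measures are invariant -/
lemma lim_inv [L.NeBot] (h : Tendsto μ L (𝓝 ν)) {p : ℕ}
    (hinv : ∀ i, MeasurePreserving (fun x : UnitAddCircle => p • x) (μ i : Measure UnitAddCircle)
      (μ i : Measure UnitAddCircle)) :
    MeasurePreserving (fun x : UnitAddCircle => p • x) (ν : Measure UnitAddCircle)
      (ν : Measure UnitAddCircle) := by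
  refine ⟨smul_meas p, ?_⟩
  have hp : IsProbabilityMeasure ((ν : Measure UnitAddCircle).map fun x => p • x) :=
    Measure.isProbabilityMeasure_map (smul_meas p).aemeasurable
  refine Pool.Agent.Y139.GR.ext_fc fun n => ?_
  rw [Pool.Agent.Y139.GR.fc_map]
  have h1 := lim_fourier h (p * n)
  have h2 := lim_fourier h n
  have h3 : ∀ i, ∫ x, (fourier ((p : ℤ) * n) x : ℂ) ∂(μ i : Measure UnitAddCircle) =
      ∫ x, (fourier n x : ℂ) ∂(μ i : Measure UnitAddCircle) := by
    intro i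
    have := Pool.Agent.Y139.GR.fc_map (μ i : Measure UnitAddCircle) p n
    rw [(hinv i).map_eq] at this
    exact this.symm
  simp_rw [h3] at h1
  exact tendsto_nhds_unique h1 h2

/-- an atom forces a positive torsion part -/
lemma tors_pos {ν : Measure UnitAddCircle} [IsProbabilityMeasure ν]
    (hinv : MeasurePreserving (fun x : UnitAddCircle => 2 • x) ν ν) {x : UnitAddCircle}
    (hx : ν {x} ≠ 0) : 0 < ν.real Tors := by
  have h1 : x ∈ Tors := by
    by_contra hcon
    exact hx (Pool.Agent.TH654.FC.atom_tors le_rfl hinv hcon)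
  have h2 : 0 < ν.real {x} := ENNReal.toReal_pos hx (measure_ne_top _ _)
  exact h2.trans_le (measureReal_mono (singleton_subset_iff.2 h1) (measure_ne_top _ _))

end limits

/-- **A large ergodic finitely supported measure which is not almost equidistributed has dilates at
an intermediate distance from Lebesgue measure.** -/
theorem gap_crit {J : ℕ} (hJ : 1 ≤ J) {δ ε₀ : ℝ} (hδ : 0 < δ) (hε : 0 < ε₀) :
    ∃ (η : ℝ) (M : ℕ), 0 < η ∧ ∀ μ : Measure UnitAddCircle, EF μ → ∀ N : ℕ, 1 ≤ N →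
      (∀ x, μ {x} ≠ 0 → N • x = 0) → M ≤ (atoms μ).ncard →
      (∃ j : ℕ, 1 ≤ j ∧ j ≤ J ∧ ε₀ ≤ ‖∫ x, (fourier (j : ℤ) x : ℂ) ∂μ‖) →
      ∃ k : ℕ, 1 ≤ k ∧ (k : ℝ) ≤ (N : ℝ) ^ δ ∧
        (∃ j : ℕ, 1 ≤ j ∧ j ≤ J ∧ η ≤ ‖∫ x, (fourier ((j * k : ℕ) : ℤ) x : ℂ) ∂μ‖) ∧
        ∀ j : ℕ, 1 ≤ j → j ≤ J → ‖∫ x, (fourier ((j * k : ℕ) : ℤ) x : ℂ) ∂μ‖ < ε₀ := by
  classical
  by_contra hcon
  push Not at hcon
  choose μ hEF N hN htor hcard hj hneg using fun i : ℕ => hcon (1 / ((i : ℝ) + 1)) i (by positivity)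
  set P : ℕ → ProbabilityMeasure UnitAddCircle := fun i => ⟨μ i, (hEF i).prob⟩ with hP
  set U : Ultrafilter ℕ := Ultrafilter.of atTop with hU
  have hUle : (U : Filter ℕ) ≤ atTop := Ultrafilter.of_le atTop
  set ν : ProbabilityMeasure UnitAddCircle := (U.map P).lim with hν
  have hlim : Tendsto P U (𝓝 ν) := by
    have h1 := (U.map P).le_nhds_lim
    exact h1
  have hcardT : Tendsto (fun i => (atoms (P i : Measure UnitAddCircle)).ncard) U atTop := by
    have h1 : Tendsto (fun i => (atoms (μ i)).ncard) atTop atTop :=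
      tendsto_atTop_mono hcard tendsto_id
    exact h1.mono_left hUle
  have hη0 : Tendsto (fun i : ℕ => 1 / ((i : ℝ) + 1)) U (𝓝 0) :=
    tendsto_one_div_add_atTop_nhds_zero_nat.mono_left hUle
  have hinv2 := lim_inv (p := 2) hlim fun i => (hEF i).inv.1
  have hfou := fun n => lim_fourier hlim n
  have hNT : Tendsto (fun i => ((N i : ℝ)) ^ δ) U atTop := by
    have h1 : Tendsto (fun i => ((N i : ℕ) : ℝ)) atTop atTop := by
      refine tendsto_natCast_atTop_atTop.comp (tendsto_atTop_mono (fun i => ?_) tendsto_id)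
      exact (hcard i).trans (atoms_le_N (hEF i) (hN i) ((hEF i).ae_tor (htor i)))
    exact ((tendsto_rpow_atTop hδ).comp h1).mono_left hUle
  -- the dichotomy for the limit
  have hdich : ∀ k : ℕ, 1 ≤ k →
      (∀ j : ℕ, 1 ≤ j → j ≤ J → (∫ x, (fourier ((j * k : ℕ) : ℤ) x : ℂ) ∂(ν : Measure UnitAddCircle)) = 0) ∨
      ∃ j : ℕ, 1 ≤ j ∧ j ≤ J ∧
        ε₀ ≤ ‖∫ x, (fourier ((j * k : ℕ) : ℤ) x : ℂ) ∂(ν : Measure UnitAddCircle)‖ := by
    intro k hk
    by_contra hc
    push Not at hc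
    obtain ⟨⟨j₀, hj1, hj2, hj3⟩, hall⟩ := hc
    have e1 : ∀ᶠ i : ℕ in (U : Filter ℕ), (k : ℝ) ≤ (N i : ℝ) ^ δ := hNT.eventually_ge_atTop _
    have e2 : ∀ᶠ i : ℕ in (U : Filter ℕ), 1 / ((i : ℝ) + 1) <
        ‖∫ x, (fourier ((j₀ * k : ℕ) : ℤ) x : ℂ) ∂(P i : Measure UnitAddCircle)‖ := by
      refine hη0.eventually_lt (hfou _).norm ?_
      exact norm_pos_iff.2 hj3
    have e3 : ∀ᶠ i : ℕ in (U : Filter ℕ), ∀ j ∈ Finset.Icc 1 J,
        ‖∫ x, (fourier ((j * k : ℕ) : ℤ) x : ℂ) ∂(P i : Measure UnitAddCircle)‖ < ε₀ := by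
      rw [Filter.eventually_all_finset]
      intro j hj
      rw [Finset.mem_Icc] at hj
      exact (hfou _).norm.eventually_lt_const (hall j hj.1 hj.2)
    obtain ⟨i, h1, h2, h3⟩ := (e1.and (e2.and e3)).exists
    obtain ⟨j, h4, h5, h6⟩ := hneg i k hk h1 ⟨j₀, hj1, hj2, h2.le⟩
    exact absurd (h3 j (Finset.mem_Icc.2 ⟨h4, h5⟩)) (not_lt.2 h6)
  by_cases hat : ∀ x, (ν : Measure UnitAddCircle) {x} = 0
  · have h0 := vgap hat hinv2 hJ hε hdich
    have e3 : ∀ᶠ i : ℕ in (U : Filter ℕ), ∀ j ∈ Finset.Icc 1 J,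
        ‖∫ x, (fourier (j : ℤ) x : ℂ) ∂(P i : Measure UnitAddCircle)‖ < ε₀ := by
      rw [Filter.eventually_all_finset]
      intro j hj
      rw [Finset.mem_Icc] at hj
      refine (hfou _).norm.eventually_lt_const ?_
      rw [h0 j hj.1 hj.2, norm_zero]
      exact hε
    obtain ⟨i, h3⟩ := e3.exists
    obtain ⟨j, h4, h5, h6⟩ := hj i
    exact absurd (h3 j (Finset.mem_Icc.2 ⟨h4, h5⟩)) (not_lt.2 h6)
  · push Not at hat
    obtain ⟨x, hx⟩ := hat
    have hc := tors_pos hinv2 hx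
    set c := min ((ν : Measure UnitAddCircle).real Tors) (ε₀ / 2) with hcdef
    have hc0 : 0 < c := by positivity
    have h1 := clemma hlim (fun i => hEF i) hcardT hN (fun i x hx => htor i x hx) hδ hc0.le
      (min_le_left _ _) J (ε := c / 2) (by positivity)
    have e2 : ∀ᶠ i : ℕ in (U : Filter ℕ), 1 / ((i : ℝ) + 1) < c / 2 :=
      hη0.eventually_lt_const (by positivity)
    obtain ⟨i, ⟨k, hk1, hk2, hk3⟩, h2⟩ := (h1.and e2).exists
    have hlow : ∀ j : ℕ, 1 ≤ j → j ≤ J →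
        c / 2 ≤ ‖∫ x, (fourier ((j * k : ℕ) : ℤ) x : ℂ) ∂(μ i)‖ ∧
        ‖∫ x, (fourier ((j * k : ℕ) : ℤ) x : ℂ) ∂(μ i)‖ ≤ 3 * c / 2 := by
      intro j hj1 hj2
      have h3 := hk3 j hj1 hj2
      have h4 : ‖(c : ℂ)‖ = c := by rw [Complex.norm_real, Real.norm_of_nonneg hc0.le]
      have h5 := norm_sub_norm_le (c : ℂ) (∫ x, (fourier ((j * k : ℕ) : ℤ) x : ℂ) ∂(μ i))
      have h6 := norm_sub_norm_le (∫ x, (fourier ((j * k : ℕ) : ℤ) x : ℂ) ∂(μ i)) (c : ℂ)
      rw [norm_sub_rev] at h5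
      rw [h4] at h5 h6
      change ‖(∫ x, (fourier ((j * k : ℕ) : ℤ) x : ℂ) ∂(μ i)) - c‖ ≤ c / 2 at h3
      constructor <;> linarith
    obtain ⟨j, hj1, hj2, hj3⟩ := hneg i k hk1 hk2 ⟨1, le_rfl, hJ, h2.le.trans (hlow 1 le_rfl hJ).1⟩
    have h7 := (hlow j hj1 hj2).2
    have h8 : c ≤ ε₀ / 2 := min_le_right _ _
    linarith

end Run7.h88
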