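import Mathlib
import Pool.Agent.Run7.h88.Gap
import Pool.Agent.N254.UD.Per

/-!
Orbits give ergodic finitely supported measures; small dilates of a large ergodic finitely supported
measure have large support.
-/

set_option autoImplicit false

open MeasureTheory Set Filter Topology

namespace Run7.h88

open Pool.Agent.TH654.FC (Tors)
open Pool.Agent.H847R3.XpXq (unif unif_real)

/-- the uniform measure on an orbit is ergodic -/
theorem orbit_EF {N : ℕ} (hN : 1 ≤ N) (hco : Nat.Coprime N (2 * 3)) {x : UnitAddCircle}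
    (hx : N • x = 0) {O : Finset UnitAddCircle}
    (hO : ∀ y, y ∈ O ↔ ∃ i j : ℕ, y = (2 ^ i * 3 ^ j) • x) :
    EF (unif O) ∧ atoms (unif O) = (O : Set UnitAddCircle) := by
  classical
  obtain ⟨h1, h2, h3⟩ := Pool.Agent.N254.UD.unif_orb hN hco hx hO
  have hxO : x ∈ O := (hO x).2 ⟨0, 0, by simp⟩
  have hcard : (0 : ℝ) < O.card := by exact_mod_cast Finset.card_pos.2 ⟨x, hxO⟩
  have hzero : ∀ s : Set UnitAddCircle, MeasurableSet s → (∀ y ∈ O, y ∉ s) → unif O s = 0 := by
    intro s hs h
    have h4 := unif_real O hs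
    rw [Finset.filter_false_of_mem (fun y hy => h y hy), Finset.card_empty, Nat.cast_zero,
      zero_div, measureReal_def, ENNReal.toReal_eq_zero_iff] at h4
    rcases h4 with h4 | h4
    · exact h4
    · exact absurd h4 (measure_ne_top _ _)
  refine ⟨⟨h1, h2.map_eq, h3.map_eq, ?_, O, ?_⟩, ?_⟩
  · intro s hs hs2 hs3
    have e2 : ∀ y : UnitAddCircle, ∀ i : ℕ, 2 ^ i • y ∈ s ↔ y ∈ s := by
      intro y i
      induction i with
      | zero => simp
      | succ i ih =>
        rw [pow_succ', mul_smul, ← ih]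
        exact ⟨fun h => by rw [← hs2]; exact h, fun h => by rw [← hs2] at h; exact h⟩
    have e3 : ∀ y : UnitAddCircle, ∀ i : ℕ, 3 ^ i • y ∈ s ↔ y ∈ s := by
      intro y i
      induction i with
      | zero => simp
      | succ i ih =>
        rw [pow_succ', mul_smul, ← ih]
        exact ⟨fun h => by rw [← hs3]; exact h, fun h => by rw [← hs3] at h; exact h⟩
    have e : ∀ y ∈ O, (y ∈ s ↔ x ∈ s) := by
      intro y hy
      obtain ⟨i, j, rfl⟩ := (hO y).1 hy
      rw [mul_smul, e2, e3]
    by_cases hxs : x ∈ s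
    · right
      exact hzero _ hs.compl fun y hy h => h ((e y hy).2 hxs)
    · left
      exact hzero _ hs fun y hy h => hxs ((e y hy).1 h)
  · exact hzero _ (Finset.measurableSet O).compl fun y hy h => h hy
  · ext y
    constructor
    · intro hy
      by_contra hyO
      refine hy (hzero _ (measurableSet_singleton y) fun z hz hzy => ?_)
      rw [mem_singleton_iff] at hzy
      rw [hzy] at hz
      exact hyO hz
    · intro hy h0
      have h4 := unif_real O (measurableSet_singleton y)
      rw [measureReal_def, h0, ENNReal.toReal_zero] at h4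
      have h5 : 0 < (O.filter (· ∈ ({y} : Set UnitAddCircle))).card :=
        Finset.card_pos.2 ⟨y, Finset.mem_filter.2 ⟨hy, rfl⟩⟩
      have h6 : (0 : ℝ) < ((O.filter (· ∈ ({y} : Set UnitAddCircle))).card : ℝ) / O.card := by
        have : (0 : ℝ) < ((O.filter (· ∈ ({y} : Set UnitAddCircle))).card : ℝ) := by
          exact_mod_cast h5
        exact div_pos this hcard
      linarith

theorem exists_EF (M : ℕ) : ∃ ρ : Measure UnitAddCircle, EF ρ ∧ M ≤ (atoms ρ).ncard := by
  classical
  obtain ⟨N, hN1, hco, hlt⟩ : ∃ N : ℕ, 1 ≤ N ∧ Nat.Coprime N (2 * 3) ∧ 2 ^ M < N := by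
    refine ⟨5 ^ (M + 1), Nat.one_le_pow _ _ (by norm_num), Nat.Coprime.pow_left _ (by norm_num), ?_⟩
    calc 2 ^ M ≤ 5 ^ M := Nat.pow_le_pow_left (by norm_num) M
      _ < 5 ^ (M + 1) := Nat.pow_lt_pow_right (by norm_num) (by omega)
  set x : UnitAddCircle := ((1 / (N : ℝ) : ℝ) : UnitAddCircle) with hx
  have hord : addOrderOf x = N := by
    have h := AddCircle.addOrderOf_period_div (p := (1 : ℝ)) (n := N) (by omega)
    exact h
  have hx0 : N • x = 0 := by
    rw [← hord]
    exact addOrderOf_nsmul_eq_zero x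
  have hfin : (Pool.Agent.R203.SC.orb 2 3 x).Finite :=
    Pool.Agent.R203.SC.orb_finite (by omega) hx0
  have hlarge := Pool.Agent.R203.SC.orb_large (p := 2) (q := 3) (K := M) le_rfl hord (by omega) hlt
  obtain ⟨h1, h2⟩ := orbit_EF (x := x) hN1 hco hx0 (O := hfin.toFinset) (by
    intro y
    rw [Finite.mem_toFinset]
    rfl)
  refine ⟨_, h1, ?_⟩
  rw [h2, Finite.coe_toFinset]
  exact hlarge.le

/-- the least positive integer which kills all the atoms -/
theorem exists_ord {μ : Measure UnitAddCircle} (h : EF μ) : ∃ N : ℕ, 1 ≤ N ∧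
    (∀ x, μ {x} ≠ 0 → N • x = 0) ∧ ∀ n : ℕ, 1 ≤ n → (∀ x, μ {x} ≠ 0 → n • x = 0) → N ≤ n := by
  classical
  have := h.prob
  have hex : ∃ N : ℕ, 1 ≤ N ∧ ∀ x, μ {x} ≠ 0 → N • x = 0 := by
    have htors : ∀ x ∈ atoms μ, ∃ n : ℕ, 1 ≤ n ∧ n • x = 0 := by
      intro x hx
      by_contra hcon
      exact hx (Pool.Agent.TH654.FC.atom_tors le_rfl h.inv.1 hcon)
    choose! n hn1 hn2 using htors
    refine ⟨∏ x ∈ (atoms_finite h).toFinset, n x, ?_, ?_⟩
    · exact Nat.one_le_iff_ne_zero.2 (Finset.prod_ne_zero_iff.2 fun x hx => by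
        have := hn1 x ((atoms_finite h).mem_toFinset.1 hx)
        omega)
    · intro x hx
      obtain ⟨q, hq⟩ := Finset.dvd_prod_of_mem n ((atoms_finite h).mem_toFinset.2
        (show x ∈ atoms μ from hx))
      rw [hq, mul_comm, mul_smul, hn2 x hx, smul_zero]
  refine ⟨Nat.find hex, (Nat.find_spec hex).1, (Nat.find_spec hex).2, fun n hn1 hn2 => ?_⟩
  exact Nat.find_min' hex ⟨hn1, hn2⟩

/-- the product of the differences `2 ^ j - 2 ^ i` -/
def QQ (M : ℕ) : ℕ := ∏ j ∈ Finset.range (M + 1), ∏ i ∈ Finset.range j, (2 ^ j - 2 ^ i)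

lemma QQ_pos (M : ℕ) : 0 < QQ M := by
  unfold QQ
  refine Finset.prod_pos fun j _ => Finset.prod_pos fun i hi => ?_
  have := Nat.pow_lt_pow_right (a := 2) (by norm_num) (Finset.mem_range.1 hi)
  omega

/-- small dilates have large support -/
theorem supp_dilate {μ : Measure UnitAddCircle} (h : EF μ) {N : ℕ}
    (hmin : ∀ n : ℕ, 1 ≤ n → (∀ x, μ {x} ≠ 0 → n • x = 0) → N ≤ n) {k M : ℕ} (hk : 1 ≤ k)
    (hkM : QQ M * k < N) :
    M ≤ (atoms (Measure.map (fun x : UnitAddCircle => (k : ℤ) • x) μ)).ncard := by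
  classical
  by_contra hcon
  rw [not_le] at hcon
  have := h.prob
  set ρ := Measure.map (fun x : UnitAddCircle => (k : ℤ) • x) μ with hρ
  have hE : EF ρ := h.map k
  have hEp := hE.prob
  have hfin := atoms_finite hE
  have hfw : ∀ y ∈ atoms ρ, (2 : ℕ) • y ∈ atoms ρ := by
    intro y hy h0
    apply hy
    rw [← hE.two, Measure.map_apply (smul_meas 2) (measurableSet_singleton _)] at h0
    exact measure_mono_null (fun z hz => by
      rw [mem_singleton_iff] at hz
      rw [hz]
      rfl) h0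
  have hfwn : ∀ i : ℕ, ∀ y ∈ atoms ρ, 2 ^ i • y ∈ atoms ρ := by
    intro i
    induction i with
    | zero => intro y hy; simpa using hy
    | succ i ih =>
      intro y hy
      rw [pow_succ, mul_smul]
      exact ih _ (hfw y hy)
  have hkill : ∀ y ∈ atoms ρ, QQ M • y = 0 := by
    intro y hy
    obtain ⟨i, hi, j, hj, hij, he⟩ := Finset.exists_ne_map_eq_of_card_lt_of_maps_to
      (s := Finset.range (M + 1)) (t := hfin.toFinset) (f := fun i => 2 ^ i • y) (by
        rw [Finset.card_range, ← Set.ncard_eq_toFinset_card _ hfin]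
        omega) (by
        intro i _
        rw [Finset.mem_coe, hfin.mem_toFinset]
        exact hfwn i y hy)
    wlog hlt : i < j generalizing i j
    · exact this j hj i hi hij.symm he.symm (by omega)
    have hd : (2 ^ j - 2 ^ i) ∣ QQ M := by
      unfold QQ
      refine dvd_trans ?_ (Finset.dvd_prod_of_mem _ hj)
      exact Finset.dvd_prod_of_mem _ (Finset.mem_range.2 hlt)
    obtain ⟨q, hq⟩ := hd
    have h1 : (2 ^ j - 2 ^ i) • y = 0 := by
      rw [sub_nsmul _ (Nat.pow_le_pow_right (by norm_num) hlt.le)]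
      have : 2 ^ i • y = 2 ^ j • y := he
      rw [this]
      simp
    rw [hq, mul_comm, mul_smul, h1, smul_zero]
  have h2 := hmin (QQ M * k) (Nat.one_le_iff_ne_zero.2
    (Nat.mul_ne_zero (QQ_pos M).ne' (by omega))) (by
    intro x hx
    rw [mul_smul, ← natCast_zsmul x k]
    refine hkill _ fun h0 => hx ?_
    rw [hρ, Measure.map_apply (zsmul_meas _) (measurableSet_singleton _)] at h0
    exact measure_mono_null (fun z hz => by
      rw [mem_singleton_iff] at hz
      rw [hz]
      rfl) h0)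
  omega

end Run7.h88
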