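import Mathlib
import Pool.Agent.Run7.h88.Orbit

/-!
The differences of the pairs of points of a finite orbit are distributed over the dilates of the orbit.
-/

set_option autoImplicit false

open MeasureTheory Set Filter Topology

namespace Run7.h88

/-- the numbers `2 ^ i * 3 ^ j` -/
def Sm (g : ℕ) : Prop := ∃ i j : ℕ, g = 2 ^ i * 3 ^ j

lemma Sm.mul {g h : ℕ} (hg : Sm g) (hh : Sm h) : Sm (g * h) := by
  obtain ⟨i, j, rfl⟩ := hg
  obtain ⟨a, b, rfl⟩ := hh
  exact ⟨i + a, j + b, by ring⟩

lemma Sm.one : Sm 1 := ⟨0, 0, by simp⟩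

lemma Sm.pos {g : ℕ} (hg : Sm g) : 1 ≤ g := by
  obtain ⟨i, j, rfl⟩ := hg
  exact Nat.one_le_iff_ne_zero.2 (by positivity)

section

variable {μ : Measure UnitAddCircle} (h : EF μ)

include h

lemma map_eq_of {r : ℕ} (hr : r = 2 ∨ r = 3) :
    Measure.map (fun x : UnitAddCircle => r • x) μ = μ := by
  rcases hr with rfl | rfl
  · exact h.two
  · exact h.three

lemma fw {r : ℕ} (hr : r = 2 ∨ r = 3) {x : UnitAddCircle} (hx : x ∈ atoms μ) :
    r • x ∈ atoms μ := by
  intro h0
  apply hx
  rw [← map_eq_of h hr, Measure.map_apply (smul_meas r) (measurableSet_singleton _)] at h0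
  exact measure_mono_null (fun z hz => by
    rw [mem_singleton_iff] at hz
    rw [hz]
    rfl) h0

lemma fw_pow {r : ℕ} (hr : r = 2 ∨ r = 3) (i : ℕ) {x : UnitAddCircle} (hx : x ∈ atoms μ) :
    r ^ i • x ∈ atoms μ := by
  induction i with
  | zero => simpa using hx
  | succ i ih =>
    rw [pow_succ', mul_smul]
    exact fw h hr ih

lemma fw_sm {g : ℕ} (hg : Sm g) {x : UnitAddCircle} (hx : x ∈ atoms μ) : g • x ∈ atoms μ := by
  obtain ⟨i, j, rfl⟩ := hg
  rw [mul_smul]
  exact fw_pow h (Or.inl rfl) i (fw_pow h (Or.inr rfl) j hx)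

lemma inj {r : ℕ} (hr : r = 2 ∨ r = 3) {x w : UnitAddCircle} (hx : x ∈ atoms μ)
    (hw : w ∈ atoms μ) (he : r • x = r • w) : x = w := by
  by_contra hne
  have := h.prob
  have h1 : μ.real {x} + μ.real {w} ≤ μ.real {r • x} := by
    have h2 : μ.real {r • x} = μ.real ((fun x : UnitAddCircle => r • x) ⁻¹' {r • x}) := by
      conv_lhs => rw [← map_eq_of h hr]
      rw [map_measureReal_apply (smul_meas r) (measurableSet_singleton _)]
    rw [h2, ← measureReal_union (by simpa using hne) (measurableSet_singleton w)]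
    refine measureReal_mono ?_ (measure_ne_top _ _)
    rintro z (hz | hz)
    · rw [mem_singleton_iff] at hz
      rw [hz]
      rfl
    · rw [mem_singleton_iff] at hz
      rw [hz]
      exact he.symm
  have h3 := atom_le h (r • x)
  rw [atoms_mass h hx, atoms_mass h hw] at h1
  have h4 : (0 : ℝ) < 1 / (atoms μ).ncard := by
    have : (0 : ℝ) < (atoms μ).ncard := by exact_mod_cast atoms_pos h
    positivity
  linarith

lemma inj_pow {r : ℕ} (hr : r = 2 ∨ r = 3) (i : ℕ) {x w : UnitAddCircle} (hx : x ∈ atoms μ)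
    (hw : w ∈ atoms μ) (he : r ^ i • x = r ^ i • w) : x = w := by
  induction i with
  | zero => simpa using he
  | succ i ih =>
    rw [pow_succ', mul_smul, mul_smul] at he
    exact ih (inj h hr (fw_pow h hr i hx) (fw_pow h hr i hw) he)

lemma inj_sm {g : ℕ} (hg : Sm g) {x w : UnitAddCircle} (hx : x ∈ atoms μ)
    (hw : w ∈ atoms μ) (he : g • x = g • w) : x = w := by
  obtain ⟨i, j, rfl⟩ := hg
  rw [mul_smul, mul_smul] at he
  exact inj_pow h (Or.inr rfl) j hx hw (inj_pow h (Or.inl rfl) i (fw_pow h (Or.inr rfl) j hx)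
    (fw_pow h (Or.inr rfl) j hw) he)

/-- the orbit of each atom contains all the atoms -/
theorem trans {x y : UnitAddCircle} (hx : x ∈ atoms μ) (hy : y ∈ atoms μ) :
    ∃ g : ℕ, Sm g ∧ g • x = y := by
  classical
  have := h.prob
  have hfin := atoms_finite h
  set O : Set UnitAddCircle := {z | ∃ g : ℕ, Sm g ∧ g • x = z} with hO
  have hOA : O ⊆ atoms μ := by
    rintro z ⟨g, hg, rfl⟩
    exact fw_sm h hg hx
  have hOfin : O.Finite := hfin.subset hOA
  have hOm : MeasurableSet O := hOfin.measurableSet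
  have hOfw : ∀ g : ℕ, Sm g → ∀ z ∈ O, g • z ∈ O := by
    rintro g hg z ⟨g', hg', rfl⟩
    exact ⟨g * g', hg.mul hg', by rw [mul_smul]⟩
  set s : Set UnitAddCircle := {z | ∃ i j : ℕ, (2 ^ i * 3 ^ j) • z ∈ O} with hs
  have hsm : MeasurableSet s := by
    have : s = ⋃ i : ℕ, ⋃ j : ℕ, (fun x : UnitAddCircle => (2 ^ i * 3 ^ j) • x) ⁻¹' O := by
      ext x
      simp [hs]
    rw [this]
    exact MeasurableSet.iUnion fun i => MeasurableSet.iUnion fun j => smul_meas _ hOm
  have hs2 : (fun x : UnitAddCircle => (2 : ℕ) • x) ⁻¹' s = s := by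
    ext x
    simp only [mem_preimage, hs, mem_ofPred_eq]
    constructor
    · rintro ⟨i, j, hij⟩
      refine ⟨i + 1, j, ?_⟩
      rw [smul_smul] at hij
      convert hij using 2
      ring
    · rintro ⟨i, j, hij⟩
      refine ⟨i, j, ?_⟩
      have := hOfw 2 ⟨1, 0, by norm_num⟩ _ hij
      rw [smul_smul] at this ⊢
      convert this using 2
      ring
  have hs3 : (fun x : UnitAddCircle => (3 : ℕ) • x) ⁻¹' s = s := by
    ext x
    simp only [mem_preimage, hs, mem_ofPred_eq]
    constructor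
    · rintro ⟨i, j, hij⟩
      refine ⟨i, j + 1, ?_⟩
      rw [smul_smul] at hij
      convert hij using 2
      ring
    · rintro ⟨i, j, hij⟩
      refine ⟨i, j, ?_⟩
      have := hOfw 3 ⟨0, 1, by norm_num⟩ _ hij
      rw [smul_smul] at this ⊢
      convert this using 2
      ring
  have hxO : x ∈ O := ⟨1, Sm.one, by simp⟩
  have hsc : μ sᶜ = 0 := by
    rcases h.erg s hsm hs2 hs3 with h0 | h0
    · exfalso
      have hms : x ∈ s := ⟨0, 0, by simpa using hxO⟩
      exact hx (measure_mono_null (singleton_subset_iff.2 hms) h0)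
    · exact h0
  have hys : y ∈ s := by
    by_contra hys
    exact hy (measure_mono_null (singleton_subset_iff.2 hys) hsc)
  obtain ⟨i, j, hij⟩ := hys
  have hg : Sm (2 ^ i * 3 ^ j) := ⟨i, j, rfl⟩
  obtain ⟨z, hz, hzy⟩ := Finset.surj_on_of_inj_on_of_card_le (s := hOfin.toFinset)
    (t := hOfin.toFinset) (fun z _ => (2 ^ i * 3 ^ j) • z)
    (fun z hz => hOfin.mem_toFinset.2 (hOfw _ hg z (hOfin.mem_toFinset.1 hz)))
    (fun z w hz hw he => inj_sm h hg (hOA (hOfin.mem_toFinset.1 hz))
      (hOA (hOfin.mem_toFinset.1 hw)) he) le_rfl _ (hOfin.mem_toFinset.2 hij)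
  have hz' := hOfin.mem_toFinset.1 hz
  have : z = y := inj_sm h hg (hOA hz') hy hzy.symm
  rw [← this]
  exact hz'

end

/-- an ergodic finitely supported measure with few atoms is carried by torsion points of bounded
order -/
lemma few_kill {ρ : Measure UnitAddCircle} (hE : EF ρ) {M : ℕ} (hM : (atoms ρ).ncard < M)
    {y : UnitAddCircle} (hy : y ∈ atoms ρ) : QQ M • y = 0 := by
  classical
  have hfin := atoms_finite hE
  obtain ⟨i, hi, j, hj, hij, he⟩ := Finset.exists_ne_map_eq_of_card_lt_of_maps_to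
    (s := Finset.range (M + 1)) (t := hfin.toFinset) (f := fun i => 2 ^ i • y) (by
      rw [Finset.card_range, ← Set.ncard_eq_toFinset_card _ hfin]
      omega) (by
      intro i _
      rw [Finset.mem_coe, hfin.mem_toFinset]
      exact fw_pow hE (Or.inl rfl) i hy)
  wlog hlt : i < j generalizing i j
  · exact this j hj i hi hij.symm he.symm (by omega)
  have hd : (2 ^ j - 2 ^ i) ∣ QQ M := by
    unfold QQ
    refine dvd_trans ?_ (Finset.dvd_prod_of_mem _ hj)
    exact Finset.dvd_prod_of_mem _ (Finset.mem_range.2 hlt)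
  obtain ⟨q, hq⟩ := hd
  have h1 : (2 ^ j - 2 ^ i) • y = 0 := by
    rw [sub_nsmul _ (Nat.pow_le_pow_right (by norm_num) hlt.le)]
    have : 2 ^ i • y = 2 ^ j • y := he
    rw [this]
    simp
  rw [hq, mul_comm, mul_smul, h1, smul_zero]

/-- the number of points killed by `QQ M` -/
noncomputable def BB (M : ℕ) : ℕ := Set.ncard {z : UnitAddCircle | QQ M • z = 0}

lemma tors_fin (M : ℕ) : {z : UnitAddCircle | QQ M • z = 0}.Finite :=
  AddCircle.finite_torsion 1 (QQ_pos M)

/-- **Differences.** If many pairs of atoms are at distance at most `r`, then some dilate with many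
atoms has a large mass near `0`. -/
theorem pairs {μ : Measure UnitAddCircle} (h : EF μ) (M : ℕ) {r c : ℝ}
    (hcM : (BB M : ℝ) / (atoms μ).ncard < c)
    (hc : c * ((atoms μ).ncard : ℝ) ^ 2 ≤
      (((atoms_finite h).toFinset ×ˢ (atoms_finite h).toFinset).filter
        fun z => ‖z.2 - z.1‖ ≤ r).card) :
    ∃ k : ℤ, M ≤ (atoms (Measure.map (fun x : UnitAddCircle => k • x) μ)).ncard ∧
      c - BB M / (atoms μ).ncard ≤
        (Measure.map (fun x : UnitAddCircle => k • x) μ).real {x | ‖x‖ ≤ r} := by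
  classical
  have hprob := h.prob
  set A := (atoms_finite h).toFinset with hA
  have hmA : ∀ x, x ∈ A ↔ x ∈ atoms μ := fun x => (atoms_finite h).mem_toFinset
  have hcard : (atoms μ).ncard = A.card := Set.ncard_eq_toFinset_card _ _
  have hApos : (0 : ℝ) < A.card := by
    rw [← hcard]
    exact_mod_cast atoms_pos h
  obtain ⟨x₀, hx₀⟩ : A.Nonempty := Finset.card_pos.1 (by exact_mod_cast hApos)
  choose! g hg1 hg2 using fun y (hy : y ∈ A) => trans h ((hmA x₀).1 hx₀) ((hmA y).1 hy)
  set κ : UnitAddCircle → Measure UnitAddCircle := fun y =>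
    Measure.map (fun x : UnitAddCircle => ((g y : ℤ) - 1) • x) μ with hκ
  have hmass : ∀ y, (κ y).real {x | ‖x‖ ≤ r} =
      ((A.filter fun x => ‖g y • x - x‖ ≤ r).card : ℝ) / A.card := by
    intro y
    rw [hκ]
    simp only
    rw [map_measureReal_apply (zsmul_meas _) (measurableSet_le measurable_norm measurable_const)]
    have e1 : μ.real ((fun x : UnitAddCircle => ((g y : ℤ) - 1) • x) ⁻¹' {x | ‖x‖ ≤ r}) =
        μ.real (((A.filter fun x => ‖g y • x - x‖ ≤ r) : Finset UnitAddCircle) :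
          Set UnitAddCircle) := by
      apply measureReal_congr
      have h2 : ((A.filter (fun x => ‖g y • x - x‖ ≤ r) : Finset UnitAddCircle) :
          Set UnitAddCircle) = (fun x : UnitAddCircle => ((g y : ℤ) - 1) • x) ⁻¹' {x | ‖x‖ ≤ r} ∩
            (A : Set UnitAddCircle) := by
        ext w
        simp only [Finset.coe_filter, mem_inter_iff, mem_preimage, mem_ofPred_eq, Finset.mem_coe,
          sub_smul, one_smul, natCast_zsmul]
        exact and_comm
      rw [h2]
      have h3 : (A : Set UnitAddCircle) =ᵐ[μ] univ := by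
        rw [Filter.eventuallyEq_univ, mem_ae_iff, hA, Finite.coe_toFinset]
        exact atoms_compl h
      have h4 := (Filter.EventuallyEq.refl (ae μ)
        ((fun x : UnitAddCircle => ((g y : ℤ) - 1) • x) ⁻¹' {x | ‖x‖ ≤ r})).inter h3
      rw [inter_univ] at h4
      exact h4.symm
    rw [e1, real_eq_sum, Finset.sum_congr rfl fun x hx => atoms_mass h
      ((hmA x).1 (Finset.mem_filter.1 hx).1), Finset.sum_const, nsmul_eq_mul, hcard]
    ring
  -- the sum over the dilates
  have hbij : ∀ x ∈ A, (A.filter fun y => ‖g y • x - x‖ ≤ r).card =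
      (A.filter fun z => ‖z - x‖ ≤ r).card := by
    intro x hx
    obtain ⟨g', hg', hgx⟩ := trans h ((hmA x₀).1 hx₀) ((hmA x).1 hx)
    have hinj : ∀ y ∈ A, ∀ y' ∈ A, g y • x = g y' • x → y = y' := by
      intro y hy y' hy' he
      rw [← hgx, smul_smul, smul_smul, mul_comm (g y), mul_comm (g y'), mul_smul, mul_smul,
        hg2 y hy, hg2 y' hy'] at he
      exact inj_sm h hg' ((hmA y).1 hy) ((hmA y').1 hy') he
    have hmaps : ∀ y ∈ A, g y • x ∈ A := fun y hy => (hmA _).2 (fw_sm h (hg1 y hy) ((hmA x).1 hx))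
    refine Finset.card_bij (fun y _ => g y • x) ?_ ?_ ?_
    · intro y hy
      rw [Finset.mem_filter] at hy ⊢
      exact ⟨hmaps y hy.1, hy.2⟩
    · intro y hy y' hy' he
      exact hinj y (Finset.mem_filter.1 hy).1 y' (Finset.mem_filter.1 hy').1 he
    · intro z hz
      rw [Finset.mem_filter] at hz
      obtain ⟨y, hy, hyz⟩ := Finset.surj_on_of_inj_on_of_card_le (s := A) (t := A)
        (fun y _ => g y • x) (fun y hy => hmaps y hy)
        (fun y y' hy hy' he => hinj y hy y' hy' he) le_rfl z hz.1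
      refine ⟨y, ?_, hyz.symm⟩
      rw [Finset.mem_filter]
      refine ⟨hy, ?_⟩
      rw [← hyz]
      exact hz.2
  have hsum : ∑ y ∈ A, (κ y).real {x | ‖x‖ ≤ r} =
      (((A ×ˢ A).filter fun z => ‖z.2 - z.1‖ ≤ r).card : ℝ) / A.card := by
    simp_rw [hmass]
    rw [← Finset.sum_div]
    congr 1
    rw [← Nat.cast_sum]
    congr 1
    have e1 : ∑ y ∈ A, (A.filter fun x => ‖g y • x - x‖ ≤ r).card =
        ∑ x ∈ A, (A.filter fun y => ‖g y • x - x‖ ≤ r).card := by
      simp_rw [Finset.card_filter]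
      exact Finset.sum_comm
    rw [e1, Finset.sum_congr rfl hbij]
    simp_rw [Finset.card_filter]
    rw [Finset.sum_product]
  -- the exceptional dilates
  set E := A.filter fun y => (atoms (κ y)).ncard < M with hE
  have hEcard : E.card ≤ BB M := by
    have h1 : ((E.image fun y => y - x₀ : Finset UnitAddCircle) : Set UnitAddCircle) ⊆
        {z : UnitAddCircle | QQ M • z = 0} := by
      intro z hz
      rw [Finset.mem_coe, Finset.mem_image] at hz
      obtain ⟨y, hy, rfl⟩ := hz
      rw [hE, Finset.mem_filter] at hy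
      have hat : y - x₀ ∈ atoms (κ y) := by
        intro h0
        rw [hκ] at h0
        simp only at h0
        rw [Measure.map_apply (zsmul_meas _) (measurableSet_singleton _)] at h0
        refine (hmA x₀).1 hx₀ (measure_mono_null (fun z hz => ?_) h0)
        rw [mem_singleton_iff] at hz
        rw [hz, mem_preimage, sub_smul, one_smul, natCast_zsmul, hg2 y hy.1]
        rfl
      exact few_kill (h.map _) hy.2 hat
    have h2 : (E.image fun y => y - x₀).card = E.card :=
      Finset.card_image_of_injective _ sub_left_injective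
    rw [← h2, BB, ← Set.ncard_coe_finset]
    exact Set.ncard_le_ncard h1 (tors_fin M)
  by_contra hcon
  push Not at hcon
  have hle1 : ∀ y, (κ y).real {x | ‖x‖ ≤ r} ≤ 1 := by
    intro y
    have := (h.map ((g y : ℤ) - 1)).prob
    exact measureReal_le_one
  have h4 : ∑ y ∈ E, (κ y).real {x | ‖x‖ ≤ r} ≤ BB M := by
    calc ∑ y ∈ E, (κ y).real {x | ‖x‖ ≤ r} ≤ ∑ y ∈ E, (1 : ℝ) :=
          Finset.sum_le_sum fun y _ => hle1 y
      _ = E.card := by simp
      _ ≤ BB M := by exact_mod_cast hEcard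
  have h5 : ∑ y ∈ A, (κ y).real {x | ‖x‖ ≤ r} = ∑ y ∈ E, (κ y).real {x | ‖x‖ ≤ r} +
      ∑ y ∈ A.filter (fun y => ¬ (atoms (κ y)).ncard < M), (κ y).real {x | ‖x‖ ≤ r} :=
    (Finset.sum_filter_add_sum_filter_not A _ _).symm
  set F := A.filter (fun y => ¬ (atoms (κ y)).ncard < M) with hF
  rw [hcard] at hcM hcon hc
  have hlt : ∀ y ∈ F, (κ y).real {x | ‖x‖ ≤ r} < c - BB M / A.card := by
    intro y hy
    rw [hF, Finset.mem_filter, not_lt] at hy
    exact hcon _ hy.2
  have hc' : c * (A.card : ℝ) ≤ ∑ y ∈ A, (κ y).real {x | ‖x‖ ≤ r} := by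
    rw [hsum, le_div_iff₀ hApos]
    calc c * (A.card : ℝ) * A.card = c * (A.card : ℝ) ^ 2 := by ring
      _ ≤ _ := hc
  have h6 : (A.card : ℝ) * (c - BB M / A.card) = c * A.card - BB M := by
    field_simp
  rcases F.eq_empty_or_nonempty with hF0 | hF0
  · rw [hF0, Finset.sum_empty, add_zero] at h5
    have h7 : 0 < (A.card : ℝ) * (c - BB M / A.card) := mul_pos hApos (by linarith)
    linarith
  · have h7 : ∑ y ∈ F, (κ y).real {x | ‖x‖ ≤ r} < F.card * (c - BB M / A.card) := by
      calc ∑ y ∈ F, (κ y).real {x | ‖x‖ ≤ r} < ∑ y ∈ F, (c - BB M / A.card) :=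
            Finset.sum_lt_sum_of_nonempty hF0 hlt
        _ = _ := by rw [Finset.sum_const, nsmul_eq_mul]
    have h8 : (F.card : ℝ) * (c - BB M / A.card) ≤ A.card * (c - BB M / A.card) := by
      have : (F.card : ℝ) ≤ A.card := by exact_mod_cast Finset.card_filter_le _ _
      exact mul_le_mul_of_nonneg_right this (by linarith)
    linarith

end Run7.h88
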