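import Mathlib

/-!
Sums of autocorrelations on a finite abelian group: closed under products, and positively correlated.
-/

set_option autoImplicit false

open Finset

namespace Run7.h88

variable {G : Type} [CommGroup G] [Fintype G]

/-- a finite sum of autocorrelations -/
def PD (F : G → ℝ) : Prop :=
  ∃ (I : Type) (_ : Fintype I) (a : I → G → ℝ), ∀ g, F g = ∑ i, ∑ h, a i (g * h) * a i h

lemma PD.mul {F W : G → ℝ} (hF : PD F) (hW : PD W) : PD fun g => F g * W g := by
  obtain ⟨I, hI, a, ha⟩ := hF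
  obtain ⟨J, hJ, b, hb⟩ := hW
  refine ⟨I × J × G, inferInstance, fun t h => a t.1 h * b t.2.1 (h * t.2.2), fun g => ?_⟩
  have h1 : F g * W g = ∑ i, ∑ j, ∑ l : G, ∑ h, (a i (g * h) * b j (g * h * l)) *
      (a i h * b j (h * l)) := by
    rw [ha, hb, Finset.sum_mul_sum]
    refine Finset.sum_congr rfl fun i _ => Finset.sum_congr rfl fun j _ => ?_
    rw [Finset.sum_mul_sum]
    conv_rhs => rw [Finset.sum_comm]
    refine Finset.sum_congr rfl fun h _ => ?_
    rw [← Equiv.sum_comp (Equiv.mulLeft h)]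
    refine Finset.sum_congr rfl fun l _ => ?_
    simp only [Equiv.coe_mulLeft]
    rw [mul_assoc g h l]
    ring
  simp only
  rw [h1, Fintype.sum_prod_type]
  refine Finset.sum_congr rfl fun i _ => ?_
  rw [Fintype.sum_prod_type]

lemma PD.sum_nonneg {F : G → ℝ} (hF : PD F) : 0 ≤ ∑ g, F g := by
  obtain ⟨I, hI, a, ha⟩ := hF
  simp_rw [ha]
  rw [Finset.sum_comm]
  refine Finset.sum_nonneg fun i _ => ?_
  rw [Finset.sum_comm]
  have : ∀ h : G, ∑ g, a i (g * h) * a i h = (∑ g, a i g) * a i h := by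
    intro h
    rw [← Finset.sum_mul]
    congr 1
    exact Equiv.sum_comp (Equiv.mulRight h) (a i)
  simp_rw [this]
  rw [← Finset.mul_sum]
  exact mul_self_nonneg _

/-- positive correlation -/
theorem PD.corr {F W : G → ℝ} (hF : PD F) (hW : PD W) :
    (∑ g, F g) * ∑ g, W g ≤ Fintype.card G * ∑ g, F g * W g := by
  obtain ⟨I, hI, a, ha⟩ := hF
  obtain ⟨J, hJ, b, hb⟩ := hW
  have hs : ∀ (c : G → ℝ), ∑ g, ∑ h, c (g * h) * c h = (∑ g, c g) ^ 2 := by
    intro c
    rw [Finset.sum_comm]
    have : ∀ h : G, ∑ g, c (g * h) * c h = (∑ g, c g) * c h := by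
      intro h
      rw [← Finset.sum_mul]
      congr 1
      exact Equiv.sum_comp (Equiv.mulRight h) c
    simp_rw [this]
    rw [← Finset.mul_sum, sq]
  have e1 : ∑ g, F g = ∑ i, (∑ g, a i g) ^ 2 := by
    simp_rw [ha]
    rw [Finset.sum_comm]
    exact Finset.sum_congr rfl fun i _ => hs (a i)
  have e2 : ∑ g, W g = ∑ j, (∑ g, b j g) ^ 2 := by
    simp_rw [hb]
    rw [Finset.sum_comm]
    exact Finset.sum_congr rfl fun i _ => hs (b i)
  have e3 : ∑ g, F g * W g = ∑ i, ∑ j, ∑ l : G, (∑ h, a i h * b j (h * l)) ^ 2 := by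
    have h1 : ∀ g, F g * W g = ∑ i, ∑ j, ∑ l : G, ∑ h, (a i (g * h) * b j (g * h * l)) *
        (a i h * b j (h * l)) := by
      intro g
      rw [ha, hb, Finset.sum_mul_sum]
      refine Finset.sum_congr rfl fun i _ => Finset.sum_congr rfl fun j _ => ?_
      rw [Finset.sum_mul_sum]
      conv_rhs => rw [Finset.sum_comm]
      refine Finset.sum_congr rfl fun h _ => ?_
      rw [← Equiv.sum_comp (Equiv.mulLeft h)]
      refine Finset.sum_congr rfl fun l _ => ?_
      simp only [Equiv.coe_mulLeft]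
      rw [mul_assoc g h l]
      ring
    simp_rw [h1]
    rw [Finset.sum_comm]
    refine Finset.sum_congr rfl fun i _ => ?_
    rw [Finset.sum_comm]
    refine Finset.sum_congr rfl fun j _ => ?_
    rw [Finset.sum_comm]
    refine Finset.sum_congr rfl fun l _ => ?_
    exact hs fun h => a i h * b j (h * l)
  have e4 : ∀ i j, ((∑ g, a i g) * ∑ g, b j g) ^ 2 ≤
      Fintype.card G * ∑ l : G, (∑ h, a i h * b j (h * l)) ^ 2 := by
    intro i j
    have h1 : (∑ g, a i g) * ∑ g, b j g = ∑ l : G, ∑ h, a i h * b j (h * l) := by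
      rw [Finset.sum_comm, Finset.sum_mul]
      refine Finset.sum_congr rfl fun h _ => ?_
      rw [← Finset.mul_sum]
      congr 1
      exact (Equiv.sum_comp (Equiv.mulLeft h) (b j)).symm
    rw [h1]
    have := sq_sum_le_card_mul_sum_sq (s := (Finset.univ : Finset G))
      (f := fun l => ∑ h, a i h * b j (h * l))
    rwa [Finset.card_univ] at this
  rw [e1, e2, e3, Finset.sum_mul_sum, Finset.mul_sum]
  refine Finset.sum_le_sum fun i _ => ?_
  rw [Finset.mul_sum]
  refine Finset.sum_le_sum fun j _ => ?_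
  rw [← mul_pow]
  exact e4 i j

lemma PD.one : PD fun _ : G => (1 : ℝ) := by
  refine ⟨Unit, inferInstance, fun _ _ => Real.sqrt (1 / Fintype.card G), fun g => ?_⟩
  have hc : (0 : ℝ) < Fintype.card G := by exact_mod_cast Fintype.card_pos
  simp only [Finset.univ_unique, Finset.sum_singleton]
  rw [Real.mul_self_sqrt (by positivity), Finset.sum_const, Finset.card_univ, nsmul_eq_mul]
  field_simp

lemma PD.prod {ι : Type} (s : Finset ι) {F : ι → G → ℝ} (hF : ∀ i ∈ s, PD (F i)) :
    PD fun g => ∏ i ∈ s, F i g := by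
  classical
  induction s using Finset.induction_on with
  | empty => simpa using PD.one
  | insert i s hi ih =>
    have h1 := (hF i (Finset.mem_insert_self i s)).mul (ih fun j hj =>
      hF j (Finset.mem_insert_of_mem hj))
    have e : (fun g => ∏ j ∈ insert i s, F j g) = fun g => F i g * ∏ j ∈ s, F j g := by
      funext g
      rw [Finset.prod_insert hi]
    rw [e]
    exact h1

/-- the mean of a product is at least the product of the means -/
lemma PD.prod_mean {ι : Type} (s : Finset ι) {F : ι → G → ℝ} (hF : ∀ i ∈ s, PD (F i)) :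
    ∏ i ∈ s, ((∑ g, F i g) / Fintype.card G) ≤ (∑ g, ∏ i ∈ s, F i g) / Fintype.card G := by
  classical
  have hc : (0 : ℝ) < Fintype.card G := by exact_mod_cast Fintype.card_pos
  induction s using Finset.induction_on with
  | empty =>
    simp only [Finset.prod_empty, Finset.sum_const, Finset.card_univ, nsmul_eq_mul, mul_one]
    rw [div_self hc.ne']
  | insert i s hi ih =>
    have hFs : ∀ j ∈ s, PD (F j) := fun j hj => hF j (Finset.mem_insert_of_mem hj)
    have hFi := hF i (Finset.mem_insert_self i s)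
    have h1 := ih hFs
    have h2 := hFi.corr (PD.prod s hFs)
    rw [Finset.prod_insert hi]
    have e : ∀ g, ∏ j ∈ insert i s, F j g = F i g * ∏ j ∈ s, F j g := by
      intro g
      rw [Finset.prod_insert hi]
    simp_rw [e]
    have h3 : 0 ≤ (∑ g, F i g) / Fintype.card G := div_nonneg hFi.sum_nonneg hc.le
    calc (∑ g, F i g) / Fintype.card G * ∏ j ∈ s, ((∑ g, F j g) / Fintype.card G)
        ≤ (∑ g, F i g) / Fintype.card G * ((∑ g, ∏ j ∈ s, F j g) / Fintype.card G) := by gcongr
      _ = ((∑ g, F i g) * ∑ g, ∏ j ∈ s, F j g) / (Fintype.card G * Fintype.card G) := by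
          field_simp
      _ ≤ (Fintype.card G * ∑ g, F i g * ∏ j ∈ s, F j g) / (Fintype.card G * Fintype.card G) := by
          gcongr
      _ = (∑ g, F i g * ∏ j ∈ s, F j g) / Fintype.card G := by field_simp

lemma sum_quarter (m : ℕ) : ∑ i ∈ range m, 1 / (4 * (((i : ℝ) + 1) * ((i : ℝ) + 2))) ≤ 1 / 2 := by
  have h : ∀ m : ℕ, ∑ i ∈ range m, 1 / (4 * (((i : ℝ) + 1) * ((i : ℝ) + 2))) =
      1 / 4 - 1 / (4 * ((m : ℝ) + 1)) := by
    intro m
    induction m with
    | zero => norm_num
    | succ m ih =>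
      rw [Finset.sum_range_succ, ih]
      push_cast
      have h0 : (0 : ℝ) ≤ m := Nat.cast_nonneg m
      field_simp
      ring
  rw [h m]
  have : (0 : ℝ) ≤ 1 / (4 * ((m : ℝ) + 1)) := by positivity
  linarith

lemma sum_biUnion_le' {α ι : Type} [DecidableEq α] (s : Finset ι) (t : ι → Finset α) {f : α → ℝ}
    (hf : ∀ x, 0 ≤ f x) : ∑ x ∈ s.biUnion t, f x ≤ ∑ i ∈ s, ∑ x ∈ t i, f x := by
  classical
  induction s using Finset.induction_on with
  | empty => simp
  | insert i s hi ih =>
    rw [Finset.biUnion_insert, Finset.sum_insert hi]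
    have h1 := Finset.sum_union_inter (s₁ := t i) (s₂ := s.biUnion t) (f := f)
    have h2 : 0 ≤ ∑ x ∈ t i ∩ s.biUnion t, f x := Finset.sum_nonneg fun x _ => hf x
    linarith

/-- **Selection.** Many elements are good for all the functions. -/
theorem select (m : ℕ) {F : ℕ → G → ℝ} (hF : ∀ i < m, PD (F i)) (h0 : ∀ i < m, ∀ g, 0 ≤ F i g)
    (h1 : ∀ i < m, ∀ g, F i g ≤ 1) (hpos : ∀ i < m, 0 < ∑ g, F i g) :
    (1 / 2 : ℝ) * (∏ i ∈ range m, ((∑ g, F i g) / Fintype.card G)) * Fintype.card G ≤
      ((Finset.univ.filter fun g => ∀ i < m,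
        1 / (4 * (((i : ℝ) + 1) * ((i : ℝ) + 2))) * ((∑ g, F i g) / Fintype.card G) ≤
          F i g).card : ℝ) := by
  classical
  have hc : (0 : ℝ) < Fintype.card G := by exact_mod_cast Fintype.card_pos
  set w : ℕ → ℝ := fun i => 1 / (4 * (((i : ℝ) + 1) * ((i : ℝ) + 2))) with hw
  set e : ℕ → ℝ := fun i => (∑ g, F i g) / Fintype.card G with he
  have hepos : ∀ i < m, 0 < e i := fun i hi => div_pos (hpos i hi) hc
  set W : G → ℝ := fun g => ∏ i ∈ range m, F i g with hW
  have hFr : ∀ i ∈ range m, PD (F i) := fun i hi => hF i (mem_range.1 hi)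
  have hmean := PD.prod_mean (range m) hFr
  have hW0 : ∀ g, 0 ≤ W g := fun g => Finset.prod_nonneg fun i hi => h0 i (mem_range.1 hi) g
  have hW1 : ∀ g, W g ≤ 1 := fun g => Finset.prod_le_one (fun i hi => h0 i (mem_range.1 hi) g)
    fun i hi => h1 i (mem_range.1 hi) g
  set Good := Finset.univ.filter fun g => ∀ i < m, w i * e i ≤ F i g with hGood
  have hbad : ∀ i ∈ range m, ∑ g ∈ Finset.univ.filter (fun g => F i g < w i * e i), W g ≤
      w i * ∑ g, W g := by
    intro i hi
    have him := mem_range.1 hi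
    have hwi : 0 ≤ w i := by
      rw [hw]
      positivity
    have hWe : ∀ g, W g = F i g * ∏ j ∈ (range m).erase i, F j g := by
      intro g
      exact (Finset.mul_prod_erase _ _ hi).symm
    have hFe : ∀ j ∈ (range m).erase i, PD (F j) := fun j hj => hFr j (Finset.mem_of_mem_erase hj)
    have h2 := (hF i him).corr (PD.prod _ hFe)
    have hE0 : ∀ g, 0 ≤ ∏ j ∈ (range m).erase i, F j g := fun g =>
      Finset.prod_nonneg fun j hj => h0 j (mem_range.1 (Finset.mem_of_mem_erase hj)) g
    calc ∑ g ∈ Finset.univ.filter (fun g => F i g < w i * e i), W g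
        ≤ ∑ g ∈ Finset.univ.filter (fun g => F i g < w i * e i),
            w i * e i * ∏ j ∈ (range m).erase i, F j g := by
          refine Finset.sum_le_sum fun g hg => ?_
          rw [hWe]
          exact mul_le_mul_of_nonneg_right (Finset.mem_filter.1 hg).2.le (hE0 g)
      _ ≤ ∑ g, w i * e i * ∏ j ∈ (range m).erase i, F j g := by
          refine Finset.sum_le_sum_of_subset_of_nonneg (Finset.filter_subset _ _) fun g _ _ => ?_
          exact mul_nonneg (mul_nonneg hwi (hepos i him).le) (hE0 g)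
      _ = w i * (((∑ g, F i g) * ∑ g, ∏ j ∈ (range m).erase i, F j g) / Fintype.card G) := by
          rw [← Finset.mul_sum, he]
          ring
      _ ≤ w i * ((Fintype.card G * ∑ g, F i g * ∏ j ∈ (range m).erase i, F j g) /
            Fintype.card G) := by gcongr
      _ = w i * ∑ g, W g := by
          rw [mul_div_cancel_left₀ _ hc.ne']
          congr 1
          exact Finset.sum_congr rfl fun g _ => (hWe g).symm
  have hcomp : ∑ g ∈ Goodᶜ, W g ≤ 1 / 2 * ∑ g, W g := by
    have hsub : Goodᶜ ⊆ (range m).biUnion fun i =>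
        Finset.univ.filter (fun g => F i g < w i * e i) := by
      intro g hg
      rw [Finset.mem_compl, hGood, Finset.mem_filter, not_and] at hg
      have := hg (Finset.mem_univ g)
      push Not at this
      obtain ⟨i, hi, hlt⟩ := this
      rw [Finset.mem_biUnion]
      exact ⟨i, mem_range.2 hi, Finset.mem_filter.2 ⟨Finset.mem_univ _, hlt⟩⟩
    calc ∑ g ∈ Goodᶜ, W g ≤ ∑ g ∈ (range m).biUnion fun i =>
          Finset.univ.filter (fun g => F i g < w i * e i), W g :=
          Finset.sum_le_sum_of_subset_of_nonneg hsub fun g _ _ => hW0 g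
      _ ≤ ∑ i ∈ range m, ∑ g ∈ Finset.univ.filter (fun g => F i g < w i * e i), W g :=
          sum_biUnion_le' _ _ hW0
      _ ≤ ∑ i ∈ range m, w i * ∑ g, W g := Finset.sum_le_sum hbad
      _ = (∑ i ∈ range m, w i) * ∑ g, W g := by rw [Finset.sum_mul]
      _ ≤ 1 / 2 * ∑ g, W g := by
          refine mul_le_mul_of_nonneg_right ?_ (Finset.sum_nonneg fun g _ => hW0 g)
          exact sum_quarter m
  have hgood : 1 / 2 * ∑ g, W g ≤ Good.card := by
    have h3 : ∑ g ∈ Good, W g + ∑ g ∈ Goodᶜ, W g = ∑ g, W g := Finset.sum_add_sum_compl _ _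
    have h4 : ∑ g ∈ Good, W g ≤ Good.card := by
      calc ∑ g ∈ Good, W g ≤ ∑ g ∈ Good, (1 : ℝ) := Finset.sum_le_sum fun g _ => hW1 g
        _ = Good.card := by simp
    linarith
  calc (1 / 2 : ℝ) * (∏ i ∈ range m, e i) * Fintype.card G
      ≤ 1 / 2 * ((∑ g, W g) / Fintype.card G) * Fintype.card G := by gcongr
    _ = 1 / 2 * ∑ g, W g := by field_simp
    _ ≤ Good.card := hgood

end Run7.h88
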