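import Mathlib
import Pool.Agent.Run7.h88.Pairs
import Pool.Agent.Run7.h88.PosDef

/-!
The atoms of an ergodic finitely supported measure as an abelian group, and the returns at several
scales at the same time.
-/

set_option autoImplicit false

open MeasureTheory Set Filter Topology

namespace Run7.h88

variable {μ : Measure UnitAddCircle}

/-- the multiplier which moves `x₀` to `y` -/
noncomputable def gg (h : EF μ) (x₀ : atoms μ) (y : atoms μ) : ℕ := (trans h x₀.2 y.2).choose

lemma gg_sm (h : EF μ) (x₀ y : atoms μ) : Sm (gg h x₀ y) := (trans h x₀.2 y.2).choose_spec.1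

lemma gg_eq (h : EF μ) (x₀ y : atoms μ) : gg h x₀ y • (x₀ : UnitAddCircle) = y :=
  (trans h x₀.2 y.2).choose_spec.2

/-- the product of two atoms -/
noncomputable def mulA (h : EF μ) (x₀ y z : atoms μ) : atoms μ :=
  ⟨gg h x₀ y • (z : UnitAddCircle), fw_sm h (gg_sm h x₀ y) z.2⟩

lemma mulA_coe (h : EF μ) (x₀ y z : atoms μ) :
    ((mulA h x₀ y z : atoms μ) : UnitAddCircle) = gg h x₀ y • (z : UnitAddCircle) := rfl

lemma gg_mul (h : EF μ) (x₀ y z x : atoms μ) :
    gg h x₀ (mulA h x₀ y z) • (x : UnitAddCircle) = gg h x₀ y • gg h x₀ z • (x : UnitAddCircle) := by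
  rw [← gg_eq h x₀ x, smul_comm (gg h x₀ (mulA h x₀ y z)), gg_eq, mulA_coe, ← gg_eq h x₀ z,
    smul_comm (gg h x₀ x), smul_comm (gg h x₀ x)]

lemma mulA_assoc (h : EF μ) (x₀ a b c : atoms μ) :
    mulA h x₀ (mulA h x₀ a b) c = mulA h x₀ a (mulA h x₀ b c) := by
  apply Subtype.ext
  rw [mulA_coe, mulA_coe, mulA_coe, gg_mul]

lemma mulA_comm (h : EF μ) (x₀ a b : atoms μ) : mulA h x₀ a b = mulA h x₀ b a := by
  apply Subtype.ext
  rw [mulA_coe, mulA_coe]
  conv_lhs => rw [← gg_eq h x₀ b]
  conv_rhs => rw [← gg_eq h x₀ a]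
  rw [smul_comm]

lemma one_mulA (h : EF μ) (x₀ a : atoms μ) : mulA h x₀ x₀ a = a := by
  rw [mulA_comm]
  apply Subtype.ext
  rw [mulA_coe, gg_eq]

lemma mulA_inj (h : EF μ) (x₀ a b c : atoms μ) (he : mulA h x₀ a b = mulA h x₀ a c) : b = c := by
  have := congrArg (fun z : atoms μ => (z : UnitAddCircle)) he
  simp only [mulA_coe] at this
  exact Subtype.ext (inj_sm h (gg_sm h x₀ a) b.2 c.2 this)

lemma exists_invA (h : EF μ) (x₀ a : atoms μ) : ∃ b, mulA h x₀ b a = x₀ := by
  have : Finite (atoms μ) := (atoms_finite h).to_subtype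
  have hs : Function.Surjective (mulA h x₀ a) :=
    Finite.surjective_of_injective fun b c he => mulA_inj h x₀ a b c he
  obtain ⟨b, hb⟩ := hs x₀
  exact ⟨b, by rw [mulA_comm]; exact hb⟩

/-- the group structure on the atoms with unit `x₀` -/
@[reducible] noncomputable def grp (h : EF μ) (x₀ : atoms μ) : CommGroup (atoms μ) where
  mul := mulA h x₀
  mul_assoc := mulA_assoc h x₀
  one := x₀
  one_mul := one_mulA h x₀
  mul_one a := by
    show mulA h x₀ a x₀ = a
    rw [mulA_comm]
    exact one_mulA h x₀ a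
  inv a := (exists_invA h x₀ a).choose
  inv_mul_cancel a := (exists_invA h x₀ a).choose_spec
  mul_comm := mulA_comm h x₀

open Classical in
/-- **Returns at several scales.** -/
theorem pairs_all (h : EF μ) (M m : ℕ) {K : ℕ → ℕ}
    (l : ∀ i, UnitAddCircle → Option (Fin (K i))) {r c : ℕ → ℝ}
    (hl : ∀ i x y, l i x ≠ none → l i x = l i y → ‖x - y‖ ≤ r i) (hc0 : ∀ i, 0 < c i)
    (hmass : ∀ i < m, c i * ((atoms μ).ncard : ℝ) ^ 2 ≤
      ∑ a : Fin (K i), (((atoms_finite h).toFinset.filter fun x => l i x = some a).card : ℝ) ^ 2)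
    (hlarge : 2 * (BB M : ℝ) < (∏ i ∈ Finset.range m, c i) * (atoms μ).ncard) :
    ∃ k : ℤ, M ≤ (atoms (Measure.map (fun x : UnitAddCircle => k • x) μ)).ncard ∧
      ∀ i < m, 1 / (4 * (((i : ℝ) + 1) * ((i : ℝ) + 2))) * c i ≤
        (Measure.map (fun x : UnitAddCircle => k • x) μ).real {x | ‖x‖ ≤ r i} := by
  have hprob := h.prob
  have hfin := atoms_finite h
  set A := hfin.toFinset with hA
  have hmA : ∀ x, x ∈ A ↔ x ∈ atoms μ := fun x => hfin.mem_toFinset
  have hcard : (atoms μ).ncard = A.card := Set.ncard_eq_toFinset_card _ _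
  have hApos : (0 : ℝ) < A.card := by
    rw [← hcard]
    exact_mod_cast atoms_pos h
  obtain ⟨x₀', hx₀⟩ : A.Nonempty := Finset.card_pos.1 (by exact_mod_cast hApos)
  set x₀ : atoms μ := ⟨x₀', (hmA _).1 hx₀⟩ with hx₀d
  let _ : Fintype (atoms μ) := hfin.fintype
  let _ : CommGroup (atoms μ) := grp h x₀
  have hmul : ∀ y z : atoms μ, ((y * z : atoms μ) : UnitAddCircle) =
      gg h x₀ y • (z : UnitAddCircle) := fun y z => rfl
  have hcardF : (Fintype.card (atoms μ) : ℝ) = A.card := by
    rw [← hcard, ← Nat.card_coe_set_eq, Nat.card_eq_fintype_card]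
  -- sums over the atoms
  have hsumA : ∀ f : UnitAddCircle → ℝ, ∑ x : atoms μ, f x = ∑ x ∈ A, f x := by
    intro f
    rw [← Finset.sum_coe_sort A]
    refine Fintype.sum_equiv (Equiv.subtypeEquivRight fun x => (hmA x).symm) _ _ fun x => rfl
  -- the functions
  set F : ℕ → atoms μ → ℝ := fun i y =>
    (∑ x : atoms μ, if l i (gg h x₀ y • (x : UnitAddCircle)) = l i x ∧ l i (x : UnitAddCircle) ≠ none
      then (1 : ℝ) else 0) / A.card with hF
  have hPD : ∀ i, PD (F i) := by
    intro i
    refine ⟨Fin (K i), inferInstance, fun a x => Real.sqrt (1 / A.card) *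
      (if l i (x : UnitAddCircle) = some a then 1 else 0), fun y => ?_⟩
    rw [Finset.sum_comm]
    rw [hF]
    simp only
    rw [Finset.sum_div]
    refine Finset.sum_congr rfl fun x _ => ?_
    rw [hmul]
    have h1 : Real.sqrt (1 / A.card) * Real.sqrt (1 / A.card) = 1 / (A.card : ℝ) :=
      Real.mul_self_sqrt (by positivity)
    generalize Real.sqrt (1 / (A.card : ℝ)) = q at h1 ⊢
    have h2 : ∀ a : Fin (K i), q *
        (if l i (gg h x₀ y • (x : UnitAddCircle)) = some a then (1 : ℝ) else 0) *
        (q * (if l i (x : UnitAddCircle) = some a then (1 : ℝ) else 0)) =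
        1 / A.card * (if l i (gg h x₀ y • (x : UnitAddCircle)) = some a ∧
          l i (x : UnitAddCircle) = some a then (1 : ℝ) else 0) := by
      intro a
      rw [ite_and, ← h1]
      split_ifs <;> ring
    simp_rw [h2]
    rw [← Finset.mul_sum, div_eq_mul_one_div, mul_comm]
    congr 1
    by_cases hx : l i (x : UnitAddCircle) = none
    · rw [if_neg (by tauto), Finset.sum_eq_zero]
      intro a _
      rw [if_neg]
      rintro ⟨-, h4⟩
      rw [hx] at h4
      simp at h4
    · obtain ⟨b, hb⟩ := Option.ne_none_iff_exists'.1 hx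
      rw [hb]
      by_cases hy : l i (gg h x₀ y • (x : UnitAddCircle)) = some b
      · rw [if_pos ⟨hy, by simp⟩, hy, Finset.sum_eq_single b]
        · simp
        · intro a _ hab
          rw [if_neg]
          rintro ⟨h4, -⟩
          exact hab (Option.some_injective _ h4).symm
        · simp
      · rw [if_neg (fun h4 => hy h4.1), Finset.sum_eq_zero]
        intro a _
        rw [if_neg]
        rintro ⟨h4, h5⟩
        rw [← h5] at h4
        exact hy h4
  have h0 : ∀ i < m, ∀ y, 0 ≤ F i y := fun i _ y =>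
    div_nonneg (Finset.sum_nonneg fun x _ => by split_ifs <;> norm_num) hApos.le
  have h1 : ∀ i < m, ∀ y, F i y ≤ 1 := by
    intro i _ y
    rw [hF]
    simp only
    rw [div_le_one hApos, ← hcardF]
    calc ∑ x : atoms μ, (if l i (gg h x₀ y • (x : UnitAddCircle)) = l i x ∧
          l i (x : UnitAddCircle) ≠ none then (1 : ℝ) else 0) ≤ ∑ x : atoms μ, (1 : ℝ) :=
          Finset.sum_le_sum fun x _ => by split_ifs <;> norm_num
      _ = Fintype.card (atoms μ) := by simp
  -- the means
  have hmean : ∀ i, ∑ y, F i y = (∑ a : Fin (K i),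
      ((A.filter fun x => l i x = some a).card : ℝ) ^ 2) / A.card := by
    intro i
    have h2 : ∀ a : Fin (K i), ((A.filter fun x => l i x = some a).card : ℝ) =
        ∑ x : atoms μ, if l i (x : UnitAddCircle) = some a then (1 : ℝ) else 0 := by
      intro a
      rw [hsumA fun x => if l i x = some a then (1 : ℝ) else 0, Finset.sum_boole]
    obtain ⟨I, hI, a', ha'⟩ := hPD i
    rw [hF]
    simp only
    rw [← Finset.sum_div]
    congr 1
    rw [Finset.sum_comm]
    have h3 : ∀ x : atoms μ, ∑ y : atoms μ, (if l i (gg h x₀ y • (x : UnitAddCircle)) = l i x ∧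
          l i (x : UnitAddCircle) ≠ none then (1 : ℝ) else 0) =
        ∑ z : atoms μ, (if l i (z : UnitAddCircle) = l i x ∧
          l i (x : UnitAddCircle) ≠ none then (1 : ℝ) else 0) := by
      intro x
      exact Fintype.sum_equiv (Equiv.mulRight x) _ _ fun y => rfl
    simp_rw [h3]
    have h4 : ∀ x z : atoms μ, (if l i (z : UnitAddCircle) = l i x ∧
          l i (x : UnitAddCircle) ≠ none then (1 : ℝ) else 0) =
        ∑ a : Fin (K i), (if l i (x : UnitAddCircle) = some a then (1 : ℝ) else 0) *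
          (if l i (z : UnitAddCircle) = some a then (1 : ℝ) else 0) := by
      intro x z
      by_cases hx : l i (x : UnitAddCircle) = none
      · rw [if_neg (by tauto), Finset.sum_eq_zero]
        intro a _
        rw [hx]
        simp
      · obtain ⟨b, hb⟩ := Option.ne_none_iff_exists'.1 hx
        rw [hb, Finset.sum_eq_single b]
        · simp
        · intro a _ hab
          rw [if_neg (fun h5 => hab (Option.some_injective _ h5).symm)]
          ring
        · simp
    simp_rw [h4, h2]
    have h5 : ∀ x : atoms μ, ∑ z : atoms μ, ∑ a : Fin (K i),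
        (if l i (x : UnitAddCircle) = some a then (1 : ℝ) else 0) *
          (if l i (z : UnitAddCircle) = some a then (1 : ℝ) else 0) =
        ∑ a : Fin (K i), (if l i (x : UnitAddCircle) = some a then (1 : ℝ) else 0) *
          ∑ z : atoms μ, (if l i (z : UnitAddCircle) = some a then (1 : ℝ) else 0) := by
      intro x
      rw [Finset.sum_comm]
      exact Finset.sum_congr rfl fun a _ => (Finset.mul_sum _ _ _).symm
    simp_rw [h5]
    rw [Finset.sum_comm]
    refine Finset.sum_congr rfl fun a _ => ?_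
    rw [← Finset.sum_mul, sq]
  have hmean' : ∀ i < m, c i ≤ (∑ y, F i y) / Fintype.card (atoms μ) := by
    intro i hi
    rw [hmean, hcardF, div_div, le_div_iff₀ (by positivity)]
    have := hmass i hi
    rw [hcard] at this
    calc c i * (A.card * A.card : ℝ) = c i * (A.card : ℝ) ^ 2 := by ring
      _ ≤ _ := this
  have hcF : (0 : ℝ) < Fintype.card (atoms μ) := by rw [hcardF]; exact hApos
  have hpos : ∀ i < m, 0 < ∑ y, F i y := by
    intro i hi
    have h2 := (hc0 i).trans_le (hmean' i hi)
    by_contra hcon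
    exact absurd h2 (not_lt.2 (div_nonpos_of_nonpos_of_nonneg (not_lt.1 hcon) hcF.le))
  have hsel := select m (F := F) (fun i _ => hPD i) h0 h1 hpos
  set Good := Finset.univ.filter fun y : atoms μ => ∀ i < m,
        1 / (4 * (((i : ℝ) + 1) * ((i : ℝ) + 2))) * ((∑ g, F i g) / Fintype.card (atoms μ)) ≤
          F i y with hGood
  have hprodle : ∏ i ∈ Finset.range m, c i ≤
      ∏ i ∈ Finset.range m, ((∑ g, F i g) / Fintype.card (atoms μ)) :=
    Finset.prod_le_prod (fun i _ => (hc0 i).le) fun i hi => hmean' i (Finset.mem_range.1 hi)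
  have hBBlt : (BB M : ℝ) < Good.card := by
    refine lt_of_lt_of_le ?_ hsel
    rw [hcardF]
    rw [hcard] at hlarge
    have : (∏ i ∈ Finset.range m, c i) * (A.card : ℝ) ≤
        (∏ i ∈ Finset.range m, ((∑ g, F i g) / Fintype.card (atoms μ))) * A.card := by gcongr
    rw [← hcardF] at this ⊢
    nlinarith
  -- the dilates
  set κ : atoms μ → Measure UnitAddCircle := fun y =>
    Measure.map (fun x : UnitAddCircle => ((gg h x₀ y : ℤ) - 1) • x) μ with hκ
  obtain ⟨y, hyG, hyM⟩ : ∃ y ∈ Good, M ≤ (atoms (κ y)).ncard := by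
    by_contra hcon
    push Not at hcon
    have h2 : ((Good.image fun y : atoms μ => (y : UnitAddCircle) - x₀ : Finset UnitAddCircle) :
        Set UnitAddCircle) ⊆ {z : UnitAddCircle | QQ M • z = 0} := by
      intro z hz
      rw [Finset.mem_coe, Finset.mem_image] at hz
      obtain ⟨y, hy, rfl⟩ := hz
      have hat : (y : UnitAddCircle) - x₀ ∈ atoms (κ y) := by
        intro h0
        rw [hκ] at h0
        simp only at h0
        rw [Measure.map_apply (zsmul_meas _) (measurableSet_singleton _)] at h0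
        refine x₀.2 (measure_mono_null (fun z hz => ?_) h0)
        rw [mem_singleton_iff] at hz
        rw [hz, mem_preimage, sub_smul, one_smul, natCast_zsmul, gg_eq h x₀ y]
        rfl
      exact few_kill (h.map _) (hcon y hy) hat
    have h3 : (Good.image fun y : atoms μ => (y : UnitAddCircle) - x₀).card = Good.card :=
      Finset.card_image_of_injective _ fun a b hab => Subtype.ext (sub_left_injective hab)
    have h4 : Good.card ≤ BB M := by
      rw [← h3, BB, ← Set.ncard_coe_finset]
      exact Set.ncard_le_ncard h2 (tors_fin M)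
    have : (Good.card : ℝ) ≤ BB M := by exact_mod_cast h4
    linarith
  refine ⟨(gg h x₀ y : ℤ) - 1, hyM, fun i hi => ?_⟩
  have hy := (Finset.mem_filter.1 hyG).2 i hi
  have hw : (0 : ℝ) ≤ 1 / (4 * (((i : ℝ) + 1) * ((i : ℝ) + 2))) := by positivity
  refine (mul_le_mul_of_nonneg_left (hmean' i hi) hw).trans (hy.trans ?_)
  -- the mass of the dilate
  have hmassκ : (κ y).real {x | ‖x‖ ≤ r i} =
      ((A.filter fun x => ‖gg h x₀ y • x - x‖ ≤ r i).card : ℝ) / A.card := by
    rw [hκ]
    simp only
    rw [map_measureReal_apply (zsmul_meas _) (measurableSet_le measurable_norm measurable_const)]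
    have e1 : μ.real ((fun x : UnitAddCircle => ((gg h x₀ y : ℤ) - 1) • x) ⁻¹' {x | ‖x‖ ≤ r i}) =
        μ.real (((A.filter fun x => ‖gg h x₀ y • x - x‖ ≤ r i) : Finset UnitAddCircle) :
          Set UnitAddCircle) := by
      apply measureReal_congr
      have h2 : ((A.filter (fun x => ‖gg h x₀ y • x - x‖ ≤ r i) : Finset UnitAddCircle) :
          Set UnitAddCircle) = (fun x : UnitAddCircle => ((gg h x₀ y : ℤ) - 1) • x) ⁻¹'
            {x | ‖x‖ ≤ r i} ∩ (A : Set UnitAddCircle) := by
        ext w
        simp only [Finset.coe_filter, mem_inter_iff, mem_preimage, mem_ofPred_eq, Finset.mem_coe,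
          sub_smul, one_smul, natCast_zsmul]
        exact and_comm
      rw [h2]
      have h3 : (A : Set UnitAddCircle) =ᵐ[μ] univ := by
        rw [Filter.eventuallyEq_univ, mem_ae_iff, hA, Finite.coe_toFinset]
        exact atoms_compl h
      have h4 := (Filter.EventuallyEq.refl (ae μ)
        ((fun x : UnitAddCircle => ((gg h x₀ y : ℤ) - 1) • x) ⁻¹' {x | ‖x‖ ≤ r i})).inter h3
      rw [inter_univ] at h4
      exact h4.symm
    rw [e1, real_eq_sum, Finset.sum_congr rfl fun x hx => atoms_mass h
      ((hmA x).1 (Finset.mem_filter.1 hx).1), Finset.sum_const, nsmul_eq_mul, hcard]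
    ring
  show F i y ≤ (κ y).real {x | ‖x‖ ≤ r i}
  rw [hmassκ, hF]
  simp only
  refine div_le_div_of_nonneg_right ?_ hApos.le
  rw [hsumA fun x => if l i (gg h x₀ y • x) = l i x ∧ l i x ≠ none then (1 : ℝ) else 0,
    Finset.sum_boole]
  refine Nat.cast_le.2 (Finset.card_le_card ?_)
  intro x hx
  rw [Finset.mem_filter] at hx ⊢
  refine ⟨hx.1, hl i _ _ ?_ hx.2.1⟩
  rw [hx.2.1]
  exact hx.2.2

end Run7.h88
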