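import Mathlib
import Pool.Agent.W764.FB.Cover
import Pool.Agent.W764.SH.Decomp

/-!
A measure for which `x ↦ 2 x` is injective on a set of full measure is, up to a half, carried by
`C 2 ^ (θ N)` arcs of length `2 ^ (-N)`, for every `θ > 0`.  The proof follows that of the covering
lemma of `W764.FB.Cover`.
-/

set_option autoImplicit false

open MeasureTheory Filter Topology Set
open scoped ENNReal

namespace Run7.h88

open Pool.Agent.W764.FB
open Pool.Agent.H706R2.Ren (U labels measurableSet_U)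

/-- **Covering at all scales.** -/
theorem cover_rate (μ : Measure UnitAddCircle) [IsProbabilityMeasure μ]
    (hinv : MeasurePreserving (fun x : UnitAddCircle => 2 • x) μ μ) (h : EssInj 2 μ) {θ : ℝ}
    (hθ : 0 < θ) :
    ∃ C η : ℝ, 0 < C ∧ 0 < η ∧ ∀ N : ℕ, ∃ (K : ℕ) (cen : Fin K → UnitAddCircle),
      1 ≤ K ∧ (K : ℝ) ≤ C * (2 : ℝ) ^ (θ * N) ∧
      μ.real (⋃ i, Metric.closedBall (cen i) (η / 2 ^ N))ᶜ ≤ 1 / 2 := by
  classical
  obtain ⟨Q1, lab1, hlab1⟩ := labels (ε := 1 / (2 * ((2 : ℕ) : ℝ))) (by positivity)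
  -- the constants
  obtain ⟨s, hs1, hsθ⟩ : ∃ s : ℕ, 1 ≤ s ∧ 1 + (Q1 : ℝ) / s ≤ (2 : ℝ) ^ (θ / 2) := by
    have h1 : (1 : ℝ) < (2 : ℝ) ^ (θ / 2) := Real.one_lt_rpow (by norm_num) (by positivity)
    obtain ⟨n, hn⟩ := exists_nat_gt ((Q1 : ℝ) / ((2 : ℝ) ^ (θ / 2) - 1))
    refine ⟨n + 1, by omega, ?_⟩
    have h2 : (0 : ℝ) < (2 : ℝ) ^ (θ / 2) - 1 := by linarith
    rw [div_lt_iff₀ h2] at hn
    have h3 : (Q1 : ℝ) / ((n + 1 : ℕ) : ℝ) ≤ (2 : ℝ) ^ (θ / 2) - 1 := by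
      rw [div_le_iff₀ (by positivity)]
      push_cast
      nlinarith
    linarith
  have hsR : (1 : ℝ) ≤ s := by exact_mod_cast hs1
  have hs0 : (0 : ℝ) < s := by linarith
  obtain ⟨b, hb1, hbθ⟩ : ∃ b : ℕ, 1 ≤ b ∧ (s : ℝ) ≤ (2 : ℝ) ^ (θ / 2 * b) := by
    have h1 : (1 : ℝ) < (2 : ℝ) ^ (θ / 2) := Real.one_lt_rpow (by norm_num) (by positivity)
    obtain ⟨n, hn⟩ := pow_unbounded_of_one_lt (s : ℝ) h1
    refine ⟨n + 1, by omega, ?_⟩
    rw [Real.rpow_mul (by norm_num), Real.rpow_natCast]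
    exact hn.le.trans (pow_le_pow_right₀ h1.le (by omega))
  have hbR : (0 : ℝ) < b := by exact_mod_cast hb1
  obtain ⟨Z, hZm, hZκ, η, hη, hZ⟩ := local_inj (by norm_num : 0 < 2) μ h
    (ε := 1 / 2 / b) (by positivity)
  set η' : ℝ := min η (1 / 4) with hη'
  have hη'0 : 0 < η' := lt_min hη (by norm_num)
  have hZ' : ∀ x ∈ Z, ∀ y ∈ Z, ‖2 • (x - y)‖ ≤ η' → ‖x - y‖ ≤ ‖2 • (x - y)‖ / ((2 : ℕ) : ℝ) :=
    fun x hx y hy hxy => hZ x hx y hy (hxy.trans (min_le_left _ _))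
  obtain ⟨Q0, lab0, hlab0⟩ := labels (ε := η') hη'0
  have hQ0 : 1 ≤ Q0 := by
    rcases Nat.eq_zero_or_pos Q0 with h0 | h0
    · subst h0
      exact (lab0 0).elim0
    · exact h0
  have hQ0R : (1 : ℝ) ≤ Q0 := by exact_mod_cast hQ0
  refine ⟨Q0 * s, η', by positivity, hη'0, fun N => ?_⟩
  set g1 : ℕ := N / b + 1 with hg1
  have hg1R : (0 : ℝ) < g1 := by exact_mod_cast Nat.succ_pos (N / b)
  have hgN : (N : ℝ) ≤ g1 * b := by
    have : N ≤ (N / b + 1) * b := by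
      have := Nat.div_add_mod N b
      have := Nat.mod_lt N (by omega : 0 < b)
      nlinarith
    exact_mod_cast this
  set CS := Finset.univ.filter fun c : Fin N → Fin (Q1 + 1) =>
      (Finset.univ.filter fun j => c j ≠ 0).card ≤ g1 with hCS
  set M : ℕ := CS.card with hM
  have hMle : (M : ℝ) ≤ (s : ℝ) ^ g1 * (1 + (Q1 : ℝ) / s) ^ N := card_codes Q1 s N g1 hs1
  have hM2 : (M : ℝ) ≤ s * (2 : ℝ) ^ (θ * N) := by
    refine hMle.trans ?_
    have h1 : (s : ℝ) ^ g1 ≤ s * (2 : ℝ) ^ (θ / 2 * N) := by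
      rw [hg1, pow_succ, mul_comm]
      refine mul_le_mul_of_nonneg_left ?_ hs0.le
      calc (s : ℝ) ^ (N / b) ≤ ((2 : ℝ) ^ (θ / 2 * b)) ^ (N / b) := by gcongr
        _ = (2 : ℝ) ^ (θ / 2 * b * ((N / b : ℕ) : ℝ)) := by
            rw [← Real.rpow_natCast, ← Real.rpow_mul (by norm_num)]
        _ ≤ (2 : ℝ) ^ (θ / 2 * N) := by
            refine Real.rpow_le_rpow_of_exponent_le (by norm_num) ?_
            have h2 : (b : ℝ) * ((N / b : ℕ) : ℝ) ≤ N := by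
              exact_mod_cast Nat.mul_div_le N b
            nlinarith
    have h2 : (1 + (Q1 : ℝ) / s) ^ N ≤ (2 : ℝ) ^ (θ / 2 * N) := by
      calc (1 + (Q1 : ℝ) / s) ^ N ≤ ((2 : ℝ) ^ (θ / 2)) ^ N := by gcongr
        _ = (2 : ℝ) ^ (θ / 2 * N) := by
            rw [← Real.rpow_natCast, ← Real.rpow_mul (by norm_num)]
    calc (s : ℝ) ^ g1 * (1 + (Q1 : ℝ) / s) ^ N
        ≤ (s * (2 : ℝ) ^ (θ / 2 * N)) * (2 : ℝ) ^ (θ / 2 * N) := by gcongr
      _ = s * (2 : ℝ) ^ (θ * N) := by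
          rw [mul_assoc, ← Real.rpow_add (by norm_num)]
          congr 2
          ring
  set Good : Set UnitAddCircle := {x | Pool.Agent.H706R2.Ren.out 2 Z N x ≤ g1} with hGood
  have hgc : ∀ x ∈ Good, code 2 Z lab1 N x ∈ CS := by
    intro x hx
    rw [hCS, Finset.mem_filter]
    refine ⟨Finset.mem_univ _, ?_⟩
    rw [card_code]
    exact hx
  have hM1 : 1 ≤ M := by
    rw [hM, Nat.one_le_iff_ne_zero, Ne, Finset.card_eq_zero]
    intro h0
    have : (fun _ => 0 : Fin N → Fin (Q1 + 1)) ∈ CS := by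
      rw [hCS, Finset.mem_filter]
      refine ⟨Finset.mem_univ _, ?_⟩
      simp
    rw [h0] at this
    exact absurd this (Finset.notMem_empty _)
  set e : Fin (Q0 * M) ≃ Fin Q0 × CS := (finProdFinEquiv (m := Q0) (n := M)).symm.trans
    (Equiv.prodCongr (Equiv.refl _) CS.equivFin.symm) with he
  set pick : Fin Q0 × CS → UnitAddCircle := fun a => if hx : ∃ x ∈ Good, lab0 ((2 ^ N) • x) = a.1 ∧
    code 2 Z lab1 N x = a.2 then hx.choose else 0 with hpick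
  refine ⟨Q0 * M, fun i => pick (e i), Nat.mul_pos hQ0 hM1, ?_, ?_⟩
  · push_cast
    calc (Q0 : ℝ) * M ≤ Q0 * (s * (2 : ℝ) ^ (θ * N)) := by gcongr
      _ = _ := by ring
  · have hsub : (⋃ i, Metric.closedBall (pick (e i)) (η' / 2 ^ N))ᶜ ⊆
        {y | (g1 : ℝ) ≤ Pool.Agent.H706R2.Ren.out 2 Z N y} := by
      intro x hx
      by_contra hcon
      apply hx
      have hxG : x ∈ Good := by
        simp only [mem_ofPred_eq, not_le] at hcon
        have : Pool.Agent.H706R2.Ren.out 2 Z N x < g1 := by exact_mod_cast hcon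
        exact this.le
      rw [mem_iUnion]
      set a : Fin Q0 × CS := (lab0 ((2 ^ N) • x), ⟨code 2 Z lab1 N x, hgc x hxG⟩) with ha
      refine ⟨e.symm a, ?_⟩
      have hex : ∃ x ∈ Good, lab0 ((2 ^ N) • x) = a.1 ∧ code 2 Z lab1 N x = a.2 :=
        ⟨x, hxG, rfl, rfl⟩
      have hp1 : pick (e (e.symm a)) = hex.choose := by
        rw [Equiv.apply_symm_apply, hpick]
        simp only [dif_pos hex]
      show x ∈ Metric.closedBall (pick (e (e.symm a))) _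
      rw [Metric.mem_closedBall, dist_eq_norm, hp1]
      have hsp := hex.choose_spec
      have hsc := same_code (by norm_num : 0 < 2) (min_le_right _ _) hZ' hlab1 N x hex.choose (by
        rw [smul_sub]
        exact hlab0 _ _ hsp.2.1.symm) hsp.2.2.symm
      exact_mod_cast hsc
    have h1 := markov_gen 2 μ hinv hZm N (a := (g1 : ℝ))
    have h2 : (N : ℝ) * μ.real Zᶜ ≤ g1 * (1 / 2) := by
      calc (N : ℝ) * μ.real Zᶜ ≤ (g1 * b) * (1 / 2 / b) := by gcongr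
        _ = g1 * (1 / 2) := by field_simp
    have h3 : μ.real {y | (g1 : ℝ) ≤ Pool.Agent.H706R2.Ren.out 2 Z N y} ≤ 1 / 2 :=
      le_of_mul_le_mul_left (h1.trans h2) hg1R
    exact (measureReal_mono hsub (measure_ne_top _ _)).trans h3

end Run7.h88
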