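import Mathlib
import Pool.Agent.Run7.h88.Orbit

/-!
The set of the weak limits of large ergodic finitely supported measures: the masses of the atomic
parts.
-/

set_option autoImplicit false

open MeasureTheory Set Filter Topology

namespace Run7.h88

open Pool.Agent.TH654.FC (Tors)
open Pool.Agent.Y139.GR (fc)

/-- `μ` is the weak limit of a sequence of ergodic finitely supported measures whose numbers of
atoms tend to infinity. -/
def IsLim (μ : Measure UnitAddCircle) : Prop :=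
  IsProbabilityMeasure μ ∧ ∃ ν : ℕ → Measure UnitAddCircle, (∀ n, EF (ν n)) ∧
    Tendsto (fun n => (atoms (ν n)).ncard) atTop atTop ∧
    ∀ f : C(UnitAddCircle, ℝ), Tendsto (fun n => ∫ x, f x ∂(ν n)) atTop (𝓝 (∫ x, f x ∂μ))

/-- approximation of the Fourier coefficients -/
def Appr (μ : Measure UnitAddCircle) : Prop :=
  ∀ (J M : ℕ) (ε : ℝ), 0 < ε → ∃ ρ : Measure UnitAddCircle, EF ρ ∧ M ≤ (atoms ρ).ncard ∧
    ∀ j : ℕ, 1 ≤ j → j ≤ J →
      ‖(∫ x, (fourier (j : ℤ) x : ℂ) ∂ρ) - ∫ x, (fourier (j : ℤ) x : ℂ) ∂μ‖ ≤ ε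

/-- weak convergence in the space of probability measures -/
lemma tendsto_prob {ι : Type*} {L : Filter ι} {ν : ι → ProbabilityMeasure UnitAddCircle}
    {μ : ProbabilityMeasure UnitAddCircle}
    (h : ∀ f : C(UnitAddCircle, ℝ), Tendsto (fun n => ∫ x, f x ∂(ν n : Measure UnitAddCircle)) L
      (𝓝 (∫ x, f x ∂(μ : Measure UnitAddCircle)))) : Tendsto ν L (𝓝 μ) := by
  rw [ProbabilityMeasure.tendsto_iff_forall_integral_tendsto]
  intro f
  exact h f.toContinuousMap

lemma tendsto_cont {ι : Type*} {L : Filter ι} {ν : ι → ProbabilityMeasure UnitAddCircle}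
    {μ : ProbabilityMeasure UnitAddCircle} (h : Tendsto ν L (𝓝 μ)) (f : C(UnitAddCircle, ℝ)) :
    Tendsto (fun n => ∫ x, f x ∂(ν n : Measure UnitAddCircle)) L
      (𝓝 (∫ x, f x ∂(μ : Measure UnitAddCircle))) :=
  (ProbabilityMeasure.tendsto_iff_forall_integral_tendsto).1 h
    (BoundedContinuousFunction.mkOfCompact f)

lemma fc_neg_eq (μ : Measure UnitAddCircle) (n : ℤ) :
    fc μ (-n) = (starRingEnd ℂ) (fc μ n) := Pool.Agent.Y139.GR.fc_neg μ n

theorem IsLim.appr {μ : Measure UnitAddCircle} (h : IsLim μ) : Appr μ := by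
  obtain ⟨hp, ν, hν, hcard, hlim⟩ := h
  intro J M ε hε
  set P : ℕ → ProbabilityMeasure UnitAddCircle := fun i => ⟨ν i, (hν i).prob⟩ with hP
  set Q : ProbabilityMeasure UnitAddCircle := ⟨μ, hp⟩ with hQ
  have h1 : Tendsto P atTop (𝓝 Q) := tendsto_prob (μ := Q) (ν := P) hlim
  have h2 : ∀ᶠ i in (atTop : Filter ℕ), ∀ j ∈ Finset.Icc 1 J,
      ‖(∫ x, (fourier (j : ℤ) x : ℂ) ∂(ν i)) - ∫ x, (fourier (j : ℤ) x : ℂ) ∂μ‖ < ε := by
    rw [Filter.eventually_all_finset]
    intro j _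
    have h3 := lim_fourier h1 (j : ℤ)
    have h4 := (tendsto_iff_norm_sub_tendsto_zero.1 h3).eventually_lt_const hε
    exact h4
  obtain ⟨i, h3, h4⟩ := (h2.and (hcard.eventually_ge_atTop M)).exists
  exact ⟨ν i, hν i, h4, fun j hj1 hj2 => (h3 j (Finset.mem_Icc.2 ⟨hj1, hj2⟩)).le⟩

theorem Appr.isLim {μ : Measure UnitAddCircle} (hp : IsProbabilityMeasure μ) (h : Appr μ) :
    IsLim μ := by
  choose ρ hρ1 hρ2 hρ3 using fun n : ℕ => h n n (1 / ((n : ℝ) + 1)) (by positivity)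
  set P : ℕ → ProbabilityMeasure UnitAddCircle := fun i => ⟨ρ i, (hρ1 i).prob⟩ with hP
  set Q : ProbabilityMeasure UnitAddCircle := ⟨μ, hp⟩ with hQ
  refine ⟨hp, ρ, hρ1, tendsto_atTop_mono hρ2 tendsto_id, ?_⟩
  have hpos : ∀ j : ℕ, 1 ≤ j → Tendsto (fun n => fc (ρ n) j) atTop (𝓝 (fc μ j)) := by
    intro j hj
    rw [tendsto_iff_norm_sub_tendsto_zero]
    refine squeeze_zero' (Eventually.of_forall fun _ => norm_nonneg _) ?_
      (tendsto_one_div_add_atTop_nhds_zero_nat (𝕜 := ℝ))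
    filter_upwards [eventually_ge_atTop j] with n hn
    exact hρ3 n j hj hn
  have hall : ∀ n : ℤ, Tendsto (fun i => fc (ρ i) n) atTop (𝓝 (fc μ n)) := by
    intro n
    rcases Int.lt_trichotomy n 0 with hn | hn | hn
    · obtain ⟨k, hk⟩ : ∃ k : ℕ, n = -(k : ℤ) := ⟨n.natAbs, by omega⟩
      have h1 := hpos k (by omega)
      rw [hk]
      simp_rw [fc_neg_eq]
      exact (Complex.continuous_conj.tendsto _).comp h1
    · subst hn
      have h1 : ∀ i, fc (ρ i) 0 = 1 := by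
        intro i
        have := (hρ1 i).prob
        rw [Pool.Agent.Y139.GR.fc_zero, probReal_univ]
        simp
      have h2 : fc μ 0 = 1 := by
        rw [Pool.Agent.Y139.GR.fc_zero, probReal_univ]
        simp
      simp_rw [h1, h2]
      exact tendsto_const_nhds
    · obtain ⟨k, hk⟩ : ∃ k : ℕ, n = (k : ℤ) := ⟨n.natAbs, by omega⟩
      rw [hk]
      exact hpos k (by omega)
  have hlim : Tendsto P atTop (𝓝 Q) := by
    rw [tendsto_iff_ultrafilter]
    intro g hg
    have h1 : Tendsto P g (𝓝 (g.map P).lim) := (g.map P).le_nhds_lim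
    have h3 : (((g.map P).lim : ProbabilityMeasure UnitAddCircle) : Measure UnitAddCircle) =
        (Q : Measure UnitAddCircle) :=
      Pool.Agent.Y139.GR.ext_fc fun n =>
        tendsto_nhds_unique (lim_fourier h1 n) ((hall n).mono_left hg)
    have h2 : (g.map P).lim = Q := Subtype.ext h3
    rw [← h2]
    exact h1
  exact fun f => tendsto_cont hlim f

/-- the measure `c δ₀ + (1 - c) λ` -/
noncomputable def mix (c : ℝ) : Measure UnitAddCircle :=
  ENNReal.ofReal c • Measure.dirac 0 + ENNReal.ofReal (1 - c) • volume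

lemma mix_prob {c : ℝ} (h0 : 0 ≤ c) (h1 : c ≤ 1) : IsProbabilityMeasure (mix c) := by
  refine ⟨?_⟩
  unfold mix
  rw [Measure.add_apply, Measure.smul_apply, Measure.smul_apply, measure_univ, measure_univ,
    smul_eq_mul, smul_eq_mul, mul_one, mul_one, ← ENNReal.ofReal_add h0 (by linarith)]
  simp

lemma mix_fc {c : ℝ} (h0 : 0 ≤ c) {n : ℤ} (hn : n ≠ 0) :
    (∫ x, (fourier n x : ℂ) ∂(mix c)) = c := by
  unfold mix
  have i1 : Integrable (fun x : UnitAddCircle => (fourier n x : ℂ))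
      (ENNReal.ofReal c • Measure.dirac (0 : UnitAddCircle)) :=
    (fourier_int n).smul_measure ENNReal.ofReal_ne_top
  have i2 : Integrable (fun x : UnitAddCircle => (fourier n x : ℂ))
      (ENNReal.ofReal (1 - c) • (volume : Measure UnitAddCircle)) :=
    (fourier_int n).smul_measure ENNReal.ofReal_ne_top
  rw [integral_add_measure i1 i2, integral_smul_measure, integral_smul_measure, integral_dirac,
    int_fourier_volume, if_neg hn, smul_zero, add_zero, ENNReal.toReal_ofReal h0]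
  simp

lemma mix_tors {c : ℝ} (h0 : 0 ≤ c) (h1 : c ≤ 1) : (mix c).real Tors = c := by
  have hp := mix_prob h0 h1
  have hv : (volume : Measure UnitAddCircle) Tors = 0 := by
    have h3 : ∀ x : UnitAddCircle, (volume : Measure UnitAddCircle) {x} = 0 := by
      intro x
      have := AddCircle.volume_closedBall (T := 1) (x := x) 0
      simpa using this
    have hna : NullSingletonClass (volume : Measure UnitAddCircle) := ⟨h3⟩
    exact Pool.Agent.TH654.FC.tors_countable.measure_zero volume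
  have h0t : (0 : UnitAddCircle) ∈ Tors := ⟨1, le_rfl, by simp⟩
  unfold mix
  rw [measureReal_def, Measure.add_apply, Measure.smul_apply, Measure.smul_apply, hv, smul_zero,
    add_zero, Measure.dirac_apply' _ Pool.Agent.TH654.FC.tors_meas, Set.indicator_of_mem h0t,
    Pi.one_apply, smul_eq_mul, mul_one, ENNReal.toReal_ofReal h0]

/-- from the dilates of a convergent family -/
theorem mix_appr {ι : Type*} {L : Filter ι} [L.NeBot] {μ : ι → ProbabilityMeasure UnitAddCircle}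
    {ν : ProbabilityMeasure UnitAddCircle} (hlim : Tendsto μ L (𝓝 ν))
    (hEF : ∀ i, EF (μ i : Measure UnitAddCircle))
    (hcard : Tendsto (fun i => (atoms (μ i : Measure UnitAddCircle)).ncard) L atTop)
    {c : ℝ} (hc0 : 0 ≤ c) (hc : c ≤ (ν : Measure UnitAddCircle).real Tors) : Appr (mix c) := by
  have hc1 : c ≤ 1 := hc.trans measureReal_le_one
  intro J M ε hε
  choose N hN htor hmin using fun i => exists_ord (hEF i)
  have h1 := clemma hlim hEF hcard hN htor (δ := 1 / 2) (by norm_num) hc0 hc J hε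
  have h2 := hcard.eventually_ge_atTop (QQ M ^ 2 + 1)
  obtain ⟨i, ⟨k, hk1, hk2, hk3⟩, h3⟩ := (h1.and h2).exists
  have hNi : QQ M ^ 2 < N i := by
    have := atoms_le_N (hEF i) (hN i) ((hEF i).ae_tor (htor i))
    omega
  have hkM : QQ M * k < N i := by
    have hQ : (QQ M : ℝ) ^ 2 < N i := by exact_mod_cast hNi
    have hNpos : (0 : ℝ) < N i := by exact_mod_cast hN i
    have hs : (N i : ℝ) ^ (1 / 2 : ℝ) = Real.sqrt (N i) := by rw [Real.sqrt_eq_rpow]
    rw [hs] at hk2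
    have h4 : (QQ M : ℝ) < Real.sqrt (N i) := Real.lt_sqrt_of_sq_lt hQ
    have hkpos : (0 : ℝ) < k := by exact_mod_cast hk1
    have h5 : (QQ M : ℝ) * k < N i := by
      calc (QQ M : ℝ) * k < Real.sqrt (N i) * k := by gcongr
        _ ≤ Real.sqrt (N i) * Real.sqrt (N i) := by gcongr
        _ = N i := Real.mul_self_sqrt hNpos.le
    exact_mod_cast h5
  refine ⟨Measure.map (fun x : UnitAddCircle => (k : ℤ) • x) (μ i : Measure UnitAddCircle),
    (hEF i).map k, supp_dilate (hEF i) (hmin i) hk1 hkM, fun j hj1 hj2 => ?_⟩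
  rw [mix_fc hc0 (by exact_mod_cast (by omega : j ≠ 0))]
  have h4 := hk3 j hj1 hj2
  have h5 : (∫ x, (fourier (j : ℤ) x : ℂ) ∂(Measure.map (fun x : UnitAddCircle => (k : ℤ) • x)
      (μ i : Measure UnitAddCircle))) =
      ∫ x, (fourier ((j * k : ℕ) : ℤ) x : ℂ) ∂(μ i : Measure UnitAddCircle) := by
    rw [integral_map (zsmul_meas _).aemeasurable (cont_fourier _).aestronglyMeasurable]
    refine integral_congr_ae (Eventually.of_forall fun x => ?_)
    show (fourier (j : ℤ) ((k : ℤ) • x) : ℂ) = _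
    rw [fourier_smul]
    push_cast
    rfl
  rw [h5]
  exact h4

/-- Lebesgue measure is a limit -/
theorem appr_zero : Appr (mix 0) := by
  choose ρ hρ1 hρ2 using exists_EF
  set P : ℕ → ProbabilityMeasure UnitAddCircle := fun i => ⟨ρ i, (hρ1 i).prob⟩ with hP
  set U : Ultrafilter ℕ := Ultrafilter.of atTop with hU
  have hUle : (U : Filter ℕ) ≤ atTop := Ultrafilter.of_le atTop
  have hlim : Tendsto P U (𝓝 (U.map P).lim) := (U.map P).le_nhds_lim
  refine mix_appr hlim (fun i => hρ1 i) ?_ le_rfl measureReal_nonneg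
  have h1 : Tendsto (fun i => (atoms (ρ i)).ncard) atTop atTop := tendsto_atTop_mono hρ2 tendsto_id
  exact h1.mono_left hUle

/-- the atomic mass of an invariant measure -/
lemma atomic_eq_tors {μ : Measure UnitAddCircle} [IsProbabilityMeasure μ]
    (h : MeasurePreserving (fun x : UnitAddCircle => 2 • x) μ μ) :
    μ.real {x | μ {x} ≠ 0} = μ.real Tors := by
  apply measureReal_congr
  have h1 : {x | μ {x} ≠ 0} ⊆ Tors := by
    intro x hx
    by_contra hcon
    exact hx (Pool.Agent.TH654.FC.atom_tors le_rfl h hcon)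
  rw [ae_eq_set]
  refine ⟨?_, ?_⟩
  · rw [sdiff_eq_empty.2 h1, measure_empty]
  · have hc : (Tors \ {x | μ {x} ≠ 0}).Countable :=
      Pool.Agent.TH654.FC.tors_countable.mono sdiff_subset
    rw [← biUnion_of_singleton (Tors \ {x | μ {x} ≠ 0}), measure_biUnion_null_iff hc]
    intro x hx
    by_contra hne
    exact hx.2 hne

lemma IsLim.inv {μ : Measure UnitAddCircle} (h : IsLim μ) :
    MeasurePreserving (fun x : UnitAddCircle => 2 • x) μ μ := by
  obtain ⟨hp, ν, hν, hcard, hlim⟩ := h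
  set P : ℕ → ProbabilityMeasure UnitAddCircle := fun i => ⟨ν i, (hν i).prob⟩ with hP
  set Q : ProbabilityMeasure UnitAddCircle := ⟨μ, hp⟩ with hQ
  have h1 : Tendsto P atTop (𝓝 Q) := tendsto_prob (μ := Q) (ν := P) hlim
  exact lim_inv h1 fun i => (hν i).inv.1

/-- all smaller masses occur -/
theorem IsLim.mix {μ : Measure UnitAddCircle} (h : IsLim μ) {c : ℝ} (hc0 : 0 ≤ c)
    (hc : c ≤ μ.real Tors) : IsLim (mix c) := by
  have hp := h.1
  obtain ⟨_, ν, hν, hcard, hlim⟩ := h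
  set P : ℕ → ProbabilityMeasure UnitAddCircle := fun i => ⟨ν i, (hν i).prob⟩ with hP
  set Q : ProbabilityMeasure UnitAddCircle := ⟨μ, hp⟩ with hQ
  have h1 : Tendsto P atTop (𝓝 Q) := tendsto_prob (μ := Q) (ν := P) hlim
  exact (mix_appr h1 (fun i => hν i) hcard hc0 hc).isLim
    (mix_prob hc0 (hc.trans measureReal_le_one))

/-- **The interval of atomic masses.** -/
theorem interval : ∃ cs : ℝ, 0 ≤ cs ∧ cs ≤ 1 ∧ ∀ c : ℝ, 0 ≤ c → c ≤ 1 →
    ((c ≤ cs ↔ IsLim (mix c)) ∧ (c ≤ cs ↔ ∃ μ, IsLim μ ∧ μ.real {x | μ {x} ≠ 0} = c)) := by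
  set S : Set ℝ := {c | 0 ≤ c ∧ c ≤ 1 ∧ IsLim (mix c)} with hS
  have h0S : (0 : ℝ) ∈ S := ⟨le_rfl, zero_le_one, appr_zero.isLim (mix_prob le_rfl zero_le_one)⟩
  have hbdd : BddAbove S := ⟨1, fun c hc => hc.2.1⟩
  set cs := sSup S with hcs
  have hcs0 : 0 ≤ cs := le_csSup hbdd h0S
  have hcs1 : cs ≤ 1 := csSup_le ⟨0, h0S⟩ fun c hc => hc.2.1
  have hdown : ∀ c d : ℝ, 0 ≤ c → c ≤ d → d ∈ S → IsLim (mix c) := by
    intro c d hc hcd hd
    refine hd.2.2.mix hc ?_
    rw [mix_tors hd.1 hd.2.1]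
    exact hcd
  have hcsS : IsLim (mix cs) := by
    refine Appr.isLim (mix_prob hcs0 hcs1) fun J M ε hε => ?_
    obtain ⟨c, hcS, hc⟩ := exists_lt_of_lt_csSup ⟨0, h0S⟩ (show cs - ε / 2 < sSup S by
      rw [← hcs]
      linarith)
    have hcle : c ≤ cs := le_csSup hbdd hcS
    obtain ⟨ρ, h1, h2, h3⟩ := hcS.2.2.appr J M (ε / 2) (by positivity)
    refine ⟨ρ, h1, h2, fun j hj1 hj2 => ?_⟩
    have h4 := h3 j hj1 hj2
    have hj0 : (j : ℤ) ≠ 0 := by exact_mod_cast (by omega : j ≠ 0)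
    rw [mix_fc hcS.1 hj0] at h4
    rw [mix_fc hcs0 hj0]
    have h5 : ‖(c : ℂ) - cs‖ ≤ ε / 2 := by
      rw [← Complex.ofReal_sub, Complex.norm_real, Real.norm_eq_abs, abs_le]
      constructor <;> linarith
    calc ‖(∫ x, (fourier (j : ℤ) x : ℂ) ∂ρ) - cs‖ =
          ‖((∫ x, (fourier (j : ℤ) x : ℂ) ∂ρ) - c) + ((c : ℂ) - cs)‖ := by
            congr 1
            ring
      _ ≤ ε / 2 + ε / 2 := (norm_add_le _ _).trans (add_le_add h4 h5)
      _ = ε := by ring
  refine ⟨cs, hcs0, hcs1, fun c hc0 hc1 => ?_⟩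
  have hiff : c ≤ cs ↔ IsLim (mix c) := by
    constructor
    · intro h
      exact hdown c cs hc0 h ⟨hcs0, hcs1, hcsS⟩
    · intro h
      exact le_csSup hbdd ⟨hc0, hc1, h⟩
  refine ⟨hiff, ⟨fun h => ?_, ?_⟩⟩
  · have hl := hiff.1 h
    have := hl.1
    refine ⟨mix c, hl, ?_⟩
    rw [atomic_eq_tors hl.inv, mix_tors hc0 hc1]
  · rintro ⟨μ, hμ, hμc⟩
    have := hμ.1
    rw [atomic_eq_tors hμ.inv] at hμc
    exact hiff.2 (hμ.mix hc0 hμc.ge)

end Run7.h88
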