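import Mathlib
import Pool.Agent.Run7.h88.Limits

/-!
The equidistribution statement in terms of the weak limits, and the local criterion.
-/

set_option autoImplicit false

open MeasureTheory Set Filter Topology

namespace Run7.h88

open Pool.Agent.TH654.FC (Tors)
open Pool.Agent.Y139.GR (fc)

/-- limits along filters are approximated -/
theorem filter_appr {ι : Type*} {L : Filter ι} [L.NeBot] {μ : ι → ProbabilityMeasure UnitAddCircle}
    {ν : ProbabilityMeasure UnitAddCircle} (hlim : Tendsto μ L (𝓝 ν))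
    (hEF : ∀ i, EF (μ i : Measure UnitAddCircle))
    (hcard : Tendsto (fun i => (atoms (μ i : Measure UnitAddCircle)).ncard) L atTop) :
    Appr (ν : Measure UnitAddCircle) := by
  intro J M ε hε
  have h2 : ∀ᶠ i in L, ∀ j ∈ Finset.Icc 1 J,
      ‖(∫ x, (fourier (j : ℤ) x : ℂ) ∂(μ i : Measure UnitAddCircle)) -
        ∫ x, (fourier (j : ℤ) x : ℂ) ∂(ν : Measure UnitAddCircle)‖ < ε := by
    rw [Filter.eventually_all_finset]
    intro j _
    exact (tendsto_iff_norm_sub_tendsto_zero.1 (lim_fourier hlim (j : ℤ))).eventually_lt_const hε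
  obtain ⟨i, h3, h4⟩ := (h2.and (hcard.eventually_ge_atTop M)).exists
  exact ⟨μ i, hEF i, h4, fun j hj1 hj2 => (h3 j (Finset.mem_Icc.2 ⟨hj1, hj2⟩)).le⟩

/-- the equidistribution statement -/
theorem q1_iff : (∀ μ : ℕ → Measure UnitAddCircle, (∀ n, EF (μ n)) →
      Tendsto (fun n => (atoms (μ n)).ncard) atTop atTop →
      ∀ f : C(UnitAddCircle, ℝ), Tendsto (fun n => ∫ x, f x ∂(μ n)) atTop
        (𝓝 (∫ x, f x ∂(volume : Measure UnitAddCircle)))) ↔
    ∀ μ : Measure UnitAddCircle, IsLim μ → μ = volume := by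
  constructor
  · rintro h μ ⟨hp, ν, hν, hcard, hlim⟩
    refine ext_of_forall_integral_eq_of_IsFiniteMeasure fun f => ?_
    exact tendsto_nhds_unique (hlim f.toContinuousMap) (h ν hν hcard f.toContinuousMap)
  · intro h μ hμ hcard
    set P : ℕ → ProbabilityMeasure UnitAddCircle := fun i => ⟨μ i, (hμ i).prob⟩ with hP
    set Q : ProbabilityMeasure UnitAddCircle := ⟨volume, vol_prob⟩ with hQ
    have hlim : Tendsto P atTop (𝓝 Q) := by
      rw [tendsto_iff_ultrafilter]
      intro g hg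
      have h1 : Tendsto P g (𝓝 (g.map P).lim) := (g.map P).le_nhds_lim
      have h2 := filter_appr h1 (fun i => hμ i) (hcard.mono_left hg)
      have h3 := h _ (h2.isLim (by infer_instance))
      have h4 : (g.map P).lim = Q := Subtype.ext h3
      rw [← h4]
      exact h1
    exact fun f => tendsto_cont hlim f

/-- the integral over the circle as an interval integral -/
lemma int_circle (f : C(UnitAddCircle, ℝ)) :
    ∫ x, f x ∂(volume : Measure UnitAddCircle) = ∫ t in (0 : ℝ)..1, f ((t : ℝ) : UnitAddCircle) := by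
  rw [← UnitAddCircle.intervalIntegral_preimage 0 (fun x => f x)]
  simp

/-- **The local criterion.** -/
theorem local_crit : (∀ μ : Measure UnitAddCircle, IsLim μ → μ = volume) ↔
    ∃ (J : ℕ) (ε : ℝ), 0 < ε ∧ ∀ μ : Measure UnitAddCircle, IsLim μ →
      (∀ j : ℕ, 1 ≤ j → j ≤ J → ‖∫ x, (fourier (j : ℤ) x : ℂ) ∂μ‖ < ε) → μ = volume := by
  classical
  constructor
  · intro h
    exact ⟨0, 1, one_pos, fun μ hμ _ => h μ hμ⟩
  · rintro ⟨J, ε, hε, h⟩ μ hμ
    by_contra hne
    have hp := hμ.1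
    -- a nonzero coefficient
    obtain ⟨j₀, hj₀1, hj₀⟩ : ∃ j : ℕ, 1 ≤ j ∧ fc μ j ≠ 0 := by
      by_contra hcon
      push Not at hcon
      apply hne
      refine Pool.Agent.Y139.GR.ext_fc fun n => ?_
      rw [Pool.Agent.Y139.GR.fc_volume]
      rcases Int.lt_trichotomy n 0 with hn | hn | hn
      · obtain ⟨k, hk⟩ : ∃ k : ℕ, n = -(k : ℤ) := ⟨n.natAbs, by omega⟩
        rw [if_neg (by omega), hk, fc_neg_eq, hcon k (by omega), map_zero]
      · subst hn
        rw [if_pos rfl, Pool.Agent.Y139.GR.fc_zero, probReal_univ]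
        simp
      · obtain ⟨k, hk⟩ : ∃ k : ℕ, n = (k : ℤ) := ⟨n.natAbs, by omega⟩
        rw [if_neg (by omega), hk, hcon k (by omega)]
    set J' := max J j₀ with hJ'
    have hJ'1 : 1 ≤ J' := hj₀1.trans (le_max_right _ _)
    set ε' := min (ε / 2) (‖fc μ j₀‖ / 2) with hε'
    have hε'0 : 0 < ε' := by
      have := norm_pos_iff.2 hj₀
      positivity
    obtain ⟨η, M, hη, hgap⟩ := gap_crit hJ'1 (δ := 1 / 2) (by norm_num) hε'0
    obtain ⟨_, ν, hν, hcard, hlim⟩ := hμ
    set P : ℕ → ProbabilityMeasure UnitAddCircle := fun i => ⟨ν i, (hν i).prob⟩ with hP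
    set Q : ProbabilityMeasure UnitAddCircle := ⟨μ, hp⟩ with hQ
    have hlim' : Tendsto P atTop (𝓝 Q) := tendsto_prob (μ := Q) (ν := P) hlim
    have e1 : ∀ᶠ i in (atTop : Filter ℕ), ε' ≤ ‖∫ x, (fourier (j₀ : ℤ) x : ℂ) ∂(ν i)‖ := by
      have h1 := (lim_fourier hlim' (j₀ : ℤ)).norm
      have h2 : ε' < ‖∫ x, (fourier (j₀ : ℤ) x : ℂ) ∂(Q : Measure UnitAddCircle)‖ := by
        have h3 : ε' ≤ ‖fc μ j₀‖ / 2 := min_le_right _ _
        have h4 := norm_pos_iff.2 hj₀
        have h5 : ‖∫ x, (fourier (j₀ : ℤ) x : ℂ) ∂(Q : Measure UnitAddCircle)‖ = ‖fc μ j₀‖ := rfl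
        rw [h5]
        linarith
      exact (h1.eventually_const_lt h2).mono fun i hi => hi.le
    obtain ⟨n₀, hn₀⟩ := eventually_atTop.1 (e1.and (hcard.eventually_ge_atTop M))
    choose N hN htor hmin using fun i => exists_ord (hν i)
    have hk : ∀ i, n₀ ≤ i → ∃ k : ℕ, 1 ≤ k ∧ (k : ℝ) ≤ (N i : ℝ) ^ (1 / 2 : ℝ) ∧
        (∃ j : ℕ, 1 ≤ j ∧ j ≤ J' ∧ η ≤ ‖∫ x, (fourier ((j * k : ℕ) : ℤ) x : ℂ) ∂(ν i)‖) ∧
        ∀ j : ℕ, 1 ≤ j → j ≤ J' → ‖∫ x, (fourier ((j * k : ℕ) : ℤ) x : ℂ) ∂(ν i)‖ < ε' :=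
      fun i hi => hgap (ν i) (hν i) (N i) (hN i) (htor i) (hn₀ i hi).2
        ⟨j₀, hj₀1, le_max_right _ _, (hn₀ i hi).1⟩
    choose! k hk1 hk2 hk3 hk4 using hk
    -- the dilates
    set ρ : ℕ → Measure UnitAddCircle := fun i =>
      Measure.map (fun x : UnitAddCircle => ((k (max i n₀) : ℕ) : ℤ) • x) (ν (max i n₀)) with hρ
    have hρE : ∀ i, EF (ρ i) := fun i => (hν _).map _
    have hρc : ∀ i (j : ℕ), (∫ x, (fourier (j : ℤ) x : ℂ) ∂(ρ i)) =
        ∫ x, (fourier ((j * k (max i n₀) : ℕ) : ℤ) x : ℂ) ∂(ν (max i n₀)) := by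
      intro i j
      rw [hρ]
      rw [integral_map (zsmul_meas _).aemeasurable (cont_fourier _).aestronglyMeasurable]
      refine integral_congr_ae (Eventually.of_forall fun x => ?_)
      show (fourier (j : ℤ) (((k (max i n₀) : ℕ) : ℤ) • x) : ℂ) = _
      rw [fourier_smul]
      push_cast
      rfl
    have hρcard : Tendsto (fun i => (atoms (ρ i)).ncard) atTop atTop := by
      rw [tendsto_atTop]
      intro B
      filter_upwards [hcard.eventually_ge_atTop (QQ B ^ 2 + 1), eventually_ge_atTop n₀] with i hi1 hi2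
      have hmax : max i n₀ = i := max_eq_left hi2
      show B ≤ (atoms (ρ i)).ncard
      rw [hρ]
      simp only [hmax]
      have hNi : QQ B ^ 2 < N i := by
        have := atoms_le_N (hν i) (hN i) ((hν i).ae_tor (htor i))
        omega
      refine supp_dilate (hν i) (hmin i) (hk1 i hi2) ?_
      have hQ' : (QQ B : ℝ) ^ 2 < N i := by exact_mod_cast hNi
      have hNpos : (0 : ℝ) < N i := by exact_mod_cast hN i
      have hkk := hk2 i hi2
      rw [← Real.sqrt_eq_rpow] at hkk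
      have h4 : (QQ B : ℝ) < Real.sqrt (N i) := Real.lt_sqrt_of_sq_lt hQ'
      have hkpos : (0 : ℝ) < k i := by exact_mod_cast hk1 i hi2
      have h5 : (QQ B : ℝ) * k i < N i := by
        calc (QQ B : ℝ) * k i < Real.sqrt (N i) * k i := by gcongr
          _ ≤ Real.sqrt (N i) * Real.sqrt (N i) := by gcongr
          _ = N i := Real.mul_self_sqrt hNpos.le
      exact_mod_cast h5
    -- the limit of the dilates
    set R : ℕ → ProbabilityMeasure UnitAddCircle := fun i => ⟨ρ i, (hρE i).prob⟩ with hR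
    set U : Ultrafilter ℕ := Ultrafilter.of atTop with hU
    have hUle : (U : Filter ℕ) ≤ atTop := Ultrafilter.of_le atTop
    set θ : ProbabilityMeasure UnitAddCircle := (U.map R).lim with hθ
    have hlimR : Tendsto R U (𝓝 θ) := (U.map R).le_nhds_lim
    have hθL : IsLim (θ : Measure UnitAddCircle) :=
      (filter_appr hlimR (fun i => hρE i) (hρcard.mono_left hUle)).isLim (by infer_instance)
    have hsmall : ∀ j : ℕ, 1 ≤ j → j ≤ J' →
        ‖∫ x, (fourier (j : ℤ) x : ℂ) ∂(θ : Measure UnitAddCircle)‖ ≤ ε' := by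
      intro j hj1 hj2
      refine le_of_tendsto (lim_fourier hlimR (j : ℤ)).norm (Eventually.of_forall fun i => ?_)
      show ‖∫ x, (fourier (j : ℤ) x : ℂ) ∂(ρ i)‖ ≤ ε'
      rw [hρc]
      exact (hk4 _ (le_max_right _ _) j hj1 hj2).le
    have hbig : ∃ j : ℕ, 1 ≤ j ∧ j ≤ J' ∧
        η ≤ ‖∫ x, (fourier (j : ℤ) x : ℂ) ∂(θ : Measure UnitAddCircle)‖ := by
      by_contra hcon
      push Not at hcon
      have e2 : ∀ᶠ i in (U : Filter ℕ), ∀ j ∈ Finset.Icc 1 J',
          ‖∫ x, (fourier (j : ℤ) x : ℂ) ∂(ρ i)‖ < η := by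
        rw [Filter.eventually_all_finset]
        intro j hj
        rw [Finset.mem_Icc] at hj
        exact (lim_fourier hlimR (j : ℤ)).norm.eventually_lt_const (hcon j hj.1 hj.2)
      obtain ⟨i, hi⟩ := e2.exists
      obtain ⟨j, hj1, hj2, hj3⟩ := hk3 _ (le_max_right i n₀)
      have := hi j (Finset.mem_Icc.2 ⟨hj1, hj2⟩)
      rw [hρc] at this
      linarith
    have hθv := h _ hθL (fun j hj1 hj2 => by
      have h1 := hsmall j hj1 (hj2.trans (le_max_left _ _))
      have h2 : ε' ≤ ε / 2 := min_le_left _ _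
      linarith)
    obtain ⟨j, hj1, _, hj3⟩ := hbig
    rw [hθv, int_fourier_volume, if_neg (by exact_mod_cast (by omega : j ≠ 0)), norm_zero] at hj3
    linarith

end Run7.h88
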