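import Mathlib
import Pool.Agent.Run7.h88.Cover2
import Pool.Agent.Run7.h88.Pairs
import Pool.Agent.Run7.h88.Crit

/-!
If some weak limit of large finite orbits is not Lebesgue measure then there are large finite orbits
which give mass at least `r ^ θ` to the arc of radius `r` around `0`, for every `θ > 0` and every
small `r`.
-/

set_option autoImplicit false

open MeasureTheory Set Filter Topology
open scoped ENNReal

namespace Run7.h88

open Pool.Agent.W764.FB (EssInj)
open Pool.Agent.W764.SH (restrict_mp decomp)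

/-- an invariant measure which is not Lebesgue measure has a large mass in few small arcs -/
theorem conc' {μ : Measure UnitAddCircle} [IsProbabilityMeasure μ]
    (h2 : MeasurePreserving (fun x : UnitAddCircle => 2 • x) μ μ)
    (h3 : MeasurePreserving (fun x : UnitAddCircle => 3 • x) μ μ) (hne : μ ≠ volume) :
    ∃ m : ℝ, 0 < m ∧ ∀ θ : ℝ, 0 < θ → ∃ C η : ℝ, 0 < C ∧ 0 < η ∧ ∀ N : ℕ, ∃ (K : ℕ)
      (cen : Fin K → UnitAddCircle), 1 ≤ K ∧ (K : ℝ) ≤ C * (2 : ℝ) ^ (θ * N) ∧
      m ≤ μ.real (⋃ i, Metric.closedBall (cen i) (η / 2 ^ N)) := by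
  obtain ⟨D, hDm, hDp, hDq, hD, B, hBm, hB0, hB⟩ :=
    decomp (p := 2) (q := 3) le_rfl (by norm_num) (by norm_num) μ h2 h3
  have h0 : μ Dᶜ ≠ 0 := by
    intro h0
    apply hne
    have e1 : μ.restrict D = μ := by
      rw [Measure.restrict_eq_self_of_ae_mem]
      rw [ae_iff]
      exact h0
    have e2 : μ D = 1 := by
      have := prob_compl_eq_zero_iff (μ := μ) hDm
      exact this.1 h0
    rw [e1, e2, one_smul] at hD
    exact hD
  set ν' : Measure UnitAddCircle := (μ Dᶜ)⁻¹ • μ.restrict Dᶜ with hν'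
  have hν1 : IsProbabilityMeasure ν' := by
    refine ⟨?_⟩
    rw [hν', Measure.smul_apply, Measure.restrict_apply_univ, smul_eq_mul,
      ENNReal.inv_mul_cancel h0 (measure_ne_top _ _)]
  have hmp : MeasurePreserving (fun x : UnitAddCircle => 2 • x) ν' ν' := by
    have h3 := restrict_mp h2 hDm.compl (hDp.mono fun x hx => not_congr hx)
    refine ⟨h3.measurable, ?_⟩
    rw [hν', Measure.map_smul, h3.map_eq]
  have hinj : EssInj 2 ν' := by
    refine ⟨B, hBm, ?_, hB⟩
    rw [hν', Measure.smul_apply, smul_eq_mul, Measure.restrict_apply hBm.compl]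
    have : Bᶜ ∩ Dᶜ = Dᶜ \ B := by
      ext x; simp only [mem_inter_iff, mem_compl_iff, Set.mem_sdiff]; tauto
    rw [this, hB0, mul_zero]
  have hpos : 0 < μ.real Dᶜ := ENNReal.toReal_pos h0 (measure_ne_top _ _)
  refine ⟨μ.real Dᶜ / 2, by positivity, fun θ hθ => ?_⟩
  obtain ⟨C, η, hC, hη, hcov⟩ := cover_rate ν' hmp hinj hθ
  refine ⟨C, η, hC, hη, fun N => ?_⟩
  obtain ⟨K, cen, hK1, hK2, hK3⟩ := hcov N
  refine ⟨K, cen, hK1, hK2, ?_⟩
  set V : Set UnitAddCircle := ⋃ i, Metric.closedBall (cen i) (η / 2 ^ N) with hV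
  have hVm : MeasurableSet V := MeasurableSet.iUnion fun i => measurableSet_closedBall
  have h4 : 1 / 2 ≤ ν'.real V := by
    have := probReal_compl_eq_one_sub (μ := ν') hVm
    linarith
  have h5 : ν'.real V = (μ.real Dᶜ)⁻¹ * μ.real (V ∩ Dᶜ) := by
    rw [hν', measureReal_def, Measure.smul_apply, smul_eq_mul, Measure.restrict_apply hVm,
      ENNReal.toReal_mul, ENNReal.toReal_inv]
    rfl
  have h6 : μ.real (V ∩ Dᶜ) ≤ μ.real V := measureReal_mono inter_subset_left (measure_ne_top _ _)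
  rw [h5, ← div_eq_inv_mul, le_div_iff₀ hpos] at h4
  linarith

theorem conc {μ : Measure UnitAddCircle} [IsProbabilityMeasure μ]
    (h2 : MeasurePreserving (fun x : UnitAddCircle => 2 • x) μ μ)
    (h3 : MeasurePreserving (fun x : UnitAddCircle => 3 • x) μ μ) (hne : μ ≠ volume) {θ : ℝ}
    (hθ : 0 < θ) : ∃ m C η : ℝ, 0 < m ∧ 0 < C ∧ 0 < η ∧ ∀ N : ℕ, ∃ (K : ℕ)
      (cen : Fin K → UnitAddCircle), 1 ≤ K ∧ (K : ℝ) ≤ C * (2 : ℝ) ^ (θ * N) ∧
      m ≤ μ.real (⋃ i, Metric.closedBall (cen i) (η / 2 ^ N)) := by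
  obtain ⟨m, hm, h⟩ := conc' h2 h3 hne
  obtain ⟨C, η, hC, hη, h'⟩ := h θ hθ
  exact ⟨m, C, η, hm, hC, hη, h'⟩

open Classical in
/-- points in few small arcs make many close pairs -/
lemma close_pairs {A : Finset UnitAddCircle} {K : ℕ} (cen : Fin K → UnitAddCircle) {ρ r : ℝ}
    (hr : 2 * ρ ≤ r) {a : ℝ} (ha : 0 ≤ a)
    (h : a ≤ (A.filter fun x => x ∈ ⋃ i, Metric.ball (cen i) ρ).card) :
    a ^ 2 ≤ K * ((A ×ˢ A).filter fun z => ‖z.2 - z.1‖ ≤ r).card := by
  have hex : ∀ x, x ∈ ⋃ i, Metric.ball (cen i) ρ → ∃ i, x ∈ Metric.ball (cen i) ρ :=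
    fun x hx => mem_iUnion.1 hx
  set B := A.filter fun x => x ∈ ⋃ i, Metric.ball (cen i) ρ with hB
  rcases Nat.eq_zero_or_pos K with rfl | hK
  · have : B = ∅ := by
      rw [hB, Finset.filter_eq_empty_iff]
      intro x _ hx
      rw [mem_iUnion] at hx
      exact hx.choose.elim0
    rw [this, Finset.card_empty, Nat.cast_zero] at h
    have : a = 0 := le_antisymm h ha
    rw [this]
    simp
  have : Nonempty (Fin K) := ⟨⟨0, hK⟩⟩
  choose! l hl using fun x (hx : x ∈ (⋃ i, Metric.ball (cen i) ρ)) => hex x hx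
  have h1 : (B.card : ℝ) = ∑ i : Fin K, ((B.filter fun x => l x = i).card : ℝ) := by
    rw [← Nat.cast_sum]
    congr 1
    exact Finset.card_eq_sum_card_fiberwise fun x _ => Finset.mem_coe.2 (Finset.mem_univ _)
  have h2 : (∑ i : Fin K, ((B.filter fun x => l x = i).card : ℝ)) ^ 2 ≤
      K * ∑ i : Fin K, ((B.filter fun x => l x = i).card : ℝ) ^ 2 := by
    have := sq_sum_le_card_mul_sum_sq (s := (Finset.univ : Finset (Fin K)))
      (f := fun i => ((B.filter fun x => l x = i).card : ℝ))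
    rwa [Finset.card_univ, Fintype.card_fin] at this
  have h3 : ∑ i : Fin K, ((B.filter fun x => l x = i).card : ℝ) ^ 2 ≤
      ((A ×ˢ A).filter fun z => ‖z.2 - z.1‖ ≤ r).card := by
    have e1 : ∀ i : Fin K, ((B.filter fun x => l x = i).card : ℝ) ^ 2 =
        (((B.filter fun x => l x = i) ×ˢ (B.filter fun x => l x = i)).card : ℝ) := by
      intro i
      rw [Finset.card_product]
      push_cast
      ring
    simp_rw [e1]
    rw [← Nat.cast_sum, ← Finset.card_biUnion]
    · refine Nat.cast_le.2 (Finset.card_le_card ?_)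
      intro z hz
      rw [Finset.mem_biUnion] at hz
      obtain ⟨i, -, hz⟩ := hz
      obtain ⟨hza, hzb⟩ := Finset.mem_product.1 hz
      obtain ⟨hz1, hl1⟩ := Finset.mem_filter.1 hza
      obtain ⟨hz2, hl2⟩ := Finset.mem_filter.1 hzb
      rw [hB, Finset.mem_filter] at hz1 hz2
      rw [Finset.mem_filter, Finset.mem_product]
      refine ⟨⟨hz1.1, hz2.1⟩, ?_⟩
      have g1 := hl _ hz1.2
      have g2 := hl _ hz2.2
      rw [hl1] at g1
      rw [hl2] at g2
      rw [Metric.mem_ball, dist_eq_norm] at g1 g2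
      have e : z.2 - z.1 = (z.2 - cen i) - (z.1 - cen i) := by abel
      rw [e]
      have := norm_sub_le (z.2 - cen i) (z.1 - cen i)
      linarith
    · intro i _ j _ hij
      rw [Function.onFun, Finset.disjoint_left]
      intro z hz1 hz2
      have e1 := (Finset.mem_filter.1 (Finset.mem_product.1 hz1).1).2
      have e2 := (Finset.mem_filter.1 (Finset.mem_product.1 hz2).1).2
      exact hij (e1.symm.trans e2)
  calc a ^ 2 ≤ (B.card : ℝ) ^ 2 := by gcongr
    _ = (∑ i : Fin K, ((B.filter fun x => l x = i).card : ℝ)) ^ 2 := by rw [h1]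
    _ ≤ K * ∑ i : Fin K, ((B.filter fun x => l x = i).card : ℝ) ^ 2 := h2
    _ ≤ _ := by gcongr

/-- the mass of a set as a proportion of the atoms -/
lemma real_prop {μ : Measure UnitAddCircle} (h : EF μ) (s : Set UnitAddCircle) [DecidablePred fun x => x ∈ s] :
    μ.real s = (((atoms_finite h).toFinset.filter fun x => x ∈ s).card : ℝ) /
      (atoms μ).ncard := by
  classical
  have hprob := h.prob
  set A := (atoms_finite h).toFinset with hA
  have hmA : ∀ x, x ∈ A ↔ x ∈ atoms μ := fun x => (atoms_finite h).mem_toFinset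
  have e1 : μ.real s = μ.real (((A.filter fun x => x ∈ s) : Finset UnitAddCircle) :
          Set UnitAddCircle) := by
    apply measureReal_congr
    have h2 : ((A.filter (fun x => x ∈ s) : Finset UnitAddCircle) :
        Set UnitAddCircle) = s ∩ (A : Set UnitAddCircle) := by
      ext w
      simp only [Finset.coe_filter, mem_inter_iff, mem_ofPred_eq, Finset.mem_coe]
      exact and_comm
    rw [h2]
    have h3 : (A : Set UnitAddCircle) =ᵐ[μ] univ := by
      rw [Filter.eventuallyEq_univ, mem_ae_iff, hA, Finite.coe_toFinset]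
      exact atoms_compl h
    have h4 := (Filter.EventuallyEq.refl (ae μ) s).inter h3
    rw [inter_univ] at h4
    exact h4.symm
  rw [e1, real_eq_sum, Finset.sum_congr rfl fun x hx => atoms_mass h
    ((hmA x).1 (Finset.mem_filter.1 hx).1), Finset.sum_const, nsmul_eq_mul]
  ring

/-- **Concentration near zero.** -/
theorem power {ι : Type*} {L : Filter ι} [L.NeBot] {μ : ι → ProbabilityMeasure UnitAddCircle}
    {ν : ProbabilityMeasure UnitAddCircle} (hlim : Tendsto μ L (𝓝 ν))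
    (hEF : ∀ i, EF (μ i : Measure UnitAddCircle))
    (hcard : Tendsto (fun i => (atoms (μ i : Measure UnitAddCircle)).ncard) L atTop)
    (hne : (ν : Measure UnitAddCircle) ≠ volume) {θ : ℝ} (hθ : 0 < θ) :
    ∃ r₀ : ℝ, 0 < r₀ ∧ ∀ r : ℝ, 0 < r → r ≤ r₀ → ∀ M : ℕ, ∀ᶠ i in L, ∃ k : ℤ,
      M ≤ (atoms (Measure.map (fun x : UnitAddCircle => k • x) (μ i : Measure _))).ncard ∧
      r ^ θ ≤ (Measure.map (fun x : UnitAddCircle => k • x) (μ i : Measure _)).real
        {x | ‖x‖ ≤ r} := by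
  classical
  have h2 := lim_inv hlim (p := 2) fun i => (hEF i).inv.1
  have h3 := lim_inv hlim (p := 3) fun i => (hEF i).inv.2
  obtain ⟨m, C, η, hm, hC, hη, hcov⟩ := conc h2 h3 hne (θ := θ / 2) (by positivity)
  -- the constant
  set c0 : ℝ := m ^ 2 / (4 * C * (8 * η) ^ (θ / 2)) with hc0
  have hc0pos : 0 < c0 := by positivity
  obtain ⟨r1, hr1, hr1'⟩ : ∃ r1 : ℝ, 0 < r1 ∧ ∀ r : ℝ, 0 < r → r ≤ r1 → 2 * r ^ (θ / 2) ≤ c0 := by
    refine ⟨(c0 / 2) ^ (2 / θ), by positivity, fun r hr hr' => ?_⟩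
    have h4 : r ^ (θ / 2) ≤ ((c0 / 2) ^ (2 / θ)) ^ (θ / 2) :=
      Real.rpow_le_rpow hr.le hr' (by positivity)
    rw [← Real.rpow_mul (by positivity)] at h4
    have e : 2 / θ * (θ / 2) = 1 := by field_simp
    rw [e, Real.rpow_one] at h4
    linarith
  refine ⟨min r1 (4 * η), lt_min hr1 (by positivity), fun r hr hr' M => ?_⟩
  have hrr1 := hr'.trans (min_le_left _ _)
  have hrη := hr'.trans (min_le_right _ _)
  -- the scale
  obtain ⟨N, hN1, hN2⟩ : ∃ N : ℕ, 4 * η / 2 ^ N ≤ r ∧ r * 2 ^ N ≤ 8 * η := by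
    have hex : ∃ N : ℕ, 4 * η / 2 ^ N ≤ r := by
      obtain ⟨N, hN⟩ := pow_unbounded_of_one_lt (4 * η / r) (by norm_num : (1 : ℝ) < 2)
      refine ⟨N, ?_⟩
      rw [div_lt_iff₀ hr] at hN
      rw [div_le_iff₀ (by positivity)]
      linarith
    refine ⟨Nat.find hex, Nat.find_spec hex, ?_⟩
    rcases Nat.eq_zero_or_pos (Nat.find hex) with h0 | h0
    · rw [h0, pow_zero, mul_one]
      linarith
    · have h4 := Nat.find_min hex (m := Nat.find hex - 1) (by omega)
      rw [not_le, lt_div_iff₀ (by positivity)] at h4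
      have h5 : (2 : ℝ) ^ (Nat.find hex) = 2 * 2 ^ (Nat.find hex - 1) := by
        rw [← pow_succ']
        congr 1
        omega
      rw [h5]
      linarith
  obtain ⟨K, cen, hK1, hK2, hK3⟩ := hcov N
  have hKR : (1 : ℝ) ≤ K := by exact_mod_cast hK1
  have hpow : (0 : ℝ) < 2 ^ N := by positivity
  set V : Set UnitAddCircle := ⋃ i, Metric.ball (cen i) (2 * η / 2 ^ N) with hV
  have hVo : IsOpen V := isOpen_iUnion fun i => Metric.isOpen_ball
  have hVν : m / 2 < (ν : Measure UnitAddCircle).real V := by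
    have h4 : (⋃ i, Metric.closedBall (cen i) (η / 2 ^ N)) ⊆ V := by
      refine iUnion_mono fun i => Metric.closedBall_subset_ball ?_
      have : 0 < η / 2 ^ N := by positivity
      have e : 2 * η / 2 ^ N = 2 * (η / 2 ^ N) := by ring
      rw [e]
      linarith
    have h5 := measureReal_mono (μ := (ν : Measure UnitAddCircle)) h4 (measure_ne_top _ _)
    linarith
  -- the number of arcs
  have hKle : (K : ℝ) ≤ C * (8 * η) ^ (θ / 2) / r ^ (θ / 2) := by
    refine hK2.trans ?_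
    rw [mul_div_assoc]
    refine mul_le_mul_of_nonneg_left ?_ hC.le
    rw [← Real.div_rpow (by positivity) hr.le, mul_comm (θ / 2), Real.rpow_mul (by norm_num),
      Real.rpow_natCast]
    refine Real.rpow_le_rpow (by positivity) ?_ (by positivity)
    rw [le_div_iff₀ hr]
    linarith
  set c : ℝ := (m / 2) ^ 2 / K with hc
  have hcr : 2 * r ^ θ ≤ c := by
    have h4 : c0 * r ^ (θ / 2) ≤ c := by
      rw [hc, hc0, le_div_iff₀ (by linarith)]
      have h5 : m ^ 2 / (4 * C * (8 * η) ^ (θ / 2)) * r ^ (θ / 2) * K ≤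
          m ^ 2 / (4 * C * (8 * η) ^ (θ / 2)) * r ^ (θ / 2) *
            (C * (8 * η) ^ (θ / 2) / r ^ (θ / 2)) := by gcongr
      refine h5.trans (le_of_eq ?_)
      have : r ^ (θ / 2) ≠ 0 := (Real.rpow_pos_of_pos hr _).ne'
      have : (8 * η) ^ (θ / 2) ≠ 0 := by positivity
      field_simp
      ring
    have h6 : r ^ θ = r ^ (θ / 2) * r ^ (θ / 2) := by
      rw [← Real.rpow_add hr]
      congr 1
      ring
    have h7 := hr1' r hr hrr1
    have h8 : 0 < r ^ (θ / 2) := Real.rpow_pos_of_pos hr _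
    rw [h6]
    nlinarith
  have hrθ : 0 < r ^ θ := Real.rpow_pos_of_pos hr _
  obtain ⟨n0, hn0⟩ := exists_nat_gt ((BB M : ℝ) / r ^ θ)
  filter_upwards [ev_open hlim hVo hVν, hcard.eventually_ge_atTop n0] with i hi1 hi2
  have hprob := (hEF i).prob
  have hApos : (0 : ℝ) < (atoms (μ i : Measure UnitAddCircle)).ncard := by
    exact_mod_cast atoms_pos (hEF i)
  have hBB : (BB M : ℝ) / (atoms (μ i : Measure UnitAddCircle)).ncard < r ^ θ := by
    rw [div_lt_iff₀ hrθ] at hn0
    rw [div_lt_iff₀ hApos]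
    have : (n0 : ℝ) ≤ (atoms (μ i : Measure UnitAddCircle)).ncard := by exact_mod_cast hi2
    calc (BB M : ℝ) < n0 * r ^ θ := hn0
      _ ≤ (atoms (μ i : Measure UnitAddCircle)).ncard * r ^ θ := by gcongr
      _ = _ := mul_comm _ _
  have h4 := real_prop (hEF i) V
  rw [h4, lt_div_iff₀ hApos] at hi1
  have h5 := close_pairs (A := (atoms_finite (hEF i)).toFinset) cen (ρ := 2 * η / 2 ^ N) (r := r)
    (by
      have e : 2 * (2 * η / 2 ^ N) = 4 * η / 2 ^ N := by ring
      rw [e]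
      exact hN1) (a := m / 2 * (atoms (μ i : Measure UnitAddCircle)).ncard) (by positivity) hi1.le
  obtain ⟨k, hk1, hk2⟩ := pairs (hEF i) M (r := r) (c := c) (by linarith) (by
    rw [hc, div_mul_eq_mul_div, div_le_iff₀ (by linarith)]
    calc (m / 2) ^ 2 * ((atoms (μ i : Measure UnitAddCircle)).ncard : ℝ) ^ 2
        = (m / 2 * (atoms (μ i : Measure UnitAddCircle)).ncard) ^ 2 := by ring
      _ ≤ _ := h5
      _ = _ := mul_comm _ _)
  exact ⟨k, hk1, by linarith⟩

end Run7.h88
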