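import Mathlib
import Pool.Agent.Run7.h88.Power
import Pool.Agent.Run7.h88.OrbGroup

/-!
If some weak limit of large finite orbits is not Lebesgue measure, then some weak limit of large finite
orbits has local dimension `0` at the point `0`.
-/

set_option autoImplicit false

open MeasureTheory Set Filter Topology
open scoped ENNReal

namespace Run7.h88

/-- economical coverings at all the dyadic scales -/
theorem covers {μ : Measure UnitAddCircle} [IsProbabilityMeasure μ]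
    (h2 : MeasurePreserving (fun x : UnitAddCircle => 2 • x) μ μ)
    (h3 : MeasurePreserving (fun x : UnitAddCircle => 3 • x) μ μ) (hne : μ ≠ volume) :
    ∃ (m : ℝ) (K : ℕ → ℕ) (cen : ∀ i, Fin (K i) → UnitAddCircle), 0 < m ∧ (∀ i, 1 ≤ K i) ∧
      (∀ i, m ≤ μ.real (⋃ a, Metric.closedBall (cen i a) (1 / 2 ^ (i + 2)))) ∧
      ∀ θ : ℝ, 0 < θ → ∃ C : ℝ, 0 < C ∧ ∀ i, (K i : ℝ) ≤ C * (2 : ℝ) ^ (θ * i) := by
  classical
  obtain ⟨m, hm, h⟩ := conc' h2 h3 hne
  have key : ∀ θ : ℝ, 0 < θ → ∃ C : ℝ, 0 < C ∧ ∀ i : ℕ, ∃ (K : ℕ) (cen : Fin K → UnitAddCircle),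
      m ≤ μ.real (⋃ a, Metric.closedBall (cen a) (1 / 2 ^ (i + 2))) ∧
      (K : ℝ) ≤ C * (2 : ℝ) ^ (θ * i) := by
    intro θ hθ
    obtain ⟨C, η, hC, hη, h'⟩ := h θ hθ
    obtain ⟨n, hn⟩ := pow_unbounded_of_one_lt (4 * η) (by norm_num : (1 : ℝ) < 2)
    refine ⟨C * (2 : ℝ) ^ (θ * n), by positivity, fun i => ?_⟩
    obtain ⟨K, cen, hK1, hK2, hK3⟩ := h' (i + n)
    refine ⟨K, cen, hK3.trans (measureReal_mono (iUnion_mono fun a =>
      Metric.closedBall_subset_closedBall ?_) (measure_ne_top _ _)), hK2.trans (le_of_eq ?_)⟩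
    · rw [div_le_div_iff₀ (by positivity) (by positivity), one_mul, pow_add, pow_add]
      have : (0 : ℝ) < 2 ^ i := by positivity
      nlinarith
    · rw [mul_assoc, ← Real.rpow_add (by norm_num)]
      congr 2
      push_cast
      ring
  have hex : ∀ i : ℕ, ∃ K : ℕ, ∃ cen : Fin K → UnitAddCircle,
      m ≤ μ.real (⋃ a, Metric.closedBall (cen a) (1 / 2 ^ (i + 2))) := by
    intro i
    obtain ⟨C, -, hC⟩ := key 1 one_pos
    obtain ⟨K, cen, h1, -⟩ := hC i
    exact ⟨K, cen, h1⟩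
  choose cen hcen using fun i => Nat.find_spec (hex i)
  refine ⟨m, fun i => Nat.find (hex i), cen, hm, ?_, hcen, ?_⟩
  · intro i
    by_contra hcon
    have h0 : Nat.find (hex i) = 0 := Nat.lt_one_iff.1 (not_le.1 hcon)
    have h1 := hcen i
    have h2 : (⋃ a, Metric.closedBall (cen i a) (1 / 2 ^ (i + 2))) = ∅ := by
      have : IsEmpty (Fin (Nat.find (hex i))) := by
        rw [h0]
        infer_instance
      exact iUnion_of_empty _
    rw [h2, measureReal_empty] at h1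
    linarith
  · intro θ hθ
    obtain ⟨C, hC, h1⟩ := key θ hθ
    refine ⟨C, hC, fun i => ?_⟩
    obtain ⟨K, cen', h4, h5⟩ := h1 i
    have h6 : Nat.find (hex i) ≤ K := Nat.find_min' _ ⟨cen', h4⟩
    exact (Nat.cast_le.2 h6).trans h5

open Classical in
/-- the label of a point: one of the arcs which contain it -/
noncomputable def lab {K : ℕ} (cen : Fin K → UnitAddCircle) (ρ : ℝ) (x : UnitAddCircle) :
    Option (Fin K) :=
  if h : ∃ a, x ∈ Metric.ball (cen a) ρ then some h.choose else none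

lemma lab_ne {K : ℕ} {cen : Fin K → UnitAddCircle} {ρ : ℝ} {x : UnitAddCircle} {a : Fin K}
    (h : lab cen ρ x = some a) : x ∈ Metric.ball (cen a) ρ := by
  unfold lab at h
  split_ifs at h with h1
  have h2 := Option.some_injective _ h
  rw [← h2]
  exact h1.choose_spec

lemma lab_close {K : ℕ} {cen : Fin K → UnitAddCircle} {ρ : ℝ} {x y : UnitAddCircle}
    (h1 : lab cen ρ x ≠ none) (h2 : lab cen ρ x = lab cen ρ y) : ‖x - y‖ ≤ 2 * ρ := by
  obtain ⟨a, ha⟩ := Option.ne_none_iff_exists'.1 h1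
  rw [ha] at h2
  have g1 := lab_ne ha
  have g2 := lab_ne h2.symm
  rw [Metric.mem_ball, dist_eq_norm] at g1 g2
  have e : x - y = (x - cen a) - (y - cen a) := by abel
  rw [e]
  have := norm_sub_le (x - cen a) (y - cen a)
  linarith

open Classical in
lemma lab_mass {A : Finset UnitAddCircle} {K : ℕ} (hK : 1 ≤ K) (cen : Fin K → UnitAddCircle)
    {ρ : ℝ} {a : ℝ} (ha : 0 ≤ a)
    (h : a ≤ (A.filter fun x => x ∈ ⋃ i, Metric.ball (cen i) ρ).card) :
    a ^ 2 / K ≤ ∑ b : Fin K, ((A.filter fun x => lab cen ρ x = some b).card : ℝ) ^ 2 := by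
  have hKR : (0 : ℝ) < K := by exact_mod_cast hK
  have h1 : ((A.filter fun x => x ∈ ⋃ i, Metric.ball (cen i) ρ).card : ℝ) =
      ∑ b : Fin K, ((A.filter fun x => lab cen ρ x = some b).card : ℝ) := by
    rw [← Nat.cast_sum]
    congr 1
    rw [← Finset.card_biUnion]
    · congr 1
      ext x
      rw [Finset.mem_filter, Finset.mem_biUnion, mem_iUnion]
      constructor
      · rintro ⟨hx, hex⟩
        refine ⟨hex.choose, Finset.mem_univ _, Finset.mem_filter.2 ⟨hx, ?_⟩⟩
        unfold lab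
        rw [dif_pos hex]
      · rintro ⟨b, -, hb⟩
        rw [Finset.mem_filter] at hb
        exact ⟨hb.1, b, lab_ne hb.2⟩
    · intro i _ j _ hij
      rw [Function.onFun, Finset.disjoint_left]
      intro z hz1 hz2
      rw [Finset.mem_filter] at hz1 hz2
      exact hij (Option.some_injective _ (hz1.2.symm.trans hz2.2))
  have h2 := sq_sum_le_card_mul_sum_sq (s := (Finset.univ : Finset (Fin K)))
      (f := fun b => ((A.filter fun x => lab cen ρ x = some b).card : ℝ))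
  rw [Finset.card_univ, Fintype.card_fin] at h2
  rw [div_le_iff₀ hKR, mul_comm]
  refine le_trans ?_ h2
  rw [← h1]
  gcongr

lemma half_pow {n : ℕ} (h : 0 < n) : (1 : ℝ) / 2 ^ (n - 1) = 1 / 2 ^ n * 2 := by
  obtain ⟨k, rfl⟩ : ∃ k, n = k + 1 := ⟨n - 1, by omega⟩
  rw [Nat.add_sub_cancel, pow_succ]
  field_simp

/-- **Local dimension zero at zero.** -/
theorem dim_zero {ι : Type*} {L : Filter ι} [L.NeBot] {μ : ι → ProbabilityMeasure UnitAddCircle}
    {ν : ProbabilityMeasure UnitAddCircle} (hlim : Tendsto μ L (𝓝 ν))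
    (hEF : ∀ i, EF (μ i : Measure UnitAddCircle))
    (hcard : Tendsto (fun i => (atoms (μ i : Measure UnitAddCircle)).ncard) L atTop)
    (hne : (ν : Measure UnitAddCircle) ≠ volume) :
    ∃ κ : Measure UnitAddCircle, IsLim κ ∧ ∀ θ : ℝ, 0 < θ → ∃ r₀ : ℝ, 0 < r₀ ∧
      ∀ r : ℝ, 0 < r → r ≤ r₀ → r ^ θ ≤ κ.real {x | ‖x‖ ≤ r} := by
  classical
  have h2 := lim_inv hlim (p := 2) fun i => (hEF i).inv.1
  have h3 := lim_inv hlim (p := 3) fun i => (hEF i).inv.2
  obtain ⟨m, K, cen, hm, hK1, hcov, hKθ⟩ := covers h2 h3 hne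
  set c : ℕ → ℝ := fun i => (m / 2) ^ 2 / K i with hc
  have hc0 : ∀ i, 0 < c i := by
    intro i
    have : (0 : ℝ) < K i := by exact_mod_cast hK1 i
    rw [hc]
    positivity
  set δ : ℕ → ℝ := fun i => 1 / (4 * (((i : ℝ) + 1) * ((i : ℝ) + 2))) * c i with hδ
  have hδ0 : ∀ i, 0 < δ i := by
    intro i
    have := hc0 i
    rw [hδ]
    positivity
  -- finite orbits
  have hfin : ∀ n : ℕ, ∃ ρ : Measure UnitAddCircle, EF ρ ∧ n ≤ (atoms ρ).ncard ∧
      ∀ i < n, δ i ≤ ρ.real {x | ‖x‖ ≤ 1 / 2 ^ i} := by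
    intro n
    set V : ℕ → Set UnitAddCircle := fun i => ⋃ a, Metric.ball (cen i a) (1 / 2 ^ (i + 1)) with hV
    have hVo : ∀ i, IsOpen (V i) := fun i => isOpen_iUnion fun a => Metric.isOpen_ball
    have hVν : ∀ i, m / 2 < (ν : Measure UnitAddCircle).real (V i) := by
      intro i
      have h4 : (⋃ a, Metric.closedBall (cen i a) (1 / 2 ^ (i + 2))) ⊆ V i := by
        refine iUnion_mono fun a => Metric.closedBall_subset_ball ?_
        exact one_div_lt_one_div_of_lt (by positivity)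
          (pow_lt_pow_right₀ (by norm_num) (by omega))
      have h5 := measureReal_mono (μ := (ν : Measure UnitAddCircle)) h4 (measure_ne_top _ _)
      have := hcov i
      linarith
    have hev : ∀ᶠ j in L, ∀ i ∈ Finset.range n, m / 2 < (μ j : Measure UnitAddCircle).real (V i) := by
      rw [Filter.eventually_all_finset]
      exact fun i _ => ev_open hlim (hVo i) (hVν i)
    have hP : 0 < ∏ i ∈ Finset.range n, c i := Finset.prod_pos fun i _ => hc0 i
    obtain ⟨n0, hn0⟩ := exists_nat_gt (2 * (BB n : ℝ) / ∏ i ∈ Finset.range n, c i)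
    obtain ⟨j, hj1, hj2⟩ := (hev.and (hcard.eventually_ge_atTop n0)).exists
    have hE := hEF j
    have hprob := hE.prob
    have hApos : (0 : ℝ) < (atoms (μ j : Measure UnitAddCircle)).ncard := by
      exact_mod_cast atoms_pos hE
    obtain ⟨k, hk1, hk2⟩ := pairs_all hE n n (K := K)
      (fun i => lab (cen i) (1 / 2 ^ (i + 1))) (r := fun i => 1 / 2 ^ i) (c := c)
      (by
        intro i x y h4 h5
        refine (lab_close h4 h5).trans (le_of_eq ?_)
        rw [pow_succ]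
        field_simp) hc0 (by
        intro i hi
        have h4 := hj1 i (Finset.mem_range.2 hi)
        rw [real_prop hE (V i), lt_div_iff₀ hApos] at h4
        have h5 := lab_mass (A := (atoms_finite hE).toFinset) (hK1 i) (cen i)
          (ρ := 1 / 2 ^ (i + 1)) (a := m / 2 * (atoms (μ j : Measure UnitAddCircle)).ncard)
          (by positivity) h4.le
        refine le_trans (le_of_eq ?_) h5
        rw [hc]
        ring) (by
        rw [div_lt_iff₀ hP] at hn0
        have : (n0 : ℝ) ≤ (atoms (μ j : Measure UnitAddCircle)).ncard := by exact_mod_cast hj2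
        calc 2 * (BB n : ℝ) < n0 * ∏ i ∈ Finset.range n, c i := hn0
          _ ≤ (atoms (μ j : Measure UnitAddCircle)).ncard * ∏ i ∈ Finset.range n, c i := by gcongr
          _ = _ := mul_comm _ _)
    exact ⟨_, hE.map k, hk1, hk2⟩
  choose ρ hρ1 hρ2 hρ3 using hfin
  -- a limit
  set P : ℕ → ProbabilityMeasure UnitAddCircle := fun i => ⟨ρ i, (hρ1 i).prob⟩ with hP
  set U : Ultrafilter ℕ := Ultrafilter.of atTop with hU
  have hUle : (U : Filter ℕ) ≤ atTop := Ultrafilter.of_le atTop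
  have hlimU : Tendsto P U (𝓝 (U.map P).lim) := (U.map P).le_nhds_lim
  set κ := (U.map P).lim with hκ
  have hatop : Tendsto (fun i => (atoms (P i : Measure UnitAddCircle)).ncard) U atTop :=
    (tendsto_atTop_mono hρ2 tendsto_id).mono_left hUle
  have happr := filter_appr hlimU (fun i => hρ1 i) hatop
  have hκprob : IsProbabilityMeasure (κ : Measure UnitAddCircle) := inferInstance
  refine ⟨(κ : Measure UnitAddCircle), happr.isLim hκprob, ?_⟩
  have hκδ : ∀ i, δ i ≤ (κ : Measure UnitAddCircle).real {x | ‖x‖ ≤ 1 / 2 ^ i} := by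
    intro i
    by_contra hcon
    rw [not_le] at hcon
    have hcl : IsClosed {x : UnitAddCircle | ‖x‖ ≤ 1 / 2 ^ i} :=
      isClosed_le continuous_norm continuous_const
    have h4 := ev_closed hlimU hcl hcon
    have h5 : ∀ᶠ n in (U : Filter ℕ), i < n := (eventually_gt_atTop i).filter_mono hUle
    obtain ⟨n, hn1, hn2⟩ := (h4.and h5).exists
    exact absurd (hρ3 n i hn2) (not_le.2 hn1)
  intro θ hθ
  obtain ⟨C, hC, hCK⟩ := hKθ (θ / 2) (by positivity)
  -- the elementary inequality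
  have hlimit : Tendsto (fun i : ℕ => ((i : ℝ) + 1) * ((i : ℝ) + 2) * ((2 : ℝ) ^ (-(θ / 2))) ^ i)
      atTop (𝓝 0) := by
    have hq0 : (0 : ℝ) ≤ (2 : ℝ) ^ (-(θ / 2)) := by positivity
    have hq1 : (2 : ℝ) ^ (-(θ / 2)) < 1 := Real.rpow_lt_one_of_one_lt_of_neg (by norm_num) (by linarith)
    have g2 := tendsto_pow_const_mul_const_pow_of_lt_one 2 hq0 hq1
    have g1 := tendsto_pow_const_mul_const_pow_of_lt_one 1 hq0 hq1
    have g0 := tendsto_pow_const_mul_const_pow_of_lt_one 0 hq0 hq1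
    have g := (g2.add (g1.const_mul 3)).add (g0.const_mul 2)
    simp only [mul_zero, add_zero] at g
    refine g.congr fun i => ?_
    ring
  have hc1 : 0 < (m / 2) ^ 2 / (4 * C) * (2 : ℝ) ^ (-θ) := by positivity
  obtain ⟨i0, hi0⟩ := (hlimit.eventually (gt_mem_nhds hc1)).exists_forall_of_atTop
  refine ⟨1 / 2 ^ (i0 + 1), by positivity, fun r hr hr' => ?_⟩
  obtain ⟨i, hi1, hi2⟩ : ∃ i : ℕ, 1 / 2 ^ i ≤ r ∧ r < 1 / 2 ^ i * 2 := by
    have hex : ∃ i : ℕ, 1 / 2 ^ i ≤ r := by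
      obtain ⟨N, hN⟩ := pow_unbounded_of_one_lt (1 / r) (by norm_num : (1 : ℝ) < 2)
      refine ⟨N, ?_⟩
      rw [div_lt_iff₀ hr] at hN
      rw [div_le_iff₀ (by positivity)]
      linarith
    refine ⟨Nat.find hex, Nat.find_spec hex, ?_⟩
    rcases Nat.eq_zero_or_pos (Nat.find hex) with h0 | h0
    · rw [h0, pow_zero]
      have : (1 : ℝ) / 2 ^ (i0 + 1) ≤ 1 := by
        rw [div_le_one (by positivity)]
        exact one_le_pow₀ (by norm_num)
      linarith
    · have h4 := Nat.find_min hex (m := Nat.find hex - 1) (by omega)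
      rw [not_le] at h4
      refine h4.trans_le (le_of_eq ?_)
      exact half_pow h0
  have hii : i0 ≤ i := by
    by_contra hcon
    have h4 : i + 1 ≤ i0 + 1 := by omega
    have h5 : (1 : ℝ) / 2 ^ (i0 + 1) < 1 / 2 ^ i := by
      exact one_div_lt_one_div_of_lt (by positivity) (pow_lt_pow_right₀ (by norm_num) (by omega))
    linarith
  have h4 := hi0 i hii
  have h5 : δ i ≤ (κ : Measure UnitAddCircle).real {x | ‖x‖ ≤ r} :=
    (hκδ i).trans (measureReal_mono (fun x hx => le_trans hx hi1) (measure_ne_top _ _))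
  refine le_trans ?_ h5
  have hpowi : (0 : ℝ) < 2 ^ i := by positivity
  have e1 : ((2 : ℝ) ^ (-(θ / 2))) ^ i = (2 : ℝ) ^ (-(θ / 2 * i)) := by
    rw [← Real.rpow_natCast, ← Real.rpow_mul (by norm_num)]
    congr 1
    ring
  rw [e1] at h4
  have h6 : r ^ θ ≤ (2 : ℝ) ^ (-(θ * i)) * (2 : ℝ) ^ θ := by
    calc r ^ θ ≤ (1 / 2 ^ i * 2) ^ θ := Real.rpow_le_rpow hr.le hi2.le hθ.le
      _ = (2 : ℝ) ^ (-(θ * i)) * (2 : ℝ) ^ θ := by
          rw [Real.mul_rpow (by positivity) (by norm_num)]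
          congr 1
          rw [one_div, ← Real.rpow_natCast, ← Real.rpow_neg (by norm_num),
            ← Real.rpow_mul (by norm_num)]
          congr 1
          ring
  refine h6.trans ?_
  have hKi := hCK i
  have hKpos : (0 : ℝ) < K i := by exact_mod_cast hK1 i
  -- `2 ^ (-θ i) 2 ^ θ ≤ δ i`
  have h7 : (m / 2) ^ 2 / (C * (2 : ℝ) ^ (θ / 2 * i)) ≤ c i := by
    rw [hc]
    simp only
    gcongr
  have h8 : 1 / (4 * (((i : ℝ) + 1) * ((i : ℝ) + 2))) *
      ((m / 2) ^ 2 / (C * (2 : ℝ) ^ (θ / 2 * i))) ≤ δ i := by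
    rw [hδ]
    simp only
    gcongr
  refine le_trans ?_ h8
  have hX : (0 : ℝ) < (2 : ℝ) ^ (θ / 2 * i) := by positivity
  have hY : (0 : ℝ) < ((i : ℝ) + 1) * ((i : ℝ) + 2) := by positivity
  have hZ : (0 : ℝ) < (2 : ℝ) ^ θ := by positivity
  have e2 : (2 : ℝ) ^ (-(θ / 2 * i)) = 1 / (2 : ℝ) ^ (θ / 2 * i) := by
    rw [Real.rpow_neg (by norm_num), one_div]
  have e3 : (2 : ℝ) ^ (-(θ * i)) = 1 / ((2 : ℝ) ^ (θ / 2 * i) * (2 : ℝ) ^ (θ / 2 * i)) := by
    rw [← Real.rpow_add (by norm_num), Real.rpow_neg (by norm_num), one_div]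
    congr 2
    ring
  have e4 : (2 : ℝ) ^ (-θ) = 1 / (2 : ℝ) ^ θ := by
    rw [Real.rpow_neg (by norm_num), one_div]
  rw [e2, e4] at h4
  rw [e3]
  generalize (2 : ℝ) ^ (θ / 2 * i) = X at *
  generalize ((i : ℝ) + 1) * ((i : ℝ) + 2) = Y at *
  generalize (2 : ℝ) ^ θ = Z at *
  have h9 : Y * Z * (4 * C) ≤ (m / 2) ^ 2 * X := by
    have h10 := h4.le
    rw [mul_one_div, mul_one_div, div_div, div_le_div_iff₀ hX (by positivity)] at h10
    linarith
  rw [one_div_mul_eq_div, one_div_mul_eq_div, div_div, div_le_div_iff₀ (by positivity) (by positivity)]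
  have h11 : Z * (C * X * (4 * Y)) = (Y * Z * (4 * C)) * X := by ring
  rw [h11]
  calc (Y * Z * (4 * C)) * X ≤ ((m / 2) ^ 2 * X) * X := by gcongr
    _ = (m / 2) ^ 2 * (X * X) := by ring

end Run7.h88
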