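import Mathlib
import Pool.Agent.Run7.h88.Gap
import Pool.Agent.Run7.h88.Limits

/-!
Invariant measures all of whose atoms are small (for instance the atomless ones): dilates close to
`c δ₀ + (1 - c) λ` and dilates at an intermediate distance from Lebesgue measure.
-/

set_option autoImplicit false

open MeasureTheory Set Filter Topology

namespace Run7.h88

open Pool.Agent.TH654.FC (Tors)

/-- the mass near the kernel of `D` tends to the mass of the kernel -/
lemma near_tend {μ : Measure UnitAddCircle} [IsProbabilityMeasure μ] (D : ℕ) :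
    Tendsto (fun K : ℕ => μ.real (near D K)) atTop (𝓝 (μ.real {x | D • x = 0})) := by
  have hanti : Antitone fun K : ℕ => near D (K + 1) := by
    intro a b hab x hx
    have hx' : ‖D • x‖ ≤ 1 / ((b + 1 : ℕ) : ℝ) := hx
    show ‖D • x‖ ≤ 1 / ((a + 1 : ℕ) : ℝ)
    refine hx'.trans ?_
    push_cast
    have : (a : ℝ) ≤ b := by exact_mod_cast hab
    gcongr
  have h1 := tendsto_measure_iInter_atTop (μ := μ)
    (fun K : ℕ => (near_meas D (K + 1)).nullMeasurableSet) hanti ⟨0, measure_ne_top _ _⟩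
  have e : (⋂ K : ℕ, near D (K + 1)) = {x | D • x = 0} := by
    ext x
    rw [mem_iInter]
    constructor
    · intro h
      have h2 : ‖D • x‖ ≤ 0 := by
        refine ge_of_tendsto' (f := fun n : ℕ => 1 / ((n : ℝ) + 1)) (x := atTop)
          tendsto_one_div_add_atTop_nhds_zero_nat fun n => ?_
        have := h n
        have h3 : ‖D • x‖ ≤ 1 / ((n + 1 : ℕ) : ℝ) := this
        push_cast at h3
        exact h3
      exact norm_le_zero_iff.1 h2
    · intro h K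
      show ‖D • x‖ ≤ 1 / ((K + 1 : ℕ) : ℝ)
      rw [show D • x = 0 from h, norm_zero]
      positivity
  rw [e] at h1
  have h2 := (ENNReal.tendsto_toReal (measure_ne_top μ {x | D • x = 0})).comp h1
  exact (tendsto_add_atTop_iff_nat 1).1 h2

/-- dilates close to `c δ₀ + (1 - c) λ`, for invariant measures with small atoms -/
theorem clemma_gen {ι : Type*} {L : Filter ι} {μ : ι → ProbabilityMeasure UnitAddCircle}
    {ν : ProbabilityMeasure UnitAddCircle} (hlim : Tendsto μ L (𝓝 ν))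
    (hInv : ∀ i, Inv (μ i : Measure UnitAddCircle))
    (hat : ∀ δ : ℝ, 0 < δ → ∀ᶠ i in L, ∀ x, (μ i : Measure UnitAddCircle).real {x} ≤ δ)
    {c : ℝ} (hc0 : 0 ≤ c) (hc : c ≤ (ν : Measure UnitAddCircle).real Tors)
    (J : ℕ) {ε : ℝ} (hε : 0 < ε) :
    ∀ᶠ i in L, ∃ k : ℕ, 1 ≤ k ∧ ∀ j : ℕ, 1 ≤ j → j ≤ J →
      ‖(∫ x, (fourier ((j * k : ℕ) : ℤ) x : ℂ) ∂(μ i : Measure UnitAddCircle)) - c‖ ≤ ε := by
  classical
  wlog hJ : 1 ≤ J generalizing J
  · have h1 := this 1 le_rfl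
    filter_upwards [h1] with i hi
    obtain ⟨k, h2, -⟩ := hi
    exact ⟨k, h2, fun j hj1 hj2 => by omega⟩
  obtain ⟨L₀, η₀, hL₀, hη₀, hprof⟩ := profile (ε := (ε / 2) ^ 2 / (4 * (J : ℝ) ^ 2)) (by positivity)
  set η : ℝ := min η₀ (ε / 2) with hη
  have hη0 : 0 < η := by positivity
  have hηε : η ≤ ε / 2 := min_le_right _ _
  obtain ⟨D, hD1, hD⟩ := tors_level (ν : Measure UnitAddCircle) hη0
  obtain ⟨κ, hκ0, hκ1, hκ⟩ := exists_kappa (ν : Measure UnitAddCircle) hL₀ hD1 hD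
  obtain ⟨K₀, hK₀, hprof2⟩ := hprof κ hκ0 hκ1
  obtain ⟨K₁, hK₁, hshell⟩ := shell (η := η) hη0
  set K₂ : ℕ := K₀ + K₁ + 2 * J + 2 with hK₂
  have hDR : (0 : ℝ) < D := by exact_mod_cast hD1
  -- the eventual properties
  have hA1 := ev_closed hlim (offC_closed L₀ D κ) hκ
  have hA2 : ∀ᶠ i in L, c - η < (μ i : Measure UnitAddCircle).real
      {x : UnitAddCircle | ‖D • x‖ < 1 / (K₂ : ℝ)} := by
    refine ev_open hlim (isOpen_lt (by fun_prop) continuous_const) ?_
    have h1 : Tors ⊆ {x : UnitAddCircle | ‖D • x‖ < 1 / (K₂ : ℝ)} ∪ (Tors \ {x | D • x = 0}) := by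
      intro x hx
      by_cases h0 : D • x = 0
      · left
        show ‖D • x‖ < 1 / (K₂ : ℝ)
        rw [h0, norm_zero]
        have : (0 : ℝ) < K₂ := by exact_mod_cast (by omega : 0 < K₂)
        positivity
      · exact Or.inr ⟨hx, h0⟩
    have h2 := (measureReal_mono h1 (measure_ne_top (ν : Measure UnitAddCircle) _)).trans
      (measureReal_union_le _ _)
    linarith
  have hA3 := hat (η / (2 * D)) (by positivity)
  filter_upwards [hA1, hA2, hA3] with i hi1 hi2 hi3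
  have hpr : IsProbabilityMeasure (μ i : Measure UnitAddCircle) := inferInstance
  have hK2R : (2 : ℝ) ≤ K₂ := by exact_mod_cast (by omega : 2 ≤ K₂)
  set g : ℕ → ℝ := fun K => (μ i : Measure UnitAddCircle).real (near D K) with hg
  have hganti : ∀ K : ℕ, 1 ≤ K → g (K + 1) ≤ g K := by
    intro K hK
    refine measureReal_mono ?_ (measure_ne_top _ _)
    intro x hx
    have hx' : ‖D • x‖ ≤ 1 / ((K + 1 : ℕ) : ℝ) := hx
    show ‖D • x‖ ≤ 1 / (K : ℝ)
    refine hx'.trans ?_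
    have : (0 : ℝ) < K := by exact_mod_cast hK
    push_cast
    gcongr
    linarith
  have hgslow : ∀ K : ℕ, K₂ ≤ K → g K ≤ g (K + 1) + η := by
    intro K hK
    have h1 := hshell K (by omega) (μ i : Measure UnitAddCircle) hpr (hInv i) D
    have h2 : near D K ⊆ near D (K + 1) ∪ {x | 1 / (K : ℝ) ^ 2 ≤ ‖D • x‖ ∧ ‖D • x‖ ≤ 1 / K} := by
      intro x hx
      by_cases h3 : x ∈ near D (K + 1)
      · exact Or.inl h3
      · right
        refine ⟨?_, hx⟩
        have h4 : 1 / ((K + 1 : ℕ) : ℝ) < ‖D • x‖ := not_le.1 h3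
        refine le_trans ?_ h4.le
        have h5 : (2 : ℝ) ≤ K := hK2R.trans (by exact_mod_cast hK)
        push_cast
        gcongr
        nlinarith
    have h3 := (measureReal_mono h2 (measure_ne_top (μ i : Measure UnitAddCircle) _)).trans
      (measureReal_union_le _ _)
    show (μ i : Measure UnitAddCircle).real (near D K) ≤
      (μ i : Measure UnitAddCircle).real (near D (K + 1)) + η
    linarith
  obtain ⟨Kh, hK2h, hgh⟩ : ∃ Kh : ℕ, K₂ ≤ Kh ∧ g Kh ≤ η := by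
    have h1 := near_tend (μ := (μ i : Measure UnitAddCircle)) D
    have h2 : (μ i : Measure UnitAddCircle).real {x | D • x = 0} ≤ η / 2 := by
      have h3 := coset_mass (μ := (μ i : Measure UnitAddCircle)) hi3
        (D := (D : ℤ)) (by exact_mod_cast (by omega : D ≠ 0)) 0
      have e : {x : UnitAddCircle | (D : ℤ) • x = 0} = {x | D • x = 0} := by
        ext x
        simp
      rw [e] at h3
      refine h3.trans (le_of_eq ?_)
      rw [Int.cast_natCast, abs_of_pos hDR]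
      field_simp
    have h4 : ∀ᶠ K : ℕ in atTop, g K < η :=
      h1.eventually_lt_const (by linarith)
    obtain ⟨K, h5, h6⟩ := (h4.and (eventually_ge_atTop K₂)).exists
    exact ⟨K, h6, h5.le⟩
  have hg2 : c - η ≤ g K₂ := by
    refine hi2.le.trans (measureReal_mono ?_ (measure_ne_top _ _))
    intro x hx
    exact (show ‖D • x‖ < 1 / (K₂ : ℝ) from hx).le
  -- the last good scale
  obtain ⟨K, hKlo, hKhi, hgc⟩ : ∃ K : ℕ, K₂ ≤ K ∧ K ≤ Kh ∧ |g K - c| ≤ η := by
    set P : ℕ → Prop := fun K => K₂ ≤ K ∧ c - η ≤ g K with hP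
    have hP2 : P K₂ := ⟨le_rfl, hg2⟩
    have h1 : P (Nat.findGreatest P Kh) := Nat.findGreatest_spec hK2h hP2
    have h2 : Nat.findGreatest P Kh ≤ Kh := Nat.findGreatest_le Kh
    refine ⟨Nat.findGreatest P Kh, h1.1, h2, ?_⟩
    rw [abs_le]
    refine ⟨by linarith [h1.2], ?_⟩
    rcases eq_or_lt_of_le h2 with h3 | h3
    · rw [h3]
      linarith
    · have h4 : ¬ P (Nat.findGreatest P Kh + 1) :=
        Nat.findGreatest_is_greatest (Nat.lt_succ_self _) h3
      have h5 : g (Nat.findGreatest P Kh + 1) < c - η := by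
        by_contra hcon
        exact h4 ⟨by linarith [h1.1], not_lt.1 hcon⟩
      have h6 := hgslow _ h1.1
      linarith
  -- apply the main estimate
  have hoff : (μ i : Measure UnitAddCircle).real {x | D • x ∈ offSet L₀ κ} ≤ η₀ :=
    (measureReal_mono (off_sub hL₀) (measure_ne_top _ _)).trans (hi1.le.trans (min_le_left _ _))
  have hmain := hprof2 (μ i : Measure UnitAddCircle) hpr (hInv i) D hoff K (by omega)
    (fun _ => 1) measurable_const (fun _ => by simp)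
  simp only [one_mul, integral_const, measureReal_restrict_apply_univ] at hmain
  obtain ⟨m, hm1, hm2, hm3⟩ := pick (f := fun k => ‖(∫ x, (fourier ((D : ℤ) * k) x : ℂ)
    ∂(μ i : Measure UnitAddCircle)) - (μ i : Measure UnitAddCircle).real (near D K) • (1 : ℂ)‖ ^ 2)
    (fun _ => by positivity) hJ (by omega) (ε := ε / 2) hmain
  refine ⟨D * m, Nat.one_le_iff_ne_zero.2 (Nat.mul_ne_zero (by omega) (by omega)), ?_⟩
  · intro j hj1 hj2
    have h1 := hm3 j hj1 hj2
    have h2 := le_of_sq_le_sq h1 (by positivity : (0 : ℝ) ≤ ε / 2)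
    have e : ((D : ℤ) * ((j * m : ℕ) : ℤ)) = ((j * (D * m) : ℕ) : ℤ) := by
      push_cast
      ring
    rw [e] at h2
    have h3 : (μ i : Measure UnitAddCircle).real (near D K) • (1 : ℂ) = ((g K : ℝ) : ℂ) := by
      rw [Complex.real_smul, mul_one]
    rw [h3] at h2
    have h4 : ‖((g K : ℝ) : ℂ) - c‖ ≤ ε / 2 := by
      rw [← Complex.ofReal_sub, Complex.norm_real, Real.norm_eq_abs]
      linarith
    calc ‖(∫ x, (fourier ((j * (D * m) : ℕ) : ℤ) x : ℂ) ∂(μ i : Measure UnitAddCircle)) - c‖ =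
          ‖((∫ x, (fourier ((j * (D * m) : ℕ) : ℤ) x : ℂ) ∂(μ i : Measure UnitAddCircle)) -
            ((g K : ℝ) : ℂ)) + (((g K : ℝ) : ℂ) - c)‖ := by
            congr 1
            ring
      _ ≤ ε / 2 + ε / 2 := (norm_add_le _ _).trans (add_le_add h2 h4)
      _ = ε := by ring


/-- **An invariant measure with small atoms which is not almost Lebesgue measure has dilates at
an intermediate distance from Lebesgue measure.** -/
theorem gap_gen {J : ℕ} (hJ : 1 ≤ J) {ε₀ : ℝ} (hε : 0 < ε₀) :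
    ∃ η δ : ℝ, 0 < η ∧ 0 < δ ∧ ∀ μ : Measure UnitAddCircle, IsProbabilityMeasure μ → Inv μ →
      (∀ x, μ.real {x} ≤ δ) →
      (∃ j : ℕ, 1 ≤ j ∧ j ≤ J ∧ ε₀ ≤ ‖∫ x, (fourier (j : ℤ) x : ℂ) ∂μ‖) →
      ∃ k : ℕ, 1 ≤ k ∧
        (∃ j : ℕ, 1 ≤ j ∧ j ≤ J ∧ η ≤ ‖∫ x, (fourier ((j * k : ℕ) : ℤ) x : ℂ) ∂μ‖) ∧
        ∀ j : ℕ, 1 ≤ j → j ≤ J → ‖∫ x, (fourier ((j * k : ℕ) : ℤ) x : ℂ) ∂μ‖ < ε₀ := by
  classical
  by_contra hcon
  push Not at hcon
  choose μ hprob hInv hsm hj hneg using fun i : ℕ => hcon (1 / ((i : ℝ) + 1)) (1 / ((i : ℝ) + 1))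
    (by positivity) (by positivity)
  set P : ℕ → ProbabilityMeasure UnitAddCircle := fun i => ⟨μ i, hprob i⟩ with hP
  set U : Ultrafilter ℕ := Ultrafilter.of atTop with hU
  have hUle : (U : Filter ℕ) ≤ atTop := Ultrafilter.of_le atTop
  set ν : ProbabilityMeasure UnitAddCircle := (U.map P).lim with hν
  have hlim : Tendsto P U (𝓝 ν) := by
    have h1 := (U.map P).le_nhds_lim
    exact h1
  have hη0 : Tendsto (fun i : ℕ => 1 / ((i : ℝ) + 1)) U (𝓝 0) :=
    tendsto_one_div_add_atTop_nhds_zero_nat.mono_left hUle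
  have hat' : ∀ δ : ℝ, 0 < δ → ∀ᶠ i in (U : Filter ℕ),
      ∀ x, (P i : Measure UnitAddCircle).real {x} ≤ δ := by
    intro δ hδ
    filter_upwards [hη0.eventually_lt_const hδ] with i hi x
    exact (hsm i x).trans hi.le
  have hinv2 := lim_inv (p := 2) hlim fun i => (hInv i).1
  have hfou := fun n => lim_fourier hlim n
  -- the dichotomy for the limit
  have hdich : ∀ k : ℕ, 1 ≤ k →
      (∀ j : ℕ, 1 ≤ j → j ≤ J → (∫ x, (fourier ((j * k : ℕ) : ℤ) x : ℂ) ∂(ν : Measure UnitAddCircle)) = 0) ∨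
      ∃ j : ℕ, 1 ≤ j ∧ j ≤ J ∧
        ε₀ ≤ ‖∫ x, (fourier ((j * k : ℕ) : ℤ) x : ℂ) ∂(ν : Measure UnitAddCircle)‖ := by
    intro k hk
    by_contra hc
    push Not at hc
    obtain ⟨⟨j₀, hj1, hj2, hj3⟩, hall⟩ := hc
    have e2 : ∀ᶠ i : ℕ in (U : Filter ℕ), 1 / ((i : ℝ) + 1) <
        ‖∫ x, (fourier ((j₀ * k : ℕ) : ℤ) x : ℂ) ∂(P i : Measure UnitAddCircle)‖ := by
      refine hη0.eventually_lt (hfou _).norm ?_
      exact norm_pos_iff.2 hj3
    have e3 : ∀ᶠ i : ℕ in (U : Filter ℕ), ∀ j ∈ Finset.Icc 1 J,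
        ‖∫ x, (fourier ((j * k : ℕ) : ℤ) x : ℂ) ∂(P i : Measure UnitAddCircle)‖ < ε₀ := by
      rw [Filter.eventually_all_finset]
      intro j hj
      rw [Finset.mem_Icc] at hj
      exact (hfou _).norm.eventually_lt_const (hall j hj.1 hj.2)
    obtain ⟨i, h2, h3⟩ := (e2.and e3).exists
    obtain ⟨j, h4, h5, h6⟩ := hneg i k hk ⟨j₀, hj1, hj2, h2.le⟩
    exact absurd (h3 j (Finset.mem_Icc.2 ⟨h4, h5⟩)) (not_lt.2 h6)
  by_cases hat : ∀ x, (ν : Measure UnitAddCircle) {x} = 0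
  · have h0 := vgap hat hinv2 hJ hε hdich
    have e3 : ∀ᶠ i : ℕ in (U : Filter ℕ), ∀ j ∈ Finset.Icc 1 J,
        ‖∫ x, (fourier (j : ℤ) x : ℂ) ∂(P i : Measure UnitAddCircle)‖ < ε₀ := by
      rw [Filter.eventually_all_finset]
      intro j hj
      rw [Finset.mem_Icc] at hj
      refine (hfou _).norm.eventually_lt_const ?_
      rw [h0 j hj.1 hj.2, norm_zero]
      exact hε
    obtain ⟨i, h3⟩ := e3.exists
    obtain ⟨j, h4, h5, h6⟩ := hj i
    exact absurd (h3 j (Finset.mem_Icc.2 ⟨h4, h5⟩)) (not_lt.2 h6)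
  · push Not at hat
    obtain ⟨x, hx⟩ := hat
    have hc := tors_pos hinv2 hx
    set c := min ((ν : Measure UnitAddCircle).real Tors) (ε₀ / 2) with hcdef
    have hc0 : 0 < c := by positivity
    have h1 := clemma_gen hlim (fun i => hInv i) hat' hc0.le
      (min_le_left _ _) J (ε := c / 2) (by positivity)
    have e2 : ∀ᶠ i : ℕ in (U : Filter ℕ), 1 / ((i : ℝ) + 1) < c / 2 :=
      hη0.eventually_lt_const (by positivity)
    obtain ⟨i, ⟨k, hk1, hk3⟩, h2⟩ := (h1.and e2).exists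
    have hlow : ∀ j : ℕ, 1 ≤ j → j ≤ J →
        c / 2 ≤ ‖∫ x, (fourier ((j * k : ℕ) : ℤ) x : ℂ) ∂(μ i)‖ ∧
        ‖∫ x, (fourier ((j * k : ℕ) : ℤ) x : ℂ) ∂(μ i)‖ ≤ 3 * c / 2 := by
      intro j hj1 hj2
      have h3 := hk3 j hj1 hj2
      have h4 : ‖(c : ℂ)‖ = c := by rw [Complex.norm_real, Real.norm_of_nonneg hc0.le]
      have h5 := norm_sub_norm_le (c : ℂ) (∫ x, (fourier ((j * k : ℕ) : ℤ) x : ℂ) ∂(μ i))
      have h6 := norm_sub_norm_le (∫ x, (fourier ((j * k : ℕ) : ℤ) x : ℂ) ∂(μ i)) (c : ℂ)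
      rw [norm_sub_rev] at h5
      rw [h4] at h5 h6
      change ‖(∫ x, (fourier ((j * k : ℕ) : ℤ) x : ℂ) ∂(μ i)) - c‖ ≤ c / 2 at h3
      constructor <;> linarith
    obtain ⟨j, hj1, hj2, hj3⟩ := hneg i k hk1 ⟨1, le_rfl, hJ, h2.le.trans (hlow 1 le_rfl hJ).1⟩
    have h7 := (hlow j hj1 hj2).2
    have h8 : c ≤ ε₀ / 2 := min_le_right _ _
    linarith


end Run7.h88
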