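import Mathlib
import Pool.Agent.Run7.h88.Profile

/-!
The Toeplitz matrices of the invariant measures: uniformly in the measure and in the size, after a
bounded dilation at most one eigenvalue is not small.
-/

set_option autoImplicit false

open MeasureTheory Set

namespace Run7.h88

/-- the trigonometric polynomial `∑ c_k e(D k x)` -/
noncomputable def tp (D K : ℕ) (c : ℕ → ℂ) (x : UnitAddCircle) : ℂ :=
  ∑ k ∈ Finset.range K, c k * (fourier ((D : ℤ) * k) x : ℂ)

lemma tp_cont (D K : ℕ) (c : ℕ → ℂ) : Continuous (tp D K c) := by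
  unfold tp
  exact continuous_finsetSum _ fun k _ => continuous_const.mul (cont_fourier _)

lemma tp_le (D K : ℕ) (c : ℕ → ℂ) (x : UnitAddCircle) :
    ‖tp D K c x‖ ≤ ∑ k ∈ Finset.range K, ‖c k‖ := by
  unfold tp
  refine (norm_sum_le _ _).trans (Finset.sum_le_sum fun k _ => ?_)
  rw [norm_mul, Pool.Agent.TH654.FC.norm_fourier_eq, mul_one]

lemma sum_sq_le (K : ℕ) (c : ℕ → ℂ) :
    (∑ k ∈ Finset.range K, ‖c k‖) ^ 2 ≤ K * ∑ k ∈ Finset.range K, ‖c k‖ ^ 2 := by
  have := sq_sum_le_card_mul_sum_sq (s := Finset.range K) (f := fun k => ‖c k‖)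
  rwa [Finset.card_range] at this

/-- the kernel -/
noncomputable def kern (D K : ℕ) (z : UnitAddCircle) : ℝ :=
  ‖∑ k ∈ Finset.range K, (fourier ((D : ℤ) * k) z : ℂ)‖

lemma kern_cont (D K : ℕ) : Continuous (kern D K) := by
  unfold kern
  exact (continuous_finsetSum _ fun k _ => cont_fourier _).norm

lemma kern_neg (D K : ℕ) (z : UnitAddCircle) : kern D K (-z) = kern D K z := by
  unfold kern
  have h : ∑ k ∈ Finset.range K, (fourier ((D : ℤ) * k) (-z) : ℂ) =
      (starRingEnd ℂ) (∑ k ∈ Finset.range K, (fourier ((D : ℤ) * k) z : ℂ)) := by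
    rw [map_sum]
    refine Finset.sum_congr rfl fun k _ => ?_
    have := sub_fourier ((D : ℤ) * k) 0 z
    rw [zero_sub] at this
    rw [this]
    simp
  rw [h, RCLike.norm_conj]

lemma kern_le (D K : ℕ) (z : UnitAddCircle) : kern D K z ≤ K := sum_fourier_le D K z

lemma kern_nonneg (D K : ℕ) (z : UnitAddCircle) : 0 ≤ kern D K z := norm_nonneg _

/-- Schur's test, one row -/
lemma far_row {μ : Measure UnitAddCircle} [IsProbabilityMeasure μ] {D K : ℕ} {η ρ : ℝ}
    (hρ : 0 < ρ) (hη : 0 ≤ η)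
    (hfar : ∀ y, μ.real {x | x ∉ near D K ∧ ‖D • (x - y)‖ ≤ ρ} ≤ 2 * η)
    (hρK : 1 / (2 * ρ) ≤ η * K) (y : UnitAddCircle) :
    ∫ x in (near D K)ᶜ, kern D K (x - y) ∂μ ≤ 3 * η * K := by
  classical
  have hK0 : (0 : ℝ) ≤ K := Nat.cast_nonneg K
  set E : Set UnitAddCircle := {x | x ∉ near D K ∧ ‖D • (x - y)‖ ≤ ρ} with hE
  have hEm : MeasurableSet E := by
    have h2 : MeasurableSet {x : UnitAddCircle | ‖D • (x - y)‖ ≤ ρ} :=
      (isClosed_le (by fun_prop) continuous_const).measurableSet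
    exact (near_meas D K).compl.inter h2
  have hpt : ∀ x ∈ (near D K)ᶜ, kern D K (x - y) ≤ E.indicator (fun _ => (K : ℝ)) x + η * K := by
    intro x hx
    by_cases hp : ‖D • (x - y)‖ ≤ ρ
    · rw [Set.indicator_of_mem (show x ∈ E from ⟨hx, hp⟩)]
      have h1 := kern_le D K (x - y)
      have h2 : 0 ≤ η * K := by positivity
      linarith
    · rw [Set.indicator_of_notMem (fun h => hp h.2), zero_add]
      rw [not_le] at hp
      have hz : (D : ℤ) • (x - y) ≠ 0 := by
        rw [natCast_zsmul]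
        exact norm_pos_iff.1 (hρ.trans hp)
      have h3 := geo (D : ℤ) 0 (x - y) hz K
      simp only [add_zero] at h3
      refine le_trans h3 ?_
      rw [natCast_zsmul]
      calc 1 / (2 * ‖D • (x - y)‖) ≤ 1 / (2 * ρ) := by gcongr
        _ ≤ η * K := hρK
  have hI : Integrable (fun x => E.indicator (fun _ => (K : ℝ)) x + η * K) μ :=
    ((integrable_const _).indicator hEm).add (integrable_const _)
  have hk : Integrable (fun x => kern D K (x - y)) μ :=
    int_of_bdd' (C := (K : ℝ)) ((kern_cont D K).comp (continuous_id.sub continuous_const)).measurable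
      fun x => by
        rw [Real.norm_of_nonneg (kern_nonneg _ _ _)]
        exact kern_le _ _ _
  calc ∫ x in (near D K)ᶜ, kern D K (x - y) ∂μ
      ≤ ∫ x in (near D K)ᶜ, (E.indicator (fun _ => (K : ℝ)) x + η * K) ∂μ :=
        setIntegral_mono_on hk.integrableOn hI.integrableOn (near_meas D K).compl hpt
    _ ≤ ∫ x, (E.indicator (fun _ => (K : ℝ)) x + η * K) ∂μ := by
        refine setIntegral_le_integral hI (Filter.Eventually.of_forall fun x => ?_)
        have : 0 ≤ E.indicator (fun _ => (K : ℝ)) x := Set.indicator_nonneg (fun _ _ => hK0) _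
        show 0 ≤ E.indicator (fun _ => (K : ℝ)) x + η * K
        positivity
    _ ≤ 3 * η * K := by
        rw [integral_add ((integrable_const _).indicator hEm) (integrable_const _),
          integral_indicator hEm]
        simp only [integral_const, smul_eq_mul, measureReal_restrict_apply_univ, probReal_univ,
          one_mul]
        nlinarith [mul_le_mul_of_nonneg_right (hfar y) hK0]

/-- the mean square as a double integral, for bounded weights -/
lemma ms' {μ : Measure UnitAddCircle} [IsProbabilityMeasure μ] {ψ : UnitAddCircle → ℂ}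
    (hψ : Measurable ψ) {C : ℝ} (hC : 0 < C) (h1 : ∀ x, ‖ψ x‖ ≤ C) (D K : ℕ) :
    ∑ k ∈ Finset.range K, ‖∫ x, ψ x * (fourier ((D : ℤ) * k) x : ℂ) ∂μ‖ ^ 2 ≤
      ∫ p, ‖ψ p.1‖ * ‖ψ p.2‖ * kern D K (p.1 - p.2) ∂(μ.prod μ) := by
  have hCc : (C : ℂ) ≠ 0 := by exact_mod_cast hC.ne'
  have h2 := ms (μ := μ) (ψ := fun x => (C : ℂ)⁻¹ * ψ x) (measurable_const.mul hψ) (fun x => by
    rw [norm_mul, norm_inv, Complex.norm_real, Real.norm_of_nonneg hC.le, inv_mul_le_iff₀ hC,
      mul_one]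
    exact h1 x) (D : ℤ) K
  have e1 : ∀ k : ℕ, ‖∫ x, (C : ℂ)⁻¹ * ψ x * (fourier ((D : ℤ) * k) x : ℂ) ∂μ‖ ^ 2 =
      (C⁻¹) ^ 2 * ‖∫ x, ψ x * (fourier ((D : ℤ) * k) x : ℂ) ∂μ‖ ^ 2 := by
    intro k
    simp_rw [mul_assoc]
    rw [integral_const_mul, norm_mul, norm_inv, Complex.norm_real, Real.norm_of_nonneg hC.le,
      mul_pow]
  have e2 : ∀ p : UnitAddCircle × UnitAddCircle, ‖(C : ℂ)⁻¹ * ψ p.1‖ * ‖(C : ℂ)⁻¹ * ψ p.2‖ *
      ‖∑ k ∈ Finset.range K, (fourier ((D : ℤ) * k) (p.1 - p.2) : ℂ)‖ =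
      (C⁻¹) ^ 2 * (‖ψ p.1‖ * ‖ψ p.2‖ * kern D K (p.1 - p.2)) := by
    intro p
    rw [norm_mul, norm_mul, norm_inv, Complex.norm_real, Real.norm_of_nonneg hC.le]
    unfold kern
    ring
  simp_rw [e1, e2] at h2
  rw [← Finset.mul_sum, integral_const_mul] at h2
  exact le_of_mul_le_mul_left h2 (by positivity)

/-- Schur's test -/
lemma schur {μ : Measure UnitAddCircle} [IsProbabilityMeasure μ] {D K : ℕ} {B : ℝ}
    (hB : ∀ y, ∫ x in (near D K)ᶜ, kern D K (x - y) ∂μ ≤ B) {ψ : UnitAddCircle → ℂ}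
    (hψ : Measurable ψ) {C : ℝ} (hC : 0 < C) (h1 : ∀ x, ‖ψ x‖ ≤ C)
    (h0 : ∀ x ∈ near D K, ψ x = 0) :
    ∑ k ∈ Finset.range K, ‖∫ x, ψ x * (fourier ((D : ℤ) * k) x : ℂ) ∂μ‖ ^ 2 ≤
      B * ∫ x, ‖ψ x‖ ^ 2 ∂μ := by
  classical
  refine (ms' hψ hC h1 D K).trans ?_
  have hnm := near_meas D K
  have hm1 : Measurable fun x => ‖ψ x‖ ^ 2 := hψ.norm.pow_const 2
  set F : UnitAddCircle → ℝ := (near D K)ᶜ.indicator fun _ => (1 : ℝ) with hF
  have hFm : Measurable F := measurable_const.indicator hnm.compl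
  have hF0 : ∀ x, 0 ≤ F x := fun x => Set.indicator_nonneg (fun _ _ => zero_le_one) _
  have hF1 : ∀ x, F x ≤ 1 := fun x => Set.indicator_le' (fun _ _ => le_rfl) (fun _ _ => zero_le_one) x
  have hkm : Measurable fun p : UnitAddCircle × UnitAddCircle => kern D K (p.1 - p.2) :=
    (kern_cont D K).measurable.comp (measurable_fst.sub measurable_snd)
  have hb : ∀ x, ‖ψ x‖ ^ 2 ≤ C ^ 2 := fun x => pow_le_pow_left₀ (norm_nonneg _) (h1 x) 2
  have hK0 : (0 : ℝ) ≤ K := Nat.cast_nonneg K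
  have hI1 : Integrable (fun p : UnitAddCircle × UnitAddCircle =>
      ‖ψ p.2‖ ^ 2 * (F p.1 * kern D K (p.1 - p.2))) (μ.prod μ) := by
    refine int_of_bdd' (C := C ^ 2 * (1 * K)) ((hm1.comp measurable_snd).mul
      ((hFm.comp measurable_fst).mul hkm)) fun p => ?_
    have h2 := kern_nonneg D K (p.1 - p.2)
    rw [Real.norm_of_nonneg (mul_nonneg (by positivity) (mul_nonneg (hF0 _) h2))]
    refine mul_le_mul (hb _) (mul_le_mul (hF1 _) (kern_le _ _ _) h2 zero_le_one)
      (mul_nonneg (hF0 _) h2) (by positivity)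
  have hI2 : Integrable (fun p : UnitAddCircle × UnitAddCircle =>
      ‖ψ p.1‖ ^ 2 * (F p.2 * kern D K (p.1 - p.2))) (μ.prod μ) := by
    refine int_of_bdd' (C := C ^ 2 * (1 * K)) ((hm1.comp measurable_fst).mul
      ((hFm.comp measurable_snd).mul hkm)) fun p => ?_
    have h2 := kern_nonneg D K (p.1 - p.2)
    rw [Real.norm_of_nonneg (mul_nonneg (by positivity) (mul_nonneg (hF0 _) h2))]
    refine mul_le_mul (hb _) (mul_le_mul (hF1 _) (kern_le _ _ _) h2 zero_le_one)
      (mul_nonneg (hF0 _) h2) (by positivity)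
  have hψi : Integrable (fun x => ‖ψ x‖ ^ 2) μ :=
    int_of_bdd' (C := C ^ 2) hm1 fun x => by
      rw [Real.norm_of_nonneg (by positivity)]
      exact hb x
  have hrow : ∀ y, ∫ x, F x * kern D K (x - y) ∂μ ≤ B := by
    intro y
    refine le_trans (le_of_eq ?_) (hB y)
    rw [← integral_indicator hnm.compl]
    refine integral_congr_ae (Filter.Eventually.of_forall fun x => ?_)
    show F x * kern D K (x - y) = (near D K)ᶜ.indicator (fun x => kern D K (x - y)) x
    by_cases hx : x ∈ (near D K)ᶜ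
    · rw [hF, Set.indicator_of_mem hx, Set.indicator_of_mem hx, one_mul]
    · rw [hF, Set.indicator_of_notMem hx, Set.indicator_of_notMem hx, zero_mul]
  have hA1 : ∫ p, ‖ψ p.2‖ ^ 2 * (F p.1 * kern D K (p.1 - p.2)) ∂(μ.prod μ) ≤
      B * ∫ x, ‖ψ x‖ ^ 2 ∂μ := by
    rw [integral_prod_symm _ hI1, ← integral_const_mul]
    refine integral_mono hI1.integral_prod_right (hψi.const_mul B) fun y => ?_
    show ∫ x, ‖ψ y‖ ^ 2 * (F x * kern D K (x - y)) ∂μ ≤ B * ‖ψ y‖ ^ 2
    rw [integral_const_mul, mul_comm]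
    exact mul_le_mul_of_nonneg_right (hrow y) (by positivity)
  have hA2 : ∫ p, ‖ψ p.1‖ ^ 2 * (F p.2 * kern D K (p.1 - p.2)) ∂(μ.prod μ) ≤
      B * ∫ x, ‖ψ x‖ ^ 2 ∂μ := by
    rw [integral_prod _ hI2, ← integral_const_mul]
    refine integral_mono hI2.integral_prod_left (hψi.const_mul B) fun y => ?_
    show ∫ x, ‖ψ y‖ ^ 2 * (F x * kern D K (y - x)) ∂μ ≤ B * ‖ψ y‖ ^ 2
    have e : ∀ x, kern D K (y - x) = kern D K (x - y) := fun x => by
      rw [← kern_neg, neg_sub]
    simp_rw [e]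
    rw [integral_const_mul, mul_comm]
    exact mul_le_mul_of_nonneg_right (hrow y) (by positivity)
  have hpt : ∀ p : UnitAddCircle × UnitAddCircle, ‖ψ p.1‖ * ‖ψ p.2‖ * kern D K (p.1 - p.2) ≤
      2⁻¹ * (‖ψ p.2‖ ^ 2 * (F p.1 * kern D K (p.1 - p.2))) +
        2⁻¹ * (‖ψ p.1‖ ^ 2 * (F p.2 * kern D K (p.1 - p.2))) := by
    intro p
    have h2 := kern_nonneg D K (p.1 - p.2)
    by_cases ha : p.1 ∈ near D K
    · rw [h0 _ ha, norm_zero, zero_mul, zero_mul]
      have h3 := hF0 p.1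
      have h4 := hF0 p.2
      positivity
    · by_cases hb' : p.2 ∈ near D K
      · rw [h0 _ hb', norm_zero, mul_zero, zero_mul]
        have h3 := hF0 p.1
        have h4 := hF0 p.2
        positivity
      · have e1 : F p.1 = 1 := by rw [hF]; exact Set.indicator_of_mem (show p.1 ∈ (near D K)ᶜ from ha) _
        have e2 : F p.2 = 1 := by rw [hF]; exact Set.indicator_of_mem (show p.2 ∈ (near D K)ᶜ from hb') _
        rw [e1, e2, one_mul]
        nlinarith [mul_nonneg (sq_nonneg (‖ψ p.1‖ - ‖ψ p.2‖)) h2]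
  have hI0 : Integrable (fun p : UnitAddCircle × UnitAddCircle =>
      ‖ψ p.1‖ * ‖ψ p.2‖ * kern D K (p.1 - p.2)) (μ.prod μ) := by
    refine int_of_bdd' (C := C * C * K) (((hψ.comp measurable_fst).norm.mul
      (hψ.comp measurable_snd).norm).mul hkm) fun p => ?_
    have h2 := kern_nonneg D K (p.1 - p.2)
    rw [Real.norm_of_nonneg (by positivity)]
    refine mul_le_mul (mul_le_mul (h1 _) (h1 _) (norm_nonneg _) hC.le) (kern_le _ _ _) h2
      (by positivity)
  refine (integral_mono hI0 ((hI1.const_mul 2⁻¹).add (hI2.const_mul 2⁻¹)) hpt).trans ?_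
  have e3 : ∫ p, (2⁻¹ * (‖ψ p.2‖ ^ 2 * (F p.1 * kern D K (p.1 - p.2))) +
      2⁻¹ * (‖ψ p.1‖ ^ 2 * (F p.2 * kern D K (p.1 - p.2)))) ∂(μ.prod μ) =
      2⁻¹ * (∫ p, ‖ψ p.2‖ ^ 2 * (F p.1 * kern D K (p.1 - p.2)) ∂(μ.prod μ)) +
      2⁻¹ * ∫ p, ‖ψ p.1‖ ^ 2 * (F p.2 * kern D K (p.1 - p.2)) ∂(μ.prod μ) := by
    rw [integral_add (hI1.const_mul 2⁻¹) (hI2.const_mul 2⁻¹), integral_const_mul,
      integral_const_mul]
  refine (le_of_eq e3).trans ?_
  linarith

/-- the trigonometric polynomials on the part far from the torsion -/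
lemma far_sq {μ : Measure UnitAddCircle} [IsProbabilityMeasure μ] {D K : ℕ} {B : ℝ}
    (hB0 : 0 ≤ B) (hB : ∀ y, ∫ x in (near D K)ᶜ, kern D K (x - y) ∂μ ≤ B) (c : ℕ → ℂ) :
    ∫ x in (near D K)ᶜ, ‖tp D K c x‖ ^ 2 ∂μ ≤ B * ∑ k ∈ Finset.range K, ‖c k‖ ^ 2 := by
  classical
  have hnm := near_meas D K
  set ψ : UnitAddCircle → ℂ := (near D K)ᶜ.indicator fun x => (starRingEnd ℂ) (tp D K c x) with hψ
  have htm : Measurable (tp D K c) := (tp_cont D K c).measurable
  have hψm : Measurable ψ := ((Complex.continuous_conj.measurable).comp htm).indicator hnm.compl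
  set C : ℝ := ∑ k ∈ Finset.range K, ‖c k‖ + 1 with hC
  have hC0 : 0 < C := by positivity
  have hψC : ∀ x, ‖ψ x‖ ≤ C := by
    intro x
    refine (norm_indicator_le_norm_self _ _).trans ?_
    rw [RCLike.norm_conj]
    have := tp_le D K c x
    linarith
  have hψ0 : ∀ x ∈ near D K, ψ x = 0 := fun x hx => by
    rw [hψ]
    exact Set.indicator_of_notMem (show x ∉ (near D K)ᶜ from fun h => h hx) _
  have h1 := schur hB hψm hC0 hψC hψ0
  set b : ℕ → ℂ := fun k => ∫ x, ψ x * (fourier ((D : ℤ) * k) x : ℂ) ∂μ with hb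
  set I : ℝ := ∫ x, ‖ψ x‖ ^ 2 ∂μ with hI
  have hI0 : 0 ≤ I := integral_nonneg fun x => by positivity
  have e0 : ∫ x in (near D K)ᶜ, ‖tp D K c x‖ ^ 2 ∂μ = I := by
    rw [← integral_indicator hnm.compl, hI]
    refine integral_congr_ae (Filter.Eventually.of_forall fun x => ?_)
    show (near D K)ᶜ.indicator (fun x => ‖tp D K c x‖ ^ 2) x = ‖ψ x‖ ^ 2
    by_cases hx : x ∈ (near D K)ᶜ
    · rw [hψ, Set.indicator_of_mem hx, Set.indicator_of_mem hx, RCLike.norm_conj]
    · rw [hψ, Set.indicator_of_notMem hx, Set.indicator_of_notMem hx, norm_zero]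
      norm_num
  have hint : ∀ k : ℕ, Integrable (fun x => ψ x * (fourier ((D : ℤ) * k) x : ℂ)) μ := fun k =>
    int_of_bdd (C := C) (hψm.mul (cont_fourier _).measurable) fun x => by
      rw [norm_mul, Pool.Agent.TH654.FC.norm_fourier_eq, mul_one]
      exact hψC x
  have e1 : (I : ℂ) = ∑ k ∈ Finset.range K, c k * b k := by
    have e2 : ∀ x, ((‖ψ x‖ ^ 2 : ℝ) : ℂ) =
        ∑ k ∈ Finset.range K, c k * (ψ x * (fourier ((D : ℤ) * k) x : ℂ)) := by
      intro x
      have e3 : ∑ k ∈ Finset.range K, c k * (ψ x * (fourier ((D : ℤ) * k) x : ℂ)) =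
          ψ x * tp D K c x := by
        unfold tp
        rw [Finset.mul_sum]
        refine Finset.sum_congr rfl fun k _ => ?_
        ring
      rw [e3]
      by_cases hx : x ∈ (near D K)ᶜ
      · have e4 : ψ x = (starRingEnd ℂ) (tp D K c x) := by
          rw [hψ, Set.indicator_of_mem hx]
        rw [e4, RCLike.norm_conj, mul_comm, Complex.mul_conj']
        push_cast
        rfl
      · have e4 : ψ x = 0 := by
          rw [hψ, Set.indicator_of_notMem hx]
        rw [e4, norm_zero, zero_mul]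
        norm_num
    rw [hI, ← integral_complex_ofReal]
    simp_rw [e2]
    rw [integral_finsetSum _ fun k _ => (hint k).const_mul (c k)]
    refine Finset.sum_congr rfl fun k _ => ?_
    rw [integral_const_mul]
  have h2 : I ^ 2 ≤ (∑ k ∈ Finset.range K, ‖c k‖ ^ 2) * ∑ k ∈ Finset.range K, ‖b k‖ ^ 2 := by
    have h3 : I ≤ ∑ k ∈ Finset.range K, ‖c k‖ * ‖b k‖ := by
      have h4 : I = ‖(I : ℂ)‖ := by rw [Complex.norm_real, Real.norm_of_nonneg hI0]
      rw [h4, e1]
      refine (norm_sum_le _ _).trans (Finset.sum_le_sum fun k _ => ?_)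
      rw [norm_mul]
    exact (pow_le_pow_left₀ hI0 h3 2).trans (Finset.sum_mul_sq_le_sq_mul_sq _ _ _)
  have h3 : I ^ 2 ≤ (∑ k ∈ Finset.range K, ‖c k‖ ^ 2) * (B * I) :=
    h2.trans (mul_le_mul_of_nonneg_left h1 (by positivity))
  rw [e0]
  rcases hI0.eq_or_lt with h | h
  · rw [← h]
    positivity
  · have h4 : I * I ≤ (B * ∑ k ∈ Finset.range K, ‖c k‖ ^ 2) * I := by nlinarith
    exact le_of_mul_le_mul_right h4 h

/-- the points at distance between `1 / K ^ 2` and `1 / K` from the points of order dividing `D` -/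
def shellSet (D K : ℕ) : Set UnitAddCircle := {x | 1 / (K : ℝ) ^ 2 ≤ ‖D • x‖ ∧ ‖D • x‖ ≤ 1 / K}

lemma shellSet_meas (D K : ℕ) : MeasurableSet (shellSet D K) := by
  have h1 : MeasurableSet {x : UnitAddCircle | 1 / (K : ℝ) ^ 2 ≤ ‖D • x‖} :=
    (isClosed_le continuous_const (by fun_prop)).measurableSet
  exact h1.inter (near_meas D K)

lemma fourier_near {D K k : ℕ} (hk : k < K) {x : UnitAddCircle} (hx : x ∈ near D K)
    (hxS : x ∉ shellSet D K) : ‖(fourier ((D : ℤ) * k) x : ℂ) - 1‖ ≤ 2 * Real.pi / K := by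
  have hKpos : (0 : ℝ) < K := by exact_mod_cast (by omega : 0 < K)
  have h2 : ‖D • x‖ ≤ 1 / (K : ℝ) ^ 2 := by
    by_contra hcon
    exact hxS ⟨(not_le.1 hcon).le, hx⟩
  have h3 : ‖((D : ℤ) * k) • x‖ ≤ k * (1 / (K : ℝ) ^ 2) := by
    rw [mul_comm, mul_smul, natCast_zsmul, natCast_zsmul]
    exact (norm_nsmul_le' k _).trans (by gcongr)
  rw [Pool.Agent.TH654.FC.fourier_eq_one]
  refine (Pool.Agent.TH654.FC.fourier_sub_one_le _).trans ?_
  have h4 : (k : ℝ) ≤ K := by exact_mod_cast hk.le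
  have h5 : (k : ℝ) * (1 / (K : ℝ) ^ 2) ≤ 1 / (K : ℝ) := by
    calc (k : ℝ) * (1 / (K : ℝ) ^ 2) ≤ (K : ℝ) * (1 / (K : ℝ) ^ 2) := by gcongr
      _ = 1 / (K : ℝ) := by field_simp
  calc 2 * Real.pi * ‖((D : ℤ) * k) • x‖ ≤ 2 * Real.pi * (1 / (K : ℝ)) := by
        have := Real.pi_pos
        gcongr
        exact h3.trans h5
    _ = 2 * Real.pi / K := by ring

/-- the trigonometric polynomials with `∑ c_k = 0` near the torsion -/
lemma near_sq {μ : Measure UnitAddCircle} [IsProbabilityMeasure μ] {D K : ℕ} {η : ℝ} (hη : 0 < η)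
    (hS : μ.real (shellSet D K) ≤ η) (hK : (2 * Real.pi / K) ^ 2 ≤ η) (c : ℕ → ℂ)
    (hc : ∑ k ∈ Finset.range K, c k = 0) :
    ∫ x in near D K, ‖tp D K c x‖ ^ 2 ∂μ ≤ 2 * η * K * ∑ k ∈ Finset.range K, ‖c k‖ ^ 2 := by
  classical
  have hK0 : (0 : ℝ) ≤ K := Nat.cast_nonneg K
  set s : ℝ := K * ∑ k ∈ Finset.range K, ‖c k‖ ^ 2 with hs
  have hs0 : 0 ≤ s := by positivity
  have hSm := shellSet_meas D K
  have hpt : ∀ x ∈ near D K, ‖tp D K c x‖ ^ 2 ≤
      (shellSet D K).indicator (fun _ => s) x + η * s := by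
    intro x hx
    by_cases hxS : x ∈ shellSet D K
    · rw [Set.indicator_of_mem hxS]
      have h1 := (pow_le_pow_left₀ (norm_nonneg _) (tp_le D K c x) 2).trans (sum_sq_le K c)
      have h2 : 0 ≤ η * s := by positivity
      linarith
    · rw [Set.indicator_of_notMem hxS, zero_add]
      have e : tp D K c x = ∑ k ∈ Finset.range K, c k * ((fourier ((D : ℤ) * k) x : ℂ) - 1) := by
        unfold tp
        have : ∑ k ∈ Finset.range K, c k * ((fourier ((D : ℤ) * k) x : ℂ) - 1) =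
            ∑ k ∈ Finset.range K, c k * (fourier ((D : ℤ) * k) x : ℂ) -
              ∑ k ∈ Finset.range K, c k := by
          rw [← Finset.sum_sub_distrib]
          refine Finset.sum_congr rfl fun k _ => ?_
          ring
        rw [this, hc, sub_zero]
      have h1 : ‖tp D K c x‖ ≤ (2 * Real.pi / K) * ∑ k ∈ Finset.range K, ‖c k‖ := by
        rw [e, Finset.mul_sum]
        refine (norm_sum_le _ _).trans (Finset.sum_le_sum fun k hk => ?_)
        rw [norm_mul, mul_comm]
        exact mul_le_mul_of_nonneg_right (fourier_near (Finset.mem_range.1 hk) hx hxS)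
          (norm_nonneg _)
      calc ‖tp D K c x‖ ^ 2 ≤ ((2 * Real.pi / K) * ∑ k ∈ Finset.range K, ‖c k‖) ^ 2 :=
            pow_le_pow_left₀ (norm_nonneg _) h1 2
        _ = (2 * Real.pi / K) ^ 2 * (∑ k ∈ Finset.range K, ‖c k‖) ^ 2 := by ring
        _ ≤ η * s := mul_le_mul hK (sum_sq_le K c) (by positivity) hη.le
  have hI : Integrable (fun x => (shellSet D K).indicator (fun _ => s) x + η * s) μ :=
    ((integrable_const _).indicator hSm).add (integrable_const _)
  have hk : Integrable (fun x => ‖tp D K c x‖ ^ 2) μ :=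
    int_of_bdd' (C := (∑ k ∈ Finset.range K, ‖c k‖) ^ 2)
      (((tp_cont D K c).norm.pow 2).measurable) fun x => by
        rw [Real.norm_of_nonneg (by positivity)]
        exact pow_le_pow_left₀ (norm_nonneg _) (tp_le D K c x) 2
  calc ∫ x in near D K, ‖tp D K c x‖ ^ 2 ∂μ
      ≤ ∫ x in near D K, ((shellSet D K).indicator (fun _ => s) x + η * s) ∂μ :=
        setIntegral_mono_on hk.integrableOn hI.integrableOn (near_meas D K) hpt
    _ ≤ ∫ x, ((shellSet D K).indicator (fun _ => s) x + η * s) ∂μ := by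
        refine setIntegral_le_integral hI (Filter.Eventually.of_forall fun x => ?_)
        have : 0 ≤ (shellSet D K).indicator (fun _ => s) x := Set.indicator_nonneg (fun _ _ => hs0) _
        show 0 ≤ (shellSet D K).indicator (fun _ => s) x + η * s
        positivity
    _ ≤ 2 * η * K * ∑ k ∈ Finset.range K, ‖c k‖ ^ 2 := by
        rw [integral_add ((integrable_const _).indicator hSm) (integrable_const _),
          integral_indicator hSm]
        simp only [integral_const, smul_eq_mul, measureReal_restrict_apply_univ, probReal_univ,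
          one_mul]
        have e : 2 * η * K * ∑ k ∈ Finset.range K, ‖c k‖ ^ 2 = 2 * η * s := by rw [hs]; ring
        rw [e]
        nlinarith [mul_le_mul_of_nonneg_right hS hs0]

/-- **The spectral estimate.** Uniformly in the invariant measure: after a bounded dilation, at all
scales the mass near zero varies slowly, the coefficients are close to this mass in the mean square,
and the trigonometric polynomials with `∑ c_k = 0` are small. -/
theorem spectral {ε : ℝ} (hε : 0 < ε) : ∃ D₀ K₀ : ℕ, 1 ≤ K₀ ∧ ∀ μ : Measure UnitAddCircle,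
    IsProbabilityMeasure μ → Inv μ → ∃ D : ℕ, 1 ≤ D ∧ D ≤ D₀ ∧ ∀ K : ℕ, K₀ ≤ K →
      μ.real (near D K) ≤ μ.real (near D (K ^ 2)) + ε ∧
      ∑ k ∈ Finset.range K, ‖(∫ x, (fourier ((D : ℤ) * k) x : ℂ) ∂μ) - μ.real (near D K)‖ ^ 2 ≤
        ε * K ∧
      ∀ c : ℕ → ℂ, ∑ k ∈ Finset.range K, c k = 0 →
        ∫ x, ‖tp D K c x‖ ^ 2 ∂μ ≤ ε * K * ∑ k ∈ Finset.range K, ‖c k‖ ^ 2 := by
  classical
  set η : ℝ := min 1 (ε / 24) with hηdef
  have hη : 0 < η := by positivity
  have hη1 : η ≤ 1 := min_le_left _ _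
  have hηε : 24 * η ≤ ε := by
    have := min_le_right 1 (ε / 24)
    linarith
  obtain ⟨m, hm⟩ := exists_nat_ge (1 / (2 * η))
  have hm' : 1 < (m + 1) * (2 * η) := by
    rw [div_le_iff₀ (by positivity)] at hm
    linarith
  obtain ⟨I, κ₀, hκ0, hκ₀, hch⟩ := choice (LL m) (LL_pos m) hη
  have hL : (0 : ℝ) < LL m := by exact_mod_cast LL_pos m
  obtain ⟨K₁, hK₁, hs1⟩ := shell hη
  obtain ⟨K₂, hK₂, hs2⟩ := shell' (C := 2 ^ (m + 1) / (2 * η) + 1) hη (by
    have : 0 < (2 : ℝ) ^ (m + 1) / (2 * η) := by positivity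
    linarith)
  obtain ⟨K₃, hK₃⟩ := exists_nat_ge (LL m * 2 ^ (m + 1) / (2 * η * κ₀) + 2 * Real.pi / η)
  refine ⟨LL m ^ I, K₁ + K₂ + K₃, by omega, fun μ hμ hi => ?_⟩
  obtain ⟨i, hiI, hoff⟩ := hch μ hμ
  refine ⟨LL m ^ i, Nat.one_le_pow _ _ (LL_pos m), Nat.pow_le_pow_right (LL_pos m) hiI,
    fun K hK => ?_⟩
  set D : ℕ := LL m ^ i with hD
  have hKpos : (0 : ℝ) < K := by exact_mod_cast (by omega : 0 < K)
  have hK1 : (1 : ℝ) ≤ K := by exact_mod_cast (by omega : 1 ≤ K)
  have hK3 : LL m * 2 ^ (m + 1) / (2 * η * κ₀) + 2 * Real.pi / η ≤ K :=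
    hK₃.trans (by exact_mod_cast (by omega : K₃ ≤ K))
  have hpi := Real.pi_pos
  have hpiK : 2 * Real.pi / K ≤ η := by
    have h6 : 2 * Real.pi / η ≤ K := by
      have : 0 < (LL m : ℝ) * 2 ^ (m + 1) / (2 * η * κ₀) := by positivity
      linarith
    rw [div_le_iff₀ hη] at h6
    rw [div_le_iff₀ hKpos]
    linarith
  set ρ : ℝ := 1 / (2 * η * K) with hρ
  have hρ0 : 0 < ρ := by positivity
  have hfar : ∀ y, μ.real {x | x ∉ near D K ∧ ‖D • (x - y)‖ ≤ ρ} ≤ 2 * η := by
    intro y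
    refine arc_far hi hm' hκ₀ (D := D) (K := K) hoff (ρ := ρ) ?_ ?_ y
    · rw [hρ]
      have h2 : LL m * 2 ^ (m + 1) / (2 * η * κ₀) ≤ K := by
        have : 0 < 2 * Real.pi / η := by positivity
        linarith
      rw [div_le_iff₀ (by positivity)] at h2
      rw [← mul_assoc, mul_one_div, div_le_iff₀ (by positivity)]
      linarith
    · have h2 := hs2 K (by omega) μ hμ hi D
      refine le_trans (measureReal_mono ?_ (measure_ne_top _ _)) h2
      rintro x ⟨h3, h4⟩
      refine ⟨h3, h4.trans ?_⟩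
      rw [hρ, mul_one_div, div_le_div_iff₀ (by positivity) hKpos]
      have : 2 ^ (m + 1) * (K : ℝ) = 2 ^ (m + 1) / (2 * η) * (2 * η * K) := by
        field_simp
      rw [this]
      have : 0 < 2 * η * (K : ℝ) := by positivity
      nlinarith
  have hρK : 1 / (2 * ρ) ≤ η * K := le_of_eq (by rw [hρ]; field_simp)
  have hrow := fun y => far_row hρ0 hη.le hfar hρK y
  have hS : μ.real (shellSet D K) ≤ η := hs1 K (by omega) μ hμ hi D
  have hnm := near_meas D K
  have hF : ∀ n : ℤ, Measurable fun x : UnitAddCircle => (fourier n x : ℂ) :=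
    fun n => (cont_fourier n).measurable
  have hint : ∀ n : ℤ, Integrable (fun x => (fourier n x : ℂ)) μ := fun n =>
    int_of_bdd (hF n) (C := 1) fun x => by
      rw [Pool.Agent.TH654.FC.norm_fourier_eq]
  refine ⟨?_, ?_, fun c hc => ?_⟩
  · -- slow variation
    have hsub : near D K ⊆ near D (K ^ 2) ∪ shellSet D K := by
      intro x hx
      by_cases h : ‖D • x‖ ≤ 1 / (K : ℝ) ^ 2
      · left
        show ‖D • x‖ ≤ 1 / ((K ^ 2 : ℕ) : ℝ)
        push_cast
        exact h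
      · exact Or.inr ⟨(not_le.1 h).le, hx⟩
    refine (measureReal_mono hsub (measure_ne_top _ _)).trans
      ((measureReal_union_le _ _).trans ?_)
    linarith
  · -- the coefficients
    set ψ : UnitAddCircle → ℂ := (near D K)ᶜ.indicator fun _ => (1 : ℂ) with hψ
    have hψm : Measurable ψ := measurable_const.indicator hnm.compl
    have hψ1 : ∀ x, ‖ψ x‖ ≤ 1 := by
      intro x
      refine (norm_indicator_le_norm_self _ _).trans ?_
      simp
    have hψ0 : ∀ x ∈ near D K, ψ x = 0 := fun x hx => by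
      rw [hψ]
      exact Set.indicator_of_notMem (show x ∉ (near D K)ᶜ from fun h => h hx) _
    have h1 := schur hrow hψm one_pos hψ1 hψ0
    have h2 : ∫ x, ‖ψ x‖ ^ 2 ∂μ ≤ 1 := by
      have h3 : ∫ x, ‖ψ x‖ ^ 2 ∂μ ≤ ∫ _, (1 : ℝ) ∂μ := by
        refine integral_mono (int_of_bdd' (C := 1) (hψm.norm.pow_const 2) fun x => ?_)
          (integrable_const _) fun x => ?_
        · rw [Real.norm_of_nonneg (by positivity)]
          exact pow_le_one₀ (norm_nonneg _) (hψ1 x)
        · exact pow_le_one₀ (norm_nonneg _) (hψ1 x)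
      simpa using h3
    have hA : ∑ k ∈ Finset.range K, ‖∫ x, ψ x * (fourier ((D : ℤ) * k) x : ℂ) ∂μ‖ ^ 2 ≤
        3 * η * K := h1.trans (mul_le_of_le_one_right (by positivity) h2)
    have hsplit : ∀ k : ℕ, (∫ x, (fourier ((D : ℤ) * k) x : ℂ) ∂μ) - μ.real (near D K) =
        (∫ x, ψ x * (fourier ((D : ℤ) * k) x : ℂ) ∂μ) +
          ∫ x in near D K, ((fourier ((D : ℤ) * k) x : ℂ) - 1) ∂μ := by
      intro k
      rw [← integral_add_compl hnm (hint _)]
      have h3 : ∫ x in (near D K)ᶜ, (fourier ((D : ℤ) * k) x : ℂ) ∂μ =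
          ∫ x, ψ x * (fourier ((D : ℤ) * k) x : ℂ) ∂μ := by
        rw [← integral_indicator hnm.compl]
        refine integral_congr_ae (Filter.Eventually.of_forall fun x => ?_)
        show (near D K)ᶜ.indicator (fun x => (fourier ((D : ℤ) * k) x : ℂ)) x =
          (near D K)ᶜ.indicator (fun _ => (1 : ℂ)) x * (fourier ((D : ℤ) * k) x : ℂ)
        by_cases hx : x ∈ (near D K)ᶜ
        · rw [Set.indicator_of_mem hx, Set.indicator_of_mem hx, one_mul]
        · rw [Set.indicator_of_notMem hx, Set.indicator_of_notMem hx, zero_mul]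
      have h4 : ∫ x in near D K, ((fourier ((D : ℤ) * k) x : ℂ) - 1) ∂μ =
          (∫ x in near D K, (fourier ((D : ℤ) * k) x : ℂ) ∂μ) - μ.real (near D K) := by
        rw [integral_sub (hint _).integrableOn (integrable_const _)]
        congr 1
        simp
      rw [h3, h4]
      ring
    have hB : ∀ k ∈ Finset.range K,
        ‖∫ x in near D K, ((fourier ((D : ℤ) * k) x : ℂ) - 1) ∂μ‖ ≤ 3 * η := by
      intro k hk
      have hpt : ∀ x ∈ near D K, ‖(fourier ((D : ℤ) * k) x : ℂ) - 1‖ ≤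
          (shellSet D K).indicator (fun _ => (2 : ℝ)) x + η := by
        intro x hx
        by_cases hxS : x ∈ shellSet D K
        · rw [Set.indicator_of_mem hxS]
          have h2 : ‖(fourier ((D : ℤ) * k) x : ℂ) - 1‖ ≤ 2 := by
            refine (norm_sub_le _ _).trans ?_
            rw [Pool.Agent.TH654.FC.norm_fourier_eq, norm_one]
            norm_num
          linarith
        · rw [Set.indicator_of_notMem hxS, zero_add]
          exact (fourier_near (Finset.mem_range.1 hk) hx hxS).trans hpiK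
      have hSm := shellSet_meas D K
      have hI : Integrable (fun x => (shellSet D K).indicator (fun _ => (2 : ℝ)) x + η) μ :=
        ((integrable_const _).indicator hSm).add (integrable_const _)
      calc ‖∫ x in near D K, ((fourier ((D : ℤ) * k) x : ℂ) - 1) ∂μ‖ ≤
            ∫ x in near D K, ‖(fourier ((D : ℤ) * k) x : ℂ) - 1‖ ∂μ :=
            norm_integral_le_integral_norm _
        _ ≤ ∫ x in near D K, ((shellSet D K).indicator (fun _ => (2 : ℝ)) x + η) ∂μ :=
            setIntegral_mono_on ((hint _).sub (integrable_const _)).norm.integrableOn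
              hI.integrableOn hnm hpt
        _ ≤ ∫ x, ((shellSet D K).indicator (fun _ => (2 : ℝ)) x + η) ∂μ := by
            refine setIntegral_le_integral hI (Filter.Eventually.of_forall fun x => ?_)
            have : 0 ≤ (shellSet D K).indicator (fun _ => (2 : ℝ)) x :=
              Set.indicator_nonneg (fun _ _ => by norm_num) _
            show 0 ≤ (shellSet D K).indicator (fun _ => (2 : ℝ)) x + η
            linarith
        _ ≤ 3 * η := by
            rw [integral_add ((integrable_const _).indicator hSm) (integrable_const _),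
              integral_indicator hSm]
            simp only [integral_const, smul_eq_mul, measureReal_restrict_apply_univ, probReal_univ,
              one_mul]
            linarith
    calc ∑ k ∈ Finset.range K, ‖(∫ x, (fourier ((D : ℤ) * k) x : ℂ) ∂μ) -
          μ.real (near D K)‖ ^ 2 ≤ ∑ k ∈ Finset.range K,
          (2 * ‖∫ x, ψ x * (fourier ((D : ℤ) * k) x : ℂ) ∂μ‖ ^ 2 + 2 * (3 * η) ^ 2) := by
          refine Finset.sum_le_sum fun k hk => ?_
          rw [hsplit k]
          have h1 := norm_add_le (∫ x, ψ x * (fourier ((D : ℤ) * k) x : ℂ) ∂μ)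
            (∫ x in near D K, ((fourier ((D : ℤ) * k) x : ℂ) - 1) ∂μ)
          have h2 := hB k hk
          have h3 := norm_nonneg ((∫ x, ψ x * (fourier ((D : ℤ) * k) x : ℂ) ∂μ) +
            ∫ x in near D K, ((fourier ((D : ℤ) * k) x : ℂ) - 1) ∂μ)
          have h4 := norm_nonneg (∫ x, ψ x * (fourier ((D : ℤ) * k) x : ℂ) ∂μ)
          have h5 := norm_nonneg (∫ x in near D K, ((fourier ((D : ℤ) * k) x : ℂ) - 1) ∂μ)
          have h6 : ‖(∫ x, ψ x * (fourier ((D : ℤ) * k) x : ℂ) ∂μ) +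
              ∫ x in near D K, ((fourier ((D : ℤ) * k) x : ℂ) - 1) ∂μ‖ ≤
              ‖∫ x, ψ x * (fourier ((D : ℤ) * k) x : ℂ) ∂μ‖ + 3 * η := by linarith
          have h7 := pow_le_pow_left₀ h3 h6 2
          nlinarith [sq_nonneg (‖∫ x, ψ x * (fourier ((D : ℤ) * k) x : ℂ) ∂μ‖ - 3 * η)]
      _ = 2 * (∑ k ∈ Finset.range K, ‖∫ x, ψ x * (fourier ((D : ℤ) * k) x : ℂ) ∂μ‖ ^ 2) +
          K * (2 * (3 * η) ^ 2) := by
          rw [Finset.sum_add_distrib, Finset.mul_sum, Finset.sum_const, Finset.card_range,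
            nsmul_eq_mul]
      _ ≤ 2 * (3 * η * K) + K * (2 * (3 * η) ^ 2) := by gcongr
      _ ≤ ε * K := by
          have h1 : 6 * η + 18 * η ^ 2 ≤ ε := by nlinarith
          nlinarith [mul_le_mul_of_nonneg_right h1 hKpos.le]
  · -- the trigonometric polynomials
    have hk : Integrable (fun x => ‖tp D K c x‖ ^ 2) μ :=
      int_of_bdd' (C := (∑ k ∈ Finset.range K, ‖c k‖) ^ 2)
        (((tp_cont D K c).norm.pow 2).measurable) fun x => by
          rw [Real.norm_of_nonneg (by positivity)]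
          exact pow_le_pow_left₀ (norm_nonneg _) (tp_le D K c x) 2
    rw [← integral_add_compl hnm hk]
    have h1 := near_sq hη hS ((pow_le_pow_left₀ (by positivity) hpiK 2).trans (by nlinarith)) c hc
    have h2 := far_sq (by positivity) hrow c
    set s : ℝ := ∑ k ∈ Finset.range K, ‖c k‖ ^ 2 with hs
    have hs0 : 0 ≤ s := by positivity
    have h3 : 0 ≤ K * s := by positivity
    nlinarith [mul_le_mul_of_nonneg_right hηε h3, mul_nonneg hη.le h3]

end Run7.h88
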