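import Mathlib
import Pool.Agent.Run7.h88.DimZero

/-!
Positive semidefinite kernels and simultaneous returns at several scales for measures which are
preserved by the elements of a set of integers.
-/

set_option autoImplicit false

open MeasureTheory Set Filter Topology

namespace Run7.h88

variable {ι : Type}

/-- positive semidefinite kernels on a finite set -/
def PK (E : Finset ι) (W : ι → ι → ℝ) : Prop :=
  ∀ v : ι → ℝ, 0 ≤ ∑ g ∈ E, ∑ h ∈ E, v g * v h * W g h

lemma PK.one (E : Finset ι) : PK E fun _ _ => 1 := by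
  intro v
  have : ∑ g ∈ E, ∑ h ∈ E, v g * v h * 1 = (∑ g ∈ E, v g) ^ 2 := by
    rw [sq, Finset.sum_mul_sum]
    simp
  rw [this]
  positivity

/-- `F` is positively correlated with all the kernels, with mean at least `c` -/
def Corr (E : Finset ι) (F : ι → ι → ℝ) (c : ℝ) : Prop :=
  ∀ W : ι → ι → ℝ, PK E W → PK E (fun g h => F g h * W g h) ∧
    c * ∑ g ∈ E, ∑ h ∈ E, W g h ≤ ∑ g ∈ E, ∑ h ∈ E, F g h * W g h

lemma PK.prod {E : Finset ι} {F : ℕ → ι → ι → ℝ} {c : ℕ → ℝ} (s : Finset ℕ)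
    (hF : ∀ i ∈ s, Corr E (F i) (c i)) : PK E fun g h => ∏ i ∈ s, F i g h := by
  classical
  induction s using Finset.induction_on with
  | empty => simpa using PK.one E
  | insert i s hi ih =>
    have h1 := (hF i (Finset.mem_insert_self i s) _ (ih fun j hj =>
      hF j (Finset.mem_insert_of_mem hj))).1
    have e : (fun g h => ∏ j ∈ insert i s, F j g h) = fun g h => F i g h * ∏ j ∈ s, F j g h := by
      funext g h
      rw [Finset.prod_insert hi]
    rw [e]
    exact h1

lemma Corr.prod_mean {E : Finset ι} {F : ℕ → ι → ι → ℝ} {c : ℕ → ℝ} (s : Finset ℕ)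
    (hc : ∀ i ∈ s, 0 ≤ c i) (hF : ∀ i ∈ s, Corr E (F i) (c i)) :
    (∏ i ∈ s, c i) * (E.card : ℝ) ^ 2 ≤ ∑ g ∈ E, ∑ h ∈ E, ∏ i ∈ s, F i g h := by
  classical
  induction s using Finset.induction_on with
  | empty => simp [sq]
  | insert i s hi ih =>
    have hFs : ∀ j ∈ s, Corr E (F j) (c j) := fun j hj => hF j (Finset.mem_insert_of_mem hj)
    have h1 := ih (fun j hj => hc j (Finset.mem_insert_of_mem hj)) hFs
    have h2 := (hF i (Finset.mem_insert_self i s) _ (PK.prod s hFs)).2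
    rw [Finset.prod_insert hi]
    have e : ∀ g h, ∏ j ∈ insert i s, F j g h = F i g h * ∏ j ∈ s, F j g h := by
      intro g h
      rw [Finset.prod_insert hi]
    simp_rw [e]
    refine le_trans ?_ h2
    rw [mul_assoc]
    exact mul_le_mul_of_nonneg_left h1 (hc i (Finset.mem_insert_self i s))

/-- **Selection.** Many pairs are good for all the kernels. -/
theorem kselect (E : Finset ι) (m : ℕ) {F : ℕ → ι → ι → ℝ} {c : ℕ → ℝ} (hc : ∀ i, 0 < c i)
    (hF : ∀ i, Corr E (F i) (c i)) (h0 : ∀ i g h, 0 ≤ F i g h) (h1 : ∀ i g h, F i g h ≤ 1) :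
    (1 / 2 : ℝ) * (∏ i ∈ Finset.range m, c i) * (E.card : ℝ) ^ 2 ≤
      (((E ×ˢ E).filter fun p => ∀ i < m,
        1 / (4 * (((i : ℝ) + 1) * ((i : ℝ) + 2))) * c i ≤ F i p.1 p.2).card : ℝ) := by
  classical
  set w : ℕ → ℝ := fun i => 1 / (4 * (((i : ℝ) + 1) * ((i : ℝ) + 2))) with hw
  set W : ι × ι → ℝ := fun p => ∏ i ∈ Finset.range m, F i p.1 p.2 with hW
  have hmean := Corr.prod_mean (Finset.range m) (fun i _ => (hc i).le) (fun i _ => hF i)
  have hsum : ∀ f : ι → ι → ℝ, ∑ g ∈ E, ∑ h ∈ E, f g h = ∑ p ∈ E ×ˢ E, f p.1 p.2 := by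
    intro f
    rw [Finset.sum_product]
  rw [hsum] at hmean
  have hW0 : ∀ p, 0 ≤ W p := fun p => Finset.prod_nonneg fun i _ => h0 i _ _
  have hW1 : ∀ p, W p ≤ 1 := fun p => Finset.prod_le_one (fun i _ => h0 i _ _) fun i _ => h1 i _ _
  set Good := (E ×ˢ E).filter fun p => ∀ i < m, w i * c i ≤ F i p.1 p.2 with hGood
  have hbad : ∀ i ∈ Finset.range m, ∑ p ∈ (E ×ˢ E).filter (fun p => F i p.1 p.2 < w i * c i), W p ≤
      w i * ∑ p ∈ E ×ˢ E, W p := by
    intro i hi
    have hwi : 0 ≤ w i := by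
      rw [hw]
      positivity
    have hWe : ∀ p, W p = F i p.1 p.2 * ∏ j ∈ (Finset.range m).erase i, F j p.1 p.2 := by
      intro p
      exact (Finset.mul_prod_erase _ _ hi).symm
    have h2 := (hF i _ (PK.prod ((Finset.range m).erase i) (c := c) fun j _ => hF j)).2
    rw [hsum, hsum] at h2
    have hE0 : ∀ p : ι × ι, 0 ≤ ∏ j ∈ (Finset.range m).erase i, F j p.1 p.2 := fun p =>
      Finset.prod_nonneg fun j _ => h0 j _ _
    calc ∑ p ∈ (E ×ˢ E).filter (fun p => F i p.1 p.2 < w i * c i), W p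
        ≤ ∑ p ∈ (E ×ˢ E).filter (fun p => F i p.1 p.2 < w i * c i),
            w i * c i * ∏ j ∈ (Finset.range m).erase i, F j p.1 p.2 := by
          refine Finset.sum_le_sum fun p hp => ?_
          rw [hWe]
          exact mul_le_mul_of_nonneg_right (Finset.mem_filter.1 hp).2.le (hE0 p)
      _ ≤ ∑ p ∈ E ×ˢ E, w i * c i * ∏ j ∈ (Finset.range m).erase i, F j p.1 p.2 := by
          refine Finset.sum_le_sum_of_subset_of_nonneg (Finset.filter_subset _ _) fun p _ _ => ?_
          exact mul_nonneg (mul_nonneg hwi (hc i).le) (hE0 p)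
      _ = w i * (c i * ∑ p ∈ E ×ˢ E, ∏ j ∈ (Finset.range m).erase i, F j p.1 p.2) := by
          rw [← Finset.mul_sum]
          ring
      _ ≤ w i * ∑ p ∈ E ×ˢ E, F i p.1 p.2 * ∏ j ∈ (Finset.range m).erase i, F j p.1 p.2 := by
          gcongr
      _ = w i * ∑ p ∈ E ×ˢ E, W p := by
          congr 1
          exact Finset.sum_congr rfl fun p _ => (hWe p).symm
  have hGsub : Good ⊆ E ×ˢ E := Finset.filter_subset _ _
  have hcomp : ∑ p ∈ (E ×ˢ E) \ Good, W p ≤ 1 / 2 * ∑ p ∈ E ×ˢ E, W p := by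
    have hsub : (E ×ˢ E) \ Good ⊆ (Finset.range m).biUnion fun i =>
        (E ×ˢ E).filter (fun p => F i p.1 p.2 < w i * c i) := by
      intro p hp
      rw [Finset.mem_sdiff, hGood, Finset.mem_filter, not_and] at hp
      have := hp.2 hp.1
      push Not at this
      obtain ⟨i, hi, hlt⟩ := this
      rw [Finset.mem_biUnion]
      exact ⟨i, Finset.mem_range.2 hi, Finset.mem_filter.2 ⟨hp.1, hlt⟩⟩
    calc ∑ p ∈ (E ×ˢ E) \ Good, W p ≤ ∑ p ∈ (Finset.range m).biUnion fun i =>
          (E ×ˢ E).filter (fun p => F i p.1 p.2 < w i * c i), W p :=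
          Finset.sum_le_sum_of_subset_of_nonneg hsub fun p _ _ => hW0 p
      _ ≤ ∑ i ∈ Finset.range m, ∑ p ∈ (E ×ˢ E).filter (fun p => F i p.1 p.2 < w i * c i), W p :=
          sum_biUnion_le' _ _ hW0
      _ ≤ ∑ i ∈ Finset.range m, w i * ∑ p ∈ E ×ˢ E, W p := Finset.sum_le_sum hbad
      _ = (∑ i ∈ Finset.range m, w i) * ∑ p ∈ E ×ˢ E, W p := by rw [Finset.sum_mul]
      _ ≤ 1 / 2 * ∑ p ∈ E ×ˢ E, W p := by
          refine mul_le_mul_of_nonneg_right ?_ (Finset.sum_nonneg fun p _ => hW0 p)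
          exact sum_quarter m
  have hgood : 1 / 2 * ∑ p ∈ E ×ˢ E, W p ≤ Good.card := by
    have h3 : ∑ p ∈ (E ×ˢ E) \ Good, W p + ∑ p ∈ Good, W p = ∑ p ∈ E ×ˢ E, W p :=
      Finset.sum_sdiff hGsub
    have h4 : ∑ p ∈ Good, W p ≤ Good.card := by
      calc ∑ p ∈ Good, W p ≤ ∑ p ∈ Good, (1 : ℝ) := Finset.sum_le_sum fun p _ => hW1 p
        _ = Good.card := by simp
    linarith
  calc (1 / 2 : ℝ) * (∏ i ∈ Finset.range m, c i) * (E.card : ℝ) ^ 2
      = 1 / 2 * ((∏ i ∈ Finset.range m, c i) * (E.card : ℝ) ^ 2) := by ring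
    _ ≤ 1 / 2 * ∑ p ∈ E ×ˢ E, W p := by gcongr
    _ ≤ Good.card := hgood

section integral

variable {X : Type*} [MeasurableSpace X] {μ : Measure X} [IsProbabilityMeasure μ]

lemma prod_int {u v : X → ℝ} (hu : Measurable u) (hv : Measurable v) (hu1 : ∀ x, |u x| ≤ 1)
    (hv1 : ∀ x, |v x| ≤ 1) : Integrable (fun x => u x * v x) μ := by
  refine int_of_bdd' (C := 1) (hu.mul hv) fun x => ?_
  rw [Real.norm_eq_abs, abs_mul]
  calc |u x| * |v x| ≤ 1 * 1 := by
        gcongr
        · exact hu1 x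
        · exact hv1 x
    _ = 1 := one_mul 1

lemma PK.mul_int {E : Finset ι} {W : ι → ι → ℝ} (hW : PK E W) {u : ι → X → ℝ}
    (hu : ∀ g, Measurable (u g)) (hu1 : ∀ g x, |u g x| ≤ 1) :
    PK E fun g h => (∫ x, u g x * u h x ∂μ) * W g h := by
  intro v
  have e : ∑ g ∈ E, ∑ h ∈ E, v g * v h * ((∫ x, u g x * u h x ∂μ) * W g h) =
      ∫ x, ∑ g ∈ E, ∑ h ∈ E, (v g * u g x) * (v h * u h x) * W g h ∂μ := by
    have hi : ∀ g h, Integrable (fun x => (v g * u g x) * (v h * u h x) * W g h) μ := by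
      intro g h
      have h1 := (prod_int (μ := μ) (hu g) (hu h) (hu1 g) (hu1 h)).const_mul (v g * v h * W g h)
      refine h1.congr (Eventually.of_forall fun x => ?_)
      simp only
      ring
    rw [integral_finsetSum _ fun g _ => integrable_finsetSum _ fun h _ => hi g h]
    refine Finset.sum_congr rfl fun g _ => ?_
    rw [integral_finsetSum _ fun h _ => hi g h]
    refine Finset.sum_congr rfl fun h _ => ?_
    have h1 : ∀ x, (v g * u g x) * (v h * u h x) * W g h = (v g * v h * W g h) * (u g x * u h x) := by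
      intro x
      ring
    simp_rw [h1]
    rw [integral_const_mul]
    ring
  rw [e]
  exact integral_nonneg fun x => hW fun g => v g * u g x

lemma PK.mean_int {E : Finset ι} {W : ι → ι → ℝ} (hW : PK E W) {u : ι → X → ℝ}
    (hu : ∀ g, Measurable (u g)) (hu1 : ∀ g x, |u g x| ≤ 1) {p : ℝ}
    (hp : ∀ g ∈ E, ∫ x, u g x ∂μ = p) :
    p ^ 2 * ∑ g ∈ E, ∑ h ∈ E, W g h ≤ ∑ g ∈ E, ∑ h ∈ E, (∫ x, u g x * u h x ∂μ) * W g h := by
  have hi1 : ∀ g, Integrable (u g) μ := fun g => int_of_bdd' (C := 1) (hu g) fun x => by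
    rw [Real.norm_eq_abs]
    exact hu1 g x
  have hi : ∀ g h, Integrable (fun x => u g x * u h x) μ := fun g h =>
    prod_int (hu g) (hu h) (hu1 g) (hu1 h)
  have hi2 : ∀ g h, Integrable (fun x => (u g x - p) * (u h x - p) * W g h) μ := by
    intro g h
    have h1 := ((((hi g h).sub ((hi1 g).const_mul p)).sub ((hi1 h).const_mul p)).add
      (integrable_const (p ^ 2))).mul_const (W g h)
    refine h1.congr (Eventually.of_forall fun x => ?_)
    simp only [Pi.add_apply, Pi.sub_apply]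
    ring
  have h0 : 0 ≤ ∫ x, ∑ g ∈ E, ∑ h ∈ E, (u g x - p) * (u h x - p) * W g h ∂μ :=
    integral_nonneg fun x => hW fun g => u g x - p
  rw [integral_finsetSum _ fun g _ => integrable_finsetSum _ fun h _ => hi2 g h] at h0
  have e : ∀ g ∈ E, ∫ x, ∑ h ∈ E, (u g x - p) * (u h x - p) * W g h ∂μ =
      ∑ h ∈ E, ((∫ x, u g x * u h x ∂μ) * W g h - p ^ 2 * W g h) := by
    intro g hg
    rw [integral_finsetSum _ fun h _ => hi2 g h]
    refine Finset.sum_congr rfl fun h hh => ?_
    rw [integral_mul_const]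
    have h1 : ∀ x, (u g x - p) * (u h x - p) =
        u g x * u h x - (p * u g x + p * u h x) + p ^ 2 := by
      intro x
      ring
    simp_rw [h1]
    have i1 : Integrable (fun x => p * u g x) μ := (hi1 g).const_mul p
    have i2 : Integrable (fun x => p * u h x) μ := (hi1 h).const_mul p
    have i3 : Integrable (fun x => p * u g x + p * u h x) μ := i1.add i2
    have i4 : Integrable (fun x => u g x * u h x - (p * u g x + p * u h x)) μ := (hi g h).sub i3
    rw [integral_add i4 (integrable_const _), integral_sub (hi g h) i3, integral_add i1 i2,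
      integral_const_mul, integral_const_mul, hp g hg, hp h hh, integral_const, probReal_univ,
      one_smul]
    ring
  rw [Finset.sum_congr rfl e] at h0
  simp_rw [Finset.sum_sub_distrib, ← Finset.mul_sum] at h0
  linarith

end integral

/-- the kernel of the returns -/
noncomputable def ker (μ : Measure UnitAddCircle) {K : ℕ} (A : Fin K → Set UnitAddCircle)
    (g h : ℕ) : ℝ :=
  ∑ a, μ.real {x : UnitAddCircle | g • x ∈ A a ∧ h • x ∈ A a}

lemma ker_eq (μ : Measure UnitAddCircle) [IsProbabilityMeasure μ] {K : ℕ}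
    {A : Fin K → Set UnitAddCircle} (hA : ∀ a, MeasurableSet (A a)) (g h : ℕ) :
    ker μ A g h = ∑ a, ∫ x, (A a).indicator (fun _ => (1 : ℝ)) (g • x) *
      (A a).indicator (fun _ => (1 : ℝ)) (h • x) ∂μ := by
  unfold ker
  refine Finset.sum_congr rfl fun a _ => ?_
  have hm : MeasurableSet {x : UnitAddCircle | g • x ∈ A a ∧ h • x ∈ A a} :=
    ((smul_meas g) (hA a)).inter ((smul_meas h) (hA a))
  rw [← integral_indicator_one hm]
  refine integral_congr_ae (Eventually.of_forall fun x => ?_)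
  by_cases h1 : g • x ∈ A a <;> by_cases h2 : h • x ∈ A a <;>
    simp [Set.indicator, h1, h2]

lemma ker_corr {μ : Measure UnitAddCircle} [IsProbabilityMeasure μ] {K : ℕ}
    {A : Fin K → Set UnitAddCircle} (hA : ∀ a, MeasurableSet (A a)) {E : Finset ℕ}
    (hE : ∀ g ∈ E, MeasurePreserving (fun x : UnitAddCircle => g • x) μ μ) :
    Corr E (ker μ A) (∑ a, μ.real (A a) ^ 2) := by
  intro W hW
  set u : Fin K → ℕ → UnitAddCircle → ℝ := fun a g x =>
    (A a).indicator (fun _ => (1 : ℝ)) (g • x) with hu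
  have hum : ∀ a g, Measurable (u a g) := fun a g =>
    (measurable_const.indicator (hA a)).comp (smul_meas g)
  have hu1 : ∀ a g x, |u a g x| ≤ 1 := by
    intro a g x
    by_cases h1 : g • x ∈ A a <;> simp [hu, Set.indicator, h1]
  have hker : ∀ g h, ker μ A g h * W g h = ∑ a, (∫ x, u a g x * u a h x ∂μ) * W g h := by
    intro g h
    rw [ker_eq μ hA, Finset.sum_mul]
  constructor
  · intro v
    have e : ∑ g ∈ E, ∑ h ∈ E, v g * v h * (ker μ A g h * W g h) =
        ∑ a, ∑ g ∈ E, ∑ h ∈ E, v g * v h * ((∫ x, u a g x * u a h x ∂μ) * W g h) := by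
      calc ∑ g ∈ E, ∑ h ∈ E, v g * v h * (ker μ A g h * W g h) =
          ∑ g ∈ E, ∑ h ∈ E, ∑ a, v g * v h * ((∫ x, u a g x * u a h x ∂μ) * W g h) :=
            Finset.sum_congr rfl fun g _ => Finset.sum_congr rfl fun h _ => by
              rw [hker, Finset.mul_sum]
        _ = ∑ g ∈ E, ∑ a, ∑ h ∈ E, v g * v h * ((∫ x, u a g x * u a h x ∂μ) * W g h) :=
            Finset.sum_congr rfl fun g _ => Finset.sum_comm
        _ = _ := Finset.sum_comm
    rw [e]
    refine Finset.sum_nonneg fun a _ => ?_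
    exact (PK.mul_int (μ := μ) hW (hum a) (hu1 a)) v
  · have e : ∑ g ∈ E, ∑ h ∈ E, ker μ A g h * W g h =
        ∑ a, ∑ g ∈ E, ∑ h ∈ E, (∫ x, u a g x * u a h x ∂μ) * W g h := by
      calc ∑ g ∈ E, ∑ h ∈ E, ker μ A g h * W g h =
          ∑ g ∈ E, ∑ h ∈ E, ∑ a, (∫ x, u a g x * u a h x ∂μ) * W g h :=
            Finset.sum_congr rfl fun g _ => Finset.sum_congr rfl fun h _ => hker g h
        _ = ∑ g ∈ E, ∑ a, ∑ h ∈ E, (∫ x, u a g x * u a h x ∂μ) * W g h :=
            Finset.sum_congr rfl fun g _ => Finset.sum_comm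
        _ = _ := Finset.sum_comm
    rw [e, Finset.sum_mul]
    refine Finset.sum_le_sum fun a _ => ?_
    refine PK.mean_int (μ := μ) hW (hum a) (hu1 a) fun g hg => ?_
    have h1 := (hE g hg).measureReal_preimage (hA a).nullMeasurableSet
    rw [← h1]
    have hm : MeasurableSet ((fun x : UnitAddCircle => g • x) ⁻¹' A a) := (smul_meas g) (hA a)
    rw [← integral_indicator_one hm]
    refine integral_congr_ae (Eventually.of_forall fun x => ?_)
    by_cases h1 : g • x ∈ A a <;> simp [hu, Set.indicator, h1]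

/-- **Returns at several scales.** -/
theorem pairs_inv {μ : Measure UnitAddCircle} [IsProbabilityMeasure μ] {E : Set ℕ}
    (hE : E.Infinite) (hinv : ∀ g ∈ E, MeasurePreserving (fun x : UnitAddCircle => g • x) μ μ)
    (m : ℕ) {K : ℕ → ℕ} (hK : ∀ i, 1 ≤ K i) (cen : ∀ i, Fin (K i) → UnitAddCircle) (ρ : ℕ → ℝ)
    {M : ℝ} (hM : 0 < M) (hcov : ∀ i, M ≤ μ.real (⋃ a, Metric.closedBall (cen i a) (ρ i))) :
    ∃ g ∈ E, ∃ h ∈ E, h < g ∧ ∀ i < m, 1 / (4 * (((i : ℝ) + 1) * ((i : ℝ) + 2))) *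
      (M ^ 2 / K i) ≤ μ.real {x : UnitAddCircle | ‖g • x - h • x‖ ≤ 2 * ρ i} := by
  classical
  set A : ∀ i, Fin (K i) → Set UnitAddCircle := fun i a =>
    Metric.closedBall (cen i a) (ρ i) \ ⋃ b ∈ Finset.Iio a, Metric.closedBall (cen i b) (ρ i) with hA
  have hAm : ∀ i a, MeasurableSet (A i a) := fun i a =>
    Metric.isClosed_closedBall.measurableSet.diff
      (Finset.measurableSet_biUnion _ fun b _ => Metric.isClosed_closedBall.measurableSet)
  have hAsub : ∀ i a, A i a ⊆ Metric.closedBall (cen i a) (ρ i) := fun i a => sdiff_subset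
  have hAdisj : ∀ i (a b : Fin (K i)), a ≠ b → Disjoint (A i a) (A i b) := by
    have key : ∀ i (a b : Fin (K i)), a < b → Disjoint (A i a) (A i b) := by
      intro i a b hab
      rw [Set.disjoint_left]
      intro x hx hx'
      refine hx'.2 ?_
      rw [mem_iUnion₂]
      exact ⟨a, Finset.mem_Iio.2 hab, hAsub i a hx⟩
    intro i a b hab
    rcases lt_or_gt_of_ne hab with h | h
    · exact key i a b h
    · exact (key i b a h).symm
  have hAun : ∀ i, (⋃ a, A i a) = ⋃ a, Metric.closedBall (cen i a) (ρ i) := by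
    intro i
    refine Subset.antisymm (iUnion_mono fun a => hAsub i a) ?_
    intro x hx
    rw [mem_iUnion] at hx
    have hne : (Finset.univ.filter fun a : Fin (K i) =>
        x ∈ Metric.closedBall (cen i a) (ρ i)).Nonempty := by
      obtain ⟨a, ha⟩ := hx
      exact ⟨a, Finset.mem_filter.2 ⟨Finset.mem_univ _, ha⟩⟩
    rw [mem_iUnion]
    refine ⟨Finset.min' _ hne, (Finset.mem_filter.1 (Finset.min'_mem _ hne)).2, ?_⟩
    rw [mem_iUnion₂]
    rintro ⟨b, hb, hxb⟩
    rw [Finset.mem_Iio] at hb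
    exact absurd (Finset.min'_le _ b (Finset.mem_filter.2 ⟨Finset.mem_univ _, hxb⟩)) (not_le.2 hb)
  set c : ℕ → ℝ := fun i => M ^ 2 / K i with hc
  have hKR : ∀ i, (0 : ℝ) < K i := fun i => by exact_mod_cast hK i
  have hc0 : ∀ i, 0 < c i := fun i => by
    have := hKR i
    rw [hc]
    positivity
  have hcle : ∀ i, c i ≤ ∑ a, μ.real (A i a) ^ 2 := by
    intro i
    have h1 : ∑ a, μ.real (A i a) = μ.real (⋃ a, A i a) := by
      rw [measureReal_iUnion_fintype (fun a b hab => hAdisj i a b hab) (hAm i)]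
    have h2 := sq_sum_le_card_mul_sum_sq (s := (Finset.univ : Finset (Fin (K i))))
      (f := fun a => μ.real (A i a))
    rw [Finset.card_univ, Fintype.card_fin, h1, hAun i] at h2
    rw [hc]
    simp only
    rw [div_le_iff₀ (hKR i), mul_comm]
    refine le_trans ?_ h2
    have := hcov i
    gcongr
  -- the bounds for the kernels
  have hk0 : ∀ i g h, 0 ≤ ker μ (A i) g h := fun i g h =>
    Finset.sum_nonneg fun a _ => measureReal_nonneg
  have hkun : ∀ i g h, ker μ (A i) g h =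
      μ.real (⋃ a, {x : UnitAddCircle | g • x ∈ A i a ∧ h • x ∈ A i a}) := by
    intro i g h
    unfold ker
    rw [measureReal_iUnion_fintype]
    · intro a b hab
      rw [Function.onFun, Set.disjoint_left]
      intro x hx hx'
      exact Set.disjoint_left.1 (hAdisj i a b hab) hx.1 hx'.1
    · intro a
      exact ((smul_meas g) (hAm i a)).inter ((smul_meas h) (hAm i a))
  have hk1 : ∀ i g h, ker μ (A i) g h ≤ 1 := by
    intro i g h
    rw [hkun]
    exact measureReal_le_one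
  have hk2 : ∀ i g h, ker μ (A i) g h ≤ μ.real {x : UnitAddCircle | ‖g • x - h • x‖ ≤ 2 * ρ i} := by
    intro i g h
    rw [hkun]
    refine measureReal_mono ?_ (measure_ne_top _ _)
    intro x hx
    rw [mem_iUnion] at hx
    obtain ⟨a, h1, h2⟩ := hx
    have g1 := hAsub i a h1
    have g2 := hAsub i a h2
    rw [Metric.mem_closedBall, dist_eq_norm] at g1 g2
    show ‖g • x - h • x‖ ≤ 2 * ρ i
    have e : g • x - h • x = (g • x - cen i a) - (h • x - cen i a) := by abel
    rw [e]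
    have := norm_sub_le (g • x - cen i a) (h • x - cen i a)
    linarith
  -- the finite set
  have hP : 0 < ∏ i ∈ Finset.range m, c i := Finset.prod_pos fun i _ => hc0 i
  obtain ⟨n, hn⟩ := exists_nat_gt (2 / ∏ i ∈ Finset.range m, c i)
  obtain ⟨E₀, hE₀, hE₀c⟩ := hE.exists_subset_card_eq n
  have hsel := kselect E₀ m hc0 (F := fun i => ker μ (A i)) (fun i => by
    intro W hW
    obtain ⟨h1, h2⟩ := ker_corr (μ := μ) (hAm i) (E := E₀) (fun g hg => hinv g (hE₀ hg)) W hW
    refine ⟨h1, le_trans ?_ h2⟩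
    refine mul_le_mul_of_nonneg_right (hcle i) ?_
    have := hW fun _ => 1
    simpa using this) hk0 hk1
  have hncard : (2 : ℝ) < (∏ i ∈ Finset.range m, c i) * n := by
    rw [div_lt_iff₀ hP] at hn
    linarith
  have hnpos : (0 : ℝ) < n := by
    by_contra hcon
    have : (∏ i ∈ Finset.range m, c i) * n ≤ 0 :=
      mul_nonpos_of_nonneg_of_nonpos hP.le (not_lt.1 hcon)
    linarith
  set Good := (E₀ ×ˢ E₀).filter fun p => ∀ i < m,
        1 / (4 * (((i : ℝ) + 1) * ((i : ℝ) + 2))) * c i ≤ ker μ (A i) p.1 p.2 with hGood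
  have hcard : (n : ℝ) < Good.card := by
    refine lt_of_lt_of_le ?_ hsel
    rw [hE₀c]
    nlinarith
  obtain ⟨p, hp, hpne⟩ : ∃ p ∈ Good, p.1 ≠ p.2 := by
    by_contra hcon
    push Not at hcon
    have h1 : Good ⊆ E₀.image fun g => (g, g) := by
      intro p hp
      have h2 := (Finset.mem_filter.1 hp).1
      rw [Finset.mem_product] at h2
      rw [Finset.mem_image]
      exact ⟨p.1, h2.1, Prod.ext rfl (hcon p hp)⟩
    have h2 := (Finset.card_le_card h1).trans Finset.card_image_le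
    rw [hE₀c] at h2
    have : (Good.card : ℝ) ≤ n := by exact_mod_cast h2
    linarith
  rw [hGood, Finset.mem_filter, Finset.mem_product] at hp
  rcases lt_or_gt_of_ne hpne with hlt | hlt
  · refine ⟨p.2, hE₀ hp.1.2, p.1, hE₀ hp.1.1, hlt, fun i hi => (hp.2 i hi).trans ?_⟩
    refine (hk2 i p.1 p.2).trans (le_of_eq ?_)
    congr 1
    ext x
    rw [mem_ofPred_eq, mem_ofPred_eq, norm_sub_rev]
  · exact ⟨p.1, hE₀ hp.1.1, p.2, hE₀ hp.1.2, hlt, fun i hi => (hp.2 i hi).trans (hk2 i _ _)⟩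

end Run7.h88
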