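import Mathlib
import Pool.Agent.Run7.h88.Kern

/-!
Returns at all the scales for the invariant measures which are not Lebesgue measure.
-/

set_option autoImplicit false

open MeasureTheory Set Filter Topology

namespace Run7.h88

/-- the dyadic scale of `r` -/
noncomputable def sc (r : ℝ) : ℕ := ⌈Real.logb 2 (1 / r)⌉₊

lemma sc_le {r : ℝ} (hr : 0 < r) : 1 / 2 ^ (sc r) ≤ r := by
  have h1 : Real.logb 2 (1 / r) ≤ sc r := Nat.le_ceil _
  rw [Real.logb_le_iff_le_rpow (by norm_num) (by positivity), Real.rpow_natCast] at h1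
  rw [div_le_iff₀ hr] at h1
  rw [div_le_iff₀ (by positivity)]
  linarith

lemma sc_lt {r : ℝ} (hr : 0 < r) (hr1 : r < 1) : r < 1 / 2 ^ (sc r) * 2 := by
  have h0 : 0 ≤ Real.logb 2 (1 / r) := by
    refine Real.logb_nonneg (by norm_num) ?_
    rw [le_div_iff₀ hr]
    linarith
  have h1 : (sc r : ℝ) < Real.logb 2 (1 / r) + 1 := Nat.ceil_lt_add_one h0
  have h2 : (2 : ℝ) ^ (sc r : ℝ) < (2 : ℝ) ^ (Real.logb 2 (1 / r) + 1) :=
    Real.rpow_lt_rpow_of_exponent_lt (by norm_num) h1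
  rw [Real.rpow_add (by norm_num), Real.rpow_logb (by norm_num) (by norm_num) (by positivity),
    Real.rpow_one, Real.rpow_natCast] at h2
  have h3 : (0 : ℝ) < 2 ^ sc r := by positivity
  rw [one_div_mul_eq_div, lt_div_iff₀ h3]
  rw [one_div_mul_eq_div, lt_div_iff₀ hr] at h2
  linarith

lemma sc_anti {s r : ℝ} (hs : 0 < s) (h : s ≤ r) : sc r ≤ sc s := by
  refine Nat.ceil_le_ceil ?_
  refine Real.logb_le_logb_of_le (by norm_num) (by
    have : 0 < r := lt_of_lt_of_le hs h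
    positivity) ?_
  exact one_div_le_one_div_of_le hs h

/-- **Returns at all the scales.** -/
theorem returns {μ : Measure UnitAddCircle} [IsProbabilityMeasure μ] (hμ : Inv μ)
    (hne : μ ≠ volume) :
    ∃ ω : ℝ → ℝ, (∀ r, 0 < ω r) ∧ (∀ r, ω r ≤ 1) ∧
      (∀ θ : ℝ, 0 < θ → ∃ r₀ : ℝ, 0 < r₀ ∧ ∀ r : ℝ, 0 < r → r ≤ r₀ → r ^ θ ≤ ω r) ∧
      ∀ E : Set ℕ, E.Infinite →
        (∀ g ∈ E, MeasurePreserving (fun x : UnitAddCircle => g • x) μ μ) → ∀ s : ℝ, 0 < s →
        ∃ g ∈ E, ∃ h ∈ E, h < g ∧ ∀ r : ℝ, s ≤ r →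
          ω r ≤ μ.real {x : UnitAddCircle | ‖g • x - h • x‖ ≤ r} := by
  classical
  obtain ⟨m, K, cen, hm, hK1, hcov, hKθ⟩ := covers hμ.1 hμ.2 hne
  have hm1 : m ≤ 1 := (hcov 0).trans measureReal_le_one
  set c : ℕ → ℝ := fun i => m ^ 2 / K i with hc
  have hKR : ∀ i, (1 : ℝ) ≤ K i := fun i => by exact_mod_cast hK1 i
  have hc0 : ∀ i, 0 < c i := by
    intro i
    have := hKR i
    rw [hc]
    positivity
  have hc1 : ∀ i, c i ≤ 1 := by
    intro i
    have := hKR i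
    rw [hc]
    simp only
    rw [div_le_one (by linarith)]
    nlinarith
  set δ : ℕ → ℝ := fun i => 1 / (4 * (((i : ℝ) + 1) * ((i : ℝ) + 2))) * c i with hδ
  have hδ0 : ∀ i, 0 < δ i := by
    intro i
    have := hc0 i
    rw [hδ]
    positivity
  have hδ1 : ∀ i, δ i ≤ 1 := by
    intro i
    rw [hδ]
    simp only
    have h1 : 1 / (4 * (((i : ℝ) + 1) * ((i : ℝ) + 2))) ≤ 1 := by
      rw [div_le_one (by positivity)]
      have : (0 : ℝ) ≤ i := Nat.cast_nonneg i
      nlinarith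
    calc 1 / (4 * (((i : ℝ) + 1) * ((i : ℝ) + 2))) * c i ≤ 1 * 1 :=
          mul_le_mul h1 (hc1 i) (hc0 i).le zero_le_one
      _ = 1 := one_mul 1
  refine ⟨fun r => δ (sc r), fun r => hδ0 _, fun r => hδ1 _, ?_, ?_⟩
  · intro θ hθ
    obtain ⟨C, hC, hCK⟩ := hKθ (θ / 2) (by positivity)
    -- the elementary inequality
    have hlimit : Tendsto (fun i : ℕ => ((i : ℝ) + 1) * ((i : ℝ) + 2) *
        ((2 : ℝ) ^ (-(θ / 2))) ^ i) atTop (𝓝 0) := by
      have hq0 : (0 : ℝ) ≤ (2 : ℝ) ^ (-(θ / 2)) := by positivity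
      have hq1 : (2 : ℝ) ^ (-(θ / 2)) < 1 :=
        Real.rpow_lt_one_of_one_lt_of_neg (by norm_num) (by linarith)
      have g2 := tendsto_pow_const_mul_const_pow_of_lt_one 2 hq0 hq1
      have g1 := tendsto_pow_const_mul_const_pow_of_lt_one 1 hq0 hq1
      have g0 := tendsto_pow_const_mul_const_pow_of_lt_one 0 hq0 hq1
      have g := (g2.add (g1.const_mul 3)).add (g0.const_mul 2)
      simp only [mul_zero, add_zero] at g
      refine g.congr fun i => ?_
      ring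
    have hcc : 0 < m ^ 2 / (4 * C) * (2 : ℝ) ^ (-θ) := by positivity
    obtain ⟨i0, hi0⟩ := (hlimit.eventually (gt_mem_nhds hcc)).exists_forall_of_atTop
    refine ⟨1 / 2 ^ (i0 + 1), by positivity, fun r hr hr' => ?_⟩
    have hr1 : r < 1 := by
      refine lt_of_le_of_lt hr' ?_
      rw [div_lt_one (by positivity)]
      exact one_lt_pow₀ (by norm_num) (by omega)
    have hi1 := sc_le hr
    have hi2 := sc_lt hr hr1
    have hii : i0 ≤ sc r := by
      by_contra hcon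
      have h4 : sc r + 1 ≤ i0 := by omega
      have h5 : (1 : ℝ) / 2 ^ (i0 + 1) < 1 / 2 ^ sc r :=
        one_div_lt_one_div_of_lt (by positivity) (pow_lt_pow_right₀ (by norm_num) (by omega))
      linarith
    show r ^ θ ≤ δ (sc r)
    generalize sc r = i at hi1 hi2 hii
    have h4 := hi0 i hii
    have hpowi : (0 : ℝ) < 2 ^ i := by positivity
    have e1 : ((2 : ℝ) ^ (-(θ / 2))) ^ i = (2 : ℝ) ^ (-(θ / 2 * i)) := by
      rw [← Real.rpow_natCast, ← Real.rpow_mul (by norm_num)]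
      congr 1
      ring
    rw [e1] at h4
    have h6 : r ^ θ ≤ (2 : ℝ) ^ (-(θ * i)) * (2 : ℝ) ^ θ := by
      calc r ^ θ ≤ (1 / 2 ^ i * 2) ^ θ := Real.rpow_le_rpow hr.le hi2.le hθ.le
        _ = (2 : ℝ) ^ (-(θ * i)) * (2 : ℝ) ^ θ := by
            rw [Real.mul_rpow (by positivity) (by norm_num)]
            congr 1
            rw [one_div, ← Real.rpow_natCast, ← Real.rpow_neg (by norm_num),
              ← Real.rpow_mul (by norm_num)]
            congr 1
            ring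
    refine h6.trans ?_
    have hKi := hCK i
    have hKpos : (0 : ℝ) < K i := lt_of_lt_of_le one_pos (hKR i)
    have h7 : m ^ 2 / (C * (2 : ℝ) ^ (θ / 2 * i)) ≤ c i := by
      rw [hc]
      simp only
      gcongr
    have h8 : 1 / (4 * (((i : ℝ) + 1) * ((i : ℝ) + 2))) *
        (m ^ 2 / (C * (2 : ℝ) ^ (θ / 2 * i))) ≤ δ i := by
      rw [hδ]
      simp only
      gcongr
    refine le_trans ?_ h8
    have hX : (0 : ℝ) < (2 : ℝ) ^ (θ / 2 * i) := by positivity
    have hY : (0 : ℝ) < ((i : ℝ) + 1) * ((i : ℝ) + 2) := by positivity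
    have hZ : (0 : ℝ) < (2 : ℝ) ^ θ := by positivity
    have e2 : (2 : ℝ) ^ (-(θ / 2 * i)) = 1 / (2 : ℝ) ^ (θ / 2 * i) := by
      rw [Real.rpow_neg (by norm_num), one_div]
    have e3 : (2 : ℝ) ^ (-(θ * i)) = 1 / ((2 : ℝ) ^ (θ / 2 * i) * (2 : ℝ) ^ (θ / 2 * i)) := by
      rw [← Real.rpow_add (by norm_num), Real.rpow_neg (by norm_num), one_div]
      congr 2
      ring
    have e4 : (2 : ℝ) ^ (-θ) = 1 / (2 : ℝ) ^ θ := by
      rw [Real.rpow_neg (by norm_num), one_div]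
    rw [e2, e4] at h4
    rw [e3]
    generalize (2 : ℝ) ^ (θ / 2 * i) = X at *
    generalize ((i : ℝ) + 1) * ((i : ℝ) + 2) = Y at *
    generalize (2 : ℝ) ^ θ = Z at *
    have h9 : Y * Z * (4 * C) ≤ m ^ 2 * X := by
      have h10 := h4.le
      rw [mul_one_div, mul_one_div, div_div, div_le_div_iff₀ hX (by positivity)] at h10
      linarith
    rw [one_div_mul_eq_div, one_div_mul_eq_div, div_div,
      div_le_div_iff₀ (by positivity) (by positivity)]
    have h11 : Z * (C * X * (4 * Y)) = (Y * Z * (4 * C)) * X := by ring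
    rw [h11]
    calc (Y * Z * (4 * C)) * X ≤ (m ^ 2 * X) * X := by gcongr
      _ = m ^ 2 * (X * X) := by ring
  · intro E hE hinv s hs
    obtain ⟨g, hg, h, hh, hlt, hgh⟩ := pairs_inv hE hinv (sc s + 1) hK1 cen
      (fun i => 1 / 2 ^ (i + 2)) hm hcov
    refine ⟨g, hg, h, hh, hlt, fun r hr => ?_⟩
    have hr0 : 0 < r := hs.trans_le hr
    refine (hgh (sc r) (by
      have := sc_anti hs hr
      omega)).trans (measureReal_mono ?_ (measure_ne_top _ _))
    intro x hx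
    refine le_trans (show ‖g • x - h • x‖ ≤ 2 * (1 / 2 ^ (sc r + 2)) from hx) ?_
    refine le_trans ?_ (sc_le hr0)
    have : (0 : ℝ) < 2 ^ sc r := by positivity
    rw [pow_add, mul_one_div, div_le_div_iff₀ (by positivity) (by positivity)]
    nlinarith

lemma pow_inv' {μ : Measure UnitAddCircle} {p : ℕ}
    (h : MeasurePreserving (fun x : UnitAddCircle => p • x) μ μ) (i : ℕ) :
    MeasurePreserving (fun x : UnitAddCircle => p ^ i • x) μ μ := by
  induction i with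
  | zero =>
    have e : (fun x : UnitAddCircle => p ^ 0 • x) = id := by
      funext x
      simp
    rw [e]
    exact MeasurePreserving.id μ
  | succ i ih =>
    have h1 := h.comp ih
    have e : (fun x : UnitAddCircle => p ^ (i + 1) • x) =
        (fun x : UnitAddCircle => p • x) ∘ fun x : UnitAddCircle => p ^ i • x := by
      funext x
      simp only [Function.comp]
      rw [smul_smul, pow_succ, mul_comm]
    rw [e]
    exact h1

/-- **Limits of dilates of local dimension zero.** -/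
theorem limit_dil {μ : Measure UnitAddCircle} [IsProbabilityMeasure μ] (hμ : Inv μ)
    (hne : μ ≠ volume) :
    ∃ (κ : ProbabilityMeasure UnitAddCircle) (b : ℕ → ℕ), (∀ n, 1 ≤ b n) ∧
      (∀ f : C(UnitAddCircle, ℝ), Tendsto (fun n => ∫ x, f ((2 ^ b n - 1 : ℕ) • x) ∂μ) atTop
        (𝓝 (∫ x, f x ∂(κ : Measure UnitAddCircle)))) ∧
      ∀ θ : ℝ, 0 < θ → ∃ r₀ : ℝ, 0 < r₀ ∧ ∀ r : ℝ, 0 < r → r ≤ r₀ →
        r ^ θ ≤ (κ : Measure UnitAddCircle).real {x | ‖x‖ ≤ r} := by
  classical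
  obtain ⟨ω, hω0, hω1, hω, hret⟩ := returns hμ hne
  have hE : (Set.range fun i : ℕ => 2 ^ i).Infinite :=
    Set.infinite_range_of_injective (Nat.pow_right_injective le_rfl)
  have key : ∀ n : ℕ, ∃ b : ℕ, 1 ≤ b ∧ ∀ r : ℝ, 1 / ((n : ℝ) + 1) ≤ r →
      ω r ≤ μ.real {x : UnitAddCircle | ‖(2 ^ b - 1 : ℕ) • x‖ ≤ r} := by
    intro n
    obtain ⟨g, hg, h, hh, hlt, hgh⟩ := hret _ hE (by
      rintro g ⟨i, rfl⟩
      exact pow_inv' hμ.1 i) (1 / ((n : ℝ) + 1)) (by positivity)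
    obtain ⟨i, rfl⟩ := hg
    obtain ⟨j, rfl⟩ := hh
    simp only at hlt hgh
    have hji : j < i := (Nat.pow_lt_pow_iff_right (by norm_num)).1 hlt
    refine ⟨i - j, by omega, fun r hr => (hgh r hr).trans (le_of_eq ?_)⟩
    have hm : MeasurableSet {x : UnitAddCircle | ‖(2 ^ (i - j) - 1 : ℕ) • x‖ ≤ r} :=
      (isClosed_le (by fun_prop) continuous_const).measurableSet
    rw [← (pow_inv' hμ.1 j).measureReal_preimage hm.nullMeasurableSet]
    congr 1
    ext x
    have e : (2 ^ (i - j) - 1 : ℕ) • (2 ^ j • x) = 2 ^ i • x - 2 ^ j • x := by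
      have e1 : (2 ^ (i - j) : ℕ) • (2 ^ j • x) = 2 ^ i • x := by
        rw [smul_smul, ← pow_add]
        congr 2
        omega
      have e2 : (2 ^ (i - j) : ℕ) • (2 ^ j • x) =
          (2 ^ (i - j) - 1 : ℕ) • (2 ^ j • x) + 2 ^ j • x := by
        have : (2 ^ (i - j) : ℕ) = (2 ^ (i - j) - 1) + 1 := by
          have := Nat.one_le_two_pow (n := i - j)
          omega
        conv_lhs => rw [this, add_smul, one_smul]
      rw [← e1, e2]
      abel
    show ‖2 ^ i • x - 2 ^ j • x‖ ≤ r ↔ ‖(2 ^ (i - j) - 1 : ℕ) • (2 ^ j • x)‖ ≤ r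
    rw [e]
  choose b hb1 hb using key
  have hmeas : ∀ n, Measurable fun x : UnitAddCircle => (2 ^ b n - 1 : ℕ) • x := fun n => smul_meas _
  set P : ℕ → ProbabilityMeasure UnitAddCircle := fun n =>
    ⟨Measure.map (fun x : UnitAddCircle => (2 ^ b n - 1 : ℕ) • x) μ,
      Measure.isProbabilityMeasure_map (hmeas n).aemeasurable⟩ with hP
  obtain ⟨κ, φ, hφ, hlim⟩ := CompactSpace.tendsto_subseq P
  refine ⟨κ, fun n => b (φ n), fun n => hb1 _, fun f => ?_, fun θ hθ => ?_⟩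
  · have h1 := tendsto_cont hlim f
    refine h1.congr fun n => ?_
    show ∫ x, f x ∂(Measure.map (fun x : UnitAddCircle => (2 ^ b (φ n) - 1 : ℕ) • x) μ) = _
    rw [integral_map (hmeas _).aemeasurable f.continuous.aestronglyMeasurable]
  · obtain ⟨r₀, hr₀, hr⟩ := hω θ hθ
    refine ⟨r₀, hr₀, fun r hr0 hr1 => (hr r hr0 hr1).trans ?_⟩
    by_contra hcon
    rw [not_le] at hcon
    have hcl : IsClosed {x : UnitAddCircle | ‖x‖ ≤ r} :=
      isClosed_le continuous_norm continuous_const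
    have h4 := ev_closed hlim hcl hcon
    have h5 : ∀ᶠ n : ℕ in atTop, 1 / (((φ n : ℕ) : ℝ) + 1) < r :=
      (tendsto_one_div_add_atTop_nhds_zero_nat.comp hφ.tendsto_atTop).eventually_lt_const hr0
    obtain ⟨n, hn1, hn2⟩ := (h4.and h5).exists
    have h6 := hb (φ n) r hn2.le
    have h7 : ((P ∘ φ) n : Measure UnitAddCircle).real {x | ‖x‖ ≤ r} =
        μ.real {x : UnitAddCircle | ‖(2 ^ b (φ n) - 1 : ℕ) • x‖ ≤ r} := by
      show (Measure.map (fun x : UnitAddCircle => (2 ^ b (φ n) - 1 : ℕ) • x) μ).real _ = _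
      rw [map_measureReal_apply (hmeas _) hcl.measurableSet]
      rfl
    rw [h7] at hn1
    linarith

end Run7.h88
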