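import Mathlib
import Pool.Agent.Run7.h88.Profile

/-!
Wiener's lemma, uniformly in all the invariant measures and at all scales.
-/

set_option autoImplicit false

open MeasureTheory Set

namespace Run7.h88

theorem uniform_wiener {ε : ℝ} (hε : 0 < ε) : ∃ D₀ K₀ : ℕ, 1 ≤ K₀ ∧ ∀ μ : Measure UnitAddCircle,
    IsProbabilityMeasure μ → Inv μ → ∃ D : ℕ, 1 ≤ D ∧ D ≤ D₀ ∧ ∀ K : ℕ, K₀ ≤ K →
      ∀ φ : UnitAddCircle → ℂ, Measurable φ → (∀ x, ‖φ x‖ ≤ 1) →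
        ∑ k ∈ Finset.range K, ‖(∫ x, φ x * (fourier ((D : ℤ) * k) x : ℂ) ∂μ) -
          ∫ x in near D K, φ x ∂μ‖ ^ 2 ≤ ε * K := by
  obtain ⟨L, η, hL, hη, h1⟩ := profile hε
  obtain ⟨I, κ₀, h2, h3, h4⟩ := choice L hL hη
  obtain ⟨K₀, hK₀, h5⟩ := h1 κ₀ h2 h3
  refine ⟨L ^ I, K₀, hK₀, fun μ hμ hi => ?_⟩
  obtain ⟨i, hiI, h6⟩ := h4 μ hμ
  refine ⟨L ^ i, Nat.one_le_pow _ _ hL, Nat.pow_le_pow_right hL hiI, fun K hK φ hφ hφ1 => ?_⟩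
  exact h5 μ hμ hi (L ^ i) h6 K hK φ hφ hφ1

end Run7.h88
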